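import Pool.Agent.H62.Qe.Dom

/-!
# GTL EtIm: the image of a hypersurface under a surjective regular map of varieties of the same dimension
-/

set_option autoImplicit false

open MvPolynomial
open Pool.Agent.H17 (PN VanishesAt vanishesAt_mk_iff)
open Pool.Agent.H17LG.Variety (FunField)
open Pool.Agent.H62.FC (Homog)
open Pool.Agent.H17EF (projVar)
open Pool.Agent.H62.Qe (IsReg exists_cover dominant)

noncomputable section

namespace Pool.Agent.GTL

variable {N M : ℕ}

/-- A form `R'` which does not vanish on `X'`: the image of `R' = 0` is contained in `T = 0` for a form `T` which does not vanish on `X`. -/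
theorem exists_image_form_all {P : Ideal (MvPolynomial (Fin (N + 1)) ℂ)} [P.IsPrime] {P' : Ideal (MvPolynomial (Fin (M + 1)) ℂ)} [P'.IsPrime]
    (hP : Homog P) (hP' : Homog P') (hX : ∃ i, (X i : MvPolynomial (Fin (N + 1)) ℂ) ∉ P) {k : ℕ}
    (hz : ∃ z : Fin (k + 1) → FunField P, IsTranscendenceBasis ℂ z)
    (hz' : ∃ z' : Fin (k + 1) → FunField P', IsTranscendenceBasis ℂ z') {p : PN M → PN N} (hp : IsReg P P' p) {n' : ℕ}
    {R' : MvPolynomial (Fin (M + 1)) ℂ} (hR' : R'.IsHomogeneous n') (hRP' : R' ∉ P') :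
    ∃ (T : MvPolynomial (Fin (N + 1)) ℂ) (n : ℕ), T.IsHomogeneous n ∧ T ∉ P ∧ ∀ y ∈ projVar P', VanishesAt R' y → VanishesAt T (p y) := by
  classical
  obtain ⟨n, D, γ, hγ, hγne, hrep, hcov⟩ := exists_cover hP' hp
  choose R m hR hRP hRev using fun k => Pool.Agent.H19OL.exists_norm_form hz hz' (hγ k)
    (dominant hP hP' hX hp (hγ k) (hrep k) (hγne k)) hR' hRP'
  refine ⟨∏ k, R k, ∑ k, m k, MvPolynomial.IsHomogeneous.prod _ _ _ fun k _ => hR k, ?_, ?_⟩
  · intro h
    obtain ⟨k, -, hk⟩ := ((inferInstance : P.IsPrime).prod_mem_iff).1 h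
    exact hRP k hk
  · intro y hy hyR
    obtain ⟨k, hk⟩ := hcov y hy
    have h1 : VanishesAt (R k) (p y) := by
      rw [hrep k y hy hk]
      unfold Pool.Agent.H7.Bir.rmap
      rw [dif_pos hk, vanishesAt_mk_iff (hR k)]
      refine hRev k y.rep y.rep_nonzero (fun Q hQ => ?_) hyR
      rw [← MvPolynomial.sum_homogeneousComponent Q, map_sum]
      exact Finset.sum_eq_zero fun i _ => hy _ (hP' Q hQ i) i (homogeneousComponent_isHomogeneous i Q)
    unfold VanishesAt at h1 ⊢
    rw [map_prod]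
    exact Finset.prod_eq_zero (Finset.mem_univ k) h1

end Pool.Agent.GTL
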