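import Pool.Agent.GTL.EtDf
import Pool.Agent.G3.C.Ode

/-!
# GTL EtF: holomorphic flow of a derivation of a finitely generated algebra

PROOF.  `π : ℂ[X 1 … X n] → A` surjective, `D (π (X i)) = π (F i)`, `D̂ = ∑ F i ∂ i`, `π ∘ D̂ = D ∘ π`.  `x` = the holomorphic solution of `x' = F (x)`, `x 0 = (w (π (X i)))` (`G3/C/Ode`, `ode_hol`).  For `f ∈ ker π` the function `f (x τ)` has
the derivative `(D̂ f) (x τ)`, and is `0` at `0`; so it has order `≥ n` at `0` for all `n`, and is `0`.  So the evaluation at `x τ` descends to `A`.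
-/

set_option autoImplicit false

open Topology Filter MvPolynomial

noncomputable section

namespace Pool.Agent.GTL

/-- the derivative of a polynomial along an integral curve -/
private theorem flow_deriv {n : ℕ} {F : Fin n → MvPolynomial (Fin n) ℂ} {x : ℂ → Fin n → ℂ} {τ : ℂ} (hx : HasDerivAt x (fun i => eval (x τ) (F i)) τ)
    (f : MvPolynomial (Fin n) ℂ) : HasDerivAt (fun σ => eval (x σ) f) (eval (x τ) (mkDerivation ℂ F f)) τ := by
  induction f using MvPolynomial.induction_on with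
  | C a => simpa using hasDerivAt_const τ a
  | add p q hp hq =>
    have h1 := hp.add hq
    simp only [map_add]
    exact h1
  | mul_X p i hp =>
    have h1 : HasDerivAt (fun σ => x σ i) (eval (x τ) (F i)) τ := (hasDerivAt_pi.1 hx) i
    have h2 := hp.mul h1
    have e1 : (fun σ => eval (x σ) (p * X i)) = fun σ => eval (x σ) p * x σ i := by funext σ; simp
    rw [e1]
    refine h2.congr_deriv ?_
    simp only [Derivation.leibniz, mkDerivation_X, smul_eq_mul, map_add, map_mul, eval_X]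
    ring

theorem exists_flow {A : Type} [CommRing A] [Algebra ℂ A] [Algebra.FiniteType ℂ A] (D : Derivation ℂ A A) (w : A →ₐ[ℂ] ℂ) :
    ∃ (ρ : ℝ) (Φ : ℂ → A →ₐ[ℂ] ℂ), 0 < ρ ∧ Φ 0 = w ∧ IsFlow D ρ Φ := by
  obtain ⟨n, π, hπ⟩ := Algebra.FiniteType.iff_quotient_mvPolynomial''.1 (inferInstance : Algebra.FiniteType ℂ A)
  choose F hF using fun i => hπ (D (π (X i)))
  set D' : Derivation ℂ (MvPolynomial (Fin n) ℂ) (MvPolynomial (Fin n) ℂ) := mkDerivation ℂ F with hD'
  have hDD : ∀ f, π (D' f) = D (π f) := by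
    intro f
    induction f using MvPolynomial.induction_on with
    | C a =>
      have h1 : (C a : MvPolynomial (Fin n) ℂ) = algebraMap ℂ _ a := rfl
      rw [h1, AlgHom.commutes, Derivation.map_algebraMap, Derivation.map_algebraMap, map_zero]
    | add p q hp hq => rw [map_add, map_add, map_add, map_add, hp, hq]
    | mul_X p i hp =>
      rw [Derivation.leibniz, map_mul, Derivation.leibniz, hD', mkDerivation_X]
      simp only [smul_eq_mul, map_add, map_mul]
      rw [hF, ← hp, hD']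
  -- the starting point
  set y₀ : Fin n → ℂ := fun i => w (π (X i)) with hy₀
  have hev : ∀ f, w (π f) = eval y₀ f := by
    have h1 : w.comp π = aeval y₀ := by
      apply MvPolynomial.algHom_ext
      intro i
      simp [hy₀]
    intro f
    have h2 := congrArg (fun φ : MvPolynomial (Fin n) ℂ →ₐ[ℂ] ℂ => φ f) h1
    simpa [aeval_eq_eval] using h2
  -- the solution
  set V : ℂ × (Fin n → ℂ) → Fin n → ℂ := fun q i => eval q.2 (F i) with hV
  have hVd : Differentiable ℂ V := by
    rw [differentiable_pi]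
    intro i
    have h1 : Differentiable ℂ fun y : Fin n → ℂ => eval y (F i) := fun y => (AnalyticOnNhd.eval_mvPolynomial (F i) y (Set.mem_univ y)).differentiableAt
    exact h1.comp differentiable_snd
  obtain ⟨M, hM⟩ : ∃ M : ℝ, ∀ q ∈ Metric.closedBall ((0 : ℂ), y₀) 1, ‖V q‖ ≤ M := (isCompact_closedBall _ _).exists_bound_of_continuousOn hVd.continuous.continuousOn
  obtain ⟨ρ, hρ, -, hode⟩ := Pool.Agent.G3.C.ode_hol (n := n) (R := 1) (M := max M 1) one_pos (lt_of_lt_of_le one_pos (le_max_right _ _))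
  obtain ⟨x, hx0, hx⟩ := hode V 0 y₀ hVd.differentiableOn fun q hq => (hM q (Metric.ball_subset_closedBall hq)).trans (le_max_left _ _)
  have hxd : ∀ τ ∈ Metric.ball (0 : ℂ) ρ, ∀ f, HasDerivAt (fun σ => eval (x σ) f) (eval (x τ) (D' f)) τ := fun τ hτ f => flow_deriv (hx τ hτ).2 f
  have h0 : (0 : ℂ) ∈ Metric.ball (0 : ℂ) ρ := Metric.mem_ball_self hρ
  have han : ∀ f, AnalyticOnNhd ℂ (fun σ => eval (x σ) f) (Metric.ball (0 : ℂ) ρ) := fun f =>
    DifferentiableOn.analyticOnNhd (fun τ hτ => (hxd τ hτ f).differentiableAt.differentiableWithinAt) Metric.isOpen_ball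
  -- the relations stay zero
  have hord : ∀ (k : ℕ) f, π f = 0 → (k : ℕ∞) ≤ analyticOrderAt (fun σ => eval (x σ) f) 0 := by
    intro k
    induction k with
    | zero => intro f _; simp
    | succ k ih =>
      intro f hf
      have h1 := (han f 0 h0).analyticOrderAt_deriv_add_one
      have h2 : deriv (fun σ => eval (x σ) f) =ᶠ[𝓝 0] fun σ => eval (x σ) (D' f) := by
        filter_upwards [Metric.isOpen_ball.mem_nhds h0] with τ hτ
        exact (hxd τ hτ f).deriv
      have h3 : (fun σ => eval (x σ) f - eval (x 0) f) = fun σ => eval (x σ) f := by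
        funext σ
        rw [hx0, ← hev f, hf, map_zero, sub_zero]
      rw [analyticOrderAt_congr h2] at h1
      simp only [h3] at h1
      rw [← h1]
      have h4 := ih (D' f) (by rw [hDD, hf, map_zero])
      push_cast
      gcongr
  have hker : ∀ τ ∈ Metric.ball (0 : ℂ) ρ, ∀ f, π f = 0 → eval (x τ) f = 0 := by
    intro τ hτ f hf
    have h1 : analyticOrderAt (fun σ => eval (x σ) f) 0 = ⊤ := by
      rw [ENat.eq_top_iff_forall_ge]
      exact fun k => hord k f hf
    have h2 := analyticOrderAt_eq_top.1 h1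
    exact (han f).eqOn_zero_of_preconnected_of_eventuallyEq_zero (convex_ball _ _).isPreconnected h0 h2 hτ
  have hle : ∀ τ ∈ Metric.ball (0 : ℂ) ρ, RingHom.ker π.toRingHom ≤ RingHom.ker (aeval (x τ) : MvPolynomial (Fin n) ℂ →ₐ[ℂ] ℂ).toRingHom := by
    intro τ hτ f hf
    have h1 : π f = 0 := hf
    show (aeval (x τ) : MvPolynomial (Fin n) ℂ →ₐ[ℂ] ℂ) f = 0
    rw [aeval_eq_eval]
    exact hker τ hτ f h1
  classical
  set Φ : ℂ → A →ₐ[ℂ] ℂ := fun τ => if hτ : τ ∈ Metric.ball (0 : ℂ) ρ then AlgHom.liftOfSurjective π hπ (aeval (x τ)) (hle τ hτ) else w with hΦ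
  have hΦa : ∀ τ ∈ Metric.ball (0 : ℂ) ρ, ∀ f, Φ τ (π f) = eval (x τ) f := by
    intro τ hτ f
    rw [hΦ]
    simp only [hτ, dite_true]
    rw [AlgHom.liftOfSurjective_apply, aeval_eq_eval]
  refine ⟨ρ, Φ, hρ, ?_, ?_⟩
  · apply AlgHom.ext
    intro a
    obtain ⟨f, rfl⟩ := hπ a
    rw [hΦa 0 h0, hx0, hev]
  · intro τ hτ a
    obtain ⟨f, rfl⟩ := hπ a
    rw [← hDD, hΦa τ hτ]
    refine (hxd τ hτ f).congr_of_eventuallyEq ?_
    filter_upwards [Metric.isOpen_ball.mem_nhds hτ] with σ hσ
    exact hΦa σ hσ f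

end Pool.Agent.GTL
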