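import Pool.Agent.GTL.EtG

/-!
# GTL EtG2: finitely generated algebras which are stable under a derivation

PROOF.  `exists_stable`: `S` from `exists_gens`; the finitely many elements of `F`, `D S` are `a / h` with `a, h ∈ ℂ[S]`, `E.ord h = 0`, common denominator `h` (product); `A := ℂ[S, 1 / h]`, `D (1 / h) = - D h / h ^ 2`.
`exists_stable_any`: `K = ℂ(η)`, the same with `S = η` and all `h ≠ 0`.
`exists_pt`: `q := {f ∈ A : E.ord f > 0}` is a prime ideal of `A`; `A ⧸ q` is a finitely generated `ℂ`-algebra `≠ 0`: it has a maximal ideal, with residue field `ℂ` (Nullstellensatz).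
-/

set_option autoImplicit false

open MvPolynomial
open Pool.Agent.H23.Fano (PrimeDivisorOver)

noncomputable section

namespace Pool.Agent.GTL

variable {K : Type} [Field K] [Algebra ℂ K] {k : ℕ}

private theorem common_den (S : Finset K) (P : K → Prop) (h1 : P 1) (hmul : ∀ a b, P a → P b → P (a * b)) (G : Finset K)
    (hG : ∀ f ∈ G, ∃ a ∈ Algebra.adjoin ℂ (S : Set K), ∃ h ∈ Algebra.adjoin ℂ (S : Set K), P h ∧ f * h = a) :
    ∃ h ∈ Algebra.adjoin ℂ (S : Set K), P h ∧ ∀ f ∈ G, f * h ∈ Algebra.adjoin ℂ (S : Set K) := by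
  classical
  induction G using Finset.induction_on with
  | empty => exact ⟨1, one_mem _, h1, by simp⟩
  | insert g G hg ih =>
    obtain ⟨h, hh, hP, hf⟩ := ih fun f hf => hG f (Finset.mem_insert_of_mem hf)
    obtain ⟨a, ha, h', hh', hP', he⟩ := hG g (Finset.mem_insert_self g G)
    refine ⟨h * h', mul_mem hh hh', hmul _ _ hP hP', fun f hfG => ?_⟩
    rcases Finset.mem_insert.1 hfG with rfl | hfG
    · rw [show f * (h * h') = h * (f * h') by ring, he]
      exact mul_mem hh ha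
    · rw [← mul_assoc]
      exact mul_mem (hf f hfG) hh'

private theorem stable_aux (S : Finset K) (P : K → Prop) (h1 : P 1) (hmul : ∀ a b, P a → P b → P (a * b)) (hne : ∀ a, P a → a ≠ 0)
    (D : Derivation ℂ K K) (F : Finset K)
    (hF : ∀ f ∈ F, ∃ a ∈ Algebra.adjoin ℂ (S : Set K), ∃ h ∈ Algebra.adjoin ℂ (S : Set K), P h ∧ f * h = a)
    (hS : ∀ s ∈ S, ∃ a ∈ Algebra.adjoin ℂ (S : Set K), ∃ h ∈ Algebra.adjoin ℂ (S : Set K), P h ∧ D s * h = a) :
    ∃ h ∈ Algebra.adjoin ℂ (S : Set K), P h ∧ (∀ f ∈ F, f ∈ Algebra.adjoin ℂ (insert h⁻¹ (S : Set K))) ∧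
      ∀ f ∈ Algebra.adjoin ℂ (insert h⁻¹ (S : Set K)), D f ∈ Algebra.adjoin ℂ (insert h⁻¹ (S : Set K)) := by
  classical
  obtain ⟨h, hh, hP, hG⟩ := common_den S P h1 hmul (F ∪ S.image D) (by
    intro f hf
    rcases Finset.mem_union.1 hf with hf | hf
    · exact hF f hf
    · obtain ⟨s, hs, rfl⟩ := Finset.mem_image.1 hf
      exact hS s hs)
  have hh0 := hne h hP
  have hle : Algebra.adjoin ℂ (S : Set K) ≤ Algebra.adjoin ℂ (insert h⁻¹ (S : Set K)) := Algebra.adjoin_mono (Set.subset_insert _ _)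
  have hinv : h⁻¹ ∈ Algebra.adjoin ℂ (insert h⁻¹ (S : Set K)) := Algebra.subset_adjoin (Set.mem_insert _ _)
  have hGA : ∀ f ∈ F ∪ S.image D, f ∈ Algebra.adjoin ℂ (insert h⁻¹ (S : Set K)) := by
    intro f hf
    have := mul_mem (hle (hG f hf)) hinv
    rwa [mul_assoc, mul_inv_cancel₀ hh0, mul_one] at this
  have hDS : ∀ f ∈ Algebra.adjoin ℂ (S : Set K), D f ∈ Algebra.adjoin ℂ (insert h⁻¹ (S : Set K)) := by
    intro f hf
    induction hf using Algebra.adjoin_induction with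
    | mem x hx => exact hGA _ (Finset.mem_union_right _ (Finset.mem_image_of_mem _ hx))
    | algebraMap r => rw [Derivation.map_algebraMap]; exact zero_mem _
    | add x y _ _ hx hy => rw [map_add]; exact add_mem hx hy
    | mul x y hx' hy' hx hy =>
      rw [Derivation.leibniz, smul_eq_mul, smul_eq_mul]
      exact add_mem (mul_mem (hle hx') hy) (mul_mem (hle hy') hx)
  refine ⟨h, hh, hP, fun f hf => hGA f (Finset.mem_union_left _ hf), fun f hf => ?_⟩
  induction hf using Algebra.adjoin_induction with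
  | mem x hx =>
    rcases Set.mem_insert_iff.1 hx with rfl | hx
    · rw [Derivation.leibniz_inv, smul_eq_mul]
      exact mul_mem (neg_mem (pow_mem hinv 2)) (hDS h hh)
    · exact hGA _ (Finset.mem_union_right _ (Finset.mem_image_of_mem _ hx))
  | algebraMap r => rw [Derivation.map_algebraMap]; exact zero_mem _
  | add x y _ _ hx hy => rw [map_add]; exact add_mem hx hy
  | mul x y hx' hy' hx hy =>
    rw [Derivation.leibniz, smul_eq_mul, smul_eq_mul]
    exact add_mem (mul_mem hx' hy) (mul_mem hy' hx)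

private theorem fg_insert (S : Finset K) (x : K) : (Algebra.adjoin ℂ (insert x (S : Set K))).FG := by
  classical
  exact ⟨insert x S, by rw [Finset.coe_insert]⟩

theorem exists_stable [Algebra.EssFiniteType ℂ K] (hk : 1 ≤ k) {z : Fin k → K} (hz : IsTranscendenceBasis ℂ z) (E : PrimeDivisorOver K k)
    (D : Derivation ℂ K K) (hD : ∀ f, 0 ≤ E.ord f → 0 ≤ E.ord (D f)) (F : Finset K) (hF : ∀ f ∈ F, 0 ≤ E.ord f) :
    ∃ A : Subalgebra ℂ K, A.FG ∧ (∀ f ∈ A, 0 ≤ E.ord f) ∧ (∀ f ∈ F, f ∈ A) ∧ ∀ f ∈ A, D f ∈ A := by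
  obtain ⟨S, hS, hq⟩ := exists_gens hk hz E
  obtain ⟨h, hh, hP, hFA, hDA⟩ := stable_aux S (fun h => E.ord h = 0) E.ord.map_one
    (fun a b ha hb => by rw [E.ord.map_mul, ha, hb, add_zero])
    (fun a ha h0 => by rw [h0, E.ord.map_zero] at ha; exact absurd ha (by simp)) D F
    (fun f hf => by
      obtain ⟨a, ha, h, hh, h0, he⟩ := hq f (hF f hf)
      exact ⟨a, ha, h, hh, h0, he⟩)
    (fun s hs => by
      obtain ⟨a, ha, h, hh, h0, he⟩ := hq (D s) (hD s (hS s hs))
      exact ⟨a, ha, h, hh, h0, he⟩)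
  refine ⟨_, fg_insert S h⁻¹, fun f hf => ?_, hFA, hDA⟩
  have hh0 : h ≠ 0 := by
    rintro rfl
    rw [E.ord.map_zero] at hP
    exact absurd hP (by simp)
  induction hf using Algebra.adjoin_induction with
  | mem x hx =>
    rcases Set.mem_insert_iff.1 hx with rfl | hx
    · have h3 : E.ord h + E.ord h⁻¹ = 0 := by rw [← E.ord.map_mul, mul_inv_cancel₀ hh0, E.ord.map_one]
      rw [hP, zero_add] at h3
      exact h3.ge
    · exact hS x hx
  | algebraMap r => exact E.ord_const r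
  | add x y _ _ hx hy => exact E.ord.map_le_add hx hy
  | mul x y _ _ hx hy => rw [E.ord.map_mul]; exact add_nonneg hx hy

theorem exists_stable_any {M : ℕ} {η : Fin (M + 1) → K} (hη : IntermediateField.adjoin ℂ (Set.range η) = ⊤) (D : Derivation ℂ K K) (F : Finset K) :
    ∃ A : Subalgebra ℂ K, A.FG ∧ (∀ f ∈ F, f ∈ A) ∧ ∀ f ∈ A, D f ∈ A := by
  classical
  have hcoe : ((Finset.univ.image η : Finset K) : Set K) = Set.range η := by simp
  have hq : ∀ f : K, ∃ a ∈ Algebra.adjoin ℂ ((Finset.univ.image η : Finset K) : Set K),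
      ∃ h ∈ Algebra.adjoin ℂ ((Finset.univ.image η : Finset K) : Set K), h ≠ 0 ∧ f * h = a := by
    intro f
    rw [hcoe]
    have hf : f ∈ IntermediateField.adjoin ℂ (Set.range η) := by rw [hη]; exact IntermediateField.mem_top
    obtain ⟨r, hr, s, hs, he⟩ := IntermediateField.mem_adjoin_iff_div.1 hf
    by_cases h0 : s = 0
    · refine ⟨0, zero_mem _, 1, one_mem _, one_ne_zero, ?_⟩
      rw [he, h0, div_zero, zero_mul]
    · exact ⟨r, hr, s, hs, h0, by rw [he, div_mul_cancel₀ _ h0]⟩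
  obtain ⟨h, hh, hP, hFA, hDA⟩ := stable_aux (Finset.univ.image η) (fun h => h ≠ 0) one_ne_zero (fun a b ha hb => mul_ne_zero ha hb)
    (fun a ha => ha) D F (fun f _ => hq f) (fun s _ => hq (D s))
  exact ⟨_, fg_insert (Finset.univ.image η) h⁻¹, hFA, hDA⟩

private theorem exists_hom_of_ne_top {B : Type} [CommRing B] [Algebra ℂ B] [Algebra.FiniteType ℂ B] (q : Ideal B) (hq : q ≠ ⊤) :
    ∃ w : B →ₐ[ℂ] ℂ, ∀ f ∈ q, w f = 0 := by
  obtain ⟨m, hm, hqm⟩ := Ideal.exists_le_maximal q hq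
  let _ : Field (B ⧸ m) := Ideal.Quotient.field m
  have : Algebra.FiniteType ℂ (B ⧸ m) := Algebra.FiniteType.of_surjective (Ideal.Quotient.mkₐ ℂ m) (Ideal.Quotient.mkₐ_surjective ℂ m)
  have : Module.Finite ℂ (B ⧸ m) := finite_of_finite_type_of_isJacobsonRing ℂ (B ⧸ m)
  have hb := IsAlgClosed.algebraMap_bijective_of_isIntegral (k := ℂ) (K := B ⧸ m)
  let e : ℂ ≃ₐ[ℂ] (B ⧸ m) := AlgEquiv.ofBijective (Algebra.ofId ℂ (B ⧸ m)) hb
  refine ⟨e.symm.toAlgHom.comp (Ideal.Quotient.mkₐ ℂ m), fun f hf => ?_⟩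
  have h1 : Ideal.Quotient.mkₐ ℂ m f = 0 := Ideal.Quotient.eq_zero_iff_mem.2 (hqm hf)
  rw [AlgHom.comp_apply, h1, map_zero]

/-- a point of the centre of the prime divisor -/
theorem exists_pt (E : PrimeDivisorOver K k) (A : Subalgebra ℂ K) (hA : A.FG) (hE : ∀ f ∈ A, 0 ≤ E.ord f) :
    ∃ w : A →ₐ[ℂ] ℂ, ∀ f : A, 0 < E.ord (f : K) → w f = 0 := by
  have : Algebra.FiniteType ℂ A := A.fg_iff_finiteType.1 hA
  let q : Ideal A :=
    { carrier := {f | 0 < E.ord (f : K)}
      add_mem' := fun {a b} ha hb => E.ord.map_lt_add ha hb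
      zero_mem' := by
        show 0 < E.ord ((0 : A) : K)
        rw [ZeroMemClass.coe_zero, E.ord.map_zero]
        exact WithTop.coe_lt_top _
      smul_mem' := fun c x hx => by
        show 0 < E.ord ((c * x : A) : K)
        rw [MulMemClass.coe_mul, E.ord.map_mul]
        exact lt_of_lt_of_le hx (le_add_of_nonneg_left (hE c c.2)) }
  obtain ⟨w, hw⟩ := exists_hom_of_ne_top q (by
    intro h
    have h1 : (1 : A) ∈ q := by rw [h]; exact Submodule.mem_top
    have h2 : 0 < E.ord ((1 : A) : K) := h1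
    rw [OneMemClass.coe_one, E.ord.map_one] at h2
    exact lt_irrefl _ h2)
  exact ⟨w, fun f hf => hw f hf⟩

/-- any point -/
theorem exists_pt_any (A : Subalgebra ℂ K) (hA : A.FG) : Nonempty (A →ₐ[ℂ] ℂ) := by
  have : Algebra.FiniteType ℂ A := A.fg_iff_finiteType.1 hA
  obtain ⟨w, _⟩ := exists_hom_of_ne_top (⊥ : Ideal A) bot_ne_top
  exact ⟨w⟩

/-- the derivation induced on a stable subalgebra -/
def resDer (D : Derivation ℂ K K) (A : Subalgebra ℂ K) (hD : ∀ f ∈ A, D f ∈ A) : Derivation ℂ A A where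
  toFun f := ⟨D f, hD f f.2⟩
  map_add' f g := Subtype.ext (by simp)
  map_smul' c f := Subtype.ext (by simp)
  map_one_eq_zero' := Subtype.ext (by simp)
  leibniz' f g := Subtype.ext (by simp)

end Pool.Agent.GTL
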