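import Pool.Agent.GTL.EtDf

/-!
# GTL EtH: comparison of flows

PROOF of `flow_compare`: for `f : A₁` let `h f τ := Φ τ (ψ f) - Φ₁ (Φ τ (ψ t)) f`, defined near `0` (`Φ τ (ψ t)` is continuous at `0` with value `0`), differentiable near `0` (so analytic at `0`), `h f 0 = 0`, and
`h f' = Φ τ (D (ψ f)) - Φ₁ (…) (D₁ f) * Φ τ (D (ψ t)) = Φ τ g * h (D₁ f)`, since `D (ψ t) = g`.  By induction on `n`, `h f` has order `≥ n` at `0` for all `f` and all `n` (`analyticOrderAt`, order of the derivative);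
so `h f = 0` near `0`.
-/

set_option autoImplicit false

open Topology Filter Metric

noncomputable section

namespace Pool.Agent.GTL

/-- a function which is differentiable on a disc about `0` is analytic at `0` -/
private theorem EtH_an {h k : ℂ → ℂ} {r : ℝ} (hr : 0 < r) (h1 : ∀ τ ∈ ball (0 : ℂ) r, HasDerivAt h (k τ) τ) : AnalyticAt ℂ h 0 := by
  refine DifferentiableOn.analyticAt (s := ball (0 : ℂ) r) (fun τ hτ => (h1 τ hτ).differentiableAt.differentiableWithinAt) ?_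
  exact ball_mem_nhds _ hr

theorem flow_compare {A A₁ : Type} [CommRing A] [Algebra ℂ A] [CommRing A₁] [Algebra ℂ A₁] {D : Derivation ℂ A A} {D₁ : Derivation ℂ A₁ A₁}
    {ψ : A₁ →ₐ[ℂ] A} {g : A} (hD : ∀ f, D (ψ f) = g * ψ (D₁ f)) {t : A₁} (ht : D₁ t = 1) {ρ ρ₁ : ℝ} (hρ : 0 < ρ) (hρ₁ : 0 < ρ₁)
    {Φ : ℂ → A →ₐ[ℂ] ℂ} {Φ₁ : ℂ → A₁ →ₐ[ℂ] ℂ} (hΦ : IsFlow D ρ Φ) (hΦ₁ : IsFlow D₁ ρ₁ Φ₁) (h0 : Φ₁ 0 = (Φ 0).comp ψ)
    (ht0 : Φ 0 (ψ t) = 0) (f : A₁) : ∀ᶠ τ in 𝓝 (0 : ℂ), Φ τ (ψ f) = Φ₁ (Φ τ (ψ t)) f := by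
  -- the inner function
  have hc : ∀ τ ∈ ball (0 : ℂ) ρ, HasDerivAt (fun σ => Φ σ (ψ t)) (Φ τ g) τ := by
    intro τ hτ
    have h1 := hΦ τ hτ (ψ t)
    rwa [hD, ht, map_one, mul_one] at h1
  have hcont : ContinuousAt (fun σ => Φ σ (ψ t)) 0 := (hc 0 (mem_ball_self hρ)).continuousAt
  obtain ⟨ρ₂, hρ₂, hρ₂'⟩ : ∃ ρ₂ > 0, ∀ τ ∈ ball (0 : ℂ) ρ₂, τ ∈ ball (0 : ℂ) ρ ∧ Φ τ (ψ t) ∈ ball (0 : ℂ) ρ₁ := by
    have h1 : ∀ᶠ τ in 𝓝 (0 : ℂ), τ ∈ ball (0 : ℂ) ρ := ball_mem_nhds _ hρ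
    have h2 : ∀ᶠ τ in 𝓝 (0 : ℂ), Φ τ (ψ t) ∈ ball (0 : ℂ) ρ₁ := by
      refine hcont ?_
      simp only [ht0]
      exact ball_mem_nhds _ hρ₁
    obtain ⟨r, hr, h3⟩ := Metric.eventually_nhds_iff_ball.1 (h1.and h2)
    exact ⟨r, hr, h3⟩
  -- the difference and its derivative
  obtain ⟨h, hh⟩ : ∃ h : A₁ → ℂ → ℂ, ∀ f τ, h f τ = Φ τ (ψ f) - Φ₁ (Φ τ (ψ t)) f := ⟨_, fun _ _ => rfl⟩
  have hder : ∀ (f : A₁), ∀ τ ∈ ball (0 : ℂ) ρ₂, HasDerivAt (h f) (Φ τ g * h (D₁ f) τ) τ := by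
    intro f τ hτ
    obtain ⟨h1, h2⟩ := hρ₂' τ hτ
    have h3 := hΦ τ h1 (ψ f)
    have h4 : HasDerivAt (fun σ => Φ₁ (Φ σ (ψ t)) f) (Φ₁ (Φ τ (ψ t)) (D₁ f) * Φ τ g) τ :=
      HasDerivAt.comp (h₂ := fun s => Φ₁ s f) τ (hΦ₁ _ h2 f) (hc τ h1)
    have h5 := h3.sub h4
    have h6 : h f = fun σ => Φ σ (ψ f) - Φ₁ (Φ σ (ψ t)) f := funext fun σ => hh f σ
    rw [h6]
    refine h5.congr_deriv ?_
    rw [hD, map_mul, hh]
    ring
  have h00 : ∀ f, h f 0 = 0 := by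
    intro f
    rw [hh, ht0, h0, AlgHom.comp_apply, sub_self]
  have han : ∀ f, AnalyticAt ℂ (h f) 0 := fun f => EtH_an hρ₂ (hder f)
  have hG : AnalyticAt ℂ (fun τ => Φ τ g) 0 := EtH_an hρ fun τ hτ => hΦ τ hτ g
  -- the order
  have hord : ∀ (n : ℕ) (f : A₁), (n : ℕ∞) ≤ analyticOrderAt (h f) 0 := by
    intro n
    induction n with
    | zero => intro f; simp
    | succ n ih =>
      intro f
      have h1 := (han f).analyticOrderAt_deriv_add_one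
      have h2 : (fun z => h f z - h f 0) = h f := by
        funext z
        rw [h00, sub_zero]
      rw [h2] at h1
      have h3 : deriv (h f) =ᶠ[𝓝 0] (fun τ => Φ τ g) * h (D₁ f) := by
        filter_upwards [ball_mem_nhds (0 : ℂ) hρ₂] with τ hτ
        exact (hder f τ hτ).deriv
      rw [← h1, analyticOrderAt_congr h3, analyticOrderAt_mul hG (han _), Nat.cast_add, Nat.cast_one]
      gcongr
      exact (ih (D₁ f)).trans le_add_self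
  have htop : analyticOrderAt (h f) 0 = ⊤ := ENat.eq_top_iff_forall_ge.2 fun n => hord n f
  rw [analyticOrderAt_eq_top] at htop
  filter_upwards [htop] with τ hτ
  rw [hh, sub_eq_zero] at hτ
  exact hτ

end Pool.Agent.GTL
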