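import Mathlib

/-!
# GTL EtH2: a function with a multiple zero is not injective

PROOF.  `u = v ^ e` near `0` with `v` analytic, `v 0 ≠ 0`; `ψ τ = τ v τ` is open at `0`; take `c ≠ 0` small, `ζ` a primitive `e`-th root of unity, `ψ τ₁ = c`, `ψ τ₂ = ζ c`.
-/

set_option autoImplicit false

open Topology Filter

noncomputable section

namespace Pool.Agent.GTL

theorem exists_eq_of_order {T u : ℂ → ℂ} {e : ℕ} (he : 2 ≤ e) (hu : AnalyticAt ℂ u 0) (hu0 : u 0 ≠ 0) (hT : ∀ᶠ τ in 𝓝 (0 : ℂ), T τ = τ ^ e * u τ)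
    {s : Set ℂ} (hs : s ∈ 𝓝 (0 : ℂ)) : ∃ τ₁ ∈ s, ∃ τ₂ ∈ s, τ₁ ≠ 0 ∧ τ₂ ≠ 0 ∧ τ₁ ≠ τ₂ ∧ T τ₁ = T τ₂ := by
  have he0 : e ≠ 0 := by omega
  have heC : (e : ℂ) ≠ 0 := Nat.cast_ne_zero.2 he0
  obtain ⟨c₀, hc₀⟩ : ∃ c₀ : ℂ, c₀ ^ e = u 0 := IsAlgClosed.exists_pow_nat_eq (u 0) (by omega)
  have hc₀0 : c₀ ≠ 0 := fun h => hu0 (by rw [← hc₀, h, zero_pow he0])
  obtain ⟨v, hv⟩ : ∃ v : ℂ → ℂ, v = fun τ => c₀ * Complex.exp (Complex.log (u τ / u 0) / e) := ⟨_, rfl⟩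
  have hq : AnalyticAt ℂ (fun τ => u τ / u 0) 0 := hu.div_const
  have hlog : AnalyticAt ℂ (fun τ => Complex.log (u τ / u 0)) 0 := hq.clog (by
    rw [div_self hu0]
    exact Complex.one_mem_slitPlane)
  have hva : AnalyticAt ℂ v 0 := by
    rw [hv]
    exact analyticAt_const.mul (hlog.div_const.cexp)
  have hv0 : v 0 = c₀ := by
    rw [hv]
    simp only
    rw [div_self hu0, Complex.log_one, zero_div, Complex.exp_zero, mul_one]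
  have hve : ∀ᶠ τ in 𝓝 (0 : ℂ), v τ ^ e = u τ := by
    filter_upwards [hu.continuousAt.eventually_ne hu0] with τ h1
    rw [hv]
    simp only
    rw [mul_pow, hc₀, ← Complex.exp_nat_mul, mul_div_cancel₀ _ heC, Complex.exp_log (div_ne_zero h1 hu0)]
    field_simp
  -- the map `ψ`
  have hψa : AnalyticAt ℂ (fun τ => τ * v τ) 0 := analyticAt_id.mul hva
  have hψd : HasStrictDerivAt (fun τ => τ * v τ) (v 0) 0 := by
    have h1 := hψa.hasStrictDerivAt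
    have h2 : deriv (fun τ => τ * v τ) 0 = v 0 := by
      have h3 := (hasDerivAt_id (0 : ℂ)).mul hva.differentiableAt.hasDerivAt
      have h4 := h3.deriv
      simp only [id] at h4
      rw [one_mul, zero_mul, add_zero] at h4
      exact h4
    rwa [h2] at h1
  have hmap : map (fun τ => τ * v τ) (𝓝 0) = 𝓝 (0 : ℂ) := by
    have h1 := hψd.map_nhds_eq (by rwa [hv0])
    simpa using h1
  have hs' : {τ | τ ∈ s ∧ T τ = τ ^ e * u τ ∧ v τ ^ e = u τ} ∈ 𝓝 (0 : ℂ) := by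
    filter_upwards [hs, hT, hve] with τ h1 h2 h3
    exact ⟨h1, h2, h3⟩
  have himg : (fun τ => τ * v τ) '' {τ | τ ∈ s ∧ T τ = τ ^ e * u τ ∧ v τ ^ e = u τ} ∈ 𝓝 (0 : ℂ) := by
    rw [← hmap]
    exact image_mem_map hs'
  -- a root of unity
  obtain ⟨ζ, hζ⟩ : ∃ ζ : ℂ, IsPrimitiveRoot ζ e := ⟨_, Complex.isPrimitiveRoot_exp e he0⟩
  have hζ1 : ζ ≠ 1 := hζ.ne_one (by omega)
  have h1 : ∀ᶠ c in 𝓝 (0 : ℂ), c ∈ (fun τ => τ * v τ) '' {τ | τ ∈ s ∧ T τ = τ ^ e * u τ ∧ v τ ^ e = u τ} ∧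
      ζ * c ∈ (fun τ => τ * v τ) '' {τ | τ ∈ s ∧ T τ = τ ^ e * u τ ∧ v τ ^ e = u τ} := by
    have h2 : Tendsto (fun c : ℂ => ζ * c) (𝓝 0) (𝓝 0) := by
      have h3 : Continuous fun c : ℂ => ζ * c := by fun_prop
      have h4 := h3.tendsto 0
      rwa [mul_zero] at h4
    filter_upwards [himg, h2.eventually himg] with c h3 h4
    exact ⟨h3, h4⟩
  obtain ⟨c, ⟨⟨τ₁, ⟨hs1, hT1, hv1⟩, hc1⟩, τ₂, ⟨hs2, hT2, hv2⟩, hc2⟩, hc0⟩ := ((h1.filter_mono nhdsWithin_le_nhds).and (self_mem_nhdsWithin : {(0 : ℂ)}ᶜ ∈ 𝓝[≠] 0)).exists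
  have hc0' : c ≠ 0 := hc0
  simp only at hc1 hc2
  have e1 : T τ₁ = c ^ e := by rw [hT1, ← hv1, ← mul_pow, hc1]
  have e2 : T τ₂ = c ^ e := by rw [hT2, ← hv2, ← mul_pow, hc2, mul_pow, hζ.pow_eq_one, one_mul]
  have hne : ζ * c ≠ c := fun h => hζ1 (mul_right_cancel₀ hc0' (by rw [h, one_mul]))
  refine ⟨τ₁, hs1, τ₂, hs2, ?_, ?_, ?_, e1.trans e2.symm⟩
  · rintro rfl
    rw [zero_mul] at hc1
    exact hc0' hc1.symm
  · rintro rfl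
    rw [zero_mul] at hc2
    exact (mul_ne_zero (hζ.ne_zero he0) hc0') hc2.symm
  · rintro rfl
    rw [hc1] at hc2
    exact hne hc2.symm

end Pool.Agent.GTL
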