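import Pool.Agent.GTL.EtI0
import Pool.Agent.GTL.EtF
import Pool.Agent.GTL.EtG2
import Pool.Agent.GTL.EtH
import Pool.Agent.GTL.EtH2

/-!
# GTL EtI: local injectivity gives unramifiedness at the prime divisors, and finiteness

PROOF of `unram_of_locInj`.  Suppose `e ≥ 2`.  `k = k' + 1`; `s`, `t` for `E` (`residue_trdeg`, uniformizer), `t'` uniformizer of `E'`.  `exists_coords` for `E` (`t`, `s`): `D₁ := dualDer b 0` on `K` (`D₁ t = 1`, `D₁ (s i) = 0`, regular);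
for `E'` (`t'`, `algebraMap ∘ s`): `D := dualDer b' 0` on `K'`.  `D (algebraMap f) = D (algebraMap t) * algebraMap (D₁ f)` for `f ∈ K`: both sides are derivations `K → K'` which agree on `t`, `s i` (`KaehlerDifferential`, basis `b`).
`t = t' ^ e * w`, `E'.ord w = 0`.  `t' = a / b` with `a`, `b` polynomials in the `η` (`hη`: `K' = ℂ(η)`); `b = t' ^ n * v`, `E'.ord v = 0`.
`A₁ ⊆ K` (`exists_stable` for `D₁`): contains `ξ i`, `t`.  `A ⊆ K'` (`exists_stable` for `D`): contains `η l`, the images of the generators of `A₁` (so `algebraMap` maps `A₁` to `A`), `t'`, `w`, `1/w`, `v`, `1/v`, `1 / U (η)`, `D (algebraMap t)`.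
`w₀ : A → ℂ` with `w₀ = 0` on the elements of positive order (`exists_pt`).  Flows `Φ` of `A` from `w₀` and `Φ₁` of `A₁` from `w₀ ∘ ψ` (`exists_flow`).  `Φ τ t' = τ` (derivative 1); `T τ := Φ τ (t) = τ ^ e * Φ τ w`, `Φ 0 w ≠ 0` (unit);
`flow_compare` for `ξ i`: `Φ τ (ξ i) = Φ₁ (T τ) (ξ i)` near `0`.  `exists_eq_of_order`: `τ₁ ≠ τ₂` near `0`, not `0`, with `T τ₁ = T τ₂`; `x i := Φ τ₁ (ξ i) = Φ τ₂ (ξ i)`; `y₁ = Φ τ₁ (η)`, `y₂ = Φ τ₂ (η)` are near `y₀ = Φ 0 (η)`, `U (y₀) ≠ 0` (unit);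
`Pt` since `Φ τ` is an algebra homomorphism.  By `hLI`: `y₁ = y₂`.  But `τ * b (Φ τ η) = a (Φ τ η)` and `b (Φ τ η) = τ ^ n * Φ τ v ≠ 0`, so `τ₁ = τ₂`, a contradiction.
-/

set_option autoImplicit false

open Topology Filter MvPolynomial
open Pool.Agent.H23.Fano (PrimeDivisorOver)

noncomputable section

namespace Pool.Agent.GTL

variable {K K' : Type} [Field K] [Algebra ℂ K] [Field K'] [Algebra ℂ K'] [Algebra K K'] [IsScalarTower ℂ K K'] {k M N : ℕ}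

/-- values of an algebra homomorphism at a polynomial -/
private theorem eti_eval {σ : Type} {A : Subalgebra ℂ K'} {η : σ → K'} (hη : ∀ l, η l ∈ A) (φ : A →ₐ[ℂ] ℂ) (F : MvPolynomial σ ℂ) :
    ∃ hF : aeval η F ∈ A, eval (fun l => φ ⟨η l, hη l⟩) F = φ ⟨aeval η F, hF⟩ := by
  have h0 : A.val (aeval (fun l => (⟨η l, hη l⟩ : A)) F) = aeval η F := by
    rw [← AlgHom.comp_apply, comp_aeval]
    rfl
  have hF : aeval η F ∈ A := by
    rw [← h0]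
    exact (aeval (fun l => (⟨η l, hη l⟩ : A)) F).2
  refine ⟨hF, ?_⟩
  have h1 : (⟨aeval η F, hF⟩ : A) = aeval (fun l => (⟨η l, hη l⟩ : A)) F := Subtype.ext h0.symm
  rw [h1, ← AlgHom.comp_apply, comp_aeval]
  exact (congrArg (fun ψ : MvPolynomial σ ℂ →+* ℂ => ψ F) (coe_aeval_eq_eval (fun l => φ ⟨η l, hη l⟩))).symm

/-- the order of a nonzero element is an integer -/
private theorem eti_ord (E : PrimeDivisorOver K k) {a : K} (ha : a ≠ 0) (h0 : 0 ≤ E.ord a) : ∃ n : ℕ, E.ord a = ((n : ℤ) : WithTop ℤ) := by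
  have h1 : E.ord a ≠ ⊤ := fun h => ha (E.ord.top_iff.1 h)
  obtain ⟨n, hn⟩ := WithTop.ne_top_iff_exists.1 h1
  rw [← hn] at h0
  have h2 : (0 : ℤ) ≤ n := by exact_mod_cast h0
  exact ⟨n.toNat, by rw [← hn, Int.toNat_of_nonneg h2]⟩

private theorem eti_pow (E : PrimeDivisorOver K k) {t : K} (ht : E.ord t = 1) (n : ℕ) : E.ord (t ^ n) = ((n : ℤ) : WithTop ℤ) := by
  rw [AddValuation.map_pow, ht]
  simp

/-- a quotient of two elements of the same finite order has order zero -/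
private theorem eti_div (E : PrimeDivisorOver K k) {a b : K} (hb : b ≠ 0) (h : E.ord a = E.ord b) : E.ord (a / b) = 0 := by
  have h1 : E.ord a = E.ord (a / b) + E.ord b := by rw [← AddValuation.map_mul, div_mul_cancel₀ _ hb]
  have h2 : E.ord b ≠ ⊤ := fun h => hb (E.ord.top_iff.1 h)
  obtain ⟨n, hn⟩ := WithTop.ne_top_iff_exists.1 h2
  rw [h, ← hn] at h1
  have h3 : E.ord (a / b) ≠ ⊤ := by
    intro h4
    rw [h4, top_add] at h1
    exact WithTop.coe_ne_top h1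
  obtain ⟨m, hm⟩ := WithTop.ne_top_iff_exists.1 h3
  rw [← hm] at h1 ⊢
  have h5 : n = m + n := by exact_mod_cast h1
  have h6 : m = 0 := by omega
  rw [h6]
  rfl

private theorem eti_inv (E : PrimeDivisorOver K k) {a : K} (h : E.ord a = 0) : E.ord a⁻¹ = 0 := by
  have h0 : a ≠ 0 := by
    rintro rfl
    rw [AddValuation.map_zero] at h
    exact WithTop.top_ne_coe (a := (0 : ℤ)) h
  have h1 := eti_div E (a := 1) (b := a) h0 (by rw [AddValuation.map_one, h])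
  rwa [one_div] at h1

theorem unram_of_locInj [Algebra.EssFiniteType ℂ K] [FiniteDimensional K K'] (hk : 1 ≤ k) {z : Fin k → K} (hz : IsTranscendenceBasis ℂ z)
    {E : PrimeDivisorOver K k} {E' : PrimeDivisorOver K' k} {e : ℕ} (h : Over E E' e) {η : Fin (M + 1) → K'} (hη0 : ∀ l, 0 ≤ E'.ord (η l))
    (hη : IntermediateField.adjoin ℂ (Set.range η) = ⊤) {ξ : Fin (N + 1) → K} (hξ0 : ∀ i, 0 ≤ E.ord (ξ i)) {U : MvPolynomial (Fin (M + 1)) ℂ}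
    (hU : E'.ord (aeval η U) = 0) (hLI : LocInj η (fun i => algebraMap K K' (ξ i)) U) : e = 1 := by
  classical
  by_contra hne
  have he1 : 1 ≤ e := h.1
  have he2 : 2 ≤ e := by omega
  obtain ⟨D₁, D, t, t', ht, ht', hD₁t, hDt', hD₁, hD, hcomp⟩ := exists_adapted hk hz h
  have ht'0 : t' ≠ 0 := by
    rintro rfl
    rw [AddValuation.map_zero] at ht'
    exact WithTop.top_ne_coe (a := (1 : ℤ)) ht'
  have : Algebra.EssFiniteType ℂ K' := Algebra.EssFiniteType.comp ℂ K K'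
  have hz' : IsTranscendenceBasis ℂ (algebraMap K K' ∘ z) := hz.algebraMap_comp
  have hmap : ∀ f : K, 0 ≤ E.ord f → 0 ≤ E'.ord (algebraMap K K' f) := by
    intro f hf
    rw [h.2]
    exact nsmul_nonneg hf e
  -- the algebra on `Z`
  obtain ⟨A₁, hA₁, hA₁0, hF₁, hst₁⟩ := exists_stable hk hz E D₁ hD₁ (insert t (Finset.univ.image ξ)) (by
    intro f hf
    rcases Finset.mem_insert.1 hf with rfl | hf
    · rw [ht]; exact zero_le_one
    · obtain ⟨i, -, rfl⟩ := Finset.mem_image.1 hf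
      exact hξ0 i)
  have htA₁ : t ∈ A₁ := hF₁ _ (Finset.mem_insert_self _ _)
  have hξA₁ : ∀ i, ξ i ∈ A₁ := fun i => hF₁ _ (Finset.mem_insert_of_mem (Finset.mem_image_of_mem _ (Finset.mem_univ i)))
  obtain ⟨S₁, hS₁⟩ := hA₁
  have hS₁A : ∀ f ∈ S₁, f ∈ A₁ := fun f hf => by rw [← hS₁]; exact Algebra.subset_adjoin hf
  -- the unit `w`
  obtain ⟨w, hw⟩ : ∃ w : K', w = algebraMap K K' t / t' ^ e := ⟨_, rfl⟩
  have hwt : algebraMap K K' t = t' ^ e * w := by rw [hw, mul_div_cancel₀ _ (pow_ne_zero _ ht'0)]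
  have hw0 : E'.ord w = 0 := by
    rw [hw]
    refine eti_div E' (pow_ne_zero _ ht'0) ?_
    rw [h.2, ht, eti_pow E' ht']
    simp
  -- `t'` is a quotient of polynomials in `η`
  have hta : t' ∈ IntermediateField.adjoin ℂ (Set.range η) := by
    rw [hη]
    exact IntermediateField.mem_top
  obtain ⟨a, b, hab⟩ := (IntermediateField.mem_adjoin_range_iff ℂ η t').1 hta
  have hb0 : aeval η b ≠ 0 := by
    intro h1
    rw [h1, div_zero] at hab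
    exact ht'0 hab
  have hab' : t' * aeval η b = aeval η a := by rw [hab, div_mul_cancel₀ _ hb0]
  have hpoly : ∀ F : MvPolynomial (Fin (M + 1)) ℂ, 0 ≤ E'.ord (aeval η F) := by
    intro F
    induction F using MvPolynomial.induction_on with
    | C c => rw [aeval_C]; exact E'.ord_const c
    | add p q hp hq => rw [map_add]; exact (le_min hp hq).trans (E'.ord.map_add _ _)
    | mul_X p i hp => rw [map_mul, aeval_X, AddValuation.map_mul]; exact add_nonneg hp (hη0 i)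
  obtain ⟨n, hn⟩ := eti_ord E' hb0 (hpoly b)
  obtain ⟨v, hv⟩ : ∃ v : K', v = aeval η b / t' ^ n := ⟨_, rfl⟩
  have hvt : aeval η b = t' ^ n * v := by rw [hv, mul_div_cancel₀ _ (pow_ne_zero _ ht'0)]
  have hv0 : E'.ord v = 0 := by
    rw [hv]
    refine eti_div E' (pow_ne_zero _ ht'0) ?_
    rw [hn, eti_pow E' ht']
  -- the algebra on `Z'`
  obtain ⟨A, hA, hA0, hF, hst⟩ := exists_stable hk hz' E' D hD
    (Finset.univ.image η ∪ S₁.image (algebraMap K K') ∪ {t', w, w⁻¹, v, v⁻¹, (aeval η U)⁻¹}) (by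
    intro f hf
    rw [Finset.mem_union, Finset.mem_union] at hf
    rcases hf with (hf | hf) | hf
    · obtain ⟨i, -, rfl⟩ := Finset.mem_image.1 hf
      exact hη0 i
    · obtain ⟨g, hg, rfl⟩ := Finset.mem_image.1 hf
      exact hmap g (hA₁0 g (hS₁A g hg))
    · simp only [Finset.mem_insert, Finset.mem_singleton] at hf
      rcases hf with rfl | rfl | rfl | rfl | rfl | rfl
      · rw [ht']; exact zero_le_one
      · exact hw0.ge
      · exact (eti_inv E' hw0).ge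
      · exact hv0.ge
      · exact (eti_inv E' hv0).ge
      · exact (eti_inv E' hU).ge)
  have hηA : ∀ j, η j ∈ A := fun j => hF _ (by simp)
  have ht'A : t' ∈ A := hF _ (by simp)
  have hwA : w ∈ A := hF _ (by simp)
  have hwA' : w⁻¹ ∈ A := hF _ (by simp)
  have hvA : v ∈ A := hF _ (by simp)
  have hvA' : v⁻¹ ∈ A := hF _ (by simp)
  have hUA' : (aeval η U)⁻¹ ∈ A := hF _ (by simp)
  have hA₁A : ∀ f : K, f ∈ A₁ → algebraMap K K' f ∈ A := by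
    intro f hf
    rw [← hS₁] at hf
    have h1 : Algebra.adjoin ℂ (S₁ : Set K) ≤ A.comap (IsScalarTower.toAlgHom ℂ K K') := by
      refine Algebra.adjoin_le fun g hg => ?_
      rw [SetLike.mem_coe, Subalgebra.mem_comap, IsScalarTower.toAlgHom_apply]
      refine hF _ ?_
      rw [Finset.mem_union, Finset.mem_union]
      exact Or.inl (Or.inr (Finset.mem_image_of_mem _ hg))
    have h2 := h1 hf
    rwa [Subalgebra.mem_comap, IsScalarTower.toAlgHom_apply] at h2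
  have hξA : ∀ i, algebraMap K K' (ξ i) ∈ A := fun i => hA₁A _ (hξA₁ i)
  obtain ⟨ψ, hψ⟩ : ∃ ψ : A₁ →ₐ[ℂ] A, ∀ f : A₁, (ψ f : K') = algebraMap K K' f := by
    refine ⟨((IsScalarTower.toAlgHom ℂ K K').comp A₁.val).codRestrict A fun f => hA₁A _ f.2, fun f => rfl⟩
  -- a point of the centre of `E'`
  obtain ⟨w₀, hw₀⟩ := exists_pt E' A hA hA0
  have : Algebra.FiniteType ℂ A := (Subalgebra.fg_iff_finiteType A).mp hA
  have : Algebra.FiniteType ℂ A₁ := (Subalgebra.fg_iff_finiteType A₁).mp ⟨S₁, hS₁⟩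
  obtain ⟨ρ, Φ, hρ, hΦ0, hΦ⟩ := exists_flow (resDer D A hst) w₀
  obtain ⟨ρ₁, Φ₁, hρ₁, hΦ₁0, hΦ₁⟩ := exists_flow (resDer D₁ A₁ hst₁) (w₀.comp ψ)
  have h0 : (0 : ℂ) ∈ Metric.ball (0 : ℂ) ρ := Metric.mem_ball_self hρ
  -- comparison of the flows
  have hDtA : D (algebraMap K K' t) ∈ A := hst _ (hA₁A t htA₁)
  have hΦt0 : Φ 0 (ψ ⟨t, htA₁⟩) = 0 := by
    rw [hΦ0]
    refine hw₀ _ ?_
    rw [hψ, h.2, ht]
    have h1 : (0 : WithTop ℤ) < ((e : ℤ) : WithTop ℤ) := by exact_mod_cast (by omega : 0 < e)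
    simpa using h1
  have hcmp : ∀ f : A₁, ∀ᶠ τ in 𝓝 (0 : ℂ), Φ τ (ψ f) = Φ₁ (Φ τ (ψ ⟨t, htA₁⟩)) f :=
    flow_compare (D := resDer D A hst) (D₁ := resDer D₁ A₁ hst₁) (ψ := ψ) (g := ⟨D (algebraMap K K' t), hDtA⟩) (t := ⟨t, htA₁⟩)
      (fun f => Subtype.ext (by
        show D (ψ f : K') = D (algebraMap K K' t) * (ψ (resDer D₁ A₁ hst₁ f) : K')
        rw [hψ, hψ, hcomp]
        rfl))
      (Subtype.ext hD₁t) hρ hρ₁ hΦ hΦ₁ (by rw [hΦ₁0, hΦ0]) hΦt0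
  -- `Φ τ t' = τ`
  have hτ : ∀ τ ∈ Metric.ball (0 : ℂ) ρ, Φ τ ⟨t', ht'A⟩ = τ := by
    intro τ hτ
    have h1 : Φ 0 ⟨t', ht'A⟩ = 0 := by
      rw [hΦ0]
      exact hw₀ _ (by rw [ht']; exact zero_lt_one)
    have h2 : ∀ σ ∈ Metric.ball (0 : ℂ) ρ, HasDerivAt (fun σ => Φ σ ⟨t', ht'A⟩ - σ) 0 σ := by
      intro σ hσ
      have h3 := hΦ σ hσ ⟨t', ht'A⟩
      have h4 : resDer D A hst ⟨t', ht'A⟩ = 1 := Subtype.ext hDt'
      rw [h4, map_one] at h3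
      have h5 := h3.sub (hasDerivAt_id σ)
      rw [sub_self] at h5
      exact h5
    have h3 := (convex_ball (0 : ℂ) ρ).is_const_of_fderivWithin_eq_zero (𝕜 := ℂ) (f := fun σ => Φ σ ⟨t', ht'A⟩ - σ)
      (fun σ hσ => (h2 σ hσ).differentiableAt.differentiableWithinAt)
      (fun σ hσ => by
        rw [fderivWithin_of_isOpen Metric.isOpen_ball hσ]
        have h1 := (h2 σ hσ).hasFDerivAt.fderiv
        rw [h1]
        ext
        simp) hτ h0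
    simp only [h1, sub_zero] at h3
    exact sub_eq_zero.1 h3
  -- the functions `T` and `u`
  have hT : ∀ τ ∈ Metric.ball (0 : ℂ) ρ, Φ τ (ψ ⟨t, htA₁⟩) = τ ^ e * Φ τ ⟨w, hwA⟩ := by
    intro τ hτ'
    have h1 : ψ ⟨t, htA₁⟩ = (⟨t', ht'A⟩ : A) ^ e * ⟨w, hwA⟩ := Subtype.ext (by rw [hψ]; exact hwt)
    rw [h1, map_mul, map_pow, hτ τ hτ']
  have hunit : ∀ (φ : A →ₐ[ℂ] ℂ) (f : K') (hf : f ∈ A) (hf' : f⁻¹ ∈ A), f ≠ 0 → φ ⟨f, hf⟩ ≠ 0 := by
    intro φ f hf hf' hf0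
    have h2 : (⟨f, hf⟩ : A) * (⟨f⁻¹, hf'⟩ : A) = 1 := Subtype.ext (mul_inv_cancel₀ hf0)
    have h3 : φ ⟨f, hf⟩ * φ ⟨f⁻¹, hf'⟩ = 1 := by rw [← map_mul, h2, map_one]
    exact left_ne_zero_of_mul_eq_one h3
  have hne0 : ∀ {f : K'}, E'.ord f = 0 → f ≠ 0 := by
    rintro f hf rfl
    rw [AddValuation.map_zero] at hf
    exact WithTop.top_ne_coe (a := (0 : ℤ)) hf
  have hw00 : w ≠ 0 := hne0 hw0
  have hv00 : v ≠ 0 := hne0 hv0
  have hU00 : aeval η U ≠ 0 := hne0 hU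
  have huan : AnalyticAt ℂ (fun τ => Φ τ ⟨w, hwA⟩) 0 := by
    refine DifferentiableOn.analyticAt (s := Metric.ball (0 : ℂ) ρ) (fun τ hτ' => (hΦ τ hτ' _).differentiableAt.differentiableWithinAt) ?_
    exact Metric.ball_mem_nhds _ hρ
  -- the coordinates along the flow
  obtain ⟨y, hy⟩ : ∃ y : ℂ → Fin (M + 1) → ℂ, y = fun τ j => Φ τ ⟨η j, hηA j⟩ := ⟨_, rfl⟩
  obtain ⟨x, hx⟩ : ∃ x : ℂ → Fin (N + 1) → ℂ, x = fun τ i => Φ τ ⟨algebraMap K K' (ξ i), hξA i⟩ := ⟨_, rfl⟩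
  have hPt : ∀ τ, Pt η (fun i => algebraMap K K' (ξ i)) (y τ) (x τ) := by
    intro τ F hF0
    have hmem : ∀ s, (Sum.elim η (fun i => algebraMap K K' (ξ i)) : Fin (M + 1) ⊕ Fin (N + 1) → K') s ∈ A := by
      rintro (j | i)
      · exact hηA j
      · exact hξA i
    obtain ⟨h1, h2⟩ := eti_eval (η := Sum.elim η (fun i => algebraMap K K' (ξ i))) hmem (Φ τ) F
    have h3 : (Sum.elim (y τ) (x τ) : Fin (M + 1) ⊕ Fin (N + 1) → ℂ) = fun s => Φ τ ⟨Sum.elim η (fun i => algebraMap K K' (ξ i)) s, hmem s⟩ := by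
      funext s
      rcases s with j | i
      · simp only [Sum.elim_inl, hy]
      · simp only [Sum.elim_inr, hx]
    have h4 : (⟨aeval (Sum.elim η (fun i => algebraMap K K' (ξ i))) F, h1⟩ : A) = 0 := Subtype.ext hF0
    rw [h3, h2, h4, map_zero]
  have hU0 : eval (y 0) U ≠ 0 := by
    obtain ⟨h1, h2⟩ := eti_eval hηA (Φ 0) U
    rw [hy]
    show eval (fun j => Φ 0 ⟨η j, hηA j⟩) U ≠ 0
    rw [h2]
    exact hunit _ _ _ hUA' hU00
  have hyc : ContinuousAt y 0 := by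
    rw [hy]
    exact continuousAt_pi.mpr fun j => (hΦ 0 h0 _).continuousAt
  have hLI' := hLI (y 0) (x 0) (hPt 0) hU0
  -- a neighbourhood of `0` on which everything happens
  have hq : Tendsto (fun p : ℂ × ℂ => (y p.1, y p.2)) (𝓝 (0, 0)) (𝓝 (y 0, y 0)) := by
    have h1 : Tendsto (fun p : ℂ × ℂ => y p.1) (𝓝 (0, 0)) (𝓝 (y 0)) := hyc.tendsto.comp continuousAt_fst.tendsto
    have h2 : Tendsto (fun p : ℂ × ℂ => y p.2) (𝓝 (0, 0)) (𝓝 (y 0)) := hyc.tendsto.comp continuousAt_snd.tendsto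
    exact h1.prodMk_nhds h2
  have hev := hq.eventually hLI'
  rw [nhds_prod_eq] at hev
  obtain ⟨p₁, hp₁, p₂, hp₂, hpp⟩ := eventually_prod_iff.1 hev
  have hxc : ∀ᶠ τ in 𝓝 (0 : ℂ), ∀ i, Φ τ (ψ ⟨ξ i, hξA₁ i⟩) = Φ₁ (Φ τ (ψ ⟨t, htA₁⟩)) ⟨ξ i, hξA₁ i⟩ :=
    eventually_all.2 fun i => hcmp ⟨ξ i, hξA₁ i⟩
  have hs : {τ : ℂ | (p₁ τ ∧ p₂ τ) ∧ τ ∈ Metric.ball (0 : ℂ) ρ ∧ ∀ i, Φ τ (ψ ⟨ξ i, hξA₁ i⟩) = Φ₁ (Φ τ (ψ ⟨t, htA₁⟩)) ⟨ξ i, hξA₁ i⟩} ∈ 𝓝 (0 : ℂ) :=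
    (hp₁.and hp₂).and (Filter.Eventually.and (Metric.ball_mem_nhds (0 : ℂ) hρ) hxc)
  have hTev : ∀ᶠ τ in 𝓝 (0 : ℂ), Φ τ (ψ ⟨t, htA₁⟩) = τ ^ e * Φ τ ⟨w, hwA⟩ := by
    filter_upwards [Metric.ball_mem_nhds (0 : ℂ) hρ] with τ hτ'
    exact hT τ hτ'
  obtain ⟨τ₁, hτ₁s, τ₂, hτ₂s, hτ₁0, hτ₂0, hτne, hTT⟩ :=
    exists_eq_of_order he2 huan (hunit (Φ 0) w hwA hwA' hw00) hTev hs
  obtain ⟨⟨hτ₁p, -⟩, hτ₁ρ, hτ₁x⟩ := hτ₁s
  obtain ⟨⟨-, hτ₂p⟩, hτ₂ρ, hτ₂x⟩ := hτ₂s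
  have hxx : x τ₁ = x τ₂ := by
    funext i
    have h1 : ∀ τ, x τ i = Φ τ (ψ ⟨ξ i, hξA₁ i⟩) := by
      intro τ
      rw [hx]
      exact congrArg (Φ τ) (Subtype.ext (hψ ⟨ξ i, hξA₁ i⟩).symm)
    rw [h1, h1, hτ₁x, hτ₂x, hTT]
  have hyy : y τ₁ = y τ₂ := by
    refine hpp hτ₁p hτ₂p (x τ₁) (hPt τ₁) ?_
    rw [hxx]
    exact hPt τ₂
  -- `τ` is determined by `y τ`
  have hdet : ∀ τ ∈ Metric.ball (0 : ℂ) ρ, τ ≠ 0 → τ * eval (y τ) b = eval (y τ) a ∧ eval (y τ) b ≠ 0 := by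
    intro τ hτ' hτ0
    obtain ⟨h1, h2⟩ := eti_eval hηA (Φ τ) b
    obtain ⟨h3, h4⟩ := eti_eval hηA (Φ τ) a
    have h5 : y τ = fun j => Φ τ ⟨η j, hηA j⟩ := by rw [hy]
    rw [h5, h2, h4]
    constructor
    · have h6 : (⟨aeval η a, h3⟩ : A) = ⟨t', ht'A⟩ * ⟨aeval η b, h1⟩ := Subtype.ext hab'.symm
      rw [h6, map_mul, hτ τ hτ']
    · have h6 : (⟨aeval η b, h1⟩ : A) = (⟨t', ht'A⟩ : A) ^ n * ⟨v, hvA⟩ := Subtype.ext hvt
      rw [h6, map_mul, map_pow, hτ τ hτ']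
      exact mul_ne_zero (pow_ne_zero _ hτ0) (hunit _ _ _ hvA' hv00)
  obtain ⟨h1, h2⟩ := hdet τ₁ hτ₁ρ hτ₁0
  obtain ⟨h3, h4⟩ := hdet τ₂ hτ₂ρ hτ₂0
  rw [← hyy, ← h1] at h3
  rw [← hyy] at h4
  exact hτne (mul_right_cancel₀ h4 h3).symm

end Pool.Agent.GTL
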