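import Pool.Agent.GTL.EtF
import Pool.Agent.GTL.EtG2

/-!
# GTL EtI2: local injectivity gives finiteness

PROOF.  `algebraic_of_locInj`: if `K' / K` is not algebraic, there is a derivation `D ≠ 0` of `K'` which is `0` on `K` (`K' / K` is essentially of finite type: `Algebra.FormallyUnramified.iff_isSeparable`, `Ω[K'⁄K] ≠ 0`), so `D (η l) ≠ 0` for some `l`.
`A` from `exists_stable_any` (contains `η`, `ξ`, `1 / U (η)`, `1 / D (η l)`), `w₀` (`exists_pt_any`), flow `Φ`: `Φ τ (ξ i)` is constant, `Φ τ (η l)` has derivative `≠ 0` at `0`: contradiction with `hLI`.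
-/

set_option autoImplicit false

open Topology Filter MvPolynomial
open Pool.Agent.H23.Fano (PrimeDivisorOver)

noncomputable section

namespace Pool.Agent.GTL

variable {K K' : Type} [Field K] [Algebra ℂ K] [Field K'] [Algebra ℂ K'] [Algebra K K'] [IsScalarTower ℂ K K'] {k M N : ℕ}

/-- a derivation which does not kill the generators, if the extension is not algebraic -/
private theorem exists_der {η : Fin (M + 1) → K'} (hη : IntermediateField.adjoin ℂ (Set.range η) = ⊤) (hna : ¬ Algebra.IsAlgebraic K K') :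
    ∃ (D : Derivation K K' K') (l : Fin (M + 1)), D (η l) ≠ 0 := by
  classical
  by_contra hcon
  push Not at hcon
  have hess0 : Algebra.EssFiniteType ℂ K' := by
    rw [← IntermediateField.fg_top_iff]
    exact ⟨Finset.univ.image η, by rw [Finset.coe_image, Finset.coe_univ, Set.image_univ]; exact hη⟩
  have hess : Algebra.EssFiniteType K K' := Algebra.EssFiniteType.of_comp ℂ K K'
  have hD0 : ∀ (D : Derivation K K' K') (a : K'), D a = 0 := by
    intro D a
    have ha : a ∈ IntermediateField.adjoin ℂ (Set.range η) := by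
      rw [hη]
      exact IntermediateField.mem_top
    induction ha using IntermediateField.adjoin_induction with
    | mem x hx =>
      obtain ⟨l, rfl⟩ := hx
      exact hcon D l
    | algebraMap x =>
      rw [IsScalarTower.algebraMap_apply ℂ K K', Derivation.map_algebraMap]
    | add x y _ _ h1 h2 => rw [map_add, h1, h2, add_zero]
    | inv x _ h1 => rw [Derivation.leibniz_inv, h1, smul_zero]
    | mul x y _ _ h1 h2 => rw [Derivation.leibniz, h1, h2, smul_zero, smul_zero, add_zero]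
  have hf : ∀ f : Ω[K'⁄K] →ₗ[K'] K', f = 0 := by
    intro f
    have h1 : f.compDer (KaehlerDifferential.D K K') = 0 := by
      ext a
      exact hD0 _ a
    have h2 : ∀ x ∈ Submodule.span K' (Set.range (KaehlerDifferential.D K K')), f x = 0 := by
      intro x hx
      induction hx using Submodule.span_induction with
      | mem x hx =>
        obtain ⟨a, rfl⟩ := hx
        exact congrArg (fun D : Derivation K K' K' => D a) h1
      | zero => exact map_zero f
      | add x y _ _ h1 h2 => rw [map_add, h1, h2, add_zero]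
      | smul c x _ h1 => rw [map_smul, h1, smul_zero]
    refine LinearMap.ext fun x => h2 x ?_
    rw [KaehlerDifferential.span_range_derivation]
    exact Submodule.mem_top
  have hsub : Subsingleton (Ω[K'⁄K]) := by
    refine ⟨fun x y => ?_⟩
    rw [← sub_eq_zero]
    exact (Module.forall_dual_apply_eq_zero_iff K' (x - y)).mp fun f => by rw [hf f]; rfl
  have hur : Algebra.FormallyUnramified K K' := ⟨hsub⟩
  have hsep := (Algebra.FormallyUnramified.iff_isSeparable K K').mp hur
  exact hna inferInstance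

theorem algebraic_of_locInj {η : Fin (M + 1) → K'} (hη : IntermediateField.adjoin ℂ (Set.range η) = ⊤) {ξ : Fin (N + 1) → K}
    {U : MvPolynomial (Fin (M + 1)) ℂ} (hU : aeval η U ≠ 0) (hLI : LocInj η (fun i => algebraMap K K' (ξ i)) U) : Algebra.IsAlgebraic K K' := by
  classical
  by_contra hna
  obtain ⟨D₀, l, hDl⟩ := exists_der hη hna
  let D : Derivation ℂ K' K' := D₀.restrictScalars ℂ
  have hDD : ∀ a, D a = D₀ a := fun _ => rfl
  have hDK : ∀ a : K, D (algebraMap K K' a) = 0 := fun a => by rw [hDD, Derivation.map_algebraMap]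
  obtain ⟨A, hA, hF, hst⟩ := exists_stable_any hη D
    (Finset.univ.image η ∪ Finset.univ.image (fun i => algebraMap K K' (ξ i)) ∪ {(aeval η U)⁻¹, (D (η l))⁻¹})
  have hηA : ∀ j, η j ∈ A := fun j => hF _ (by simp)
  have hξA : ∀ i, algebraMap K K' (ξ i) ∈ A := fun i => hF _ (by simp)
  have hUA : (aeval η U)⁻¹ ∈ A := hF _ (by simp)
  have hDA : (D (η l))⁻¹ ∈ A := hF _ (by simp)
  obtain ⟨w₀⟩ := exists_pt_any A hA
  haveI : Algebra.FiniteType ℂ A := (Subalgebra.fg_iff_finiteType A).mp hA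
  obtain ⟨ρ, Φ, hρ, hΦ0, hΦ⟩ := exists_flow (resDer D A hst) w₀
  -- the coordinates along the flow
  let y : ℂ → Fin (M + 1) → ℂ := fun τ j => Φ τ ⟨η j, hηA j⟩
  let x : ℂ → Fin (N + 1) → ℂ := fun τ i => Φ τ ⟨algebraMap K K' (ξ i), hξA i⟩
  have hyd : ∀ τ ∈ Metric.ball (0 : ℂ) ρ, ∀ j, HasDerivAt (fun σ => y σ j) (Φ τ (resDer D A hst ⟨η j, hηA j⟩)) τ := fun τ hτ j => hΦ τ hτ _
  have hxd : ∀ τ ∈ Metric.ball (0 : ℂ) ρ, ∀ i, HasDerivAt (fun σ => x σ i) 0 τ := fun τ hτ i => by
    have h1 := hΦ τ hτ ⟨algebraMap K K' (ξ i), hξA i⟩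
    have h2 : resDer D A hst ⟨algebraMap K K' (ξ i), hξA i⟩ = 0 := Subtype.ext (hDK (ξ i))
    rw [h2, map_zero] at h1
    exact h1
  have hxc : ∀ τ ∈ Metric.ball (0 : ℂ) ρ, x τ = x 0 := by
    intro τ hτ
    funext i
    exact (convex_ball (0 : ℂ) ρ).is_const_of_fderivWithin_eq_zero (𝕜 := ℂ) (f := fun σ => x σ i)
      (fun σ hσ => (hxd σ hσ i).differentiableAt.differentiableWithinAt)
      (fun σ hσ => by
        rw [fderivWithin_of_isOpen Metric.isOpen_ball hσ]
        have h1 := (hxd σ hσ i).hasFDerivAt.fderiv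
        rw [h1]
        ext
        simp) hτ (Metric.mem_ball_self hρ)
  have hPt : ∀ τ, Pt η (fun i => algebraMap K K' (ξ i)) (y τ) (x τ) := by
    intro τ F hF0
    have h1 : aeval (Sum.elim (fun j => (⟨η j, hηA j⟩ : A)) fun i => (⟨algebraMap K K' (ξ i), hξA i⟩ : A)) F = 0 := by
      apply Subtype.coe_injective
      show A.val (aeval _ F) = A.val 0
      rw [map_zero, ← hF0, ← AlgHom.comp_apply, comp_aeval]
      congr 2
      funext s
      rcases s with j | i <;> rfl
    have h2 : Φ τ (aeval (Sum.elim (fun j => (⟨η j, hηA j⟩ : A)) fun i => (⟨algebraMap K K' (ξ i), hξA i⟩ : A)) F) = 0 := by rw [h1, map_zero]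
    rw [← AlgHom.comp_apply, comp_aeval] at h2
    have h3 : eval (Sum.elim (y τ) (x τ)) F = aeval (Sum.elim (y τ) (x τ)) F :=
      (congrArg (fun φ : MvPolynomial (Fin (M + 1) ⊕ Fin (N + 1)) ℂ →+* ℂ => φ F) (coe_aeval_eq_eval (Sum.elim (y τ) (x τ)))).symm
    rw [h3, ← h2]
    congr 2
    funext s
    rcases s with j | i <;> rfl
  have hU0 : eval (y 0) U ≠ 0 := by
    have h1 : eval (y 0) U = Φ 0 (aeval (fun j => (⟨η j, hηA j⟩ : A)) U) := by
      rw [← AlgHom.comp_apply, comp_aeval]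
      exact (congrArg (fun φ : MvPolynomial (Fin (M + 1)) ℂ →+* ℂ => φ U) (coe_aeval_eq_eval (y 0))).symm
    have h2 : (aeval (fun j => (⟨η j, hηA j⟩ : A)) U) * (⟨(aeval η U)⁻¹, hUA⟩ : A) = 1 := by
      apply Subtype.coe_injective
      show A.val (aeval _ U) * (aeval η U)⁻¹ = 1
      rw [← AlgHom.comp_apply, comp_aeval]
      exact mul_inv_cancel₀ hU
    have h3 : Φ 0 (aeval (fun j => (⟨η j, hηA j⟩ : A)) U) * Φ 0 (⟨(aeval η U)⁻¹, hUA⟩ : A) = 1 := by
      rw [← map_mul, h2, map_one]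
    rw [h1]
    exact left_ne_zero_of_mul_eq_one h3
  have hD1 : Φ 0 (resDer D A hst ⟨η l, hηA l⟩) ≠ 0 := by
    have h2 : (resDer D A hst ⟨η l, hηA l⟩) * (⟨(D (η l))⁻¹, hDA⟩ : A) = 1 := by
      apply Subtype.coe_injective
      exact mul_inv_cancel₀ hDl
    have h3 : Φ 0 (resDer D A hst ⟨η l, hηA l⟩) * Φ 0 (⟨(D (η l))⁻¹, hDA⟩ : A) = 1 := by
      rw [← map_mul, h2, map_one]
    exact left_ne_zero_of_mul_eq_one h3
  -- local injectivity
  have h0 : (0 : ℂ) ∈ Metric.ball (0 : ℂ) ρ := Metric.mem_ball_self hρ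
  have hyc : ContinuousAt y 0 := continuousAt_pi.mpr fun j => (hyd 0 h0 j).continuousAt
  have hLI' := hLI (y 0) (x 0) (hPt 0) hU0
  have hq : Tendsto (fun τ => (y τ, y 0)) (𝓝 0) (𝓝 (y 0, y 0)) := hyc.tendsto.prodMk_nhds tendsto_const_nhds
  have hev : ∀ᶠ τ in 𝓝 (0 : ℂ), y τ = y 0 := by
    filter_upwards [hq.eventually hLI', Metric.ball_mem_nhds (0 : ℂ) hρ] with τ h1 h2
    refine h1 (x 0) ?_ (hPt 0)
    have h3 := hPt τ
    rwa [hxc τ h2] at h3
  have hc : HasDerivAt (fun σ => y σ l) 0 0 := (hasDerivAt_const (0 : ℂ) (y 0 l)).congr_of_eventuallyEq (hev.mono fun τ h => congrFun h l)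
  exact hD1 ((hyd 0 h0 l).unique hc)

end Pool.Agent.GTL
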