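import Pool.Agent.GTL.EtDf
import Pool.Agent.H62.Qe.Dom
import Pool.Agent.H7.Qup.Bd

/-!
# GTL EtJ: the embedding of function fields given by `p`

PROOF.  `IsReg` gives forms `γ` which represent `p` near a point of the variety of `Q'` (`reg.regular`), so (`Qe/Dom.lean`, `exists_cover`, `Dom_prop`: two systems are proportional at all points of the variety of `Q'`, so `γ i * γ' j - γ j * γ' i ∈ Q'`
by the Nullstellensatz `H17EF.exists_point`).  `aeval γ R ∈ Q' ↔ R ∈ Q` for forms `R` (`dom.maps`, `dom.dense`; as in `Qe/Dom.lean`, `dominant`, which uses surjectivity only to get a point where `R ∘ p` does not vanish).  The homomorphism `φ`: as in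
`H19OL/Norm.lean`, `exists_hom` (`funIso`), with its formula `φ (ratio Q i i₀) = γ i (η) / γ i₀ (η)`; the other systems and the other indices follow from the proportionality, and `ratio Q i i₁ = ratio Q i i₀ / ratio Q i₁ i₀`;
change of `j`: `aeval (ratio · j') γ = (ratio j j') ^ D * aeval (ratio · j) γ`.
-/

set_option autoImplicit false

open MvPolynomial
open Pool.Agent.H17 (PN VanishesAt)
open Pool.Agent.H17EF (projVar)
open Pool.Agent.H17LG.Variety (FunField ratio)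
open Pool.Agent.H62.FC (Homog)
open Pool.Agent.H62.Qe (IsReg)

noncomputable section

namespace Pool.Agent.GTL

variable {N M : ℕ} {P Q : Ideal (MvPolynomial (Fin (N + 1)) ℂ)} {P' Q' : Ideal (MvPolynomial (Fin (M + 1)) ℂ)}

open Pool.Agent.H17GT (coordFun)
open Pool.Agent.H17R (gen gen_eq_zero_iff ratio_self coordFun_ne_zero_iff gen_change ratio_ne_zero_iff)
open Pool.Agent.H7.Qup (exists_hom_val ratio_change')
open Pool.Agent.H7.Bir (vals rmap)

/-- two systems of forms which represent `p` are proportional at every point -/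
private theorem EtJ_prop {γ γ' : Fin (N + 1) → MvPolynomial (Fin (M + 1)) ℂ} {p : PN M → PN N}
    (hrep : ∀ y ∈ projVar Q', vals γ y.rep ≠ 0 → p y = rmap γ y) (hrep' : ∀ y ∈ projVar Q', vals γ' y.rep ≠ 0 → p y = rmap γ' y)
    {y : PN M} (hy : y ∈ projVar Q') (i j : Fin (N + 1)) :
    eval y.rep (γ i) * eval y.rep (γ' j) = eval y.rep (γ j) * eval y.rep (γ' i) := by
  by_cases h1 : vals γ y.rep = 0
  · have h2 : ∀ i, eval y.rep (γ i) = 0 := fun i => congrFun h1 i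
    rw [h2 i, h2 j]
    ring
  by_cases h3 : vals γ' y.rep = 0
  · have h2 : ∀ i, eval y.rep (γ' i) = 0 := fun i => congrFun h3 i
    rw [h2 i, h2 j]
    ring
  have h4 : rmap γ y = rmap γ' y := by
    rw [← hrep y hy h1, ← hrep' y hy h3]
  unfold Pool.Agent.H7.Bir.rmap at h4
  rw [dif_pos h1, dif_pos h3, Projectivization.mk_eq_mk_iff'] at h4
  obtain ⟨a, ha⟩ := h4
  have h5 : ∀ i, eval y.rep (γ i) = a * eval y.rep (γ' i) := fun i => (congrFun ha i).symm
  rw [h5 i, h5 j]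
  ring

/-- two systems of forms which represent `p` are proportional modulo the ideal -/
private theorem EtJ_mem [Q'.IsPrime] (hQ' : Homog Q') (hX' : ∃ i, (X i : MvPolynomial (Fin (M + 1)) ℂ) ∉ Q')
    {γ γ' : Fin (N + 1) → MvPolynomial (Fin (M + 1)) ℂ} {D D' : ℕ} (hγ : ∀ i, (γ i).IsHomogeneous D) (hγ' : ∀ i, (γ' i).IsHomogeneous D')
    {p : PN M → PN N} (hrep : ∀ y ∈ projVar Q', vals γ y.rep ≠ 0 → p y = rmap γ y) (hrep' : ∀ y ∈ projVar Q', vals γ' y.rep ≠ 0 → p y = rmap γ' y)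
    (i j : Fin (N + 1)) : γ i * γ' j - γ j * γ' i ∈ Q' := by
  by_contra hcon
  obtain ⟨y, hy, hyn⟩ := Pool.Agent.H17EF.exists_point hQ' hX' hcon (((hγ i).mul (hγ' j)).sub ((hγ j).mul (hγ' i)))
  apply hyn
  unfold VanishesAt
  rw [map_sub, map_mul, map_mul, EtJ_prop hrep hrep' hy i j, sub_self]

private theorem EtJ_smul {n : ℕ} {R : MvPolynomial (Fin (N + 1)) ℂ} (hR : R.IsHomogeneous n) (c : ℂ) (x : Fin (N + 1) → ℂ) :
    eval (c • x) R = c ^ n * eval x R :=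
  Pool.Agent.H17BP.eval_smul_form hR c x

/-- forms which represent `p` near some point of the variety of `Q'` -/
private theorem EtJ_dom [Q.IsPrime] [Q'.IsPrime] (hQ' : Homog Q') {p : PN M → PN N} (hp : IsReg P P' p) (hle : ∀ y ∈ projVar Q', y ∈ projVar P')
    (hd : DomPair Q Q' p) {D : ℕ} {γ : Fin (N + 1) → MvPolynomial (Fin (M + 1)) ℂ} (hγ : ∀ i, (γ i).IsHomogeneous D)
    (hrep : ∀ y ∈ projVar Q', vals γ y.rep ≠ 0 → p y = rmap γ y) (hne : ∃ y ∈ projVar Q', vals γ y.rep ≠ 0) (n : ℕ)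
    (R : MvPolynomial (Fin (N + 1)) ℂ) (hR : R.IsHomogeneous n) : aeval γ R ∈ Q' ↔ R ∈ Q := by
  obtain ⟨y₀, hy₀, hne⟩ := hne
  have hX' := Pool.Agent.H17EF.exists_coord hy₀
  have hah : ∀ {γ' : Fin (N + 1) → MvPolynomial (Fin (M + 1)) ℂ} {D' : ℕ}, (∀ i, (γ' i).IsHomogeneous D') → (aeval γ' R).IsHomogeneous (D' * n) :=
    fun hγ' => hR.aeval _ hγ'
  constructor
  · intro h
    by_contra hRQ
    obtain ⟨y', hy', hxR⟩ := hd.dense R n hR hRQ
    obtain ⟨D', γ', hγ', hne', hrep₁⟩ := hp.regular y' (hle y' hy')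
    have hrep' : ∀ y ∈ projVar Q', vals γ' y.rep ≠ 0 → p y = rmap γ' y := fun y hy => hrep₁ y (hle y hy)
    obtain ⟨j, hj⟩ : ∃ j, eval y₀.rep (γ j) ≠ 0 := by
      by_contra hcon
      push Not at hcon
      exact hne (funext hcon)
    have hjP : γ j ∉ Q' := fun h1 => hj (hy₀ _ h1 D (hγ j))
    have hmem : γ j ^ n * aeval γ' R ∈ Q' := by
      by_contra h1
      have h2 : (γ j ^ n * aeval γ' R).IsHomogeneous (D * n + D' * n) := ((hγ j).pow n).mul (hah hγ')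
      obtain ⟨y, hy, hyn⟩ := Pool.Agent.H17EF.exists_point hQ' hX' h1 h2
      apply hyn
      have h3 : eval y.rep (aeval γ R) = 0 := hy _ h _ (hah hγ)
      unfold VanishesAt
      rw [map_mul, map_pow, Pool.Agent.H7.Bir.eval_comp, ← EtJ_smul hR]
      have h4 : eval y.rep (γ j) • vals γ' y.rep = eval y.rep (γ' j) • vals γ y.rep := by
        funext i
        have h5 := EtJ_prop hrep hrep' hy j i
        change eval y.rep (γ j) * eval y.rep (γ' i) = eval y.rep (γ' j) * eval y.rep (γ i)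
        rw [h5, mul_comm]
      rw [h4, EtJ_smul hR, ← Pool.Agent.H7.Bir.eval_comp, h3, mul_zero]
    rcases Ideal.IsPrime.mem_or_mem inferInstance hmem with h1 | h1
    · exact hjP (Ideal.IsPrime.mem_of_pow_mem inferInstance n h1)
    · apply hxR
      rw [hrep' y' hy' hne', Pool.Agent.H7.Bir.vanishesAt_rmap hne' hR]
      exact hy' _ h1 _ (hah hγ')
  · intro h
    by_contra hcon
    obtain ⟨y, hy, hyn⟩ := Pool.Agent.H17EF.exists_point hQ' hX' hcon (hah hγ)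
    apply hyn
    by_cases h1 : vals γ y.rep = 0
    · unfold VanishesAt
      rw [Pool.Agent.H7.Bir.eval_comp, h1]
      have h2 : eval (p y).rep R = 0 := hd.maps y hy R h n hR
      have h3 := EtJ_smul hR 0 (p y).rep
      rw [zero_smul, h2, mul_zero] at h3
      exact h3
    · rw [← Pool.Agent.H7.Bir.vanishesAt_rmap h1 hR, ← hrep y hy h1]
      exact hd.maps y hy R h n hR

theorem exists_induces [Q.IsPrime] [Q'.IsPrime] (hQ : Homog Q) (hQ' : Homog Q') {p : PN M → PN N} (hp : IsReg P P' p) (hle : P' ≤ Q')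
    (hne : (projVar Q').Nonempty) (hd : DomPair Q Q' p) : ∃ φ : FunField Q →ₐ[ℂ] FunField Q', Induces Q Q' p φ := by
  have _ := hQ
  have hle' : ∀ y ∈ projVar Q', y ∈ projVar P' := fun y hy R hR n hn => hy R (hle hR) n hn
  obtain ⟨y₀, hy₀⟩ := hne
  obtain ⟨D, γ, hγ, hγ0, hrep₀⟩ := hp.regular y₀ (hle' y₀ hy₀)
  have hrep : ∀ y ∈ projVar Q', vals γ y.rep ≠ 0 → p y = rmap γ y := fun y hy => hrep₀ y (hle' y hy)
  have hX' := Pool.Agent.H17EF.exists_coord hy₀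
  have hmaps := EtJ_dom (Q := Q) hQ' hp hle' hd hγ hrep ⟨y₀, hy₀, hγ0⟩
  have hgm : ∀ i, γ i ∈ Q' ↔ (X i : MvPolynomial (Fin (N + 1)) ℂ) ∈ Q := fun i => by
    rw [← hmaps 1 _ (isHomogeneous_X ℂ i), aeval_X]
  obtain ⟨i₀, hi₀⟩ := Pool.Agent.H17EF.exists_coord (hd.maps y₀ hy₀)
  obtain ⟨j₁, hj₁⟩ := hX'
  have hcj : coordFun Q' j₁ ≠ 0 := coordFun_ne_zero_iff.2 hj₁
  have hci : coordFun Q i₀ ≠ 0 := coordFun_ne_zero_iff.2 hi₀
  have hc : gen Q' j₁ (γ i₀) ≠ 0 := fun h0 => hi₀ ((hgm i₀).1 ((gen_eq_zero_iff hcj (hγ i₀)).1 h0))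
  obtain ⟨x, hx⟩ : ∃ x : Fin (N + 1) → FunField Q', x = fun i => gen Q' j₁ (γ i) / gen Q' j₁ (γ i₀) := ⟨_, rfl⟩
  have hx1 : x i₀ = 1 := by rw [hx]; exact div_self hc
  have hker : ∀ (n : ℕ) (R : MvPolynomial (Fin (N + 1)) ℂ), R.IsHomogeneous n → (aeval x R = 0 ↔ R ∈ Q) := by
    intro n R hR
    rw [← hmaps n R hR, ← gen_eq_zero_iff hcj (hR.aeval _ hγ)]
    have h1 : gen Q' j₁ (aeval γ R) = gen Q' j₁ (γ i₀) ^ n * aeval x R := by
      rw [hx]
      unfold Pool.Agent.H17R.gen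
      rw [Pool.Agent.H7.Bir.aeval_comp]
      exact Pool.Agent.H7.Bir.aeval_div hR hc _
    rw [h1, mul_eq_zero]
    exact ⟨Or.inr, fun h => h.resolve_left (pow_ne_zero _ hc)⟩
  obtain ⟨φ, hφ⟩ := exists_hom_val hci hx1 hker
  refine ⟨φ, ?_⟩
  intro D' γ' hγ' hrep' i₁ hi₁ j hj i
  have hcj' : coordFun Q' j ≠ 0 := coordFun_ne_zero_iff.2 hj
  have hprop := EtJ_mem hQ' ⟨j₁, hj₁⟩ hγ hγ' hrep hrep'
  -- the index `i₁` is admissible
  have hXi₁ : (X i₁ : MvPolynomial (Fin (N + 1)) ℂ) ∉ Q := by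
    intro h
    have h1 : γ i₁ ∈ Q' := (hgm i₁).2 h
    apply hi₀
    rw [← hgm i₀]
    have h2 : γ i₀ * γ' i₁ ∈ Q' := by
      have h3 := Q'.add_mem (hprop i₀ i₁) (Q'.mul_mem_right (γ' i₀) h1)
      rwa [sub_add_cancel] at h3
    exact (Ideal.IsPrime.mem_or_mem inferInstance h2).resolve_right hi₁
  have hci' : coordFun Q i₁ ≠ 0 := coordFun_ne_zero_iff.2 hXi₁
  have hch : ∀ k, gen Q' j₁ (γ k) = ratio Q' j j₁ ^ D * gen Q' j (γ k) := fun k => gen_change hcj' (hγ k)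
  have hr0 : ratio Q' j j₁ ≠ 0 := (ratio_ne_zero_iff hcj).2 hcj'
  have h3 : φ (ratio Q i i₀) = φ (ratio Q i₁ i₀) * φ (ratio Q i i₁) := by
    rw [← map_mul, ← ratio_change' hci']
  have h4 : gen Q' j₁ (γ i) = gen Q' j₁ (γ i₁) * φ (ratio Q i i₁) := by
    rw [hφ, hφ, hx] at h3
    change gen Q' j₁ (γ i) / gen Q' j₁ (γ i₀) = gen Q' j₁ (γ i₁) / gen Q' j₁ (γ i₀) * φ (ratio Q i i₁) at h3
    rw [div_mul_eq_mul_div, div_left_inj' hc] at h3
    exact h3
  have h5 : gen Q' j (γ i) = gen Q' j (γ i₁) * φ (ratio Q i i₁) := by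
    rw [hch, hch, mul_assoc] at h4
    exact mul_left_cancel₀ (pow_ne_zero _ hr0) h4
  have hg1 : gen Q' j (γ i₁) ≠ 0 := fun h0 => hXi₁ ((hgm i₁).1 ((gen_eq_zero_iff hcj' (hγ i₁)).1 h0))
  -- the proportionality in the function field
  have h6 : gen Q' j (γ i) * gen Q' j (γ' i₁) = gen Q' j (γ i₁) * gen Q' j (γ' i) := by
    have h7 := (gen_eq_zero_iff hcj' (((hγ i).mul (hγ' i₁)).sub ((hγ i₁).mul (hγ' i)))).2 (hprop i i₁)
    unfold Pool.Agent.H17R.gen at h7 ⊢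
    rw [map_sub, map_mul, map_mul, sub_eq_zero] at h7
    exact h7
  change φ (ratio Q i i₁) * gen Q' j (γ' i₁) = gen Q' j (γ' i)
  rw [h5, mul_assoc] at h6
  exact mul_left_cancel₀ hg1 h6

end Pool.Agent.GTL
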