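import Pool.Agent.GTL.EtK0

/-!
# GTL EtK: the boundary and local injectivity in terms of the function fields

PROOF.  Let `η l = ratio Q' l j`, all regular at `E'` (`H17R.exists_center`).  Let `γ` represent `p` near a point of the centre of `E'` (`exists_center_rep`), so
`E'.ord (γ i₁ (η)) = 0` for some `i₁`.  `φ (ratio Q i i₁) = γ i (η) / γ i₁ (η)` (`Induces`), so all `ratio Q i i₁` are regular at `E`, and for a form `R` of degree `n`: `φ (R (ratio Q · i₁)) = R (γ) (η) / γ i₁ (η) ^ n`.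
If all `G' m` have positive order at `E'` and `G l (γ)` has order `0`, there is a point `y` of the centre (`exists_center_pt`) at which `G l (γ)` and `γ i₁` do not vanish and all `G' m` vanish, so `y ∉ locVar P' G'` and `p y ∈ locVar P G`.
Conversely if `G' m` has order `0`, there is a point `y` of the centre with `G' m (y) ≠ 0`, `γ i₁ (y) ≠ 0`: `p y ∈ locVar P G`, so `G l (γ)` has not a positive order for some `l`.  These orders do not depend on the choice of `i₁` with all `ratio Q i i₁` regular.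
-/

set_option autoImplicit false

open MvPolynomial
open Pool.Agent.H17 (PN VanishesAt)
open Pool.Agent.H17EF (projVar)
open Pool.Agent.H23.Fano (PrimeDivisorOver)
open Pool.Agent.H17LG.Variety (FunField ratio)
open Pool.Agent.H62.FC (Homog)
open Pool.Agent.H62.SA (locVar OnBd)
open Pool.Agent.H62.Qe (IsEtaleOver)

noncomputable section

namespace Pool.Agent.GTL

variable {N M : ℕ} {P Q : Ideal (MvPolynomial (Fin (N + 1)) ℂ)} {P' Q' : Ideal (MvPolynomial (Fin (M + 1)) ℂ)} {s s' : ℕ}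
  {G : Fin s → MvPolynomial (Fin (N + 1)) ℂ} {G' : Fin s' → MvPolynomial (Fin (M + 1)) ℂ}

open Pool.Agent.H17R (gen gen_change ratio_self ord_gen_nonneg gen_eq_zero_iff exists_center coordFun_ne_zero_iff)
open Pool.Agent.H17GT (coordFun)
open Pool.Agent.H7.Bir (vals rmap)

/-- the order of a form does not depend on the affine coordinates -/
private theorem ord_change [Q.IsPrime] {k : ℕ} (E : PrimeDivisorOver (FunField Q) k) {i₀ i₁ : Fin (N + 1)} (h0 : coordFun Q i₀ ≠ 0) (h1 : coordFun Q i₁ ≠ 0)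
    (r0 : ∀ i, 0 ≤ E.ord (ratio Q i i₀)) (r1 : ∀ i, 0 ≤ E.ord (ratio Q i i₁)) {R : MvPolynomial (Fin (N + 1)) ℂ} {n : ℕ} (hR : R.IsHomogeneous n) :
    E.ord (gen Q i₀ R) = E.ord (gen Q i₁ R) := by
  have e1 : ratio Q i₁ i₀ * ratio Q i₀ i₁ = 1 := by
    apply Subtype.ext
    change coordFun Q i₁ / coordFun Q i₀ * (coordFun Q i₀ / coordFun Q i₁) = 1
    rw [div_mul_div_comm, mul_comm (coordFun Q i₁), div_self (mul_ne_zero h0 h1)]
  have e2 : E.ord (ratio Q i₁ i₀) = 0 := by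
    have e3 : E.ord (ratio Q i₁ i₀) + E.ord (ratio Q i₀ i₁) = 0 := by
      rw [← E.ord.map_mul, e1, E.ord.map_one]
    refine le_antisymm ?_ (r0 i₁)
    rw [← e3]
    exact le_add_of_nonneg_right (r1 i₀)
  rw [gen_change h1 hR, E.ord.map_mul, E.ord.map_pow, e2, smul_zero, zero_add]

private theorem onBd_at [Q.IsPrime] {k : ℕ} (E : PrimeDivisorOver (FunField Q) k) (hG : ∀ l, ∃ e, (G l).IsHomogeneous e) {i₁ : Fin (N + 1)} (h1 : coordFun Q i₁ ≠ 0)
    (r1 : ∀ i, 0 ≤ E.ord (ratio Q i i₁)) : OnBd Q G E ↔ ∀ l, 0 < E.ord (gen Q i₁ (G l)) := by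
  constructor
  · rintro ⟨j, hj, rj, h⟩ l
    obtain ⟨n, hn⟩ := hG l
    rw [← ord_change E hj h1 rj r1 hn]
    exact h l
  · intro h
    exact ⟨i₁, h1, r1, h⟩

private theorem smul_nonneg_iff' {e : ℕ} (he : 1 ≤ e) {a : WithTop ℤ} (h : 0 ≤ e • a) : 0 ≤ a := by
  by_contra hcon
  push Not at hcon
  obtain ⟨z, rfl⟩ := WithTop.ne_top_iff_exists.1 (ne_top_of_lt hcon)
  rw [← WithTop.coe_nsmul, ← WithTop.coe_zero, WithTop.coe_le_coe] at h
  rw [← WithTop.coe_zero, WithTop.coe_lt_coe] at hcon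
  rw [nsmul_eq_mul] at h
  have h1 : (0 : ℤ) < e := by exact_mod_cast he
  nlinarith

private theorem smul_pos_iff' {e : ℕ} (he : 1 ≤ e) {a : WithTop ℤ} : 0 < e • a ↔ 0 < a := by
  constructor
  · intro h
    refine lt_of_le_of_ne (smul_nonneg_iff' he h.le) fun h0 => ?_
    rw [← h0, smul_zero] at h
    exact lt_irrefl _ h
  · intro h
    obtain ⟨d, rfl⟩ := Nat.exists_eq_add_of_le' he
    rw [succ_nsmul]
    refine lt_of_lt_of_le h (le_add_of_nonneg_left ?_)
    exact nsmul_nonneg h.le d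

theorem onBd_iff [Q.IsPrime] [Q'.IsPrime] (hQ : Homog Q) (hQ' : Homog Q') (hG : ∀ l, ∃ e, (G l).IsHomogeneous e) (hG' : ∀ l, ∃ e, (G' l).IsHomogeneous e)
    {p : PN M → PN N} (hp : IsEtaleOver P P' G G' p) (hle : P ≤ Q) (hle' : P' ≤ Q') (hd : DomPair Q Q' p) {φ : FunField Q →ₐ[ℂ] FunField Q'} (hφ : Induces Q Q' p φ)
    {k : ℕ} {E : PrimeDivisorOver (FunField Q) k} {E' : PrimeDivisorOver (FunField Q') k} {e : ℕ} (he : 1 ≤ e) (hE : ∀ x, E'.ord (φ x) = e • E.ord x)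
    (hne : (projVar Q').Nonempty) : OnBd Q G E ↔ OnBd Q' G' E' := by
  obtain ⟨y₀, hy₀⟩ := hne
  obtain ⟨j₀, hj₀⟩ := Pool.Agent.H17EF.exists_coord hy₀
  obtain ⟨j, hj, rj⟩ := exists_center E' (coordFun_ne_zero_iff.2 hj₀)
  have hjX : X j ∉ Q' := coordFun_ne_zero_iff.1 hj
  obtain ⟨D, γ, i₁, hγ, hrep, hord⟩ := exists_center_rep hQ' hp.reg hle' E' hjX rj
  have hsub : ∀ y ∈ projVar Q', y ∈ projVar P' := fun y hy R hR n hn => hy R (hle' hR) n hn
  have hu0 : gen Q' j (γ i₁) ≠ 0 := by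
    intro h0
    have h1 : E'.ord (gen Q' j (γ i₁)) = 0 := hord
    rw [h0, E'.ord.map_zero] at h1
    exact WithTop.top_ne_zero h1
  have hγQ : γ i₁ ∉ Q' := fun h => hu0 ((gen_eq_zero_iff hj (hγ i₁)).2 h)
  have hind : ∀ i, φ (ratio Q i i₁) * gen Q' j (γ i₁) = gen Q' j (γ i) :=
    fun i => hφ D γ hγ (fun y hy h => hrep y (hsub y hy) h) i₁ hγQ j hjX i
  have hc1 : coordFun Q i₁ ≠ 0 := by
    intro h0
    have h1 : ratio Q i₁ i₁ = 0 := by
      apply Subtype.ext
      change coordFun Q i₁ / coordFun Q i₁ = 0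
      rw [h0, div_zero]
    have h2 := hind i₁
    rw [h1, map_zero, zero_mul] at h2
    exact hu0 h2.symm
  have ho : E'.ord (gen Q' j (γ i₁)) = 0 := hord
  have r1 : ∀ i, 0 ≤ E.ord (ratio Q i i₁) := by
    intro i
    refine smul_nonneg_iff' he ?_
    rw [← hE]
    have h1 : E'.ord (φ (ratio Q i i₁)) = E'.ord (gen Q' j (γ i)) := by
      rw [← hind i, E'.ord.map_mul, ho, add_zero]
    rw [h1]
    exact ord_gen_nonneg E' rj _
  -- the value of a form
  have hval : ∀ (R : MvPolynomial (Fin (N + 1)) ℂ) (n : ℕ), R.IsHomogeneous n → e • E.ord (gen Q i₁ R) = E'.ord (gen Q' j (aeval γ R)) := by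
    intro R n hR
    have h1 : gen Q' j (aeval γ R) = gen Q' j (γ i₁) ^ n * φ (gen Q i₁ R) := by
      have h2 : gen Q' j (aeval γ R) = aeval (fun i => gen Q' j (γ i)) R := by
        unfold gen
        rw [MvPolynomial.comp_aeval_apply]
      have h3 : φ (gen Q i₁ R) = aeval (fun i => φ (ratio Q i i₁)) R := by
        unfold gen
        rw [MvPolynomial.comp_aeval_apply]
      rw [h2, h3, ← Pool.Agent.H92.GT.Proj.aeval_scale hR]
      congr 2
      funext i
      rw [← hind i, mul_comm]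
    rw [← hE, h1, E'.ord.map_mul, E'.ord.map_pow, ho, smul_zero, zero_add]
  have hpy : ∀ y ∈ projVar Q', ¬ VanishesAt (γ i₁) y → ∀ (R : MvPolynomial (Fin (N + 1)) ℂ) (n : ℕ), R.IsHomogeneous n →
      (VanishesAt R (p y) ↔ VanishesAt (aeval γ R) y) := by
    intro y hy hyγ R n hR
    have h1 : vals γ y.rep ≠ 0 := fun h => hyγ (congrFun h i₁)
    rw [hrep y (hsub y hy) h1]
    unfold rmap
    rw [dif_pos h1, Pool.Agent.H17.vanishesAt_mk_iff hR]
    unfold VanishesAt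
    have h2 : eval y.rep (aeval γ R) = eval (vals γ y.rep) R := by
      rw [← MvPolynomial.aeval_eq_eval, ← MvPolynomial.aeval_eq_eval, MvPolynomial.comp_aeval_apply]
      rfl
    rw [h2]
  rw [onBd_at E hG hc1 r1, onBd_at E' hG' hj rj]
  have hhom : ∀ l, ∃ m, (aeval γ (G l)).IsHomogeneous m := by
    intro l
    obtain ⟨n, hn⟩ := hG l
    exact ⟨D * n, hn.aeval γ hγ⟩
  constructor
  · intro h m
    by_contra hcon
    have h0 : E'.ord (gen Q' j (G' m)) = 0 := le_antisymm (not_lt.1 hcon) (ord_gen_nonneg E' rj _)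
    obtain ⟨n, hn⟩ := hG' m
    have h1 : E'.ord (aeval (fun l => ratio Q' l j) (G' m * γ i₁)) = 0 := by
      rw [map_mul, E'.ord.map_mul]
      change E'.ord (gen Q' j (G' m)) + E'.ord (gen Q' j (γ i₁)) = 0
      rw [h0, ho, add_zero]
    obtain ⟨y, hy, hyR, hyS⟩ := exists_center_pt hQ' E' hjX rj (hn.mul (hγ i₁)) h1
    have h2 : ¬ VanishesAt (G' m) y := fun h3 => hyR (by unfold VanishesAt at h3 ⊢; rw [map_mul, h3, zero_mul])
    have h3 : ¬ VanishesAt (γ i₁) y := fun h3 => hyR (by unfold VanishesAt at h3 ⊢; rw [map_mul, h3, mul_zero])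
    have h4 : p y ∈ locVar P G := (hp.inv y (hsub y hy)).2 ⟨hsub y hy, m, h2⟩
    obtain ⟨l, hl⟩ := h4.2
    obtain ⟨n', hn'⟩ := hG l
    apply hl
    rw [hpy y hy h3 _ n' hn']
    obtain ⟨m', hm'⟩ := hhom l
    refine hyS _ m' hm' ?_
    have h5 := hval (G l) n' hn'
    change 0 < E'.ord (gen Q' j (aeval γ (G l)))
    rw [← h5]
    exact (smul_pos_iff' he).2 (h l)
  · intro h l
    by_contra hcon
    obtain ⟨n', hn'⟩ := hG l
    obtain ⟨m', hm'⟩ := hhom l
    have h0 : E'.ord (gen Q' j (aeval γ (G l))) = 0 := by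
      refine le_antisymm (not_lt.1 fun h1 => hcon ?_) (ord_gen_nonneg E' rj _)
      rw [← hval (G l) n' hn'] at h1
      exact (smul_pos_iff' he).1 h1
    have h1 : E'.ord (aeval (fun l => ratio Q' l j) (aeval γ (G l) * γ i₁)) = 0 := by
      rw [map_mul, E'.ord.map_mul]
      change E'.ord (gen Q' j (aeval γ (G l))) + E'.ord (gen Q' j (γ i₁)) = 0
      rw [h0, ho, add_zero]
    obtain ⟨y, hy, hyR, hyS⟩ := exists_center_pt hQ' E' hjX rj (hm'.mul (hγ i₁)) h1
    have h2 : ¬ VanishesAt (aeval γ (G l)) y := fun h3 => hyR (by unfold VanishesAt at h3 ⊢; rw [map_mul, h3, zero_mul])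
    have h3 : ¬ VanishesAt (γ i₁) y := fun h3 => hyR (by unfold VanishesAt at h3 ⊢; rw [map_mul, h3, mul_zero])
    have h4 : p y ∈ locVar P G := by
      refine ⟨hp.reg.maps y (hsub y hy), l, ?_⟩
      rw [hpy y hy h3 _ n' hn']
      exact h2
    obtain ⟨m, hm⟩ := ((hp.inv y (hsub y hy)).1 h4).2
    obtain ⟨n, hn⟩ := hG' m
    exact hm (hyS _ n hn (h m))

end Pool.Agent.GTL
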