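import Pool.Agent.GTL.EtK0

/-!
# GTL EtK2: local injectivity in terms of the function fields

PROOF.  `exists_locInj`: `j` from `H17R.exists_center`, `γ`, `i₁` from `exists_center_rep`, `m` with `E'.ord (G' m (η)) = 0` (`hB`), `U := γ i₁ * G' m`.  `φ (ratio Q i i₁) = γ i (η) / γ i₁ (η)` (`Induces`), so `ratio Q i i₁` is regular at `E`.
`LocInj`: if `Pt η ξ y x` then `y j = 1`, `mk y ∈ projVar Q'` (`R (y) = 0` for `R ∈ Q'`), `x i * γ i₁ (y) = γ i (y)`; for `y` near `y₀`: `γ i₁ (y) ≠ 0`, so `p (mk y) = rmap γ (mk y) = mk x`; so `p (mk q.1) = p (mk q.2)`, and `hp.locInj` gives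
`mk q.1 = mk q.2`, `q.1 = q.2` since `q.1 j = q.2 j = 1`.  `exists_locInj_gen`: the same for any `γ`, `i₁`, `m` with `γ i₁ * G' m ∉ Q'` (a point of `locVar Q' G'`, `hp.reg.regular`).
-/

set_option autoImplicit false

open Topology Filter MvPolynomial
open Pool.Agent.H17 (PN VanishesAt vanishesAt_mk_iff)
open Pool.Agent.H17GT (coordFun)
open Pool.Agent.H17EF (projVar mk_mem_projVar exists_coord)
open Pool.Agent.H17R (gen gen_eq_zero_iff ratio_self coordFun_ne_zero_iff exists_center ord_gen_nonneg)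
open Pool.Agent.H23.Fano (PrimeDivisorOver)
open Pool.Agent.H17LG.Variety (FunField ratio)
open Pool.Agent.H62.FC (Homog)
open Pool.Agent.H62.SA (locVar OnBd)
open Pool.Agent.H62.Qe (IsEtaleOver)
open Pool.Agent.H7.Bir (vals rmap)

noncomputable section

namespace Pool.Agent.GTL

variable {N M : ℕ} {P Q : Ideal (MvPolynomial (Fin (N + 1)) ℂ)} {P' Q' : Ideal (MvPolynomial (Fin (M + 1)) ℂ)} {s s' : ℕ}
  {G : Fin s → MvPolynomial (Fin (N + 1)) ℂ} {G' : Fin s' → MvPolynomial (Fin (M + 1)) ℂ}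

private theorem EtK2_projVar_le {P₁ P₂ : Ideal (MvPolynomial (Fin (M + 1)) ℂ)} (h : P₁ ≤ P₂) {y : PN M} (hy : y ∈ projVar P₂) : y ∈ projVar P₁ :=
  fun R hR n hRn => hy R (h hR) n hRn

/-- the value of a relation at a point -/
private theorem EtK2_pt_coord [Q'.IsPrime] {ξ : Fin (N + 1) → FunField Q'} {j : Fin (M + 1)} (hj : X j ∉ Q') {y : Fin (M + 1) → ℂ} {x : Fin (N + 1) → ℂ}
    (h : Pt (fun l => ratio Q' l j) ξ y x) : y j = 1 := by
  have h1 := h (X (Sum.inl j) - 1) (by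
    rw [map_sub, aeval_X, map_one, Sum.elim_inl, ratio_self (coordFun_ne_zero_iff.2 hj), sub_self])
  rw [map_sub, eval_X, map_one, Sum.elim_inl] at h1
  exact sub_eq_zero.1 h1

private theorem EtK2_pt_rel [Q'.IsPrime] {η : Fin (M + 1) → FunField Q'} {ξ : Fin (N + 1) → FunField Q'} {y : Fin (M + 1) → ℂ} {x : Fin (N + 1) → ℂ}
    (h : Pt η ξ y x) {R : MvPolynomial (Fin (M + 1)) ℂ} (hR : aeval η R = 0) : eval y R = 0 := by
  have h1 := h (rename Sum.inl R) (by rw [aeval_rename, Sum.elim_comp_inl, hR])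
  rwa [eval_rename, Sum.elim_comp_inl] at h1

private theorem EtK2_pt_form [Q'.IsPrime] {η : Fin (M + 1) → FunField Q'} {ξ : Fin (N + 1) → FunField Q'} {y : Fin (M + 1) → ℂ} {x : Fin (N + 1) → ℂ}
    (h : Pt η ξ y x) {i : Fin (N + 1)} {A B : MvPolynomial (Fin (M + 1)) ℂ} (hR : ξ i * aeval η A = aeval η B) : x i * eval y A = eval y B := by
  have h1 := h (X (Sum.inr i) * rename Sum.inl A - rename Sum.inl B) (by
    rw [map_sub, map_mul, aeval_X, aeval_rename, aeval_rename, Sum.elim_comp_inl, Sum.elim_inr, hR, sub_self])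
  rw [map_sub, map_mul, eval_X, eval_rename, eval_rename, Sum.elim_comp_inl, Sum.elim_inr] at h1
  exact sub_eq_zero.1 h1

private theorem EtK2_pt_mem [Q'.IsPrime] (hQ' : Homog Q') {ξ : Fin (N + 1) → FunField Q'} {j : Fin (M + 1)} (hj : X j ∉ Q') {y : Fin (M + 1) → ℂ}
    {x : Fin (N + 1) → ℂ} (h : Pt (fun l => ratio Q' l j) ξ y x) (hy : y ≠ 0) : Projectivization.mk ℂ y hy ∈ projVar Q' := by
  refine (mk_mem_projVar hQ' hy).2 ⟨hy, fun R hR => ?_⟩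
  rw [← MvPolynomial.sum_homogeneousComponent R, map_sum]
  refine Finset.sum_eq_zero fun i _ => EtK2_pt_rel h ?_
  exact (gen_eq_zero_iff (coordFun_ne_zero_iff.2 hj) (homogeneousComponent_isHomogeneous i R)).2 (hQ' R hR i)

/-- the image of a point -/
private theorem EtK2_image [Q'.IsPrime] (hQ' : Homog Q') {p : PN M → PN N} {ξ : Fin (N + 1) → FunField Q'} {j : Fin (M + 1)} (hj : X j ∉ Q') {D : ℕ}
    {γ : Fin (N + 1) → MvPolynomial (Fin (M + 1)) ℂ} (hγ : ∀ i, (γ i).IsHomogeneous D) (hrep : ∀ y ∈ projVar Q', vals γ y.rep ≠ 0 → p y = rmap γ y)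
    {i₁ : Fin (N + 1)} (hξ : ∀ i, ξ i * aeval (fun l => ratio Q' l j) (γ i₁) = aeval (fun l => ratio Q' l j) (γ i))
    {y : Fin (M + 1) → ℂ} {x : Fin (N + 1) → ℂ} (h : Pt (fun l => ratio Q' l j) ξ y x) (hy : y ≠ 0) (hy1 : eval y (γ i₁) ≠ 0) :
    ∃ hx : x ≠ 0, p (Projectivization.mk ℂ y hy) = Projectivization.mk ℂ x hx := by
  have h1 : vals γ y = eval y (γ i₁) • x := by
    funext i
    change eval y (γ i) = eval y (γ i₁) * x i
    rw [← EtK2_pt_form h (hξ i), mul_comm]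
  have h2 : vals γ y ≠ 0 := fun h3 => hy1 (congrFun h3 i₁)
  have hx : x ≠ 0 := by
    rintro rfl
    rw [smul_zero] at h1
    exact h2 h1
  refine ⟨hx, ?_⟩
  have h3 : vals γ (Projectivization.mk ℂ y hy).rep ≠ 0 := by
    obtain ⟨a, ha⟩ := Projectivization.exists_smul_eq_mk_rep ℂ y hy
    have h4 : (Projectivization.mk ℂ y hy).rep = (a : ℂ) • y := ha.symm
    rw [h4, Pool.Agent.H7.Bir.vals_smul hγ]
    exact smul_ne_zero (pow_ne_zero _ a.ne_zero) h2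
  rw [hrep _ (EtK2_pt_mem hQ' hj h hy) h3, Pool.Agent.H7.Bir.rmap_mk hγ hy h2, Projectivization.mk_eq_mk_iff']
  exact ⟨eval y (γ i₁), h1.symm⟩

/-- local injectivity for any system of forms which represents `p` -/
private theorem EtK2_main [Q.IsPrime] [Q'.IsPrime] (hQ' : Homog Q') (hG' : ∀ l, ∃ e, (G' l).IsHomogeneous e)
    {p : PN M → PN N} (hp : IsEtaleOver P P' G G' p) (hle' : P' ≤ Q') {φ : FunField Q →ₐ[ℂ] FunField Q'} (hφ : Induces Q Q' p φ)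
    {j : Fin (M + 1)} (hj : X j ∉ Q') {D : ℕ} {γ : Fin (N + 1) → MvPolynomial (Fin (M + 1)) ℂ} (hγ : ∀ i, (γ i).IsHomogeneous D)
    (hrep : ∀ y ∈ projVar P', vals γ y.rep ≠ 0 → p y = rmap γ y) {i₁ : Fin (N + 1)} (hi₁ : γ i₁ ∉ Q') (m : Fin s') :
    LocInj (fun l => ratio Q' l j) (fun i => φ (ratio Q i i₁)) (γ i₁ * G' m) := by
  have hrep' : ∀ y ∈ projVar Q', vals γ y.rep ≠ 0 → p y = rmap γ y := fun y hy => hrep y (EtK2_projVar_le hle' hy)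
  have hξ := hφ D γ hγ hrep' i₁ hi₁ j hj
  intro y₀ x₀ hpt hU
  rw [map_mul] at hU
  have hU1 : eval y₀ (γ i₁) ≠ 0 := left_ne_zero_of_mul hU
  have hU2 : eval y₀ (G' m) ≠ 0 := right_ne_zero_of_mul hU
  have hy0 : y₀ ≠ 0 := by
    rintro rfl
    have h1 := EtK2_pt_coord hj hpt
    simp at h1
  have hloc : Projectivization.mk ℂ y₀ hy0 ∈ locVar P' G' := by
    refine ⟨EtK2_projVar_le hle' (EtK2_pt_mem hQ' hj hpt hy0), m, ?_⟩
    obtain ⟨e, he⟩ := hG' m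
    rwa [vanishesAt_mk_iff he]
  have h1 := hp.locInj y₀ hy0 hloc
  have h2 : ∀ᶠ y in 𝓝 y₀, eval y (γ i₁) ≠ 0 := (MvPolynomial.continuous_eval (γ i₁)).continuousAt.eventually_ne hU1
  have h3 : ∀ᶠ q in 𝓝 (y₀, y₀), eval (q : (Fin (M + 1) → ℂ) × (Fin (M + 1) → ℂ)).1 (γ i₁) ≠ 0 :=
    (continuous_fst.tendsto' (y₀, y₀) y₀ rfl).eventually h2
  have h4 : ∀ᶠ q in 𝓝 (y₀, y₀), eval (q : (Fin (M + 1) → ℂ) × (Fin (M + 1) → ℂ)).2 (γ i₁) ≠ 0 :=
    (continuous_snd.tendsto' (y₀, y₀) y₀ rfl).eventually h2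
  filter_upwards [h1, h3, h4] with q hq hq1 hq2 x hx1 hx2
  have hn : ∀ {y : Fin (M + 1) → ℂ}, Pt (fun l => ratio Q' l j) (fun i => φ (ratio Q i i₁)) y x → y ≠ 0 := by
    rintro y hy rfl
    have h5 := EtK2_pt_coord hj hy
    simp at h5
  obtain ⟨hx, he1⟩ := EtK2_image hQ' hj hγ hrep' hξ hx1 (hn hx1) hq1
  obtain ⟨_, he2⟩ := EtK2_image hQ' hj hγ hrep' hξ hx2 (hn hx2) hq2
  have h5 := hq (hn hx1) (hn hx2) (EtK2_projVar_le hle' (EtK2_pt_mem hQ' hj hx1 (hn hx1))) (EtK2_projVar_le hle' (EtK2_pt_mem hQ' hj hx2 (hn hx2)))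
    (he1.trans he2.symm)
  rw [Projectivization.mk_eq_mk_iff'] at h5
  obtain ⟨a, ha⟩ := h5
  have h6 := congrFun ha j
  rw [Pi.smul_apply, EtK2_pt_coord hj hx1, EtK2_pt_coord hj hx2, smul_eq_mul, mul_one] at h6
  rw [← ha, h6, one_smul]

private theorem EtK2_coord [Q.IsPrime] [Q'.IsPrime] {φ : FunField Q →ₐ[ℂ] FunField Q'} {i₁ : Fin (N + 1)} {g : FunField Q'} (hg : g ≠ 0)
    (h : φ (ratio Q i₁ i₁) * g = g) : X i₁ ∉ Q := by
  rw [← coordFun_ne_zero_iff]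
  intro h0
  have h1 : ratio Q i₁ i₁ = 0 := by
    apply Subtype.ext
    change coordFun Q i₁ / coordFun Q i₁ = 0
    rw [h0, div_zero]
  rw [h1, map_zero, zero_mul] at h
  exact hg h.symm

theorem exists_locInj [Q.IsPrime] [Q'.IsPrime] (hQ : Homog Q) (hQ' : Homog Q') (hG : ∀ l, ∃ e, (G l).IsHomogeneous e) (hG' : ∀ l, ∃ e, (G' l).IsHomogeneous e)
    {p : PN M → PN N} (hp : IsEtaleOver P P' G G' p) (hle : P ≤ Q) (hle' : P' ≤ Q') (hd : DomPair Q Q' p) {φ : FunField Q →ₐ[ℂ] FunField Q'} (hφ : Induces Q Q' p φ)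
    {k : ℕ} {E : PrimeDivisorOver (FunField Q) k} {E' : PrimeDivisorOver (FunField Q') k} {e : ℕ} (he : 1 ≤ e) (hE : ∀ x, E'.ord (φ x) = e • E.ord x)
    (hne : (projVar Q').Nonempty) (hB : ¬ OnBd Q' G' E') :
    ∃ (i₁ : Fin (N + 1)) (j : Fin (M + 1)) (U : MvPolynomial (Fin (M + 1)) ℂ), X i₁ ∉ Q ∧ X j ∉ Q' ∧ (∀ l, 0 ≤ E'.ord (ratio Q' l j)) ∧ (∀ i, 0 ≤ E.ord (ratio Q i i₁)) ∧
      E'.ord (aeval (fun l => ratio Q' l j) U) = 0 ∧ LocInj (fun l => ratio Q' l j) (fun i => φ (ratio Q i i₁)) U := by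
  obtain ⟨y, hy⟩ := hne
  obtain ⟨i₀, hi₀⟩ := exists_coord hy
  obtain ⟨j, hj', hreg⟩ := exists_center E' (coordFun_ne_zero_iff.2 hi₀)
  have hj : X j ∉ Q' := coordFun_ne_zero_iff.1 hj'
  obtain ⟨D, γ, i₁, hγ, hrep, hord⟩ := exists_center_rep hQ' hp.reg hle' E' hj hreg
  have hγ0 : aeval (fun l => ratio Q' l j) (γ i₁) ≠ 0 := by
    intro h
    rw [h, E'.ord.map_zero] at hord
    exact WithTop.top_ne_zero hord
  have hγ1 : γ i₁ ∉ Q' := fun h => hγ0 ((gen_eq_zero_iff hj' (hγ i₁)).2 h)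
  obtain ⟨m, hm⟩ : ∃ m, ¬ 0 < E'.ord (aeval (fun i => ratio Q' i j) (G' m)) := by
    by_contra hcon
    push Not at hcon
    exact hB ⟨j, hj', hreg, hcon⟩
  have hm0 : E'.ord (aeval (fun i => ratio Q' i j) (G' m)) = 0 := le_antisymm (not_lt.1 hm) (ord_gen_nonneg E' hreg (G' m))
  have hrep' : ∀ y ∈ projVar Q', vals γ y.rep ≠ 0 → p y = rmap γ y := fun y hy => hrep y (EtK2_projVar_le hle' hy)
  have hξ := hφ D γ hγ hrep' i₁ hγ1 j hj
  refine ⟨i₁, j, γ i₁ * G' m, EtK2_coord hγ0 (hξ i₁), hj, hreg, fun i => ?_, ?_, EtK2_main hQ' hG' hp hle' hφ hj hγ hrep hγ1 m⟩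
  · have h1 : E'.ord (φ (ratio Q i i₁)) = E'.ord (aeval (fun l => ratio Q' l j) (γ i)) := by
      rw [← hξ i, E'.ord.map_mul, hord, add_zero]
    have h2 : 0 ≤ e • E.ord (ratio Q i i₁) := by
      rw [← hE, h1]
      exact ord_gen_nonneg E' hreg (γ i)
    by_contra hcon
    push Not at hcon
    have h3 : e • E.ord (ratio Q i i₁) < 0 := by
      obtain ⟨a, ha⟩ := WithTop.ne_top_iff_exists.1 (ne_top_of_lt hcon)
      rw [← ha] at hcon ⊢
      have h4 : a < 0 := by exact_mod_cast hcon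
      have h5 : e • a < 0 := by
        rw [nsmul_eq_mul]
        exact mul_neg_of_pos_of_neg (by exact_mod_cast he) h4
      exact_mod_cast h5
    exact absurd h2 (not_le.2 h3)
  · rw [map_mul, E'.ord.map_mul, hord, zero_add]
    exact hm0

theorem exists_locInj_gen [Q.IsPrime] [Q'.IsPrime] (hQ : Homog Q) (hQ' : Homog Q') (hG' : ∀ l, ∃ e, (G' l).IsHomogeneous e)
    {p : PN M → PN N} (hp : IsEtaleOver P P' G G' p) (hle : P ≤ Q) (hle' : P' ≤ Q') (hd : DomPair Q Q' p) {φ : FunField Q →ₐ[ℂ] FunField Q'} (hφ : Induces Q Q' p φ)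
    (hne : (locVar Q' G').Nonempty) :
    ∃ (i₁ : Fin (N + 1)) (j : Fin (M + 1)) (U : MvPolynomial (Fin (M + 1)) ℂ), X i₁ ∉ Q ∧ X j ∉ Q' ∧
      aeval (fun l => ratio Q' l j) U ≠ 0 ∧ LocInj (fun l => ratio Q' l j) (fun i => φ (ratio Q i i₁)) U := by
  obtain ⟨y, hy, m, hm⟩ := hne
  obtain ⟨j, hj⟩ := exists_coord (P := Q') hy
  have hj' : coordFun Q' j ≠ 0 := coordFun_ne_zero_iff.2 hj
  obtain ⟨D, γ, hγ, hv, hrep⟩ := hp.reg.regular y (EtK2_projVar_le hle' hy)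
  obtain ⟨i₁, hi₁⟩ : ∃ i, eval y.rep (γ i) ≠ 0 := by
    by_contra hcon
    push Not at hcon
    exact hv (funext hcon)
  have hγ1 : γ i₁ ∉ Q' := fun h => hi₁ (hy _ h D (hγ i₁))
  obtain ⟨e, he⟩ := hG' m
  have hm1 : G' m ∉ Q' := fun h => hm (hy _ h e he)
  have hγ0 : aeval (fun l => ratio Q' l j) (γ i₁) ≠ 0 := fun h => hγ1 ((gen_eq_zero_iff hj' (hγ i₁)).1 h)
  have hm0 : aeval (fun l => ratio Q' l j) (G' m) ≠ 0 := fun h => hm1 ((gen_eq_zero_iff hj' he).1 h)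
  have hrep' : ∀ y ∈ projVar Q', vals γ y.rep ≠ 0 → p y = rmap γ y := fun y hy => hrep y (EtK2_projVar_le hle' hy)
  have hξ := hφ D γ hγ hrep' i₁ hγ1 j hj
  refine ⟨i₁, j, γ i₁ * G' m, EtK2_coord hγ0 (hξ i₁), hj, ?_, EtK2_main hQ' hG' hp hle' hφ hj hγ hrep hγ1 m⟩
  rw [map_mul]
  exact mul_ne_zero hγ0 hm0

end Pool.Agent.GTL
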