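import Pool.Agent.GTL.EtDf
import Pool.Agent.H62.Qe.Dom
import Pool.Agent.H62.FC.Components

/-!
# GTL EtL: components of the inverse image of a closed subvariety

PROOF.  `domPair_self`: `reg.maps`, `reg.surj`, `H17EF.exists_point`.  `exists_pair`: let `I'` be the ideal generated by the forms which vanish at all points `y`
of `projVar P'` with `p y ∈ projVar Q`.  A point `y` of `projVar P'` is a zero of `I'` iff `p y ∈ projVar Q` (`Qe.exists_cover`, the forms `R (γ k)`, `R ∈ Q`).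
The minimal primes `Q' i` of `I'` are finitely many and homogeneous.  If for every `i` there is a form `R i ∉ Q` which vanishes at all `p y`,
`y ∈ projVar (Q' i)`: `∏ R i ∉ Q` vanishes at `p y` for all `y` with `p y ∈ projVar Q` (`y` lies in some `projVar (Q' i)`), so on `projVar Q` (`reg.surj`),
so it is in `Q` (`H17EF.exists_point`), a contradiction.  So some `Q' i` has `DomPair.dense`.
-/

set_option autoImplicit false

open MvPolynomial
open Pool.Agent.H17 (PN VanishesAt)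
open Pool.Agent.H17EF (projVar)
open Pool.Agent.H62.FC (Homog)
open Pool.Agent.H62.Qe (IsReg)
open Pool.Agent.H7.Bir (vals rmap)

noncomputable section

namespace Pool.Agent.GTL

variable {N M : ℕ} {P Q : Ideal (MvPolynomial (Fin (N + 1)) ℂ)} {P' : Ideal (MvPolynomial (Fin (M + 1)) ℂ)}

theorem domPair_self [P.IsPrime] (hP : Homog P) (hX : ∃ i, X i ∉ P) {p : PN M → PN N} (hp : IsReg P P' p) : DomPair P P' p := by
  refine ⟨hp.maps, fun R n hR hRP => ?_⟩
  obtain ⟨x, hx, hxR⟩ := Pool.Agent.H17EF.exists_point hP hX hRP hR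
  obtain ⟨y, hy, rfl⟩ := hp.surj x hx
  exact ⟨y, hy, hxR⟩

/-- the composition of a form of `Q` with forms which represent `p` vanishes at the points over `projVar Q` -/
private theorem EtL_comp {p : PN M → PN N} {γ : Fin (N + 1) → MvPolynomial (Fin (M + 1)) ℂ}
    (hrep : ∀ y ∈ projVar P', vals γ y.rep ≠ 0 → p y = rmap γ y) {R : MvPolynomial (Fin (N + 1)) ℂ} {n : ℕ} (hR : R.IsHomogeneous n) (hRQ : R ∈ Q)
    {y : PN M} (hy : y ∈ projVar P') (hpy : p y ∈ projVar Q) : VanishesAt (aeval γ R) y := by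
  by_cases h1 : vals γ y.rep = 0
  · unfold VanishesAt
    rw [Pool.Agent.H7.Bir.eval_comp, h1]
    have h2 : eval (p y).rep R = 0 := hpy R hRQ n hR
    have h3 := Pool.Agent.H17BP.eval_smul_form hR 0 (p y).rep
    rw [zero_smul, h2, mul_zero] at h3
    exact h3
  · rw [← Pool.Agent.H7.Bir.vanishesAt_rmap h1 hR, ← hrep y hy h1]
    exact hpy R hRQ n hR

theorem exists_pair [P'.IsPrime] [Q.IsPrime] (hP' : Homog P') (hQ : Homog Q) (hX : ∃ i, X i ∉ Q) {p : PN M → PN N} (hp : IsReg P P' p) (hle : P ≤ Q) :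
    ∃ (Q' : Ideal (MvPolynomial (Fin (M + 1)) ℂ)) (_ : Q'.IsPrime), Homog Q' ∧ P' ≤ Q' ∧ DomPair Q Q' p := by
  obtain ⟨r, D, γ, hγ, -, hrep, hcov⟩ := Pool.Agent.H62.Qe.exists_cover hP' hp
  obtain ⟨κ, A, e, hA, hAv, hAe⟩ : ∃ (κ : Type) (A : κ → MvPolynomial (Fin (M + 1)) ℂ) (e : κ → ℕ), (∀ l, (A l).IsHomogeneous (e l)) ∧
      (∀ l, ∀ y ∈ projVar P', p y ∈ projVar Q → VanishesAt (A l) y) ∧
      ∀ (T : MvPolynomial (Fin (M + 1)) ℂ) (n : ℕ), T.IsHomogeneous n → (∀ y ∈ projVar P', p y ∈ projVar Q → VanishesAt T y) → ∃ l, A l = T :=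
    ⟨{l : MvPolynomial (Fin (M + 1)) ℂ × ℕ // l.1.IsHomogeneous l.2 ∧ ∀ y ∈ projVar P', p y ∈ projVar Q → VanishesAt l.1 y},
      fun l => l.1.1, fun l => l.1.2, fun l => l.2.1, fun l => l.2.2, fun T n hT h => ⟨⟨(T, n), hT, h⟩, rfl⟩⟩
  have hfin := Ideal.finite_minimalPrimes_of_isNoetherianRing _ (Ideal.span (Set.range A))
  have hmem : ∀ (T : MvPolynomial (Fin (M + 1)) ℂ) (n : ℕ), T.IsHomogeneous n → (∀ y ∈ projVar P', p y ∈ projVar Q → VanishesAt T y) →
      T ∈ Ideal.span (Set.range A) := by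
    intro T n hT h
    obtain ⟨l, rfl⟩ := hAe T n hT h
    exact Ideal.subset_span ⟨l, rfl⟩
  have hPI : P' ≤ Ideal.span (Set.range A) := by
    intro q hq
    rw [← MvPolynomial.sum_homogeneousComponent q]
    refine Ideal.sum_mem _ fun i _ => hmem _ i (homogeneousComponent_isHomogeneous i q) fun y hy _ => ?_
    exact hy _ (hP' q hq i) i (homogeneousComponent_isHomogeneous i q)
  by_contra hcon
  push Not at hcon
  have hbad : ∀ J ∈ (Ideal.span (Set.range A)).minimalPrimes, ∃ (R : MvPolynomial (Fin (N + 1)) ℂ) (n : ℕ), R.IsHomogeneous n ∧ R ∉ Q ∧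
      ∀ x ∈ p '' projVar J, VanishesAt R x := by
    intro J hJ
    have hJp : J.IsPrime := hJ.1.1
    have hJh : Homog J := Pool.Agent.H62.FC.homog_of_minimal hA hJ
    have hPJ : P' ≤ J := hPI.trans hJ.1.2
    by_contra hcon2
    push Not at hcon2
    refine hcon J hJp hJh hPJ ⟨fun y hy => ?_, fun R n hR hRQ => ?_⟩
    · have hyP : y ∈ projVar P' := fun T hT n hTn => hy T (hPJ hT) n hTn
      obtain ⟨k, hk⟩ := hcov y hyP
      intro R hR n hRn
      rw [hrep k y hyP hk, Pool.Agent.H7.Bir.vanishesAt_rmap hk hRn]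
      have h1 : (aeval (γ k) R).IsHomogeneous (D k * n) := hRn.aeval _ (hγ k)
      refine hy _ (hJ.1.2 (hmem _ _ h1 fun y' hy' hpy' => ?_)) _ h1
      exact EtL_comp (hrep k) hRn hR hy' hpy'
    · obtain ⟨x, ⟨y, hy, rfl⟩, hx⟩ := hcon2 R n hR hRQ
      exact ⟨y, hy, hx⟩
  obtain ⟨S, m, hS, hSQ, hSv⟩ := Pool.Agent.H17EF.exists_prod (P := Q) hfin (A := fun J => p '' projVar J) hbad
  obtain ⟨x, hx, hSx⟩ := Pool.Agent.H17EF.exists_point hQ hX hSQ hS
  have hxP : x ∈ projVar P := fun T hT n hTn => hx T (hle hT) n hTn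
  obtain ⟨y, hy, rfl⟩ := hp.surj x hxP
  have hker : Ideal.span (Set.range A) ≤ RingHom.ker (eval y.rep : MvPolynomial (Fin (M + 1)) ℂ →+* ℂ) := by
    rw [Ideal.span_le]
    rintro _ ⟨l, rfl⟩
    exact hAv l y hy hx
  have hkp : (RingHom.ker (eval y.rep : MvPolynomial (Fin (M + 1)) ℂ →+* ℂ)).IsPrime := RingHom.ker_isPrime _
  obtain ⟨J, hJ, hJle⟩ := Ideal.exists_minimalPrimes_le hker
  apply hSx
  refine hSv _ ?_
  simp only [Set.mem_iUnion]
  exact ⟨J, hJ, y, fun T hT n _ => hJle hT, rfl⟩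

end Pool.Agent.GTL
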