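import Pool.Agent.GTL.EtD
import Pool.Agent.GTL.EtI
import Pool.Agent.GTL.EtI2
import Pool.Agent.GTL.EtJ
import Pool.Agent.GTL.EtK
import Pool.Agent.GTL.EtK2
import Pool.Agent.GTL.EtL

/-!
# GTL EtP: log general type for pairs of closed subvarieties of `U'` and `U`
-/

set_option autoImplicit false

open MvPolynomial
open Pool.Agent.H17 (PN VanishesAt)
open Pool.Agent.H17EF (projVar)
open Pool.Agent.H23.Fano (PrimeDivisorOver)
open Pool.Agent.H17LG.Variety (FunField ratio IsLogGeneralType)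
open Pool.Agent.H62.FC (Homog)
open Pool.Agent.H62.SA (locVar OnBd)
open Pool.Agent.H62.Qe (IsEtaleOver)

noncomputable section

namespace Pool.Agent.GTL

variable {N M : ℕ} {P Q : Ideal (MvPolynomial (Fin (N + 1)) ℂ)} {P' Q' : Ideal (MvPolynomial (Fin (M + 1)) ℂ)} {s s' : ℕ}
  {G : Fin s → MvPolynomial (Fin (N + 1)) ℂ} {G' : Fin s' → MvPolynomial (Fin (M + 1)) ℂ}

theorem pair_nonempty [Q.IsPrime] {p : PN M → PN N} (hd : DomPair Q Q' p) : (projVar Q').Nonempty := by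
  obtain ⟨y, hy, -⟩ := hd.dense 1 0 (isHomogeneous_one _ _) fun h => (Ideal.ne_top_iff_one Q).1 (Ideal.IsPrime.ne_top inferInstance) h
  exact ⟨y, hy⟩

/-- a form which does not vanish on `Z` does not vanish at some point of `Z' ∩ U'` over it -/
theorem pair_point [Q.IsPrime] (hG : ∀ l, ∃ e, (G l).IsHomogeneous e) {p : PN M → PN N} (hp : IsEtaleOver P P' G G' p) (hle' : P' ≤ Q')
    (hd : DomPair Q Q' p) (hne : (locVar Q G).Nonempty) {R : MvPolynomial (Fin (N + 1)) ℂ} {n : ℕ} (hR : R.IsHomogeneous n) (hRQ : R ∉ Q) :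
    ∃ y ∈ locVar Q' G', ¬ VanishesAt R (p y) := by
  obtain ⟨x, hx, l, hl⟩ := hne
  obtain ⟨e, he⟩ := hG l
  have hGQ : G l ∉ Q := fun h => hl (hx _ h e he)
  have h1 : R * G l ∉ Q := fun h => (Ideal.IsPrime.mem_or_mem inferInstance h).elim hRQ hGQ
  obtain ⟨y, hy, hyn⟩ := hd.dense (R * G l) (n + e) (hR.mul he) h1
  unfold VanishesAt at hyn
  rw [map_mul] at hyn
  have h2 : ¬ VanishesAt R (p y) := fun h => hyn (by rw [show eval (p y).rep R = 0 from h, zero_mul])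
  have h3 : ¬ VanishesAt (G l) (p y) := fun h => hyn (by rw [show eval (p y).rep (G l) = 0 from h, mul_zero])
  have hyP' : y ∈ projVar P' := fun S hS m hm => hy S (hle' hS) m hm
  have h4 : p y ∈ locVar P G := ⟨hp.reg.maps y hyP', l, h3⟩
  have h5 := (hp.inv y hyP').1 h4
  exact ⟨y, ⟨hy, h5.2⟩, h2⟩

/-- `EtD`, `EtI`, `EtI2` for a homomorphism `φ : K → K'` -/
theorem descend_hom {K K' : Type} [Field K] [Algebra ℂ K] [Field K'] [Algebra ℂ K'] [Algebra.EssFiniteType ℂ K] [Algebra.EssFiniteType ℂ K'] (φ : K →ₐ[ℂ] K')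
    {k : ℕ} (hk : 1 ≤ k) {z : Fin k → K} (hz : IsTranscendenceBasis ℂ z) {M N : ℕ} {η₀ : Fin (M + 1) → K'} (hη₀ : IntermediateField.adjoin ℂ (Set.range η₀) = ⊤)
    {ξ₀ : Fin (N + 1) → K} {U₀ : MvPolynomial (Fin (M + 1)) ℂ} (hU₀ : aeval η₀ U₀ ≠ 0) (hLI₀ : LocInj η₀ (fun i => φ (ξ₀ i)) U₀)
    {Bd : PrimeDivisorOver K k → Prop} {Bd' : PrimeDivisorOver K' k → Prop}
    (hB : ∀ (E : PrimeDivisorOver K k) (E' : PrimeDivisorOver K' k) (e : ℕ), 1 ≤ e → (∀ x, E'.ord (φ x) = e • E.ord x) → (Bd E ↔ Bd' E'))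
    (hU : ∀ (E : PrimeDivisorOver K k) (E' : PrimeDivisorOver K' k) (e : ℕ), 1 ≤ e → (∀ x, E'.ord (φ x) = e • E.ord x) → ¬ Bd E →
      ∃ (η : Fin (M + 1) → K') (ξ : Fin (N + 1) → K) (U : MvPolynomial (Fin (M + 1)) ℂ), (∀ l, 0 ≤ E'.ord (η l)) ∧ IntermediateField.adjoin ℂ (Set.range η) = ⊤ ∧
        (∀ i, 0 ≤ E.ord (ξ i)) ∧ E'.ord (aeval η U) = 0 ∧ LocInj η (fun i => φ (ξ i)) U) :
    (∃ z' : Fin k → K', IsTranscendenceBasis ℂ z') ∧ (IsLogGeneralType Bd' → IsLogGeneralType Bd) := by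
  let _ : Algebra K K' := φ.toRingHom.toAlgebra
  have hmap : ∀ x, algebraMap K K' x = φ x := fun _ => rfl
  have : IsScalarTower ℂ K K' := IsScalarTower.of_algebraMap_eq fun c => by
    rw [hmap, φ.commutes]
  have hessK : Algebra.EssFiniteType K K' := Algebra.EssFiniteType.of_comp ℂ K K'
  have halg : Algebra.IsAlgebraic K K' := algebraic_of_locInj hη₀ hU₀ hLI₀
  have hfin : FiniteDimensional K K' := Algebra.finite_of_essFiniteType_of_isAlgebraic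
  refine ⟨⟨algebraMap K K' ∘ z, hz.algebraMap_comp⟩, fun h => ?_⟩
  refine lgt_descend hk hz (fun E E' e hE => hB E E' e hE.1 hE.2) (fun E E' e hE hEB => ?_) h
  obtain ⟨η, ξ, U, h1, h2, h3, h4, h5⟩ := hU E E' e hE.1 hE.2 hEB
  exact unram_of_locInj hk hz hE h1 h2 h3 h4 h5

/-- **Log general type goes down from `Z' ∩ U'` to `Z ∩ U`**, and the dimensions are equal. -/
theorem lgt_pair [Q.IsPrime] [Q'.IsPrime] (hQ : Homog Q) (hQ' : Homog Q') (hG : ∀ l, ∃ e, (G l).IsHomogeneous e) (hG' : ∀ l, ∃ e, (G' l).IsHomogeneous e)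
    {p : PN M → PN N} (hp : IsEtaleOver P P' G G' p) (hle : P ≤ Q) (hle' : P' ≤ Q') (hd : DomPair Q Q' p) (hne : (locVar Q G).Nonempty) {k : ℕ} (hk : 1 ≤ k)
    (hz : ∃ z : Fin k → FunField Q, IsTranscendenceBasis ℂ z) :
    (∃ z' : Fin k → FunField Q', IsTranscendenceBasis ℂ z') ∧ (IsLogGeneralType (OnBd Q' G' (k := k)) → IsLogGeneralType (OnBd Q G (k := k))) := by
  have hneP : (projVar Q').Nonempty := pair_nonempty hd
  have hne' : (locVar Q' G').Nonempty := by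
    obtain ⟨y, hy, -⟩ := pair_point hG hp hle' hd hne (R := 1) (isHomogeneous_one _ _)
      fun h => (Ideal.ne_top_iff_one Q).1 (Ideal.IsPrime.ne_top inferInstance) h
    exact ⟨y, hy⟩
  obtain ⟨φ, hφ⟩ := exists_induces hQ hQ' hp.reg hle' hneP hd
  have hess : Algebra.EssFiniteType ℂ (FunField Q) := H17GT.essFiniteType_functionField Q
  have hess' : Algebra.EssFiniteType ℂ (FunField Q') := H17GT.essFiniteType_functionField Q'
  obtain ⟨i₁, j, U, hi₁, hj, hU, hLI⟩ := exists_locInj_gen hQ hQ' hG' hp hle hle' hd hφ hne'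
  obtain ⟨z, hz⟩ := hz
  have hB : ∀ (E : PrimeDivisorOver (FunField Q) k) (E' : PrimeDivisorOver (FunField Q') k) (e : ℕ), 1 ≤ e → (∀ x, E'.ord (φ x) = e • E.ord x) →
      (OnBd Q G E ↔ OnBd Q' G' E') := fun E E' e he hE => onBd_iff hQ hQ' hG hG' hp hle hle' hd hφ he hE hneP
  refine descend_hom φ hk hz (Pool.Agent.H17R.adjoin_ratio (Pool.Agent.H17R.coordFun_ne_zero_iff.2 hj)) hU hLI hB (fun E E' e he hE hEB => ?_)
  have hEB' : ¬ OnBd Q' G' E' := fun h1 => hEB ((hB E E' e he hE).2 h1)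
  obtain ⟨i₁, j, U, hi₁, hj, hη0, hξ0, hU, hLI⟩ := exists_locInj hQ hQ' hG hG' hp hle hle' hd hφ he hE hneP hEB'
  exact ⟨_, _, U, hη0, Pool.Agent.H17R.adjoin_ratio (Pool.Agent.H17R.coordFun_ne_zero_iff.2 hj), hξ0, hU, hLI⟩

end Pool.Agent.GTL
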