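import Pool.Agent.GTL.Defs
import Pool.Agent.H62.Qe.Main
import Pool.Agent.GTL.EtIm
import Pool.Agent.GTL.EtP

/-!
# GTL Et: the four properties go down along finite etale coverings (owner: helper12)
-/

set_option autoImplicit false

open MvPolynomial
open Pool.Agent.H17 (PN VanishesAt ZariskiClosedIn HolomorphicInto puncturedDisc)
open Pool.Agent.H17EF (projVar)
open Pool.Agent.H17LG.Variety (FunField ratio IsLogGeneralType)
open Pool.Agent.H62.FC (Homog)
open Pool.Agent.H62.SA (locVar OnBd)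
open Pool.Agent.H62.Qe (IsEtaleOver lift_entire lift_punctured extend_of_lift)
open Pool.Agent.H7.Bir (GGLOpen mem_of_open)

noncomputable section

namespace Pool.Agent.GTL

variable {N M : ℕ} {P : Ideal (MvPolynomial (Fin (N + 1)) ℂ)} {P' : Ideal (MvPolynomial (Fin (M + 1)) ℂ)} {s s' : ℕ}
  {G : Fin s → MvPolynomial (Fin (N + 1)) ℂ} {G' : Fin s' → MvPolynomial (Fin (M + 1)) ℂ}

private theorem etale_both [P.IsPrime] [P'.IsPrime] (hP : Homog P) (hP' : Homog P') (hG : ∀ l, ∃ e, (G l).IsHomogeneous e) (hG' : ∀ l, ∃ e, (G' l).IsHomogeneous e)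
    (hne : (locVar P G).Nonempty) {k : ℕ} (hz : ∃ z : Fin (k + 1) → FunField P, IsTranscendenceBasis ℂ z) {p : PN M → PN N} (hp : IsEtaleOver P P' G G' p) :
    (∃ z : Fin (k + 1) → FunField P', IsTranscendenceBasis ℂ z) ∧
      (IsLogGeneralType (OnBd P' G' (k := k + 1)) → IsLogGeneralType (OnBd P G (k := k + 1))) := by
  have hX : ∃ i, X i ∉ P := by
    obtain ⟨x, hx⟩ := hne
    exact Pool.Agent.H17EF.exists_coord (P := P) hx.1
  exact lgt_pair hP hP' hG hG' hp le_rfl le_rfl (domPair_self hP hX hp.reg) hne (Nat.succ_le_succ (Nat.zero_le k)) hz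

theorem basis_etale [P.IsPrime] [P'.IsPrime] (hP : Homog P) (hP' : Homog P') (hG : ∀ l, ∃ e, (G l).IsHomogeneous e) (hG' : ∀ l, ∃ e, (G' l).IsHomogeneous e)
    (hne : (locVar P G).Nonempty) {k : ℕ} (hz : ∃ z : Fin (k + 1) → FunField P, IsTranscendenceBasis ℂ z) {p : PN M → PN N} (hp : IsEtaleOver P P' G G' p) :
    ∃ z : Fin (k + 1) → FunField P', IsTranscendenceBasis ℂ z := (etale_both hP hP' hG hG' hne hz hp).1

theorem logGT_etale [P.IsPrime] [P'.IsPrime] (hP : Homog P) (hP' : Homog P') (hG : ∀ l, ∃ e, (G l).IsHomogeneous e) (hG' : ∀ l, ∃ e, (G' l).IsHomogeneous e)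
    (hne : (locVar P G).Nonempty) {k : ℕ} (hz : ∃ z : Fin (k + 1) → FunField P, IsTranscendenceBasis ℂ z) {p : PN M → PN N} (hp : IsEtaleOver P P' G G' p)
    (h : IsLogGeneralType (OnBd P' G' (k := k + 1))) : IsLogGeneralType (OnBd P G (k := k + 1)) := (etale_both hP hP' hG hG' hne hz hp).2 h

theorem ggl_etale [P.IsPrime] [P'.IsPrime] (hP : Homog P) (hP' : Homog P') (hG : ∀ l, ∃ e, (G l).IsHomogeneous e) (hG' : ∀ l, ∃ e, (G' l).IsHomogeneous e)
    (hne : (locVar P G).Nonempty) {k : ℕ} (hz : ∃ z : Fin (k + 1) → FunField P, IsTranscendenceBasis ℂ z) {p : PN M → PN N} (hp : IsEtaleOver P P' G G' p)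
    {Ξ' : Set (PN M)} (h : GGLOpen P' G' Ξ') : ∃ Ξ : Set (PN N), GGLOpen P G Ξ := by
  have hz' := basis_etale hP hP' hG hG' hne hz hp
  -- a form which vanishes on the exceptional set
  obtain ⟨S, hS, hΞS⟩ := h.closed
  obtain ⟨y₀, hy₀, R', hR'S, hR'y₀⟩ : ∃ y ∈ locVar P' G', ∃ R ∈ S, ¬ VanishesAt R y := by
    by_contra hcon
    push Not at hcon
    apply h.proper
    rw [hΞS]
    ext y
    exact ⟨fun hy => hy.1, fun hy => ⟨hy, fun R hR => hcon y hy R hR⟩⟩
  obtain ⟨n', hn'⟩ := hS R' hR'S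
  have hR'P : R' ∉ P' := fun h1 => hR'y₀ (hy₀.1 R' h1 n' hn')
  have hR'v : ∀ y ∈ Ξ', VanishesAt R' y := by
    intro y hy
    rw [hΞS] at hy
    exact hy.2 R' hR'S
  have hX : ∃ i, X i ∉ P := by
    obtain ⟨x, hx⟩ := hne
    exact Pool.Agent.H17EF.exists_coord (P := P) hx.1
  obtain ⟨T, n, hT, hTP, hTv⟩ := exists_image_form_all hP hP' hX hz hz' hp.reg hn' hR'P
  -- the exceptional set
  refine ⟨{x | x ∈ locVar P G ∧ VanishesAt T x}, ?_⟩
  have hclosed : ZariskiClosedIn (locVar P G) {x | x ∈ locVar P G ∧ VanishesAt T x} := by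
    refine ⟨{T}, fun R hR => ?_, ?_⟩
    · rw [Set.mem_singleton_iff.1 hR]
      exact ⟨n, hT⟩
    · ext x
      constructor
      · rintro ⟨h1, h2⟩
        refine ⟨h1, fun R hR => ?_⟩
        rw [Set.mem_singleton_iff.1 hR]
        exact h2
      · rintro ⟨h1, h2⟩
        exact ⟨h1, h2 T rfl⟩
  have hbrody : ∀ f : ℂ → PN N, HolomorphicInto f Set.univ → (∀ z, f z ∈ locVar P G) → (∃ z w, f z ≠ f w) →
      ∀ z, f z ∈ {x | x ∈ locVar P G ∧ VanishesAt T x} := by
    intro f hf hfU hfn z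
    obtain ⟨g, hg, hgU, hgf⟩ := lift_entire hP' hp hf hfU
    have hgn : ∃ z w, g z ≠ g w := by
      obtain ⟨a, b, hab⟩ := hfn
      refine ⟨a, b, fun h1 => hab ?_⟩
      rw [← hgf a, ← hgf b, h1]
    refine ⟨hfU z, ?_⟩
    rw [← hgf z]
    exact hTv _ (hgU z).1 (hR'v _ (h.brody g hg hgU hgn z))
  refine ⟨hclosed, ?_, ?_, ?_, hbrody, ?_⟩
  · intro heq
    apply hTP
    refine mem_of_open hP hG hne hT fun x hx => ?_
    rw [← heq] at hx
    exact hx.2
  · intro w hw hzw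
    obtain ⟨k', rfl⟩ : ∃ k', w = k' + 1 := ⟨w - 1, by omega⟩
    have hb := etale_both hP hP' hG hG' hne hzw hp
    exact hb.2 (h.logGeneralType _ hw hb.1)
  · intro f hf hfU hfΞ
    obtain ⟨k, g, hk, hg, hgU, hgf⟩ := lift_punctured hP' hp hf hfU
    have hgΞ : ∃ z ∈ puncturedDisc, g z ∉ Ξ' := by
      by_contra hcon
      push Not at hcon
      obtain ⟨w, hw, hwΞ⟩ := hfΞ
      apply hwΞ
      refine ⟨hfU w hw, ?_⟩
      obtain ⟨z, hz⟩ := IsAlgClosed.exists_pow_nat_eq w (by omega : 0 < k)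
      have hzD : z ∈ puncturedDisc := by
        refine ⟨?_, ?_⟩
        · rw [mem_ball_zero_iff]
          by_contra h1
          push Not at h1
          have h2 : 1 ≤ ‖z‖ ^ k := one_le_pow₀ h1
          rw [← norm_pow, hz] at h2
          have h3 : ‖w‖ < 1 := by
            rw [← mem_ball_zero_iff]
            exact hw.1
          linarith
        · rintro rfl
          apply hw.2
          rw [Set.mem_singleton_iff, ← hz, zero_pow (by omega)]
      rw [← hz, ← hgf z hzD]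
      exact hTv _ (hgU z hzD).1 (hR'v _ (hcon z hzD))
    obtain ⟨ĝ, hĝ, hgg⟩ := h.picard g hg hgU hgΞ
    exact extend_of_lift hp.reg hf hk (fun z hz => (hgU z hz).1) hgf hĝ hgg
  · intro Q _ hQ hPQ hsub w hw hzw
    -- a point of `Z ∩ U` off the exceptional set
    obtain ⟨x, hxQ, hxT⟩ : ∃ x ∈ locVar Q G, ¬ VanishesAt T x := by
      by_contra hcon
      push Not at hcon
      exact hsub fun x hx => ⟨⟨fun R hR m hm => hx.1 R (hPQ hR) m hm, hx.2⟩, hcon x hx⟩
    have hTQ : T ∉ Q := fun h1 => hxT (hxQ.1 T h1 n hT)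
    have hneQ : (locVar Q G).Nonempty := ⟨x, hxQ⟩
    obtain ⟨Q', hQ'p, hQ', hle', hd⟩ := exists_pair hP' hQ (Pool.Agent.H17EF.exists_coord (P := Q) hxQ.1) hp.reg hPQ
    have hb := lgt_pair hQ hQ' hG hG' hp hPQ hle' hd hneQ hw hzw
    refine hb.2 (h.strongly Q' hQ' hle' ?_ w hw hb.1)
    intro hsub'
    obtain ⟨y, hy, hyT⟩ := pair_point hG hp hle' hd hneQ hT hTQ
    exact hyT (hTv y (fun S hS m hm => hy.1 S (hle' hS) m hm) (hR'v y (hsub' hy)))

end Pool.Agent.GTL
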