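import Pool.Agent.GTL.Et
import Pool.Agent.H23.GU.Down

/-!
# GTL EtDn: entire curves in finite etale coverings

`dense_etale`: a form `R'` on `X'`; the image of `R' = 0` is contained in `R = 0` for a form `R` (`H62.Qe.exists_image_form`); lift an entire curve in `U` with `R (f 0) ≠ 0` (`H62.Qe.lift_entire`).
`noext_etale`: `p ∘ f` is an entire curve in `U`, nonconstant (locally injective); if `f (1 / z)` extends then so does `p (f (1 / z))` (the value of the extension at `0` lies in the projective variety of `P'`, and `p` is regular there).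
-/

set_option autoImplicit false

open MvPolynomial Topology Filter
open Pool.Agent.H17 (PN VanishesAt HolomorphicInto puncturedDisc)
open Pool.Agent.H17EF (projVar)
open Pool.Agent.H7.Bir (vals rmap)
open Pool.Agent.H17LG.Variety (FunField)
open Pool.Agent.H62.FC (Homog)
open Pool.Agent.H62.SA (locVar OnBd)
open Pool.Agent.H62.Qe (IsReg IsEtaleOver lift_entire extend_of_lift)

noncomputable section

namespace Pool.Agent.GTL

variable {N M : ℕ} {P : Ideal (MvPolynomial (Fin (N + 1)) ℂ)} {P' : Ideal (MvPolynomial (Fin (M + 1)) ℂ)} {s s' : ℕ}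
  {G : Fin s → MvPolynomial (Fin (N + 1)) ℂ} {G' : Fin s' → MvPolynomial (Fin (M + 1)) ℂ}

/-- the nonconstant entire curves are Zariski dense -/
def DenseEntire (P : Ideal (MvPolynomial (Fin (N + 1)) ℂ)) {s : ℕ} (G : Fin s → MvPolynomial (Fin (N + 1)) ℂ) : Prop :=
  ∀ (R : MvPolynomial (Fin (N + 1)) ℂ) (e : ℕ), R.IsHomogeneous e → R ∉ P →
    ∃ f : ℂ → PN N, HolomorphicInto f Set.univ ∧ (∀ z, f z ∈ locVar P G) ∧ (∃ z w, f z ≠ f w) ∧ ¬ VanishesAt R (f 0)

/-- no nonconstant entire curve extends to `∞` -/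
def NoExtend (P : Ideal (MvPolynomial (Fin (N + 1)) ℂ)) {s : ℕ} (G : Fin s → MvPolynomial (Fin (N + 1)) ℂ) : Prop :=
  ∀ f : ℂ → PN N, HolomorphicInto f Set.univ → (∀ z, f z ∈ locVar P G) → (∃ z w, f z ≠ f w) → ∀ g : ℂ → PN N, HolomorphicInto g (Metric.ball 0 1) →
    ¬ ∀ z ∈ puncturedDisc, g z = f z⁻¹

/-- The composition of a holomorphic map with a regular map is holomorphic. -/
theorem comp_reg {p : PN M → PN N} (hp : IsReg P P' p) {g : ℂ → PN M} {U : Set ℂ} (hU : IsOpen U) (hg : HolomorphicInto g U)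
    (hgX : ∀ z ∈ U, g z ∈ projVar P') : HolomorphicInto (fun z => p (g z)) U := by
  intro z₀ hz₀
  obtain ⟨D, γ, hγ, hne, hrep⟩ := hp.regular (g z₀) (hgX z₀ hz₀)
  obtain ⟨φ, hφ, he⟩ := hg z₀ hz₀
  obtain ⟨h0, h0'⟩ := he.self_of_nhds
  have hmk : ∀ (y : Fin (M + 1) → ℂ) (hy : y ≠ 0), vals γ y ≠ 0 ↔ vals γ (Projectivization.mk ℂ y hy).rep ≠ 0 := by
    intro y hy
    obtain ⟨a, ha⟩ := Projectivization.exists_smul_eq_mk_rep ℂ y hy
    have h1 : (Projectivization.mk ℂ y hy).rep = (a : ℂ) • y := ha.symm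
    rw [h1, Pool.Agent.H7.Bir.vals_smul hγ, Ne, Ne, smul_eq_zero, not_or]
    exact ⟨fun h => ⟨pow_ne_zero _ a.ne_zero, h⟩, fun h => h.2⟩
  have hvan : AnalyticAt ℂ (fun w => vals γ (φ w)) z₀ := by
    rw [analyticAt_pi_iff]
    intro i
    have h1 : AnalyticAt ℂ (fun w => MvPolynomial.aeval (φ w) (γ i)) z₀ :=
      AnalyticAt.aeval_mvPolynomial (fun i => analyticAt_pi_iff.mp hφ i) (γ i)
    exact h1
  have hv0 : vals γ (φ z₀) ≠ 0 := by
    rw [hmk _ h0, ← h0']
    exact hne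
  refine ⟨fun w => vals γ (φ w), hvan, ?_⟩
  filter_upwards [he, hvan.continuousAt.eventually_ne hv0, hU.mem_nhds hz₀] with w h1 h2 h3
  obtain ⟨h4, h5⟩ := h1
  refine ⟨h2, ?_⟩
  have h6 : vals γ (g w).rep ≠ 0 := by
    rw [h5, ← hmk _ h4]
    exact h2
  rw [hrep _ (hgX w h3) h6, h5, Pool.Agent.H7.Bir.rmap_mk hγ h4 h2]

/-- A holomorphic map into `U'` whose image in `U` is constant is constant. -/
theorem const_of_comp {p : PN M → PN N} (hp : IsEtaleOver P P' G G' p) {f : ℂ → PN M} (hf : HolomorphicInto f Set.univ)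
    (hfU : ∀ z, f z ∈ locVar P' G') (hc : ∀ z w, p (f z) = p (f w)) (z w : ℂ) : f z = f w := by
  have hl : IsLocallyConstant f := by
    rw [IsLocallyConstant.iff_eventually_eq]
    intro z₀
    obtain ⟨φ, hφ, he⟩ := hf z₀ (Set.mem_univ _)
    obtain ⟨h0, h0'⟩ := he.self_of_nhds
    have h1 := hp.locInj (φ z₀) h0 (by rw [← h0']; exact hfU z₀)
    have h2 : Tendsto (fun z => (φ z, φ z₀)) (𝓝 z₀) (𝓝 (φ z₀, φ z₀)) :=
      (hφ.continuousAt.prodMk continuousAt_const).tendsto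
    filter_upwards [h2.eventually h1, he] with z h3 h4
    obtain ⟨h5, h6⟩ := h4
    rw [h6, h0']
    refine h3 h5 h0 ?_ ?_ ?_
    · show Projectivization.mk ℂ (φ z) h5 ∈ projVar P'
      rw [← h6]
      exact (hfU z).1
    · show Projectivization.mk ℂ (φ z₀) h0 ∈ projVar P'
      rw [← h0']
      exact (hfU z₀).1
    · show p (Projectivization.mk ℂ (φ z) h5) = p (Projectivization.mk ℂ (φ z₀) h0)
      rw [← h6, ← h0']
      exact hc z z₀
  exact hl.apply_eq_of_isPreconnected isPreconnected_univ (Set.mem_univ z) (Set.mem_univ w)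

theorem dense_etale [P.IsPrime] [P'.IsPrime] (hP : Homog P) (hP' : Homog P') (hG : ∀ l, ∃ e, (G l).IsHomogeneous e) (hG' : ∀ l, ∃ e, (G' l).IsHomogeneous e)
    (hne : (locVar P G).Nonempty) {k : ℕ} (hz : ∃ z : Fin (k + 1) → FunField P, IsTranscendenceBasis ℂ z) {p : PN M → PN N} (hp : IsEtaleOver P P' G G' p)
    (hd : DenseEntire P G) : DenseEntire P' G' := by
  have hz' := basis_etale hP hP' hG hG' hne hz hp
  obtain ⟨x₀, hx₀⟩ := hne
  intro R' e hR' hR'P
  obtain ⟨T, n, hT, hTP, hTv⟩ := Pool.Agent.H23.GU.exists_image_form hP hP' (Pool.Agent.H17EF.exists_coord hx₀.1) hz hz' hp.reg hR' hR'P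
  obtain ⟨f, hf, hfU, hfn, hfT⟩ := hd T n hT hTP
  obtain ⟨g, hg, hgU, hgf⟩ := lift_entire hP' hp hf hfU
  refine ⟨g, hg, hgU, ?_, fun h => hfT ?_⟩
  · obtain ⟨a, b, hab⟩ := hfn
    refine ⟨a, b, fun h1 => hab ?_⟩
    rw [← hgf a, ← hgf b, h1]
  · rw [← hgf 0]
    exact hTv _ (hgU 0).1 h

theorem noext_etale [P.IsPrime] [P'.IsPrime] (hP : Homog P) (hP' : Homog P') {p : PN M → PN N} (hp : IsEtaleOver P P' G G' p)
    (hno : NoExtend P G) : NoExtend P' G' := by
  intro f hf hfU hfn g hg hgf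
  have hF : HolomorphicInto (fun z => p (f z)) Set.univ := comp_reg hp.reg isOpen_univ hf fun z _ => (hfU z).1
  have hFU : ∀ z, p (f z) ∈ locVar P G := fun z => (hp.inv _ (hfU z).1).2 (hfU z)
  have hFn : ∃ z w, p (f z) ≠ p (f w) := by
    by_contra hcon
    push Not at hcon
    obtain ⟨a, b, hab⟩ := hfn
    exact hab (const_of_comp hp hf hfU hcon a b)
  have hFi : HolomorphicInto (fun z => p (f z⁻¹)) puncturedDisc := by
    intro z hz
    have hz0 : z ≠ 0 := hz.2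
    obtain ⟨φ, hφ, he⟩ := hF z⁻¹ (Set.mem_univ _)
    have hs : AnalyticAt ℂ (fun w : ℂ => w⁻¹) z := analyticAt_inv hz0
    exact ⟨fun w => φ w⁻¹, AnalyticAt.comp (g := φ) (f := fun w : ℂ => w⁻¹) hφ hs, hs.continuousAt.tendsto.eventually he⟩
  obtain ⟨g₀, hg₀, hg₀f⟩ := extend_of_lift hp.reg (f := fun z => p (f z⁻¹)) hFi le_rfl (g := fun z => f z⁻¹) (ĝ := g)
    (fun z _ => (hfU z⁻¹).1) (fun z _ => by rw [pow_one]) hg hgf
  exact hno (fun z => p (f z)) hF hFU hFn g₀ hg₀ hg₀f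

end Pool.Agent.GTL
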