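import Pool.Agent.GTL.Top
import Pool.Agent.GQ.Fin

/-!
# GTL All: the conclusion for projective varieties, singularities allowed, and for smooth projective varieties with a divisor with simple normal crossings

If `B` is empty, the variety of `P` may be singular (`GQ`); if not, the pair has simple normal crossings.
-/

set_option autoImplicit false

open MvPolynomial Topology Filter Metric
open Pool.Agent.H17 (PN VanishesAt HolomorphicInto puncturedDisc)
open Pool.Agent.H17EF (projVar)
open Pool.Agent.H17LG.Variety (FunField IsLogGeneralType)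
open Pool.Agent.H62.FC (Homog)
open Pool.Agent.H62.SA (locVar OnBd)
open Pool.Agent.GL (LogSec LogPolar ConclusionL openPart SncX toSym polar_toSym)
open Pool.Agent.GBL (LogGenerated logPolar_of_generated)

namespace Pool.Agent.GTL

variable {N : ℕ} {P : Ideal (MvPolynomial (Fin (N + 1)) ℂ)} {B : Finset (Fin (N + 1))} {J m : ℕ}

/-- The form `R` for a projective variety, singularities allowed. -/
theorem exists_conclusionL_empty [P.IsPrime] (hP : Homog P) (hm : 1 ≤ m) {θ : Fin J → LogSec P ∅ m} (hθ : LogGenerated θ) {n : ℕ}
    (hdim : ∃ z : Fin (n + 1) → FunField P, IsTranscendenceBasis ℂ z) (hgt : GeneralType P (bdy ∅) (n + 1)) : ∃ R, ConclusionL P ∅ R := by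
  have hpol : Pool.Agent.GG.Polar fun k => toSym (θ k) := polar_toSym (m := fun _ => m) (logPolar_of_generated hm hθ)
  unfold GeneralType at hgt
  rw [onBd_empty] at hgt
  obtain ⟨R, e, hR, hRP, -, hRz⟩ := Pool.Agent.GQ.exists_R_sing (m := fun _ => m) hP _ hpol (fun _ => hm) hdim hgt
  refine ⟨R, ⟨⟨e, hR⟩, hRP⟩, ?_, ?_⟩
  · intro f hf hX hne
    exact Pool.Agent.GA.main_punct hP hpol (fun _ => hm) hR hRz hf (fun z hz => (hX z hz).1) hne
  · intro f hf hX hne
    exact Pool.Agent.GA.main_entire hP hpol (fun _ => hm) hR hRz hf (fun z => (hX z).1) hne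

/-- **The conclusion**: the variety of `P` is a projective variety of dimension `n + 1`, and the pair has simple normal crossings if `B` is not empty. -/
theorem conclusion_all [P.IsPrime] (hP : Homog P) {n : ℕ} (hdim : ∃ z : Fin (n + 1) → FunField P, IsTranscendenceBasis ℂ z)
    (hs : B.Nonempty → SncX P B (n + 1)) (hm : 1 ≤ m) {θ : Fin J → LogSec P B m} (hθ : LogGenerated θ) : Conclusion P (bdy B) (n + 1) := by
  rcases B.eq_empty_or_nonempty with rfl | hB
  · exact conclusion_of hP hm hθ (fun i hi => absurd hi (Finset.notMem_empty i)) hdim (exists_conclusionL_empty hP hm hθ hdim)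
  · exact conclusion_snc hP hm hθ hdim (hs hB)

end Pool.Agent.GTL
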