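import Pool.Agent.GTL.Defs
import Pool.Agent.GG.Hom
import Pool.Agent.H7.Qup.Bd

/-!
# GTL Bd: log general type goes up along dominant strictly rational maps of varieties of the same dimension

`exists_embed`: as `H7.Qup.exists_compat` (only one tuple `γ`).  `onBd_strict`: the analogue of `H7.Qup.onBd_over`.

PROOF of `onBd_strict`.  Let `j'` be a coordinate with all `ratio P' i j'` of order `≥ 0` along `E` (`exists_center`), and `j` the one of `OnBd P G E₀`.  Let
`Φ : MvPolynomial (Fin (M + 1) ⊕ Fin (N + 1)) ℂ → FunField P'` be given by `ratio P' i j'` and `e (ratio P i j)`; all values have order `≥ 0`; `𝔭 = {S | 0 < E.ord (Φ S)}` is a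
prime ideal (as `ctr`).  If `G' m (ratio)` has order `0`, then there is a point `(v, u)` of the zero locus of `𝔭` with `G' m (v) ≠ 0` (as `exists_ctr_point`);
`v j' = 1`, `u j = 1`; so `y = [v] ∈ locVar P' G'`.  `InGraph P' γ y [u]`: let `S` be bihomogeneous of degree `(a, b)` with `aeval (Sum.elim X γ) S ∈ P'`; with `c = gen P' j' (γ j) ≠ 0`:
`c ^ b Φ S = gen P' j' (aeval (Sum.elim X γ) S) = 0` (`eval_bihom`), so `Φ S = 0`, `S ∈ 𝔭`, `S (v, u) = 0`; then `eval_bihom'` for the representatives.  So `[u] ∈ locVar P G` by `into`, some `G l (u) ≠ 0`; but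
`G l ∈ 𝔭` as `0 < E₀.ord`, a contradiction.
-/

set_option autoImplicit false

open MvPolynomial
open Pool.Agent.H17 (PN VanishesAt vanishesAt_mk_iff)
open Pool.Agent.H17GT (coordFun)
open Pool.Agent.H17LG.Variety (FunField ratio IsLogGeneralType)
open Pool.Agent.H23.Fano (PrimeDivisorOver)
open Pool.Agent.H62.FC (Homog)
open Pool.Agent.H62.SA (locVar OnBd)
open Pool.Agent.H17R (gen gen_eq_zero_iff ratio_self coordFun_ne_zero_iff gen_change exists_center ord_gen_nonneg ratio_ne_zero_iff)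
open Pool.Agent.H7.Qup (exists_hom_val aeval_homog ratio_change' isLGT_of_algebraic)

noncomputable section

namespace Pool.Agent.GTL

variable {N M : ℕ} {P : Ideal (MvPolynomial (Fin (N + 1)) ℂ)} {P' : Ideal (MvPolynomial (Fin (M + 1)) ℂ)} {s s' D : ℕ}
  {G : Fin s → MvPolynomial (Fin (N + 1)) ℂ} {G' : Fin s' → MvPolynomial (Fin (M + 1)) ℂ} {γ : Fin (N + 1) → MvPolynomial (Fin (M + 1)) ℂ}

private theorem Bd_notMem (h : StrictMap P P' G G' D γ) {i : Fin (N + 1)} (hi : X i ∉ P) : γ i ∉ P' := by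
  intro h1
  apply hi
  rw [← h.maps 1 _ (isHomogeneous_X ℂ i), aeval_X]
  exact h1

/-- the degree of the forms is positive -/
theorem StrictMap.pos [P.IsPrime] [P'.IsPrime] (h : StrictMap P P' G G' D γ) {k : ℕ} (hz : ∃ z : Fin (k + 1) → FunField P, IsTranscendenceBasis ℂ z) : 1 ≤ D := by
  by_contra hcon
  have hD : D = 0 := by omega
  subst hD
  obtain ⟨j, hj⟩ := Pool.Agent.GG.exists_X_notMem (Nat.succ_le_succ (Nat.zero_le k)) hz
  have hc : ∀ i, γ i = C (coeff 0 (γ i)) := fun i => totalDegree_eq_zero_iff_eq_C.1 ((totalDegree_zero_iff_isHomogeneous _).2 (h.hom i))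
  have hcj : coeff 0 (γ j) ≠ 0 := by
    intro h0
    apply Bd_notMem h hj
    rw [hc j, h0, map_zero]
    exact P'.zero_mem
  have hcf : coordFun P j ≠ 0 := coordFun_ne_zero_iff.2 hj
  have hr : ∀ i, ratio P i j = algebraMap ℂ (FunField P) (coeff 0 (γ i) / coeff 0 (γ j)) := by
    intro i
    have h1 : (C (coeff 0 (γ j)) * X i - C (coeff 0 (γ i)) * X j : MvPolynomial (Fin (N + 1)) ℂ).IsHomogeneous 1 := by
      have h2 := ((isHomogeneous_C (Fin (N + 1)) (coeff 0 (γ j))).mul (isHomogeneous_X ℂ i)).sub ((isHomogeneous_C (Fin (N + 1)) (coeff 0 (γ i))).mul (isHomogeneous_X ℂ j))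
      simpa using h2
    have h2 : (C (coeff 0 (γ j)) * X i - C (coeff 0 (γ i)) * X j : MvPolynomial (Fin (N + 1)) ℂ) ∈ P := by
      rw [← h.maps 1 _ h1, map_sub, map_mul, map_mul, aeval_X, aeval_X, aeval_C, aeval_C]
      have h3 : (algebraMap ℂ (MvPolynomial (Fin (M + 1)) ℂ) (coeff 0 (γ j)) * γ i - algebraMap ℂ (MvPolynomial (Fin (M + 1)) ℂ) (coeff 0 (γ i)) * γ j) = 0 := by
        rw [MvPolynomial.algebraMap_eq, ← hc j, ← hc i]
        ring
      rw [h3]
      exact P'.zero_mem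
    have h3 := (gen_eq_zero_iff hcf h1).2 h2
    unfold gen at h3
    rw [map_sub, map_mul, map_mul, aeval_X, aeval_X, aeval_C, aeval_C, ratio_self hcf, mul_one, sub_eq_zero] at h3
    rw [map_div₀, eq_div_iff ((map_ne_zero _).2 hcj), mul_comm]
    exact h3
  have htop := Pool.Agent.H17R.adjoin_ratio hcf
  obtain ⟨z, hz⟩ := hz
  have h1 : z 0 ∈ IntermediateField.adjoin ℂ (Set.range fun i => ratio P i j) := by rw [htop]; trivial
  have h2 : IntermediateField.adjoin ℂ (Set.range fun i => ratio P i j) = ⊥ := by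
    rw [eq_bot_iff, IntermediateField.adjoin_le_iff]
    rintro w ⟨i, rfl⟩
    change ratio P i j ∈ (⊥ : IntermediateField ℂ (FunField P))
    rw [hr i]
    exact IntermediateField.algebraMap_mem _ _
  rw [h2] at h1
  obtain ⟨c, hc'⟩ := IntermediateField.mem_bot.1 h1
  have h3 := hz.1.transcendental 0
  apply h3
  rw [← hc']
  exact isAlgebraic_algebraMap c

/-- The embedding of the function fields which corresponds to the forms `γ`. -/
def CompatF (P : Ideal (MvPolynomial (Fin (N + 1)) ℂ)) [P.IsPrime] (P' : Ideal (MvPolynomial (Fin (M + 1)) ℂ)) [P'.IsPrime]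
    (γ : Fin (N + 1) → MvPolynomial (Fin (M + 1)) ℂ) (e : FunField P →ₐ[ℂ] FunField P') : Prop :=
  ∀ j', X j' ∉ P' → ∀ i₀, X i₀ ∉ P → ∀ i, e (ratio P i i₀) * gen P' j' (γ i₀) = gen P' j' (γ i)

theorem exists_embed [P.IsPrime] [P'.IsPrime] (h : StrictMap P P' G G' D γ) (hi : ∃ i, X i ∉ P) (hj : ∃ j, X j ∉ P') :
    ∃ e : FunField P →ₐ[ℂ] FunField P', CompatF P P' γ e := by
  obtain ⟨i₁, hi₁⟩ := hi
  obtain ⟨j₁, hj₁⟩ := hj
  have hcj : coordFun P' j₁ ≠ 0 := coordFun_ne_zero_iff.2 hj₁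
  have hci : coordFun P i₁ ≠ 0 := coordFun_ne_zero_iff.2 hi₁
  have hc : gen P' j₁ (γ i₁) ≠ 0 := fun h0 => Bd_notMem h hi₁ ((gen_eq_zero_iff hcj (h.hom i₁)).1 h0)
  obtain ⟨x, hx⟩ : ∃ x : Fin (N + 1) → FunField P', x = fun i => gen P' j₁ (γ i) / gen P' j₁ (γ i₁) := ⟨_, rfl⟩
  have hx1 : x i₁ = 1 := by rw [hx]; exact div_self hc
  have hker : ∀ (n : ℕ) (R : MvPolynomial (Fin (N + 1)) ℂ), R.IsHomogeneous n → (aeval x R = 0 ↔ R ∈ P) := by
    intro n R hR
    rw [← h.maps n R hR, ← gen_eq_zero_iff hcj (aeval_homog h.hom hR)]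
    have h1 : gen P' j₁ (aeval γ R) = gen P' j₁ (γ i₁) ^ n * aeval x R := by
      rw [hx]
      unfold gen
      rw [Pool.Agent.H7.Bir.aeval_comp]
      exact Pool.Agent.H7.Bir.aeval_div hR hc _
    rw [h1, mul_eq_zero]
    exact ⟨Or.inr, fun h => h.resolve_left (pow_ne_zero _ hc)⟩
  obtain ⟨e, he⟩ := exists_hom_val hci hx1 hker
  refine ⟨e, ?_⟩
  intro j' hj' i₀ hi₀ i
  have hcj' : coordFun P' j' ≠ 0 := coordFun_ne_zero_iff.2 hj'
  have hci' : coordFun P i₀ ≠ 0 := coordFun_ne_zero_iff.2 hi₀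
  have hch : ∀ k, gen P' j₁ (γ k) = ratio P' j' j₁ ^ D * gen P' j' (γ k) := fun k => gen_change hcj' (h.hom k)
  have hr0 : ratio P' j' j₁ ≠ 0 := (ratio_ne_zero_iff hcj).2 hcj'
  have h3 : e (ratio P i i₁) = e (ratio P i₀ i₁) * e (ratio P i i₀) := by
    rw [← map_mul, ← ratio_change' hci']
  have h4 : gen P' j₁ (γ i) = gen P' j₁ (γ i₀) * e (ratio P i i₀) := by
    rw [he, he, hx] at h3
    change gen P' j₁ (γ i) / gen P' j₁ (γ i₁) = gen P' j₁ (γ i₀) / gen P' j₁ (γ i₁) * e (ratio P i i₀) at h3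
    rw [div_mul_eq_mul_div, div_left_inj' hc] at h3
    exact h3
  have h5 : gen P' j' (γ i) = gen P' j' (γ i₀) * e (ratio P i i₀) := by
    rw [hch, hch, mul_assoc] at h4
    exact mul_left_cancel₀ (pow_ne_zero _ hr0) h4
  rw [h5, mul_comm]

/-- polynomials in elements of order `≥ 0` -/
private theorem Bd_nonneg {K : Type} [Field K] [Algebra ℂ K] {σ : Type} {w : ℕ} (E : PrimeDivisorOver K w) {x : σ → K} (h : ∀ i, 0 ≤ E.ord (x i))
    (Q : MvPolynomial σ ℂ) : 0 ≤ E.ord (aeval x Q) := by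
  induction Q using MvPolynomial.induction_on with
  | C a =>
    rw [aeval_C]
    exact E.ord_const a
  | add p q hp hq =>
    rw [map_add]
    exact (le_min hp hq).trans (E.ord.map_add _ _)
  | mul_X p i hp =>
    rw [map_mul, aeval_X, E.ord.map_mul]
    exact add_nonneg hp (h i)

/-- The polynomials which vanish at the centre of `E` in the coordinates `x`. -/
private def Bd_ctr {K : Type} [Field K] [Algebra ℂ K] {σ : Type} {w : ℕ} (E : PrimeDivisorOver K w) {x : σ → K} (h : ∀ i, 0 ≤ E.ord (x i)) :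
    Ideal (MvPolynomial σ ℂ) where
  carrier := {R | 0 < E.ord (aeval x R)}
  add_mem' := by
    intro a b ha hb
    change 0 < E.ord (aeval _ (a + b))
    rw [map_add]
    exact (lt_min ha hb).trans_le (E.ord.map_add _ _)
  zero_mem' := by
    change 0 < E.ord (aeval _ 0)
    rw [map_zero, E.ord.map_zero]
    exact WithTop.coe_lt_top 0
  smul_mem' := by
    intro c y hy
    change 0 < E.ord (aeval _ (c * y))
    rw [map_mul, E.ord.map_mul]
    exact lt_of_lt_of_le hy (le_add_of_nonneg_left (Bd_nonneg E h c))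

private theorem Bd_point {K : Type} [Field K] [Algebra ℂ K] {σ : Type} [Finite σ] {w : ℕ} (E : PrimeDivisorOver K w) {x : σ → K} (h : ∀ i, 0 ≤ E.ord (x i))
    {R : MvPolynomial σ ℂ} (hR : ¬ 0 < E.ord (aeval x R)) : ∃ v : σ → ℂ, (∀ Q, 0 < E.ord (aeval x Q) → eval v Q = 0) ∧ eval v R ≠ 0 := by
  have h0 : ∀ {Q : MvPolynomial σ ℂ}, Q ∉ Bd_ctr E h ↔ E.ord (aeval x Q) = 0 := by
    intro Q
    change ¬ 0 < E.ord (aeval x Q) ↔ _
    rw [not_lt]
    exact ⟨fun h1 => le_antisymm h1 (Bd_nonneg E h Q), fun h1 => h1.le⟩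
  have hp : (Bd_ctr E h).IsPrime :=
    { ne_top' := by
        rw [Ideal.ne_top_iff_one, h0, map_one, E.ord.map_one]
      mem_or_mem' := by
        intro a b hab
        by_contra hcon
        rw [not_or, h0, h0] at hcon
        change 0 < E.ord (aeval x (a * b)) at hab
        rw [map_mul, E.ord.map_mul, hcon.1, hcon.2, add_zero] at hab
        exact lt_irrefl _ hab }
  have hR' : R ∉ Bd_ctr E h := hR
  rw [← MvPolynomial.IsPrime.vanishingIdeal_zeroLocus (K := ℂ) (Bd_ctr E h), MvPolynomial.mem_vanishingIdeal_iff] at hR'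
  push Not at hR'
  obtain ⟨v, hv, hvR⟩ := hR'
  rw [MvPolynomial.aeval_eq_eval] at hvR
  refine ⟨v, fun Q hQ => ?_, hvR⟩
  have h1 := hv Q hQ
  rwa [MvPolynomial.aeval_eq_eval] at h1

/-- `gen` vanishes on the ideal -/
private theorem Bd_gen [P'.IsPrime] (hP' : Homog P') {j : Fin (M + 1)} (hj : coordFun P' j ≠ 0) {Q : MvPolynomial (Fin (M + 1)) ℂ} (hQ : Q ∈ P') : gen P' j Q = 0 := by
  unfold gen
  rw [← sum_homogeneousComponent Q, map_sum]
  exact Finset.sum_eq_zero fun n _ => (gen_eq_zero_iff hj (homogeneousComponent_isHomogeneous n Q)).2 (hP' Q hQ n)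

theorem onBd_strict [P.IsPrime] [P'.IsPrime] (h : StrictMap P P' G G' D γ) (hP' : Homog P')
    (hG : ∀ m, ∃ n, (G m).IsHomogeneous n) (hG' : ∀ m, ∃ n, (G' m).IsHomogeneous n)
    {e : FunField P →ₐ[ℂ] FunField P'} (he : CompatF P P' γ e) {k : ℕ} {E₀ : PrimeDivisorOver (FunField P) k}
    {E : PrimeDivisorOver (FunField P') k} {r : ℕ} (hr : 0 < r)
    (hDE : ∀ f : FunField P, f ≠ 0 → ∃ n : ℤ, E₀.ord f = n ∧ E.ord (e f) = ((r * n : ℤ) : WithTop ℤ)) (hj : ∃ j, X j ∉ P')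
    (hE₀ : OnBd P G E₀) : OnBd P' G' E := by
  obtain ⟨j₁, hj₁⟩ := hj
  obtain ⟨j', hj', hE⟩ := exists_center E (coordFun_ne_zero_iff.2 hj₁)
  obtain ⟨j, hj, hDj, hDG⟩ := hE₀
  refine ⟨j', hj', hE, fun m => ?_⟩
  by_contra hcon
  -- orders of `e f`
  have hnn : ∀ f : FunField P, 0 ≤ E₀.ord f → 0 ≤ E.ord (e f) := by
    intro f hf
    by_cases hf0 : f = 0
    · rw [hf0, map_zero, E.ord.map_zero]
      exact le_top
    · obtain ⟨n, hn, hn'⟩ := hDE f hf0
      rw [hn] at hf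
      rw [hn']
      have h2 : (0 : ℤ) ≤ n := by exact_mod_cast hf
      have h3 : (0 : ℤ) ≤ r * n := mul_nonneg (by positivity) h2
      exact_mod_cast h3
  have hpp : ∀ f : FunField P, 0 < E₀.ord f → 0 < E.ord (e f) := by
    intro f hf
    by_cases hf0 : f = 0
    · rw [hf0, map_zero, E.ord.map_zero]
      exact WithTop.coe_lt_top 0
    · obtain ⟨n, hn, hn'⟩ := hDE f hf0
      rw [hn] at hf
      rw [hn']
      have h2 : (0 : ℤ) < n := by exact_mod_cast hf
      have h3 : (0 : ℤ) < r * n := mul_pos (by exact_mod_cast hr) h2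
      exact_mod_cast h3
  obtain ⟨x, hx⟩ : ∃ x : Fin (M + 1) ⊕ Fin (N + 1) → FunField P', x = Sum.elim (fun i => ratio P' i j') fun i => e (ratio P i j) := ⟨_, rfl⟩
  have hx0 : ∀ i, 0 ≤ E.ord (x i) := by
    rw [hx]
    rintro (i | i)
    · exact hE i
    · exact hnn _ (hDj i)
  have hxl : ∀ Q : MvPolynomial (Fin (M + 1)) ℂ, aeval x (rename Sum.inl Q) = gen P' j' Q := by
    intro Q
    rw [aeval_rename, hx, Sum.elim_comp_inl]
    rfl
  have hxr : ∀ Q : MvPolynomial (Fin (N + 1)) ℂ, aeval x (rename Sum.inr Q) = e (aeval (fun i => ratio P i j) Q) := by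
    intro Q
    rw [aeval_rename, hx, Sum.elim_comp_inr, ← AlgHom.comp_apply, MvPolynomial.comp_aeval]
  obtain ⟨w, hw, hwG⟩ := Bd_point E hx0 (R := rename Sum.inl (G' m)) (by rw [hxl]; exact hcon)
  have hel : ∀ Q : MvPolynomial (Fin (M + 1)) ℂ, eval w (rename Sum.inl Q) = eval (w ∘ Sum.inl) Q := fun Q => eval_rename _ _ _
  have her : ∀ Q : MvPolynomial (Fin (N + 1)) ℂ, eval w (rename Sum.inr Q) = eval (w ∘ Sum.inr) Q := fun Q => eval_rename _ _ _
  have hv0 : w ∘ Sum.inl ≠ 0 := by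
    intro h0
    have h1 := hw (X (Sum.inl j') - 1) (by
      rw [map_sub, aeval_X, map_one, hx]
      change 0 < E.ord (ratio P' j' j' - 1)
      rw [ratio_self hj', sub_self, E.ord.map_zero]
      exact WithTop.coe_lt_top 0)
    rw [map_sub, eval_X, map_one] at h1
    have h2 : w (Sum.inl j') = 0 := congrFun h0 j'
    rw [h2] at h1
    norm_num at h1
  have hu0 : w ∘ Sum.inr ≠ 0 := by
    intro h0
    have h1 := hw (X (Sum.inr j) - 1) (by
      rw [map_sub, aeval_X, map_one, hx]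
      change 0 < E.ord (e (ratio P j j) - 1)
      rw [ratio_self hj, map_one, sub_self, E.ord.map_zero]
      exact WithTop.coe_lt_top 0)
    rw [map_sub, eval_X, map_one] at h1
    have h2 : w (Sum.inr j) = 0 := congrFun h0 j
    rw [h2] at h1
    norm_num at h1
  have hyU : Projectivization.mk ℂ (w ∘ Sum.inl) hv0 ∈ locVar P' G' := by
    refine ⟨fun Q hQ n hn => ?_, m, ?_⟩
    · rw [vanishesAt_mk_iff hn, ← hel]
      apply hw
      rw [hxl, (gen_eq_zero_iff hj' hn).2 hQ, E.ord.map_zero]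
      exact WithTop.coe_lt_top 0
    · obtain ⟨d, hd⟩ := hG' m
      rw [vanishesAt_mk_iff hd, ← hel]
      exact hwG
  have hXj : X j ∉ P := coordFun_ne_zero_iff.1 hj
  have hXj' : X j' ∉ P' := coordFun_ne_zero_iff.1 hj'
  have hc : gen P' j' (γ j) ≠ 0 := fun h0 => Bd_notMem h hXj ((gen_eq_zero_iff hj' (h.hom j)).1 h0)
  have hgr : InGraph P' γ (Projectivization.mk ℂ (w ∘ Sum.inl) hv0) (Projectivization.mk ℂ (w ∘ Sum.inr) hu0) := by
    intro a b S ha hb hS
    have h1 := Bd_gen hP' hj' hS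
    have h2 : gen P' j' (aeval (Sum.elim X γ) S) = gen P' j' (γ j) ^ b * aeval x S := by
      have h3 := eval_bihom ha hb (1 : FunField P') (gen P' j' (γ j)) (fun i => ratio P' i j') fun i => e (ratio P i j)
      rw [one_pow, one_mul, one_smul, ← hx] at h3
      rw [← h3]
      unfold gen
      rw [← AlgHom.comp_apply, MvPolynomial.comp_aeval]
      congr 2
      funext i
      rcases i with i | i
      · simp
      · have h4 := he j' hXj' j hXj i
        simp only [Sum.elim_inr, Pi.smul_apply, smul_eq_mul]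
        rw [mul_comm]
        exact h4.symm
    rw [h1] at h2
    have h3 : aeval x S = 0 := (mul_eq_zero.1 h2.symm).resolve_left (pow_ne_zero _ hc)
    have h4 : eval w S = 0 := hw S (by
      rw [h3, E.ord.map_zero]
      exact WithTop.coe_lt_top 0)
    obtain ⟨c, -, hc'⟩ := Pool.Agent.H17.exists_smul_rep (w ∘ Sum.inl) hv0
    obtain ⟨d, -, hd'⟩ := Pool.Agent.H17.exists_smul_rep (w ∘ Sum.inr) hu0
    rw [hc', hd', eval_bihom' ha hb]
    have h5 : Sum.elim (w ∘ Sum.inl) (w ∘ Sum.inr) = w := Sum.elim_comp_inl_inr w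
    rw [h5, h4, mul_zero]
  obtain ⟨-, l, hl⟩ := h.into _ hyU _ hgr
  obtain ⟨d, hd⟩ := hG l
  apply hl
  rw [vanishesAt_mk_iff hd, ← her]
  apply hw
  rw [hxr]
  exact hpp _ (hDG l)

/-- **Log general type goes up.** -/
theorem logGT_strict [P.IsPrime] [P'.IsPrime] (h : StrictMap P P' G G' D γ) (hP' : Homog P')
    (hG : ∀ m, ∃ n, (G m).IsHomogeneous n) (hG' : ∀ m, ∃ n, (G' m).IsHomogeneous n) {k : ℕ}
    (hi : ∃ i, X i ∉ P) (hj : ∃ j, X j ∉ P') (hz : ∃ z : Fin k → FunField P, IsTranscendenceBasis ℂ z) (hz' : ∃ z : Fin k → FunField P', IsTranscendenceBasis ℂ z)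
    (hgt : IsLogGeneralType (OnBd P G (k := k))) : IsLogGeneralType (OnBd P' G' (k := k)) := by
  obtain ⟨e, he⟩ := exists_embed h hi hj
  let _ : Algebra (FunField P) (FunField P') := e.toRingHom.toAlgebra
  have _ : IsScalarTower ℂ (FunField P) (FunField P') := IsScalarTower.of_algebraMap_eq fun c => (e.commutes c).symm
  have _ : Algebra.IsAlgebraic (FunField P) (FunField P') := by
    obtain ⟨z, hz⟩ := hz
    obtain ⟨z', hz'⟩ := hz'
    have h1 := trdeg_add_eq ℂ (FunField P) (A := FunField P')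
    rw [← hz.cardinalMk_eq_trdeg, ← hz'.cardinalMk_eq_trdeg] at h1
    rw [← trdeg_eq_zero_iff]
    have h2 : Cardinal.mk (Fin k) < Cardinal.aleph0 := Cardinal.mk_lt_aleph0
    have h3 : Cardinal.mk (Fin k) + Algebra.trdeg (FunField P) (FunField P') = Cardinal.mk (Fin k) + 0 := by rw [h1, add_zero]
    exact Cardinal.eq_of_add_eq_add_left h3 h2
  exact isLGT_of_algebraic hz (fun E₀ E r hDE hD => onBd_strict h hP' hG hG' he hDE.1 hDE.2 hj hD) hgt

end Pool.Agent.GTL
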