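import Pool.Agent.GTL.Defs
import Pool.Agent.H23.GU.Up

/-!
# GTL Cmp: composition of holomorphic maps with strictly rational maps

`exists_graph_lift`: proof as that of `H23.GU.exists_lift` (`H7.Bir.exists_comp` gives the composition `g`; near every point, away from it, a lift `ψ` of `g` is a multiple of
`vals γ (φ w)`, `φ` a lift of `f`; so `S (φ w, ψ w) = 0`, and by continuity at the point; use `eval_bihom'`).
-/

set_option autoImplicit false

open Topology Filter MvPolynomial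
open Pool.Agent.H17 (PN VanishesAt HolomorphicInto puncturedDisc vanishesAt_mk_iff)
open Pool.Agent.H17EF (projVar)
open Pool.Agent.H62.FC (Homog)
open Pool.Agent.H62.SA (locVar)
open Pool.Agent.H7.Bir (vals rmap exists_comp rmap_mk eval_comp)
open Pool.Agent.H7.Qup (vals_rep_ne)
open Pool.Agent.H23.GU (Rel Rel_of rel)

noncomputable section

namespace Pool.Agent.GTL

variable {N M : ℕ} {P : Ideal (MvPolynomial (Fin (N + 1)) ℂ)} {P' : Ideal (MvPolynomial (Fin (M + 1)) ℂ)} {s s' D : ℕ}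
  {G : Fin s → MvPolynomial (Fin (N + 1)) ℂ} {G' : Fin s' → MvPolynomial (Fin (M + 1)) ℂ} {γ : Fin (N + 1) → MvPolynomial (Fin (M + 1)) ℂ}

/-- the equations between the coordinates hold on the closure of the graph -/
theorem InGraph.rel {y : PN M} {x : PN N} (h : InGraph P' γ y x) {m D₁ : ℕ} {α : Fin (m + 1) → MvPolynomial (Fin (N + 1)) ℂ}
    (hα : ∀ l, (α l).IsHomogeneous D₁) {i j : Fin (M + 1)} (hmem : ∑ l : Fin (m + 1), aeval γ (α l) * X i ^ (l : ℕ) * X j ^ (m - (l : ℕ)) ∈ P') :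
    Rel α i j x y := by
  set S : MvPolynomial (Fin (M + 1) ⊕ Fin (N + 1)) ℂ :=
    ∑ l : Fin (m + 1), rename Sum.inr (α l) * X (Sum.inl i) ^ (l : ℕ) * X (Sum.inl j) ^ (m - (l : ℕ)) with hS
  have hr0 : ∀ l, IsWeightedHomogeneous (Sum.elim (fun _ => 1) fun _ => 0 : Fin (M + 1) ⊕ Fin (N + 1) → ℕ) (rename Sum.inr (α l)) 0 := by
    intro l d hd
    obtain ⟨u, rfl, -⟩ := coeff_rename_ne_zero _ _ _ hd
    rw [Finsupp.weight_apply, Finsupp.sum_mapDomain_index (by simp) (by intro a b c; simp [add_mul])]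
    simp
  have hr1 : ∀ l, IsWeightedHomogeneous (Sum.elim (fun _ => 0) fun _ => 1 : Fin (M + 1) ⊕ Fin (N + 1) → ℕ) (rename Sum.inr (α l)) D₁ := by
    intro l d hd
    obtain ⟨u, rfl, hu⟩ := coeff_rename_ne_zero _ _ _ hd
    have h1 := hα l hu
    rw [Finsupp.weight_apply, Finsupp.sum_mapDomain_index (by simp) (by intro a b c; simp [add_mul])]
    rw [Finsupp.weight_apply] at h1
    simpa using h1
  have ha : IsWeightedHomogeneous (Sum.elim (fun _ => 1) fun _ => 0 : Fin (M + 1) ⊕ Fin (N + 1) → ℕ) S m := by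
    refine IsWeightedHomogeneous.sum _ _ _ fun l _ => ?_
    have h1 := ((hr0 l).mul ((isWeightedHomogeneous_X ℂ _ (Sum.inl i)).pow (l : ℕ))).mul
      ((isWeightedHomogeneous_X ℂ (Sum.elim (fun _ => 1) fun _ => 0 : Fin (M + 1) ⊕ Fin (N + 1) → ℕ) (Sum.inl j)).pow (m - (l : ℕ)))
    have h2 : 0 + (l : ℕ) • (Sum.elim (fun _ => 1) fun _ => 0 : Fin (M + 1) ⊕ Fin (N + 1) → ℕ) (Sum.inl i) +
        (m - (l : ℕ)) • (Sum.elim (fun _ => 1) fun _ => 0 : Fin (M + 1) ⊕ Fin (N + 1) → ℕ) (Sum.inl j) = m := by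
      have h3 : (l : ℕ) ≤ m := Nat.lt_succ_iff.1 l.2
      simp only [Sum.elim_inl, smul_eq_mul]
      omega
    rw [h2] at h1
    exact h1
  have hb : IsWeightedHomogeneous (Sum.elim (fun _ => 0) fun _ => 1 : Fin (M + 1) ⊕ Fin (N + 1) → ℕ) S D₁ := by
    refine IsWeightedHomogeneous.sum _ _ _ fun l _ => ?_
    have h1 := ((hr1 l).mul ((isWeightedHomogeneous_X ℂ _ (Sum.inl i)).pow (l : ℕ))).mul
      ((isWeightedHomogeneous_X ℂ (Sum.elim (fun _ => 0) fun _ => 1 : Fin (M + 1) ⊕ Fin (N + 1) → ℕ) (Sum.inl j)).pow (m - (l : ℕ)))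
    have h2 : D₁ + (l : ℕ) • (Sum.elim (fun _ => 0) fun _ => 1 : Fin (M + 1) ⊕ Fin (N + 1) → ℕ) (Sum.inl i) +
        (m - (l : ℕ)) • (Sum.elim (fun _ => 0) fun _ => 1 : Fin (M + 1) ⊕ Fin (N + 1) → ℕ) (Sum.inl j) = D₁ := by
      simp only [Sum.elim_inl, smul_eq_mul]
      omega
    rw [h2] at h1
    exact h1
  have hm : aeval (Sum.elim X γ) S = ∑ l : Fin (m + 1), aeval γ (α l) * X i ^ (l : ℕ) * X j ^ (m - (l : ℕ)) := by
    rw [hS, map_sum]
    refine Finset.sum_congr rfl fun l _ => ?_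
    rw [map_mul, map_mul, map_pow, map_pow, aeval_X, aeval_X, aeval_rename, Sum.elim_comp_inr, Sum.elim_inl, Sum.elim_inl]
  have h1 := h m D₁ S ha hb (by rw [hm]; exact hmem)
  have h2 : Pool.Agent.H23.GU.rel α i j x.rep y.rep = 0 := by
    rw [← h1, hS, map_sum]
    unfold Pool.Agent.H23.GU.rel
    refine Finset.sum_congr rfl fun l _ => ?_
    rw [map_mul, map_mul, map_pow, map_pow, eval_X, eval_X, eval_rename, Sum.elim_comp_inr, Sum.elim_inl, Sum.elim_inl]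
  have h3 := Rel_of hα x.rep_nonzero y.rep_nonzero h2
  rwa [Projectivization.mk_rep, Projectivization.mk_rep] at h3

theorem aeval_bihom_hom (hγ : ∀ i, (γ i).IsHomogeneous D) {a b : ℕ} {S : MvPolynomial (Fin (M + 1) ⊕ Fin (N + 1)) ℂ}
    (ha : IsWeightedHomogeneous (Sum.elim (fun _ => 1) fun _ => 0 : Fin (M + 1) ⊕ Fin (N + 1) → ℕ) S a)
    (hb : IsWeightedHomogeneous (Sum.elim (fun _ => 0) fun _ => 1 : Fin (M + 1) ⊕ Fin (N + 1) → ℕ) S b) :
    (aeval (Sum.elim X γ) S : MvPolynomial (Fin (M + 1)) ℂ).IsHomogeneous (a + D * b) := by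
  rw [aeval_def, eval₂_eq']
  refine IsHomogeneous.sum _ _ _ fun e he => ?_
  have h1 := ha (mem_support_iff.1 he)
  have h2 := hb (mem_support_iff.1 he)
  rw [Finsupp.weight_apply, Finsupp.sum_fintype _ _ (by simp), Fintype.sum_sum_type] at h1 h2
  simp only [Sum.elim_inl, Sum.elim_inr, smul_eq_mul, mul_one, mul_zero, Finset.sum_const_zero, add_zero, zero_add] at h1 h2
  have h3 : (∏ i : Fin (M + 1) ⊕ Fin (N + 1), (Sum.elim X γ i : MvPolynomial (Fin (M + 1)) ℂ) ^ e i).IsHomogeneous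
      (∑ i : Fin (M + 1) ⊕ Fin (N + 1), (Sum.elim (fun _ => 1) fun _ => D : Fin (M + 1) ⊕ Fin (N + 1) → ℕ) i * e i) := by
    refine IsHomogeneous.prod _ _ _ fun i _ => ?_
    rcases i with i | i
    · exact (isHomogeneous_X ℂ i).pow _
    · exact (hγ i).pow _
  have h4 : ∑ i : Fin (M + 1) ⊕ Fin (N + 1), (Sum.elim (fun _ => 1) fun _ => D : Fin (M + 1) ⊕ Fin (N + 1) → ℕ) i * e i = a + D * b := by
    rw [Fintype.sum_sum_type]
    simp only [Sum.elim_inl, Sum.elim_inr, one_mul]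
    rw [← Finset.mul_sum, h1, h2]
  rw [h4] at h3
  have h5 := (isHomogeneous_C (Fin (M + 1)) (coeff e S)).mul h3
  rw [zero_add] at h5
  exact h5

theorem eval_graph {S : MvPolynomial (Fin (M + 1) ⊕ Fin (N + 1)) ℂ} (y : Fin (M + 1) → ℂ) :
    eval (Sum.elim y (vals γ y)) S = eval y (aeval (Sum.elim X γ) S) := by
  have h1 := MvPolynomial.map_aeval (Sum.elim X γ) (eval y) S
  rw [h1]
  have h2 : (eval y).comp (algebraMap ℂ (MvPolynomial (Fin (M + 1)) ℂ)) = RingHom.id ℂ := by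
    ext c
    simp [MvPolynomial.algebraMap_eq]
  have h3 : (fun i => eval y ((Sum.elim X γ : Fin (M + 1) ⊕ Fin (N + 1) → MvPolynomial (Fin (M + 1)) ℂ) i)) = Sum.elim y (vals γ y) := by
    funext i
    rcases i with i | i
    · simp
    · simp [vals]
  rw [h2, h3]
  rfl

theorem exists_graph_lift (hγ : ∀ i, (γ i).IsHomogeneous D) {f : ℂ → PN M} {U : Set ℂ} (hUo : IsOpen U) (hUc : IsPreconnected U)
    (hf : HolomorphicInto f U) (hfX : ∀ z ∈ U, f z ∈ projVar P') {z₀ : ℂ} (hz₀ : z₀ ∈ U) {i₀ : Fin (N + 1)} (h : ¬ VanishesAt (γ i₀) (f z₀)) :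
    ∃ g : ℂ → PN N, HolomorphicInto g U ∧ (∀ z ∈ U, InGraph P' γ (f z) (g z)) ∧ g z₀ = rmap γ (f z₀) := by
  obtain ⟨g, hg, hg1, hg2⟩ := exists_comp hγ hUo hUc hf hz₀ h
  refine ⟨g, hg, ?_, hg1 z₀ hz₀ fun h0 => h (congrFun h0 i₀)⟩
  intro z hz a b S ha hb hmem
  obtain ⟨φ, hφ, he⟩ := hf z hz
  obtain ⟨ψ, hψ, he'⟩ := hg z hz
  have hT := aeval_bihom_hom (M := M) hγ ha hb
  have h0 : ∀ᶠ w in 𝓝[≠] z, eval (Sum.elim (φ w) (ψ w)) S = 0 := by
    filter_upwards [hg2 z hz, he.filter_mono nhdsWithin_le_nhds, he'.filter_mono nhdsWithin_le_nhds,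
      mem_nhdsWithin_of_mem_nhds (hUo.mem_nhds hz)] with w h1 h2 h3 h4
    obtain ⟨h5, h6⟩ := h1
    obtain ⟨h7, h8⟩ := h2
    obtain ⟨h9, h10⟩ := h3
    have h11 : vals γ (φ w) ≠ 0 := by
      rw [h8] at h5
      exact (vals_rep_ne hγ h7).1 h5
    have h12 : Projectivization.mk ℂ (ψ w) h9 = Projectivization.mk ℂ (vals γ (φ w)) h11 := by
      rw [← h10, h6, h8, rmap_mk hγ h7 h11]
    rw [Projectivization.mk_eq_mk_iff'] at h12
    obtain ⟨c, hc⟩ := h12
    have h13 : VanishesAt (aeval (Sum.elim X γ) S) (f w) := hfX w h4 _ hmem _ hT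
    rw [h8, vanishesAt_mk_iff hT, ← eval_graph] at h13
    have h14 := eval_bihom' ha hb 1 c (φ w) (vals γ (φ w))
    rw [h13, mul_zero, one_smul, hc] at h14
    exact h14
  have hcont : ContinuousAt (fun w => eval (Sum.elim (φ w) (ψ w)) S) z := by
    have h1 : ContinuousAt (fun w => (Sum.elim (φ w) (ψ w) : Fin (M + 1) ⊕ Fin (N + 1) → ℂ)) z := by
      rw [continuousAt_pi]
      intro i
      rcases i with i | i
      · exact (continuous_apply i).continuousAt.comp hφ.continuousAt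
      · exact (continuous_apply i).continuousAt.comp hψ.continuousAt
    exact (MvPolynomial.continuous_eval S).continuousAt.comp h1
  have h00 : eval (Sum.elim (φ z) (ψ z)) S = 0 :=
    tendsto_nhds_unique (hcont.tendsto.mono_left nhdsWithin_le_nhds) (tendsto_const_nhds.congr' (h0.mono fun w hw => hw.symm))
  obtain ⟨h1, h2⟩ := he.self_of_nhds
  obtain ⟨h3, h4⟩ := he'.self_of_nhds
  have h5 : Projectivization.mk ℂ (f z).rep (f z).rep_nonzero = Projectivization.mk ℂ (φ z) h1 := by rw [Projectivization.mk_rep, h2]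
  have h6 : Projectivization.mk ℂ (g z).rep (g z).rep_nonzero = Projectivization.mk ℂ (ψ z) h3 := by rw [Projectivization.mk_rep, h4]
  rw [Projectivization.mk_eq_mk_iff'] at h5 h6
  obtain ⟨c, hc⟩ := h5
  obtain ⟨d, hd⟩ := h6
  rw [← hc, ← hd, eval_bihom' ha hb, h00, mul_zero]

theorem StrictMap.lift (hst : StrictMap P P' G G' D γ) {f : ℂ → PN M} {U : Set ℂ} (hUo : IsOpen U) (hUc : IsPreconnected U)
    (hf : HolomorphicInto f U) (hfU : ∀ z ∈ U, f z ∈ locVar P' G') {z₀ : ℂ} (hz₀ : z₀ ∈ U) {i₀ : Fin (N + 1)} (h : ¬ VanishesAt (γ i₀) (f z₀)) :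
    ∃ g : ℂ → PN N, HolomorphicInto g U ∧ (∀ z ∈ U, g z ∈ locVar P G) ∧ (∀ z ∈ U, InGraph P' γ (f z) (g z)) ∧ g z₀ = rmap γ (f z₀) := by
  obtain ⟨g, h1, h2, h3⟩ := exists_graph_lift hst.hom hUo hUc hf (fun z hz => (hfU z hz).1) hz₀ h
  exact ⟨g, h1, fun z hz => hst.into _ (hfU z hz) _ (h2 z hz), h2, h3⟩

end Pool.Agent.GTL
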