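import Pool.Agent.GTL.Cmp

/-!
# GTL Crv: the properties (ii) and (iii) go up along dominant strictly rational maps of varieties of the same dimension

PROOF.  As `H23.GU.gglc_up`, parts `picard` and `brody` (`exists_eq_aux`, `const_near`, `extend_of_alg` of GU/Up), with `StrictMap.lift` and `InGraph.rel` (Cmp) instead of
`exists_lift`.  `T = aeval γ (R * ∏ i, α i (Fin.last (m i))) * γ i₀ * X j`.
-/

set_option autoImplicit false

open Topology Filter MvPolynomial
open Pool.Agent.H17 (PN VanishesAt HolomorphicInto puncturedDisc)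
open Pool.Agent.H17LG.Variety (FunField)
open Pool.Agent.H62.SA (locVar)
open Pool.Agent.H17R (coordFun_ne_zero_iff)
open Pool.Agent.H7.Bir (vals rmap vanishesAt_rmap pn_identity punctured_open)
open Pool.Agent.H7.Qup (exists_eq_aux)
open Pool.Agent.H17 (vanishesAt_mk_iff)
open Pool.Agent.H23.GU (const_near extend_of_alg)

noncomputable section

namespace Pool.Agent.GTL

variable {N M : ℕ}

theorem curves_up {P : Ideal (MvPolynomial (Fin (N + 1)) ℂ)} [P.IsPrime] {P' : Ideal (MvPolynomial (Fin (M + 1)) ℂ)} [P'.IsPrime] {s s' D : ℕ}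
    {G : Fin s → MvPolynomial (Fin (N + 1)) ℂ} {G' : Fin s' → MvPolynomial (Fin (M + 1)) ℂ} {γ : Fin (N + 1) → MvPolynomial (Fin (M + 1)) ℂ}
    (h : StrictMap P P' G G' D γ) {k : ℕ} (hz : ∃ z : Fin (k + 1) → FunField P, IsTranscendenceBasis ℂ z)
    (hz' : ∃ z : Fin (k + 1) → FunField P', IsTranscendenceBasis ℂ z) {R : MvPolynomial (Fin (N + 1)) ℂ} {r : ℕ} (hR : R.IsHomogeneous r) (hRP : R ∉ P) :
    ∃ (T : MvPolynomial (Fin (M + 1)) ℂ) (n : ℕ), T.IsHomogeneous n ∧ T ∉ P' ∧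
      ((∀ f : ℂ → PN N, HolomorphicInto f puncturedDisc → (∀ z ∈ puncturedDisc, f z ∈ locVar P G) → (∃ z ∈ puncturedDisc, ¬ VanishesAt R (f z)) →
          ∃ g : ℂ → PN N, HolomorphicInto g (Metric.ball 0 1) ∧ ∀ z ∈ puncturedDisc, g z = f z) →
        ∀ f : ℂ → PN M, HolomorphicInto f puncturedDisc → (∀ z ∈ puncturedDisc, f z ∈ locVar P' G') → (∃ z ∈ puncturedDisc, ¬ VanishesAt T (f z)) →
          ∃ g : ℂ → PN M, HolomorphicInto g (Metric.ball 0 1) ∧ ∀ z ∈ puncturedDisc, g z = f z) ∧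
      ((∀ f : ℂ → PN N, HolomorphicInto f Set.univ → (∀ z, f z ∈ locVar P G) → (∃ z w, f z ≠ f w) → ∀ z, VanishesAt R (f z)) →
        ∀ f : ℂ → PN M, HolomorphicInto f Set.univ → (∀ z, f z ∈ locVar P' G') → (∃ z w, f z ≠ f w) → ∀ z, VanishesAt T (f z)) := by
  obtain ⟨z, hz⟩ := hz
  obtain ⟨z', hz'⟩ := hz'
  have hγ := h.hom
  have hmaps := h.maps
  obtain ⟨i₀, hi₀⟩ := Pool.Agent.H92.GT.Proj.exists_coordFun_ne_zero P z hz
  obtain ⟨j, hj⟩ := Pool.Agent.H92.GT.Proj.exists_coordFun_ne_zero P' z' hz'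
  have hi₀P : X i₀ ∉ P := coordFun_ne_zero_iff.1 hi₀
  have hjP : X j ∉ P' := coordFun_ne_zero_iff.1 hj
  have hγ₀ : γ i₀ ∉ P' := by
    intro h0
    have h1 := (hmaps 1 (X i₀) (isHomogeneous_X ℂ i₀)).1 (by rw [aeval_X]; exact h0)
    exact hi₀P h1
  -- the equations of the coordinates
  choose m D₁ α hα hαP hrel using exists_eq_aux hz hz' hγ hmaps hi₀P hjP
  set B : MvPolynomial (Fin (N + 1)) ℂ := R * ∏ i, α i (Fin.last (m i)) with hB
  have hBhom : B.IsHomogeneous (r + ∑ i, D₁ i) := hR.mul (IsHomogeneous.prod _ _ _ fun i _ => hα i _)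
  have hBP : B ∉ P := by
    intro h1
    rcases Ideal.IsPrime.mem_or_mem inferInstance h1 with h2 | h2
    · exact hRP h2
    · obtain ⟨i, -, h3⟩ := (Ideal.IsPrime.prod_mem_iff (p := P)).1 h2
      exact hαP i h3
  set T : MvPolynomial (Fin (M + 1)) ℂ := aeval γ B * γ i₀ * X j with hT
  have hThom : T.IsHomogeneous (D * (r + ∑ i, D₁ i) + D + 1) := ((hBhom.aeval γ hγ).mul (hγ i₀)).mul (isHomogeneous_X ℂ j)
  have hTP : T ∉ P' := by
    intro h1
    rcases Ideal.IsPrime.mem_or_mem inferInstance h1 with h2 | h2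
    · rcases Ideal.IsPrime.mem_or_mem inferInstance h2 with h3 | h3
      · exact hBP ((hmaps _ B hBhom).1 h3)
      · exact hγ₀ h3
    · exact hjP h2
  -- points outside of the exceptional set
  have key : ∀ y : PN M, ¬ VanishesAt T y → y.rep j ≠ 0 ∧ ¬ VanishesAt (γ i₀) y ∧ ¬ VanishesAt R (rmap γ y) ∧
      ∀ i, ¬ VanishesAt (α i (Fin.last (m i))) (rmap γ y) := by
    intro y hTy
    unfold VanishesAt at hTy
    rw [hT, map_mul, map_mul, mul_eq_zero, mul_eq_zero, not_or, not_or, eval_X] at hTy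
    obtain ⟨⟨h1, h2⟩, h3⟩ := hTy
    have h4 : vals γ y.rep ≠ 0 := fun h0 => h2 (congrFun h0 i₀)
    have h5 : ¬ VanishesAt B (rmap γ y) := by
      rw [vanishesAt_rmap h4 hBhom]
      exact h1
    unfold VanishesAt at h5
    rw [hB, map_mul, mul_eq_zero, not_or, map_prod, Finset.prod_eq_zero_iff] at h5
    push Not at h5
    exact ⟨h3, h2, h5.1, fun i => h5.2 i (Finset.mem_univ i)⟩
  refine ⟨T, _, hThom, hTP, ?_, ?_⟩
  · rintro hpic f hf hfX ⟨z₀, hz₀, hTz⟩
    obtain ⟨h1, h2, h3, h4⟩ := key _ hTz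
    obtain ⟨g, hg, hgX, hgr, hg0⟩ := h.lift punctured_open Pool.Agent.H36.BP.preconnected_puncturedDisc hf hfX hz₀ h2
    obtain ⟨ĝ, hĝ, hgg⟩ := hpic g hg hgX ⟨z₀, hz₀, fun h5 => h3 (by
      rw [← hg0]
      exact h5)⟩
    obtain ⟨ψ, hψ, hψg⟩ := hĝ 0 (Metric.mem_ball_self one_pos)
    refine extend_of_alg (j := j) (m := m) (α := α) (g := g) (fun i z hz => (hgr z hz).rel (hα i) (hrel i)) hf hψ ?_ fun i hi => ?_
    · filter_upwards [hψg, Metric.ball_mem_nhds (0 : ℂ) one_pos] with z h5 h6 h7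
      obtain ⟨h8, h9⟩ := h5
      exact ⟨h8, by rw [← h9, hgg z ⟨h6, h7⟩]⟩
    · apply h4 i
      have h5 := Pool.Agent.H36.BP.vanish_identity (convex_ball (0 : ℂ) 1).isPreconnected hĝ (S := {α i (Fin.last (m i))}) (by
        intro Q hQ
        rw [Set.mem_singleton_iff] at hQ
        subst hQ
        exact ⟨_, hα i _⟩) (Metric.mem_ball_self one_pos) (by
        filter_upwards [hi, hψg] with z h5 h6 Q hQ
        rw [Set.mem_singleton_iff] at hQ
        subst hQ
        obtain ⟨h7, h8⟩ := h6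
        rw [h8, vanishesAt_mk_iff (hα i _)]
        exact h5) z₀ hz₀.1 _ rfl
      rw [hgg z₀ hz₀, hg0] at h5
      exact h5
  · intro hbro f hf hfX hfn z₀
    by_contra hTz
    obtain ⟨h1, h2, h3, h4⟩ := key _ hTz
    obtain ⟨g, hg, hgX, hgr, hg0⟩ := h.lift isOpen_univ isPreconnected_univ hf (fun z _ => hfX z) (Set.mem_univ z₀) h2
    have hconst : ∀ z w, g z = g w := by
      by_contra hcon
      push Not at hcon
      apply h3
      rw [← hg0]
      exact hbro g hg (fun z => hgX z (Set.mem_univ z)) hcon z₀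
    obtain ⟨φ, hφ, he⟩ := hf z₀ (Set.mem_univ z₀)
    have hφj : φ z₀ j ≠ 0 := by
      obtain ⟨h7, h8⟩ := he.self_of_nhds
      obtain ⟨a, ha⟩ := Projectivization.exists_smul_eq_mk_rep ℂ (φ z₀) h7
      have h9 : (f z₀).rep = (a : ℂ) • φ z₀ := by rw [h8]; exact ha.symm
      rw [h9] at h1
      exact right_ne_zero_of_mul h1
    have hnear : ∀ᶠ z in 𝓝 z₀, f z = (fun _ => f z₀) z := by
      refine const_near (j := j) (m := m) (α := α) (g := g) (x := (g z₀).rep) (fun i => Eventually.of_forall fun z => (hgr z (Set.mem_univ z)).rel (hα i) (hrel i))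
        hφ he hφj (g z₀).rep_nonzero (fun i => ?_) (Eventually.of_forall fun z => ?_)
      · have h5 := h4 i
        rw [← hg0] at h5
        exact h5
      · rw [(g z₀).mk_rep]
        exact hconst z z₀
    have hc : HolomorphicInto (fun _ : ℂ => f z₀) Set.univ := by
      intro z _
      exact ⟨fun _ => (f z₀).rep, analyticAt_const, Eventually.of_forall fun _ => ⟨(f z₀).rep_nonzero, (f z₀).mk_rep.symm⟩⟩
    have h5 := pn_identity isPreconnected_univ hf hc (Set.mem_univ z₀) hnear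
    obtain ⟨z, w, hzw⟩ := hfn
    exact hzw ((h5 z (Set.mem_univ z)).trans (h5 w (Set.mem_univ w)).symm)

end Pool.Agent.GTL
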