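import Pool.Agent.GBL.Defs
import Pool.Agent.GT.Defs
import Pool.Agent.H62.Qe.Defs

/-!
# GTL Defs: strictly rational maps, the four properties for quasi-projective varieties, and the conclusion of the theorem

`locVar P G` is the quasi-projective variety of the points of the projective variety of `P` at which some form `G l` is not `0`.  A dominant rational map `V ⇢ U` of
quasi-projective varieties is strictly rational (Iitaka) if all points `(y, x)` of the closure of its graph with `y ∈ V` have `x ∈ U` (so the graph is proper over `V`).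
Examples: dominant regular maps; all dominant rational maps if `U` is projective.
-/

set_option autoImplicit false

open MvPolynomial
open Pool.Agent.H17 (PN VanishesAt HolomorphicInto puncturedDisc ZariskiClosedIn)
open Pool.Agent.H17EF (projVar)
open Pool.Agent.H13.OT (OrderTwo)
open Pool.Agent.H17LG.Variety (FunField IsLogGeneralType)
open Pool.Agent.H62.FC (Homog)
open Pool.Agent.H62.SA (locVar OnBd)
open Pool.Agent.H62.Qe (IsEtaleOver)
open Pool.Agent.H7.Bir (GGLOpen)

namespace Pool.Agent.GTL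

variable {N M : ℕ}

/-- the equation of the union of the hyperplane sections `x i = 0`, `i ∈ B` -/
noncomputable def bdy (B : Finset (Fin (N + 1))) : Fin 1 → MvPolynomial (Fin (N + 1)) ℂ := fun _ => ∏ i ∈ B, X i

/-- The point `(y, x)` lies in the closure of the graph of the rational map from the projective variety of `P'` to `ℙ^N` given by the forms `γ i`: all bihomogeneous
polynomials which vanish on the graph vanish at `(y, x)`. -/
def InGraph (P' : Ideal (MvPolynomial (Fin (M + 1)) ℂ)) (γ : Fin (N + 1) → MvPolynomial (Fin (M + 1)) ℂ) (y : PN M) (x : PN N) : Prop :=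
  ∀ (a b : ℕ) (S : MvPolynomial (Fin (M + 1) ⊕ Fin (N + 1)) ℂ),
    IsWeightedHomogeneous (Sum.elim (fun _ => 1) fun _ => 0 : Fin (M + 1) ⊕ Fin (N + 1) → ℕ) S a →
    IsWeightedHomogeneous (Sum.elim (fun _ => 0) fun _ => 1 : Fin (M + 1) ⊕ Fin (N + 1) → ℕ) S b →
    aeval (Sum.elim X γ) S ∈ P' → eval (Sum.elim y.rep x.rep) S = 0

/-- The forms `γ i`, all of degree `D`, give a dominant strictly rational map from the quasi-projective variety `V = locVar P' G'` to the quasi-projective variety
`U = locVar P G`. -/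
structure StrictMap (P : Ideal (MvPolynomial (Fin (N + 1)) ℂ)) (P' : Ideal (MvPolynomial (Fin (M + 1)) ℂ)) {s s' : ℕ}
    (G : Fin s → MvPolynomial (Fin (N + 1)) ℂ) (G' : Fin s' → MvPolynomial (Fin (M + 1)) ℂ) (D : ℕ) (γ : Fin (N + 1) → MvPolynomial (Fin (M + 1)) ℂ) : Prop where
  /-- the `γ i` are forms of degree `D` -/
  hom : ∀ i, (γ i).IsHomogeneous D
  /-- the image is contained in the projective variety of `P`, and dense in it -/
  maps : ∀ (n : ℕ) (R : MvPolynomial (Fin (N + 1)) ℂ), R.IsHomogeneous n → (aeval γ R ∈ P' ↔ R ∈ P)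
  /-- the points of the closure of the graph over `V` are mapped into `U` -/
  into : ∀ y ∈ locVar P' G', ∀ x : PN N, InGraph P' γ y x → x ∈ locVar P G

/-- The quasi-projective variety `V = locVar P' G'` virtually dominates the quasi-projective variety `U = locVar P G`: some finite étale covering of `V` has a dominant strictly
rational map to `U`. -/
def VirtDominates (P : Ideal (MvPolynomial (Fin (N + 1)) ℂ)) (P' : Ideal (MvPolynomial (Fin (M + 1)) ℂ)) {s s' : ℕ}
    (G : Fin s → MvPolynomial (Fin (N + 1)) ℂ) (G' : Fin s' → MvPolynomial (Fin (M + 1)) ℂ) : Prop :=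
  ∃ (L : ℕ) (P₁ : Ideal (MvPolynomial (Fin (L + 1)) ℂ)) (_ : P₁.IsPrime) (s₁ : ℕ) (G₁ : Fin s₁ → MvPolynomial (Fin (L + 1)) ℂ) (p : PN L → PN M) (D : ℕ)
    (γ : Fin (N + 1) → MvPolynomial (Fin (L + 1)) ℂ), Homog P₁ ∧ (∀ l, ∃ e, (G₁ l).IsHomogeneous e) ∧ IsEtaleOver P' P₁ G' G₁ p ∧ StrictMap P P₁ G G₁ D γ

/-- (i) The quasi-projective variety `locVar P G`, of dimension `n`, is of log general type. -/
def GeneralType (P : Ideal (MvPolynomial (Fin (N + 1)) ℂ)) [P.IsPrime] {s : ℕ} (G : Fin s → MvPolynomial (Fin (N + 1)) ℂ) (n : ℕ) : Prop :=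
  IsLogGeneralType (OnBd P G (k := n))

/-- (ii) All holomorphic maps of the punctured disc to the variety whose image is not contained in a certain proper closed subset extend to holomorphic maps of the disc to `ℙ^N`. -/
def PseudoPicard (P : Ideal (MvPolynomial (Fin (N + 1)) ℂ)) {s : ℕ} (G : Fin s → MvPolynomial (Fin (N + 1)) ℂ) : Prop :=
  ∃ Ξ : Set (PN N), ZariskiClosedIn (locVar P G) Ξ ∧ Ξ ≠ locVar P G ∧
    ∀ f : ℂ → PN N, HolomorphicInto f puncturedDisc → (∀ z ∈ puncturedDisc, f z ∈ locVar P G) → (∃ z ∈ puncturedDisc, f z ∉ Ξ) →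
      ∃ g : ℂ → PN N, HolomorphicInto g (Metric.ball 0 1) ∧ ∀ z ∈ puncturedDisc, g z = f z

/-- (iii) All nonconstant entire curves in the variety are contained in a certain proper closed subset. -/
def PseudoBrody (P : Ideal (MvPolynomial (Fin (N + 1)) ℂ)) {s : ℕ} (G : Fin s → MvPolynomial (Fin (N + 1)) ℂ) : Prop :=
  ∃ Ξ : Set (PN N), ZariskiClosedIn (locVar P G) Ξ ∧ Ξ ≠ locVar P G ∧
    ∀ f : ℂ → PN N, HolomorphicInto f Set.univ → (∀ z, f z ∈ locVar P G) → (∃ z w, f z ≠ f w) → ∀ z, f z ∈ Ξ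

/-- (iv) All closed subvarieties of positive dimension which are not contained in a certain proper closed subset are of log general type. -/
def StronglyGeneralType (P : Ideal (MvPolynomial (Fin (N + 1)) ℂ)) {s : ℕ} (G : Fin s → MvPolynomial (Fin (N + 1)) ℂ) : Prop :=
  ∃ Ξ : Set (PN N), ZariskiClosedIn (locVar P G) Ξ ∧ Ξ ≠ locVar P G ∧
    ∀ (Q : Ideal (MvPolynomial (Fin (N + 1)) ℂ)) [Q.IsPrime], Homog Q → P ≤ Q → ¬ locVar Q G ⊆ Ξ →
      ∀ w, 1 ≤ w → (∃ z : Fin w → FunField Q, IsTranscendenceBasis ℂ z) → GeneralType Q G w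

/-- The four properties are equivalent. -/
def AllEquiv (P : Ideal (MvPolynomial (Fin (N + 1)) ℂ)) [P.IsPrime] {s : ℕ} (G : Fin s → MvPolynomial (Fin (N + 1)) ℂ) (n : ℕ) : Prop :=
  (GeneralType P G n ↔ PseudoPicard P G) ∧ (GeneralType P G n ↔ PseudoBrody P G) ∧ (GeneralType P G n ↔ StronglyGeneralType P G)

/-- The conclusion, for the quasi-projective variety `U = locVar P G` of dimension `n`. -/
structure Conclusion (P : Ideal (MvPolynomial (Fin (N + 1)) ℂ)) [P.IsPrime] {s : ℕ} (G : Fin s → MvPolynomial (Fin (N + 1)) ℂ) (n : ℕ) : Prop where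
  /-- The four properties are equivalent for `U`. -/
  self : AllEquiv P G n
  /-- They are equivalent for every quasi-projective variety `V` of the same dimension such that `V` and `U` virtually dominate each other, in particular for all `V` which are
  properly birational to `U`. -/
  equiv : ∀ (M : ℕ) (P' : Ideal (MvPolynomial (Fin (M + 1)) ℂ)) [P'.IsPrime], Homog P' → (∃ z : Fin n → FunField P', IsTranscendenceBasis ℂ z) →
    ∀ (s' : ℕ) (G' : Fin s' → MvPolynomial (Fin (M + 1)) ℂ), (∀ l, ∃ e, (G' l).IsHomogeneous e) → (locVar P' G').Nonempty →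
      VirtDominates P P' G G' → VirtDominates P' P G' G → AllEquiv P' G' n
  /-- If `U` is of log general type, then every quasi-projective variety of the same dimension which virtually dominates `U` has the four properties, with one exceptional set. -/
  up : GeneralType P G n → ∀ (M : ℕ) (P' : Ideal (MvPolynomial (Fin (M + 1)) ℂ)) [P'.IsPrime], Homog P' → (∃ z : Fin n → FunField P', IsTranscendenceBasis ℂ z) →
    ∀ (s' : ℕ) (G' : Fin s' → MvPolynomial (Fin (M + 1)) ℂ), (∀ l, ∃ e, (G' l).IsHomogeneous e) → (locVar P' G').Nonempty → VirtDominates P P' G G' →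
      ∃ Ξ : Set (PN M), GGLOpen P' G' Ξ
  /-- If `U` is not of log general type, then the nonconstant entire curves of order at most two in `U` are Zariski dense in `U`. -/
  dense : ¬ GeneralType P G n → ∀ (R : MvPolynomial (Fin (N + 1)) ℂ) (e : ℕ), R.IsHomogeneous e → R ∉ P →
    ∃ f : ℂ → PN N, HolomorphicInto f Set.univ ∧ OrderTwo f ∧ (∀ z, f z ∈ locVar P G) ∧ (∃ z w, f z ≠ f w) ∧ ¬ VanishesAt R (f 0)

/-- bihomogeneous polynomials -/
theorem eval_bihom {a b : ℕ} {S : MvPolynomial (Fin (M + 1) ⊕ Fin (N + 1)) ℂ}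
    (ha : IsWeightedHomogeneous (Sum.elim (fun _ => 1) fun _ => 0 : Fin (M + 1) ⊕ Fin (N + 1) → ℕ) S a)
    (hb : IsWeightedHomogeneous (Sum.elim (fun _ => 0) fun _ => 1 : Fin (M + 1) ⊕ Fin (N + 1) → ℕ) S b) {R : Type*} [CommRing R] [Algebra ℂ R] (c d : R)
    (y : Fin (M + 1) → R) (x : Fin (N + 1) → R) : aeval (Sum.elim (c • y) (d • x)) S = c ^ a * d ^ b * aeval (Sum.elim y x) S := by
  rw [aeval_def, aeval_def, eval₂_eq', eval₂_eq', Finset.mul_sum]
  refine Finset.sum_congr rfl fun e he => ?_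
  have h1 := ha (mem_support_iff.1 he)
  have h2 := hb (mem_support_iff.1 he)
  rw [Finsupp.weight_apply, Finsupp.sum_fintype _ _ (by simp), Fintype.sum_sum_type] at h1 h2
  simp only [Sum.elim_inl, Sum.elim_inr, smul_eq_mul, mul_one, mul_zero, Finset.sum_const_zero, add_zero, zero_add] at h1 h2
  rw [Fintype.prod_sum_type, Fintype.prod_sum_type]
  simp only [Sum.elim_inl, Sum.elim_inr, Pi.smul_apply, smul_eq_mul, mul_pow, Finset.prod_mul_distrib, Finset.prod_pow_eq_pow_sum, h1, h2]
  ring

theorem eval_bihom' {a b : ℕ} {S : MvPolynomial (Fin (M + 1) ⊕ Fin (N + 1)) ℂ}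
    (ha : IsWeightedHomogeneous (Sum.elim (fun _ => 1) fun _ => 0 : Fin (M + 1) ⊕ Fin (N + 1) → ℕ) S a)
    (hb : IsWeightedHomogeneous (Sum.elim (fun _ => 0) fun _ => 1 : Fin (M + 1) ⊕ Fin (N + 1) → ℕ) S b) (c d : ℂ)
    (y : Fin (M + 1) → ℂ) (x : Fin (N + 1) → ℂ) : eval (Sum.elim (c • y) (d • x)) S = c ^ a * d ^ b * eval (Sum.elim y x) S := by
  have h := eval_bihom ha hb c d y x
  rwa [MvPolynomial.aeval_eq_eval, MvPolynomial.aeval_eq_eval] at h

end Pool.Agent.GTL
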