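import Pool.Agent.GBL.Defs
import Pool.Agent.GL.EmpA
import Pool.Agent.GT.Res

/-!
# GTL ResL: the restriction of logarithmic symmetric differentials to closed subvarieties, and the case `B = ∅`

As GT/Res.
-/

set_option autoImplicit false

open MvPolynomial
open Pool.Agent.H13.SM (conTan cone)
open Pool.Agent.GL
open Pool.Agent.GBL (LogGenerated)

noncomputable section

namespace Pool.Agent.GTL

variable {N : ℕ} {P Q : Ideal (MvPolynomial (Fin (N + 1)) ℂ)} {B : Finset (Fin (N + 1))}

/-- the restriction of a logarithmic symmetric differential -/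
def resL {m : ℕ} (h : P ≤ Q) (t : LogSec P B m) : LogSec Q B m where
  toFun := t.toFun
  regular i := by
    obtain ⟨e, A, hA⟩ := t.regular i
    exact ⟨e, A, fun x hx ξ hξ => hA x (GT.cone_mono h hx) ξ (GT.conTan_mono h hξ)⟩
  add_smul x hx ξ hξ a := t.add_smul x (GT.cone_mono h hx) ξ (GT.conTan_mono h hξ) a
  smul x hx ξ hξ a := t.smul x (GT.cone_mono h hx) ξ (GT.conTan_mono h hξ) a
  scale x hx ξ hξ c hc := t.scale x (GT.cone_mono h hx) ξ (GT.conTan_mono h hξ) c hc

theorem logGenerated_res (h : P ≤ Q) {J m : ℕ} {θ : Fin J → LogSec P B m} (hθ : LogGenerated θ) : LogGenerated fun k => resL h (θ k) := by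
  intro x hx G hG hinv
  obtain ⟨c, hc⟩ := hθ x (GT.cone_mono h hx) G hG hinv
  exact ⟨c, fun ξ hξ => hc ξ (GT.conTan_mono h hξ)⟩

theorem generated_toSym {J m : ℕ} {θ : Fin J → LogSec P ∅ m} (hθ : LogGenerated θ) : Pool.Agent.GB.Generated fun k => toSym (θ k) := by
  intro x hx G hG hinv
  obtain ⟨c, hc⟩ := hθ x hx G hG (fun v a => by rw [eul_empty]; exact hinv v a)
  exact ⟨c, fun v hv => hc v (by rwa [act_empty])⟩

end Pool.Agent.GTL
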