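import Pool.Agent.GTL.Loc
import Pool.Agent.GTL.ResL
import Pool.Agent.GBL.Use
import Pool.Agent.GB.Use

/-!
# GTL EntB: Theorem B for entire curves, logarithmic case

PROOF.  `B = ∅`: `GB.exists_entire_sub` with `toSym`, `generated_toSym`.  `b ∈ B`: `GBL.exists_entireL` (the lift `F`): order: `log ‖F z‖ ≤ Rho B (F z) ≤ C (1 + |z|)` (`‖x i‖ ≤ ‖x‖`).
-/

set_option autoImplicit false

open MvPolynomial Topology Filter Metric
open Pool.Agent.H13.SM (conTan cone)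
open Pool.Agent.H17 (PN HolomorphicInto VanishesAt)
open Pool.Agent.H13.OT (OrderTwo)
open Pool.Agent.H17LG.Variety (FunField IsLogGeneralType)
open Pool.Agent.H62.FC (Homog)
open Pool.Agent.H62.SA (locVar OnBd)
open Pool.Agent.GL
open Pool.Agent.GBL (LogGenerated)

namespace Pool.Agent.GTL

variable {N : ℕ} {P : Ideal (MvPolynomial (Fin (N + 1)) ℂ)} {B : Finset (Fin (N + 1))} {J m : ℕ} {θ : Fin J → LogSec P B m}

/-- `log ‖x‖` is at most the height -/
private theorem log_le_Rho {x : Fin (N + 1) → ℂ} (hx : ∀ i ∈ B, x i ≠ 0) : Real.log ‖x‖ ≤ Rho B x := by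
  unfold Rho
  refine le_add_of_nonneg_right (Finset.sum_nonneg fun i hi => sub_nonneg.2 ?_)
  exact Real.log_le_log (norm_pos_iff.2 (hx i hi)) (norm_le_pi_norm x i)

/-- an entire curve with `log ‖F z‖ ≤ C (1 + |z|)` has order two -/
private theorem orderTwo_of_log {F : ℂ → Fin (N + 1) → ℂ} (hF : ∀ z, AnalyticAt ℂ F z) (h0 : ∀ z, F z ≠ 0) {C : ℝ} (hC : ∀ z, Real.log ‖F z‖ ≤ C * (1 + ‖z‖)) :
    OrderTwo fun z => Projectivization.mk ℂ (F z) (h0 z) := by
  refine ⟨F, 2 * |C|, fun z => (hF z).differentiableAt, fun z => ⟨h0 z, rfl⟩, fun r hr => ?_⟩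
  have hcont : Continuous fun z => Real.log ‖F z‖ := by
    refine continuous_iff_continuousAt.2 fun z => ?_
    exact ((hF z).continuousAt.norm).log (norm_ne_zero_iff.2 (h0 z))
  have h1 : Real.circleAverage (fun z => Real.log ‖F z‖) 0 r ≤ |C| * (1 + r) := by
    refine Real.circleAverage_mono_on_of_le_circle (hcont.continuousOn.circleIntegrable' ) fun z hz => ?_
    rw [mem_sphere_zero_iff_norm, abs_of_pos hr] at hz
    refine (hC z).trans ?_
    rw [hz]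
    exact mul_le_mul_of_nonneg_right (le_abs_self C) (by positivity)
  refine h1.trans ?_
  have h2 : 0 ≤ |C| := abs_nonneg C
  nlinarith [sq_nonneg (r - 1), mul_nonneg h2 (sq_nonneg (r - 1)), mul_nonneg h2 (sq_nonneg r)]

theorem exists_entireB [P.IsPrime] (hP : Homog P) (hm : 1 ≤ m) (hgen : LogGenerated θ) (hB : ∀ i ∈ B, X i ∉ P) {k : ℕ} (hk : 1 ≤ k)
    (hz : ∃ z : Fin k → FunField P, IsTranscendenceBasis ℂ z) (hn : ¬ IsLogGeneralType (OnBd P (bdy B) (k := k)))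
    {q : MvPolynomial (Fin (N + 1)) ℂ} {n : ℕ} (hq : q.IsHomogeneous n) (hqP : q ∉ P) :
    ∃ g : ℂ → PN N, HolomorphicInto g Set.univ ∧ OrderTwo g ∧ (∀ z, g z ∈ locVar P (bdy B)) ∧ (∃ z w, g z ≠ g w) ∧ ¬ VanishesAt q (g 0) := by
  rw [locVar_bdy]
  rcases B.eq_empty_or_nonempty with hBe | ⟨b, hb⟩
  · subst hBe
    rw [onBd_empty] at hn
    obtain ⟨g, -, h1, h2, h3, h4, h5, -⟩ := Pool.Agent.GB.exists_entire_sub hP hm (generated_toSym hgen) hP le_rfl hk hz hn hq hqP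
    exact ⟨g, h1, h2, fun z => ⟨h3 z, fun i hi => absurd hi (Finset.notMem_empty i)⟩, h4, h5⟩
  · rw [onBd_bdy, Pool.Agent.GBL.bdB_eq] at hn
    obtain ⟨F, h1, h2, h3, h4, -, C, hC⟩ := Pool.Agent.GBL.exists_entireL hP hm hgen hb hB hk hz hn hq hqP
    have h0 : ∀ z, F z ≠ 0 := fun z => (h2 z).1.1
    refine ⟨fun z => Projectivization.mk ℂ (F z) (h0 z), fun z _ => ⟨F, h1 z, Filter.Eventually.of_forall fun w => ⟨h0 w, rfl⟩⟩,
      orderTwo_of_log h1 h0 fun z => (log_le_Rho (h2 z).2.2).trans (hC z), fun z => ⟨fun p hp n hn => ?_, fun i hi => ?_⟩, ?_, ?_⟩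
    · rw [Pool.Agent.H17BP.vanishesAt_mk hn (h0 z)]
      exact (h2 z).1.2 p hp
    · rw [Pool.Agent.H17BP.vanishesAt_mk (isHomogeneous_X ℂ i) (h0 z), eval_X]
      exact (h2 z).2.2 i hi
    · by_contra hcon
      push Not at hcon
      apply h4
      have hF : ∀ z, F z = F 0 := by
        intro z
        obtain ⟨a, ha⟩ := (Projectivization.mk_eq_mk_iff' ℂ _ _ (h0 z) (h0 0)).1 (hcon z 0)
        have e1 := congrFun ha b
        rw [Pi.smul_apply, (h2 z).2.1, (h2 0).2.1, smul_eq_mul, mul_one] at e1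
        rw [← ha, e1, one_smul]
      have : F = fun _ => F 0 := funext hF
      rw [this]
      exact deriv_const _ _
    · rw [Pool.Agent.H17BP.vanishesAt_mk hq (h0 0)]
      exact h3

/-- the same for a closed subvariety `Q` -/
theorem exists_entireB_sub {Q : Ideal (MvPolynomial (Fin (N + 1)) ℂ)} [Q.IsPrime] (hQ : Homog Q) (hPQ : P ≤ Q) (hm : 1 ≤ m) (hgen : LogGenerated θ) (hB : ∀ i ∈ B, X i ∉ Q) {k : ℕ} (hk : 1 ≤ k)
    (hz : ∃ z : Fin k → FunField Q, IsTranscendenceBasis ℂ z) (hn : ¬ IsLogGeneralType (OnBd Q (bdy B) (k := k)))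
    {q : MvPolynomial (Fin (N + 1)) ℂ} {n : ℕ} (hq : q.IsHomogeneous n) (hqQ : q ∉ Q) :
    ∃ g : ℂ → PN N, HolomorphicInto g Set.univ ∧ OrderTwo g ∧ (∀ z, g z ∈ locVar Q (bdy B)) ∧ (∃ z w, g z ≠ g w) ∧ ¬ VanishesAt q (g 0) :=
  exists_entireB hQ hm (logGenerated_res hPQ hgen) hB hk hz hn hq hqQ

end Pool.Agent.GTL
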