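import Pool.Agent.GTL.EtDf
import Pool.Agent.H62.FC.Place

/-!
# GTL EtA: an element of `K'` which is regular at all prime divisors over `E` is integral at `E`

PROOF.  `A` = the valuation ring of `E` in `K`: a discrete valuation ring with fraction field `K`.  The integral closure `B` of `A` in `K'` is a Dedekind domain with
fraction field `K'` (`integralClosure.isDedekindDomain`; `K' / K` is finite and separable).  Every height one prime `v` of `B` gives a prime divisor `E'` of `K'`
(`Place_add (v.valuation K')`): it is `≥ 0` on `B`, `> 0` on the uniformizer `t` of `E` (`v ∩ A` is a nonzero prime ideal of `A`, so the maximal ideal), so `Over E E' e`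
with `e = ord' t ≥ 1`.  `residue_trdeg`: the images of the elements of `K` for `E`.  So if `ord' x ≥ 0` for all these `E'` then `x` is integral over `A`
(`HeightOneSpectrum.mem_integers_of_valuation_le_one`), and the coefficients of `minpoly K x` are in `A`.
-/

set_option autoImplicit false

open Pool.Agent.H23.Fano (PrimeDivisorOver)
open Pool.Agent.H62.FC (Place_phi Place_phi_zero Place_phi_one Place_phi_exp Place_phi_mul Place_phi_nonneg_iff Place_add Place_add_apply)

noncomputable section

namespace Pool.Agent.GTL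

section EtA

variable {K : Type} [Field K] [Algebra ℂ K] {k : ℕ}

private theorem etA_int (E : PrimeDivisorOver K k) {a : K} (ha : a ≠ 0) : ∃ n : ℤ, E.ord a = (n : WithTop ℤ) ∧ E.ord a⁻¹ = ((-n : ℤ) : WithTop ℤ) := by
  have h1 : E.ord a ≠ ⊤ := fun h => ha (E.ord.top_iff.1 h)
  have h2 : E.ord a⁻¹ ≠ ⊤ := fun h => inv_ne_zero ha (E.ord.top_iff.1 h)
  obtain ⟨n, hn⟩ := WithTop.ne_top_iff_exists.1 h1
  obtain ⟨l, hl⟩ := WithTop.ne_top_iff_exists.1 h2
  have h3 : E.ord a + E.ord a⁻¹ = 0 := by rw [← AddValuation.map_mul, mul_inv_cancel₀ ha, AddValuation.map_one]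
  rw [← hn, ← hl, ← WithTop.coe_add] at h3
  have h4 : n + l = 0 := by exact_mod_cast h3
  refine ⟨n, hn.symm, ?_⟩
  rw [← hl]
  congr 1
  omega

private theorem etA_pow (E : PrimeDivisorOver K k) {t : K} (ht : E.ord t = 1) (n : ℕ) : E.ord (t ^ n) = ((n : ℤ) : WithTop ℤ) := by
  induction n with
  | zero => rw [pow_zero, AddValuation.map_one]; rfl
  | succ n ih =>
    rw [pow_succ, AddValuation.map_mul, ih, ht]
    push_cast
    rfl

private theorem etA_zpow (E : PrimeDivisorOver K k) {t : K} (ht0 : t ≠ 0) (ht : E.ord t = 1) (n : ℤ) : E.ord (t ^ n) = (n : WithTop ℤ) := by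
  cases n with
  | ofNat n => rw [Int.ofNat_eq_natCast, zpow_natCast]; exact etA_pow E ht n
  | negSucc n =>
    rw [zpow_negSucc]
    obtain ⟨l, h1, h2⟩ := etA_int E (pow_ne_zero (n + 1) ht0)
    rw [etA_pow E ht (n + 1)] at h1
    have h3 : ((n + 1 : ℕ) : ℤ) = l := by exact_mod_cast h1
    rw [h2, ← h3]
    rfl

/-- the valuation ring -/
private def etVr (E : PrimeDivisorOver K k) : ValuationSubring K where
  carrier := {a | 0 ≤ E.ord a}
  mul_mem' := by
    intro a b ha hb
    show 0 ≤ E.ord (a * b)
    rw [AddValuation.map_mul]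
    exact add_nonneg ha hb
  one_mem' := by
    show 0 ≤ E.ord 1
    rw [AddValuation.map_one]
  add_mem' := by
    intro a b ha hb
    exact (le_min ha hb).trans (E.ord.map_add a b)
  zero_mem' := by
    show 0 ≤ E.ord 0
    rw [AddValuation.map_zero]
    exact le_top
  neg_mem' := by
    intro a ha
    show 0 ≤ E.ord (-a)
    rw [AddValuation.map_neg]
    exact ha
  mem_or_inv_mem' := by
    intro a
    by_cases h0 : a = 0
    · left
      show 0 ≤ E.ord a
      rw [h0, AddValuation.map_zero]
      exact le_top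
    · obtain ⟨n, h1, h2⟩ := etA_int E h0
      rcases le_total 0 n with h | h
      · left
        show 0 ≤ E.ord a
        rw [h1]
        exact_mod_cast h
      · right
        show 0 ≤ E.ord a⁻¹
        rw [h2]
        have : 0 ≤ -n := by omega
        exact_mod_cast this

private theorem mem_etVr (E : PrimeDivisorOver K k) {a : K} : a ∈ etVr E ↔ 0 ≤ E.ord a := Iff.rfl

private theorem etA_unit (E : PrimeDivisorOver K k) (x : etVr E) (hx : (x : K) ≠ 0) : IsUnit x ↔ E.ord (x : K) = 0 := by
  obtain ⟨n, h1, h2⟩ := etA_int E hx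
  constructor
  · rintro ⟨u, hu⟩
    have e : (x : K) * (((u⁻¹ : (etVr E)ˣ) : etVr E) : K) = 1 := by
      have h := congrArg Subtype.val u.mul_inv
      rw [hu] at h
      exact h
    have e2 : (((u⁻¹ : (etVr E)ˣ) : etVr E) : K) = (x : K)⁻¹ := (inv_eq_of_mul_eq_one_right e).symm
    have h3 : 0 ≤ E.ord (x : K)⁻¹ := by
      rw [← e2]
      exact (mem_etVr E).1 ((u⁻¹ : (etVr E)ˣ) : etVr E).2
    have h4 : 0 ≤ E.ord (x : K) := (mem_etVr E).1 x.2
    rw [h1] at h4 ⊢
    rw [h2] at h3
    have h5 : 0 ≤ n := by exact_mod_cast h4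
    have h6 : 0 ≤ -n := by exact_mod_cast h3
    have h7 : n = 0 := by omega
    rw [h7]
    rfl
  · intro h
    rw [h1] at h
    have h3 : n = 0 := by exact_mod_cast h
    have hi : (x : K)⁻¹ ∈ etVr E := (mem_etVr E).2 (by rw [h2, h3]; simp)
    refine IsUnit.of_mul_eq_one ⟨(x : K)⁻¹, hi⟩ ?_
    apply Subtype.ext
    exact mul_inv_cancel₀ hx

private theorem etA_dvr (E : PrimeDivisorOver K k) {t : K} (ht0 : t ≠ 0) (ht : E.ord t = 1) : IsDiscreteValuationRing (etVr E) := by
  apply IsDiscreteValuationRing.ofHasUnitMulPowIrreducibleFactorization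
  have htm : t ∈ etVr E := (mem_etVr E).2 (by rw [ht]; exact zero_le_one)
  refine ⟨⟨t, htm⟩, ⟨?_, ?_⟩, ?_⟩
  · rw [etA_unit E _ ht0]
    change ¬ E.ord t = 0
    rw [ht]
    exact one_ne_zero
  · intro a b hab
    have hab' : t = (a : K) * (b : K) := congrArg Subtype.val hab
    have ha : (a : K) ≠ 0 := by
      intro h; apply ht0; rw [hab', h, zero_mul]
    have hb : (b : K) ≠ 0 := by
      intro h; apply ht0; rw [hab', h, mul_zero]
    have h2 : E.ord t = E.ord (a : K) + E.ord (b : K) := by rw [hab', AddValuation.map_mul]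
    have h3 : 0 ≤ E.ord (a : K) := (mem_etVr E).1 a.2
    have h4 : 0 ≤ E.ord (b : K) := (mem_etVr E).1 b.2
    rw [etA_unit E a ha, etA_unit E b hb]
    obtain ⟨n, hn, -⟩ := etA_int E ha
    obtain ⟨l, hl, -⟩ := etA_int E hb
    rw [ht, hn, hl] at h2
    rw [hn] at h3
    rw [hl] at h4
    have h5 : (1 : ℤ) = n + l := by exact_mod_cast h2
    have h6 : 0 ≤ n := by exact_mod_cast h3
    have h7 : 0 ≤ l := by exact_mod_cast h4
    rw [hn, hl]
    rcases (by omega : n = 0 ∨ l = 0) with h | h
    · left; rw [h]; rfl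
    · right; rw [h]; rfl
  · intro x hx
    have hx' : (x : K) ≠ 0 := fun h => hx (Subtype.ext h)
    obtain ⟨n, hn, hn'⟩ := etA_int E hx'
    have h3 : 0 ≤ E.ord (x : K) := (mem_etVr E).1 x.2
    rw [hn] at h3
    have h4 : 0 ≤ n := by exact_mod_cast h3
    obtain ⟨l, rfl⟩ := Int.eq_ofNat_of_zero_le h4
    refine ⟨l, ?_⟩
    have hp : t ^ l ≠ 0 := pow_ne_zero l ht0
    have hu0 : (x : K) * (t ^ l)⁻¹ ≠ 0 := mul_ne_zero hx' (inv_ne_zero hp)
    have hv0 : E.ord ((x : K) * (t ^ l)⁻¹) = 0 := by
      obtain ⟨j, h5, h6⟩ := etA_int E hp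
      rw [etA_pow E ht l] at h5
      have h7 : (l : ℤ) = j := by exact_mod_cast h5
      rw [AddValuation.map_mul, hn, h6, ← h7, ← WithTop.coe_add]
      simp
    have hum : (x : K) * (t ^ l)⁻¹ ∈ etVr E := (mem_etVr E).2 (by rw [hv0])
    obtain ⟨u, hu⟩ : IsUnit (⟨_, hum⟩ : etVr E) := (etA_unit E ⟨_, hum⟩ hu0).2 hv0
    refine ⟨u, ?_⟩
    apply Subtype.ext
    rw [hu]
    change t ^ l * ((x : K) * (t ^ l)⁻¹) = x
    field_simp

theorem integral_of_over {K K' : Type} [Field K] [Algebra ℂ K] [Field K'] [Algebra ℂ K'] [Algebra K K'] [IsScalarTower ℂ K K'] [FiniteDimensional K K'] {k : ℕ}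
    (E : PrimeDivisorOver K k) {x : K'} (h : ∀ (E' : PrimeDivisorOver K' k) (e : ℕ), Over E E' e → 0 ≤ E'.ord x) (j : ℕ) :
    0 ≤ E.ord ((minpoly K x).coeff j) := by
  obtain ⟨t, ht⟩ := E.exists_uniformizer
  have ht0 : t ≠ 0 := by
    rintro rfl
    rw [AddValuation.map_zero] at ht
    exact WithTop.top_ne_one ht
  have : CharZero K := charZero_of_injective_algebraMap (algebraMap ℂ K).injective
  have hd : IsDiscreteValuationRing (etVr E) := etA_dvr E ht0 ht
  have : IsDedekindDomain (integralClosure (etVr E) K') := integralClosure.isDedekindDomain (etVr E) K K'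
  have : IsFractionRing (integralClosure (etVr E) K') K' := IsIntegralClosure.isFractionRing_of_finite_extension (etVr E) K K' (integralClosure (etVr E) K')
  have key : ∀ a : etVr E, algebraMap (integralClosure (etVr E) K') K' (algebraMap (etVr E) (integralClosure (etVr E) K') a) = algebraMap K K' (a : K) := by
    intro a
    rw [← IsScalarTower.algebraMap_apply (etVr E) (integralClosure (etVr E) K') K', IsScalarTower.algebraMap_apply (etVr E) K K']
    rfl
  -- the places
  have hplace : ∀ P : IsDedekindDomain.HeightOneSpectrum (integralClosure (etVr E) K'), P.valuation K' x ≤ 1 := by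
    intro P
    have hne : ∀ x : K', x ≠ 0 → P.valuation K' x ≠ 0 := fun x hx => (Valuation.ne_zero_iff _).2 hx
    have hcomap : P.asIdeal.comap (algebraMap (etVr E) (integralClosure (etVr E) K')) = IsLocalRing.maximalIdeal (etVr E) := by
      have h1 : P.asIdeal.comap (algebraMap (etVr E) (integralClosure (etVr E) K')) ≠ ⊥ := by
        obtain ⟨b, hb, hb0⟩ := P.asIdeal.ne_bot_iff.1 P.ne_bot
        exact Ideal.comap_ne_bot_of_integral_mem hb0 hb (Algebra.IsIntegral.isIntegral b)
      have h2 : (P.asIdeal.comap (algebraMap (etVr E) (integralClosure (etVr E) K'))).IsPrime := P.isPrime.comap _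
      exact IsLocalRing.eq_maximalIdeal (h2.isMaximal h1)
    have htm : t ∈ etVr E := (mem_etVr E).2 (by rw [ht]; exact zero_le_one)
    have htQ : algebraMap (etVr E) (integralClosure (etVr E) K') ⟨t, htm⟩ ∈ P.asIdeal := by
      rw [← Ideal.mem_comap, hcomap, IsLocalRing.mem_maximalIdeal, mem_nonunits_iff, etA_unit E _ ht0]
      change ¬ E.ord t = 0
      rw [ht]
      exact one_ne_zero
    have hle : ∀ a : K, 0 ≤ E.ord a → P.valuation K' (algebraMap K K' a) ≤ 1 := by
      intro a ha
      have h1 := key ⟨a, (mem_etVr E).2 ha⟩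
      rw [show algebraMap K K' a = algebraMap K K' ((⟨a, (mem_etVr E).2 ha⟩ : etVr E) : K) from rfl, ← h1]
      exact P.valuation_le_one _
    have hun : ∀ a : K, E.ord a = 0 → P.valuation K' (algebraMap K K' a) = 1 := by
      intro a h0
      have ha : a ≠ 0 := by
        rintro rfl
        rw [AddValuation.map_zero] at h0
        exact WithTop.top_ne_zero h0
      obtain ⟨n, h1, h2⟩ := etA_int E ha
      have h3 := hle a (by rw [h0])
      have h4 := hle a⁻¹ (by
        rw [h0] at h1
        have : n = 0 := by exact_mod_cast h1.symm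
        rw [h2, this]
        simp)
      rw [map_inv₀, map_inv₀] at h4
      refine le_antisymm h3 ?_
      have h5 : P.valuation K' (algebraMap K K' a) ≠ 0 := hne _ (by simpa using ha)
      exact (inv_le_one₀ (zero_lt_iff.2 h5)).1 h4
    have hlt : P.valuation K' (algebraMap K K' t) < 1 := by
      have h1 := key ⟨t, htm⟩
      rw [show algebraMap K K' t = algebraMap K K' ((⟨t, htm⟩ : etVr E) : K) from rfl, ← h1]
      exact (P.valuation_lt_one_iff_mem _).2 htQ
    have htK' : algebraMap K K' t ≠ 0 := by simpa using ht0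
    obtain ⟨e, he1, he⟩ : ∃ e : ℕ, 1 ≤ e ∧ WithZero.log (P.valuation K' (algebraMap K K' t)) = -(e : ℤ) := by
      have h1 := (WithZero.log_lt_log (hne _ htK') one_ne_zero).2 hlt
      rw [WithZero.log_one] at h1
      refine ⟨(-WithZero.log (P.valuation K' (algebraMap K K' t))).toNat, ?_, ?_⟩
      · omega
      · omega
    have hval : ∀ a : K, a ≠ 0 → ∀ n : ℤ, E.ord a = (n : WithTop ℤ) → Place_add (P.valuation K') (algebraMap K K' a) = (((e : ℤ) * n : ℤ) : WithTop ℤ) := by
      intro a ha n hn
      have h1 : a * (t ^ n)⁻¹ ≠ 0 := mul_ne_zero ha (inv_ne_zero (zpow_ne_zero _ ht0))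
      have h2 : E.ord (a * (t ^ n)⁻¹) = 0 := by
        obtain ⟨l, h5, h6⟩ := etA_int E (zpow_ne_zero n ht0)
        rw [etA_zpow E ht0 ht n] at h5
        have h7 : n = l := by exact_mod_cast h5
        rw [AddValuation.map_mul, hn, h6, ← h7, ← WithTop.coe_add]
        simp
      have h3 := hun _ h2
      have h4 : a = a * (t ^ n)⁻¹ * t ^ n := by
        rw [mul_assoc, inv_mul_cancel₀ (zpow_ne_zero _ ht0), mul_one]
      have h5 : P.valuation K' (algebraMap K K' a) = (P.valuation K' (algebraMap K K' t)) ^ n := by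
        conv_lhs => rw [h4]
        rw [map_mul (algebraMap K K'), map_mul (P.valuation K'), h3, one_mul, map_zpow₀, map_zpow₀]
      rw [Place_add_apply, Place_phi, if_neg (hne _ (by simpa using ha)), h5, WithZero.log_zpow, he]
      congr 1
      simp only [smul_eq_mul]
      ring
    -- the prime divisor
    have hE' : ∀ a : K, Place_add (P.valuation K') (algebraMap K K' a) = e • E.ord a := by
      intro a
      by_cases ha : a = 0
      · rw [ha, map_zero, AddValuation.map_zero, AddValuation.map_zero]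
        obtain ⟨e', rfl⟩ : ∃ e', e = e' + 1 := ⟨e - 1, by omega⟩
        rw [succ_nsmul, WithTop.add_top]
      · obtain ⟨n, hn, -⟩ := etA_int E ha
        rw [hval a ha n hn, hn]
        have h1 : ∀ e : ℕ, e • (n : WithTop ℤ) = (((e : ℤ) * n : ℤ) : WithTop ℤ) := by
          intro e
          induction e with
          | zero => simp
          | succ e ih =>
            rw [succ_nsmul, ih, ← WithTop.coe_add]
            congr 1
            push_cast
            ring
        rw [h1]
    have hconst : ∀ c : ℂ, 0 ≤ Place_add (P.valuation K') (algebraMap ℂ K' c) := by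
      intro c
      rw [IsScalarTower.algebraMap_apply ℂ K K', Place_add_apply, Place_phi_nonneg_iff]
      exact hle _ (E.ord_const c)
    have hunif : ∃ u : K', Place_add (P.valuation K') u = 1 := by
      obtain ⟨π, hπ⟩ := P.valuation_exists_uniformizer K'
      refine ⟨π, ?_⟩
      rw [Place_add_apply, hπ, Place_phi_exp]
      simp
    have hres : ∃ s : Fin (k - 1) → K', (∀ i, 0 ≤ Place_add (P.valuation K') (s i)) ∧
        ∀ p : MvPolynomial (Fin (k - 1)) ℂ, p ≠ 0 → Place_add (P.valuation K') (MvPolynomial.aeval s p) = 0 := by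
      obtain ⟨s, hs1, hs2⟩ := E.residue_trdeg
      refine ⟨fun i => algebraMap K K' (s i), fun i => ?_, fun p hp => ?_⟩
      · rw [Place_add_apply, Place_phi_nonneg_iff]
        exact hle _ (hs1 i)
      · have h1 : MvPolynomial.aeval (fun i => algebraMap K K' (s i)) p = algebraMap K K' (MvPolynomial.aeval s p) := by
          exact MvPolynomial.aeval_algebraMap_apply K' s p
        rw [h1, Place_add_apply, hun _ (hs2 p hp), Place_phi_one]
    have h1 := h ⟨Place_add (P.valuation K'), hconst, hunif, hres⟩ e ⟨he1, hE'⟩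
    exact Place_phi_nonneg_iff.1 h1
  obtain ⟨y, hy⟩ := IsDedekindDomain.HeightOneSpectrum.mem_integers_of_valuation_le_one K' x hplace
  have hint : IsIntegral (etVr E) x := by
    rw [← hy]
    exact y.2
  rw [minpoly.isIntegrallyClosed_eq_field_fractions' K hint, Polynomial.coeff_map]
  exact (mem_etVr E).1 ((minpoly (etVr E) x).coeff j).2

end EtA

end Pool.Agent.GTL
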