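import Pool.Agent.GTL.EtDf

/-!
# GTL EtB: extension of logarithmic derivations

PROOF of `exists_ext_der`: `K' / K` is finite and separable (characteristic 0): Mathlib `Differential` (`differentialFiniteDimensional`), or a basis of `Ω[K⁄ℂ]` given by a transcendence basis of `K` is also one of `Ω[K'⁄ℂ]`, or
`Algebra.FormallyEtale`.  (`D'` is `ℂ`-linear: `D' c = 0` for `c` in `ℂ ⊆ K`.)
`exists_coords`: `ov_coords` in `LT/Ov.lean` (private there; copy).
`lder_ext`: `k = k' + 1`.  `t` a uniformizer of `E` and `s i` as in `E.residue_trdeg`; `t'` a uniformizer of `E'`; `exists_coords` for `E'.ord`, `t'`, `algebraMap ∘ s`: dual basis `∂ 0, ∂ i` of `K'`.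
Case `¬ Bd E`: `e = 1`, take `t' = t`: `D' = (D' t) ∂ 0 + ∑ D' (s i) ∂ i` with coefficients in `O'` (`D t, D (s i) ∈ O`).  Case `Bd E`: `D' = (D' t' / t') (t' ∂ 0) + ∑ D' (s i) ∂ i`; write `t = t' ^ e * w`, `E'.ord w = 0`:
`D t / t = e (D' t' / t') + D' w / w = (D' t' / t') (e + t' ∂ 0 w / w) + ∑ D' (s i) ∂ i w / w`, where `e + t' ∂ 0 w / w` has order `0`; so `D' t' / t' ∈ O'`.  Now `D' f / f ∈ O'` for all `f ≠ 0` (the last two claims of
`exists_coords`).
-/

set_option autoImplicit false

open MvPolynomial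
open Pool.Agent.H23 (dualDer)
open Pool.Agent.H23.Fano (PrimeDivisorOver)
open Pool.Agent.GBL (LDer)

noncomputable section

namespace Pool.Agent.GTL

section Coords

open Pool.Agent.H23 (dualDer_coord exists_int ev ev_injective aeval_cons exists_poly_of_basis exists_basis_kaehler der_nonneg)

private lemma etb_val_zpow {L : Type} [Field L] (v : AddValuation L (WithTop ℤ)) {t : L} (ht : v t = 1) (n : ℤ) :
    v (t ^ n) = (n : WithTop ℤ) := by
  have h0 : ∀ m : ℕ, v (t ^ m) = ((m : ℤ) : WithTop ℤ) := by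
    intro m
    rw [v.map_pow, ht]
    simp
  have ht0 : t ≠ 0 := by
    rintro rfl
    simp at ht
  obtain ⟨m, rfl | rfl⟩ := n.eq_nat_or_neg
  · rw [zpow_natCast]
    exact h0 m
  · have h1 : t ^ (-(m : ℤ)) * t ^ m = 1 := by
      rw [← zpow_natCast, ← zpow_add₀ ht0]
      simp
    have h2 : v (t ^ (-(m : ℤ))) + v (t ^ m) = 0 := by
      rw [← v.map_mul, h1, v.map_one]
    obtain ⟨a, ha⟩ := exists_int v (zpow_ne_zero (-(m : ℤ)) ht0)
    rw [ha, h0] at h2
    rw [ha]
    have h3 : a + (m : ℤ) = 0 := by exact_mod_cast h2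
    exact congrArg _ (by omega : a = -(m : ℤ))

private lemma etb_log {L : Type} [Field L] (v : AddValuation L (WithTop ℤ)) {t : L} (ht : v t = 1)
    (D : Derivation ℤ L L) (h : ∀ f, 0 ≤ v f → 0 ≤ v (D f)) (hDt : 1 ≤ v (D t)) (f : L) :
    v f ≤ v (D f) := by
  have ht0 : t ≠ 0 := by
    rintro rfl
    simp at ht
  by_cases hf : f = 0
  · rw [hf, D.map_zero]
  obtain ⟨μ, hμ⟩ := exists_int v hf
  have hfu : f = t ^ μ * (t ^ (-μ) * f) := by
    rw [← mul_assoc, ← zpow_add₀ ht0]
    simp
  obtain ⟨u, hu⟩ : ∃ u, u = t ^ (-μ) * f := ⟨_, rfl⟩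
  rw [← hu] at hfu
  have hvu : v u = 0 := by
    rw [hu, v.map_mul, etb_val_zpow v ht, hμ]
    have : ((-μ + μ : ℤ) : WithTop ℤ) = 0 := by
      rw [neg_add_cancel]
      rfl
    exact_mod_cast this
  have hD : D f = t ^ μ * D u + u * (μ * (t ^ (μ - 1) * D t)) := by
    conv_lhs => rw [hfu]
    rw [D.leibniz, D.leibniz_zpow]
    simp only [smul_eq_mul, zsmul_eq_mul]
  rw [hD, hμ]
  apply v.map_le_add
  · rw [v.map_mul, etb_val_zpow v ht]
    exact le_add_of_nonneg_right (h u (by rw [hvu]))
  · have hμ0 : 0 ≤ v ((μ : ℤ) : L) := by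
      have h0 : ∀ m : ℕ, 0 ≤ v ((m : ℕ) : L) := by
        intro m
        induction m with
        | zero => simp
        | succ m ih =>
          push_cast
          exact v.map_le_add ih (by rw [v.map_one])
      obtain ⟨m, rfl | rfl⟩ := μ.eq_nat_or_neg
      · simpa using h0 m
      · simpa using h0 m
    rw [v.map_mul u, hvu, v.map_mul, v.map_mul, etb_val_zpow v ht, zero_add]
    have h1 : ((μ : ℤ) : WithTop ℤ) = ((μ - 1 : ℤ) : WithTop ℤ) + 1 := by
      have : (μ : ℤ) = (μ - 1) + 1 := by ring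
      conv_lhs => rw [this]
      push_cast
      rfl
    rw [h1]
    exact le_trans (add_le_add le_rfl hDt) (le_add_of_nonneg_left hμ0)

/-- the coordinates at a prime divisor for given `t`, `s` -/
theorem exists_coords {L : Type} [Field L] [Algebra ℂ L] [Algebra.EssFiniteType ℂ L] {k : ℕ} {z : Fin (k + 1) → L} (hz : IsTranscendenceBasis ℂ z)
    (w : AddValuation L (WithTop ℤ)) {t : L} (ht : w t = 1) {s : Fin k → L}
    (hs : ∀ p : MvPolynomial (Fin k) ℂ, p ≠ 0 → w (aeval s p) = 0) :
    ∃ b : Module.Basis (Fin (k + 1)) L Ω[L⁄ℂ],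
      (∀ i, b i = KaehlerDifferential.D ℂ L ((Fin.cons t s : Fin (k + 1) → L) i)) ∧
      (∀ i f, 0 ≤ w f → 0 ≤ w (dualDer b i f)) ∧
      (∀ i, i ≠ 0 → ∀ f, w f ≤ w (dualDer b i f)) ∧
      ∀ f, w f ≤ w (t * dualDer b 0 f) := by
  set g : Fin (k + 1) → L := Fin.cons t s with hg
  have hind : AlgebraicIndependent ℂ g := by
    rw [algebraicIndependent_iff_injective_aeval]
    have h1 : (MvPolynomial.aeval g : MvPolynomial (Fin (k + 1)) ℂ → L) =
        ev s t ∘ MvPolynomial.finSuccEquiv ℂ k := by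
      funext p
      exact aeval_cons s t p
    rw [h1]
    exact (ev_injective w hs ht).comp (MvPolynomial.finSuccEquiv ℂ k).injective
  have hbasis : IsTranscendenceBasis ℂ g := by
    apply hind.isTranscendenceBasis_of_trdeg_le_of_finite
    rw [← hz.cardinalMk_eq_trdeg]
  obtain ⟨b, hb⟩ := exists_basis_kaehler hbasis
  have h4 : ∀ i f, 0 ≤ w f → 0 ≤ w (dualDer b i f) := by
    intro i
    apply der_nonneg w hs ht
    · intro f
      obtain ⟨F, h1, h2⟩ := exists_poly_of_basis hbasis f
      refine ⟨F.map (MvPolynomial.finSuccEquiv ℂ k).toRingEquiv.toRingHom, ?_, ?_⟩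
      · rwa [Ne, Polynomial.map_eq_zero_iff]
        exact (MvPolynomial.finSuccEquiv ℂ k).injective
      · rw [Polynomial.eval₂_map]
        have h3 : (ev s t).comp (MvPolynomial.finSuccEquiv ℂ k).toRingEquiv.toRingHom =
            (MvPolynomial.aeval g).toRingHom :=
          RingHom.ext fun p => (aeval_cons s t p).symm
        rw [h3]
        exact h2
    · have := dualDer_coord b hb i 0
      rw [hg, Fin.cons_zero] at this
      rw [this]
      split_ifs <;> simp
    · intro j
      have := dualDer_coord b hb i j.succ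
      rw [hg, Fin.cons_succ] at this
      rw [this]
      split_ifs <;> simp
  have hg0 : g 0 = t := by rw [hg, Fin.cons_zero]
  refine ⟨b, hb, h4, ?_, ?_⟩
  · intro i hi
    refine etb_log w ht ((dualDer b i).restrictScalars ℤ) (h4 i) ?_
    change 1 ≤ w (dualDer b i t)
    rw [← hg0, dualDer_coord b hb, if_neg hi]
    simp
  · refine etb_log w ht ((t • dualDer b 0).restrictScalars ℤ) (fun f hf => ?_) ?_
    · change 0 ≤ w (t * dualDer b 0 f)
      rw [w.map_mul, ht]
      exact add_nonneg (by norm_num) (h4 0 f hf)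
    · change 1 ≤ w (t * dualDer b 0 t)
      have h5 : dualDer b 0 t = 1 := by
        rw [← hg0, dualDer_coord b hb, if_pos rfl]
      rw [h5, mul_one, ht]

end Coords

variable {K K' : Type} [Field K] [Algebra ℂ K] [Field K'] [Algebra ℂ K'] [Algebra K K'] [IsScalarTower ℂ K K'] {k : ℕ}

theorem exists_ext_der [FiniteDimensional K K'] (D : Derivation ℂ K K) :
    ∃ D' : Derivation ℂ K' K', ∀ x, D' (algebraMap K K' x) = algebraMap K K' (D x) := by
  haveI : CharZero K := charZero_of_injective_algebraMap (algebraMap ℂ K).injective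
  letI : Differential K := ⟨D.restrictScalars ℤ⟩
  letI : Differential K' := Differential.differentialFiniteDimensional K K'
  haveI : DifferentialAlgebra K K' := Differential.differentialAlgebraFiniteDimensional
  have h : ∀ x : K, Differential.deriv (algebraMap K K' x) = algebraMap K K' (D x) := fun x => DifferentialAlgebra.deriv_algebraMap x
  refine ⟨Derivation.mk' ⟨⟨fun x => Differential.deriv x, fun x y => map_add _ x y⟩, fun c x => ?_⟩ fun a b => ?_, h⟩
  · change Differential.deriv (c • x) = c • Differential.deriv x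
    rw [Algebra.smul_def, Algebra.smul_def, Derivation.leibniz, IsScalarTower.algebraMap_apply ℂ K K', h, D.map_algebraMap, map_zero, smul_zero, add_zero, smul_eq_mul]
  · exact Derivation.leibniz _ a b

/-- a quotient with a denominator of order `0` -/
private lemma etb_div {w : AddValuation K' (WithTop ℤ)} {a u : K'} (ha : 0 ≤ w a) (hu : w u = 0) : 0 ≤ w (a / u) := by
  rcases eq_or_ne u 0 with rfl | hu0
  · rw [div_zero, w.map_zero]
    exact le_top
  · have h1 : w (a / u) + w u = w a := by
      rw [← w.map_mul, div_mul_cancel₀ _ hu0]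
    rw [hu, add_zero] at h1
    rwa [h1]

private lemma etb_sum {w : AddValuation K' (WithTop ℤ)} {σ : Type} (s : Finset σ) (f : σ → K') (c : WithTop ℤ) (h : ∀ i ∈ s, c ≤ w (f i)) : c ≤ w (∑ i ∈ s, f i) := by
  classical
  induction s using Finset.induction_on with
  | empty => simp
  | insert a s ha ih =>
    rw [Finset.sum_insert ha]
    exact w.map_le_add (h a (Finset.mem_insert_self _ _))
      (ih fun i hi => h i (Finset.mem_insert_of_mem hi))

/-- a derivation in coordinates -/
private lemma etb_der {n : ℕ} (b : Module.Basis (Fin n) K' Ω[K'⁄ℂ]) {g : Fin n → K'} (hb : ∀ i, b i = KaehlerDifferential.D ℂ K' (g i))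
    (Δ : Derivation ℂ K' K') (a : K') : Δ a = ∑ l, Δ (g l) * dualDer b l a := by
  have h2 : KaehlerDifferential.D ℂ K' a = ∑ l, dualDer b l a • KaehlerDifferential.D ℂ K' (g l) := by
    conv_lhs => rw [← b.sum_repr (KaehlerDifferential.D ℂ K' a)]
    refine Finset.sum_congr rfl fun l _ => ?_
    rw [hb]
    rfl
  have h3 := congrArg Δ.liftKaehlerDifferential h2
  rw [map_sum] at h3
  simp only [map_smul, Derivation.liftKaehlerDifferential_comp_D, smul_eq_mul] at h3
  rw [h3]
  exact Finset.sum_congr rfl fun l _ => mul_comm _ _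

theorem lder_ext [Algebra.EssFiniteType ℂ K] [FiniteDimensional K K'] (hk : 1 ≤ k) {z : Fin k → K} (hz : IsTranscendenceBasis ℂ z)
    {E : PrimeDivisorOver K k} {E' : PrimeDivisorOver K' k} {e : ℕ} (h : Over E E' e) {Bd : PrimeDivisorOver K k → Prop} {Bd' : PrimeDivisorOver K' k → Prop}
    (hB : Bd' E' → Bd E) (hU : ¬ Bd E → e = 1) {D : Derivation ℂ K K} (hD : LDer Bd E D) {D' : Derivation ℂ K' K'}
    (hD' : ∀ x, D' (algebraMap K K' x) = algebraMap K K' (D x)) : LDer Bd' E' D' := by
  obtain ⟨he, hE⟩ := h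
  obtain ⟨k, rfl⟩ : ∃ k', k = k' + 1 := ⟨k - 1, by omega⟩
  obtain ⟨t, ht⟩ := E.exists_uniformizer
  obtain ⟨s, hs0, hs⟩ := E.residue_trdeg
  change Fin k → K at s
  change ∀ i : Fin k, 0 ≤ E.ord (s i) at hs0
  change ∀ p : MvPolynomial (Fin k) ℂ, p ≠ 0 → E.ord (MvPolynomial.aeval s p) = 0 at hs
  have hEn : ∀ x : K, 0 ≤ E.ord x → 0 ≤ E'.ord (algebraMap K K' x) := fun x hx => by
    rw [hE]
    exact nsmul_nonneg hx e
  have hs' : ∀ p : MvPolynomial (Fin k) ℂ, p ≠ 0 → E'.ord (aeval (fun i => algebraMap K K' (s i)) p) = 0 := by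
    intro p hp
    have h1 : aeval (fun i => algebraMap K K' (s i)) p = algebraMap K K' (aeval s p) := by
      rw [← MvPolynomial.aeval_algebraMap_apply]
      rfl
    rw [h1, hE, hs p hp, smul_zero]
  haveI : Algebra.EssFiniteType ℂ K' := Algebra.EssFiniteType.comp ℂ K K'
  have hz' : IsTranscendenceBasis ℂ (algebraMap K K' ∘ z) := hz.algebraMap_comp
  by_cases hBd : Bd E
  · obtain ⟨τ, hτ⟩ := E'.exists_uniformizer
    obtain ⟨b, hb, h1, h2, h3⟩ := exists_coords hz' E'.ord hτ hs'
    have hτ0 : τ ≠ 0 := by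
      rintro rfl
      rw [E'.ord.map_zero] at hτ
      exact absurd hτ (by decide)
    have ht0 : t ≠ 0 := by
      rintro rfl
      rw [E.ord.map_zero] at ht
      exact absurd ht (by decide)
    have ht0' : algebraMap K K' t ≠ 0 := by simpa using ht0
    have hg : ∀ a : K', D' a = D' τ * dualDer b 0 a + ∑ i : Fin k, algebraMap K K' (D (s i)) * dualDer b i.succ a := by
      intro a
      rw [etb_der b hb D' a, Fin.sum_univ_succ, Fin.cons_zero]
      congr 1
      refine Finset.sum_congr rfl fun i _ => ?_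
      rw [Fin.cons_succ, hD']
    -- the unit
    obtain ⟨u, hu⟩ : ∃ u, u = algebraMap K K' t / τ ^ e := ⟨_, rfl⟩
    have htu : algebraMap K K' t = τ ^ e * u := by
      rw [hu, mul_div_cancel₀ _ (pow_ne_zero e hτ0)]
    have hu0 : u ≠ 0 := by
      rintro rfl
      rw [mul_zero] at htu
      exact ht0' htu
    have hwu : E'.ord u = 0 := by
      have h4 := E'.ord.map_mul (τ ^ e) u
      rw [← htu, hE, ht, E'.ord.map_pow, hτ] at h4
      obtain ⟨q, hq⟩ := Pool.Agent.H23.exists_int E'.ord hu0
      rw [hq] at h4 ⊢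
      have h5 : e • (1 : WithTop ℤ) = ((e : ℤ) : WithTop ℤ) := by
        rw [nsmul_one]
        rfl
      rw [h5] at h4
      have h6 : (e : ℤ) = (e : ℤ) + q := by exact_mod_cast h4
      have h7 : q = 0 := by omega
      rw [h7]
      rfl
    -- the coefficient
    have hcoef : ∀ i, 0 ≤ E'.ord (algebraMap K K' (D (s i))) := fun i => hEn _ (hD.1 _ (hs0 i))
    have hsum : ∀ a, E'.ord a ≤ E'.ord (∑ i : Fin k, algebraMap K K' (D (s i)) * dualDer b i.succ a) := by
      intro a
      refine etb_sum _ _ _ fun i _ => ?_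
      rw [E'.ord.map_mul]
      exact le_trans (h2 _ (Fin.succ_ne_zero i) a) (le_add_of_nonneg_left (hcoef i))
    have hdt : dualDer b 0 τ = 1 := by
      have h4 := Pool.Agent.H23.dualDer_coord b hb 0 0
      rw [Fin.cons_zero, if_pos rfl] at h4
      exact h4
    have hlog : 0 ≤ E'.ord (D' τ / τ) := by
      have h4 : D' τ / τ * ((e : K') + τ * dualDer b 0 u / u) = algebraMap K K' (D t / t) - (∑ i : Fin k, algebraMap K K' (D (s i)) * dualDer b i.succ u) / u := by
        have h5 : algebraMap K K' (D t) = τ ^ e * D' u + u * ((e : K') * (τ ^ (e - 1) * D' τ)) := by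
          rw [← hD', htu, D'.leibniz, D'.leibniz_pow]
          simp only [smul_eq_mul, nsmul_eq_mul]
        have h6 : τ ^ e = τ ^ (e - 1) * τ := by
          rw [← pow_succ]
          congr 1
          omega
        have h7 := hg u
        rw [map_div₀, h5, htu]
        rw [h7, h6]
        have h8 : τ ^ (e - 1) ≠ 0 := pow_ne_zero _ hτ0
        field_simp
        ring
      have h5 : 0 ≤ E'.ord (algebraMap K K' (D t / t) - (∑ i : Fin k, algebraMap K K' (D (s i)) * dualDer b i.succ u) / u) := by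
        rw [sub_eq_add_neg]
        refine E'.ord.map_le_add (hEn _ (hD.2 hBd t ht0)) ?_
        rw [E'.ord.map_neg]
        exact etb_div (le_trans hwu.ge (hsum u)) hwu
      have h6 : E'.ord ((e : K') + τ * dualDer b 0 u / u) = 0 := by
        have h7 : E'.ord (e : K') = 0 := by
          have h8 : ∀ c : ℂ, c ≠ 0 → E'.ord (algebraMap ℂ K' c) = 0 := by
            intro c hc
            refine le_antisymm ?_ (E'.ord_const c)
            have h9 := E'.ord.map_mul (algebraMap ℂ K' c) (algebraMap ℂ K' c⁻¹)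
            rw [← map_mul, mul_inv_cancel₀ hc, map_one, E'.ord.map_one] at h9
            rw [h9]
            exact le_add_of_nonneg_right (E'.ord_const _)
          have h9 := h8 (e : ℂ) (by exact_mod_cast (by omega : e ≠ 0))
          rwa [map_natCast] at h9
        have h8 : (0 : WithTop ℤ) < E'.ord (τ * dualDer b 0 u / u) := by
          have h9 : τ * dualDer b 0 u / u = τ * (dualDer b 0 u / u) := by rw [mul_div_assoc]
          rw [h9, E'.ord.map_mul, hτ]
          exact lt_of_lt_of_le (by norm_num) (le_add_of_nonneg_right (etb_div (h1 0 u hwu.ge) hwu))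
        rw [E'.ord.map_add_eq_of_lt_left, h7]
        rw [h7]
        exact h8
      rw [← h4, E'.ord.map_mul, h6, add_zero] at h5
      exact h5
    have hfin : ∀ a, E'.ord a ≤ E'.ord (D' a) := by
      intro a
      rw [hg a]
      refine E'.ord.map_le_add ?_ (hsum a)
      have h4 : D' τ * dualDer b 0 a = D' τ / τ * (τ * dualDer b 0 a) := by
        field_simp
      rw [h4, E'.ord.map_mul]
      exact le_trans (h3 a) (le_add_of_nonneg_left hlog)
    refine ⟨fun f hf => le_trans hf (hfin f), fun _ f hf => ?_⟩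
    obtain ⟨q, hq⟩ := Pool.Agent.H23.exists_int E'.ord hf
    have h4 : E'.ord (D' f / f) + E'.ord f = E'.ord (D' f) := by
      rw [← E'.ord.map_mul, div_mul_cancel₀ _ hf]
    have h5 := hfin f
    rw [← h4] at h5
    rw [hq] at h5
    by_cases h6 : E'.ord (D' f / f) = ⊤
    · rw [h6]
      exact le_top
    · obtain ⟨r, hr⟩ := WithTop.ne_top_iff_exists.1 h6
      rw [← hr] at h5 ⊢
      have h7 : q ≤ r + q := by exact_mod_cast h5
      have h8 : 0 ≤ r := by omega
      exact_mod_cast h8
  · have he1 := hU hBd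
    subst he1
    have hτ : E'.ord (algebraMap K K' t) = 1 := by rw [hE, ht, one_smul]
    obtain ⟨b, hb, h1, h2, h3⟩ := exists_coords hz' E'.ord hτ hs'
    refine ⟨fun f hf => ?_, fun h4 => absurd (hB h4) hBd⟩
    rw [etb_der b hb D' f]
    refine etb_sum _ _ _ fun i _ => ?_
    rw [E'.ord.map_mul]
    refine add_nonneg ?_ (h1 i f hf)
    refine Fin.cases ?_ (fun j => ?_) i
    · rw [Fin.cons_zero, hD']
      refine hEn _ (hD.1 _ ?_)
      rw [ht]
      norm_num
    · rw [Fin.cons_succ, hD']
      exact hEn _ (hD.1 _ (hs0 j))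

end Pool.Agent.GTL
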