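import Pool.Agent.GTL.EtDf

/-!
# GTL EtC: pluricanonical forms and logarithmic frames

PROOF.  `exists_smul_mk`: `H23.exists_basis_kaehler`, `H23.eq_fc_smul`.  `regL_of_pole`: the converse of `GBL.pole_of_regL`: let `e` be a frame at `E`, `b`, `g` as in `LFr`; `PoleAtMost`: `ω = g₀ • η`, `η` regular at `E`, so
`fc b η ∈ O` (`H23.mem_regularForms_iff`, or closure induction: `fc b (mk c a) = c * det (dualDer b i (a j))`), `fc b ω = c * jac z b`; so `f (c * jac z b) ^ m = (f g₀ ^ m) (fc b η) ^ m`; on the boundary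
`jacL z e = g i₀ * jac z b` with `E.ord (g i₀) = 1`, and the power of `g i₀` compensates the pole.
`regL_ldet`: `exists_lfr` gives a frame `e` at `E`; `D i = ∑ l, D i (g l) • dualDer b l = ∑ l, a i l • e l` with `a i l ∈ O` (`D i (g l)`, resp. `D i (g i₀) / g i₀`); `det (D i (z j)) = det a * jacL z e`.
-/

set_option autoImplicit false

open Pool.Agent.H23.Fano (PrimeDivisorOver Form)
open Pool.Agent.H17LG.Variety (PoleAtMost)
open Pool.Agent.GBL (LDer LFr RegL jacL)
open Pool.Agent.H23 (dualDer)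
open Pool.Agent.GB (jac)

noncomputable section

namespace Pool.Agent.GTL

variable {K : Type} [Field K] [Algebra ℂ K] {k : ℕ} {Bd : PrimeDivisorOver K k → Prop}

private lemma mk_one (z : Fin k → K) : (Form.mk 1 z : Form K k) = exteriorPower.ιMulti K k fun i => KaehlerDifferential.D ℂ K (z i) := by
  change (1 : K) • (exteriorPower.ιMulti K k fun i => KaehlerDifferential.D ℂ K (z i)) = _
  rw [one_smul]

theorem exists_smul_mk {z : Fin k → K} (hz : IsTranscendenceBasis ℂ z) (ω : Form K k) : ∃ c : K, ω = c • Form.mk 1 z := by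
  obtain ⟨b, hb⟩ := Pool.Agent.H23.exists_basis_kaehler hz
  refine ⟨Pool.Agent.H23.fc b ω, ?_⟩
  have h1 := Pool.Agent.H23.eq_fc_smul b ω
  simp only [hb] at h1
  rw [mk_one]
  exact h1

theorem mk_ne_zero {z : Fin k → K} (hz : IsTranscendenceBasis ℂ z) : (Form.mk 1 z : Form K k) ≠ 0 := by
  obtain ⟨b, hb⟩ := Pool.Agent.H23.exists_basis_kaehler hz
  intro h
  have h1 := Pool.Agent.H23.fc_self b
  have h2 : (exteriorPower.ιMulti K k fun i => b i) = Form.mk 1 z := by
    rw [mk_one]
    simp only [hb]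
  rw [h2, h] at h1
  have h3 : Pool.Agent.H23.fc b (0 : Form K k) = 0 := map_zero (Pool.Agent.H23.fc b)
  rw [h3] at h1
  exact one_ne_zero h1.symm

private lemma jacL_scale' {e : Fin k → Derivation ℂ K K} {b : Module.Basis (Fin k) K Ω[K⁄ℂ]} {u : Fin k → K} (he : ∀ i, e i = u i • dualDer b i) (z : Fin k → K) :
    jacL z e = (∏ i, u i) * jac z b := by
  classical
  have hm : (Matrix.of fun i j => e i (z j)) = Matrix.diagonal u * (Matrix.of fun i j => dualDer b i (z j)) := by
    ext i j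
    rw [Matrix.diagonal_mul, Matrix.of_apply, Matrix.of_apply, he i, Derivation.smul_apply, smul_eq_mul]
  unfold jacL jac
  rw [hm, Matrix.det_mul, Matrix.det_diagonal]

theorem regL_of_pole {z : Fin k → K} (hz : IsTranscendenceBasis ℂ z) {m : ℕ} {f c : K} {ω : Form K k} (hω : ω = c • Form.mk 1 z)
    (h : ∀ E : PrimeDivisorOver K k, (¬ Bd E → PoleAtMost 0 E m f ω) ∧ (Bd E → PoleAtMost m E m f ω)) : RegL Bd z m (f * c ^ m) := by
  classical
  intro E e hL
  obtain ⟨g, b, hb, hg, hreg, hcase⟩ := hL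
  -- the coordinate of the form
  have hfc : Pool.Agent.H23.fc b ω = c * jac z b := by
    have h1 : Pool.Agent.H23.fc b (Form.mk 1 z : Form K k) = jac z b := by
      rw [mk_one, Pool.Agent.H23.fc_ιMulti, Module.Basis.det_apply]
      rfl
    rw [hω]
    have h2 : Pool.Agent.H23.fc b (c • (Form.mk 1 z : Form K k)) = c • Pool.Agent.H23.fc b (Form.mk 1 z : Form K k) :=
      map_smul (Pool.Agent.H23.fc b) c _
    rw [h2, h1, smul_eq_mul]
  -- the regular form
  have key : ∀ (g₀ : K) (η : Form K k), η ∈ Pool.Agent.H23.Fano.regularForms k E.localRing → ω = g₀ • η →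
      ∃ v : K, 0 ≤ E.ord v ∧ c * jac z b = g₀ * v := by
    intro g₀ η hη hωη
    refine ⟨Pool.Agent.H23.fc b η, ?_, ?_⟩
    · have h1 := (Pool.Agent.H23.mem_regularForms_iff (Pool.Agent.H23.ofFano E).localRing b (a := g) hb hg hreg η).1 hη
      exact h1
    · rw [← hfc, hωη]
      have h2 : Pool.Agent.H23.fc b (g₀ • η) = g₀ • Pool.Agent.H23.fc b η := map_smul (Pool.Agent.H23.fc b) g₀ _
      rw [h2, smul_eq_mul]
  rcases hcase with ⟨hB, he⟩ | ⟨hB, i₀, ht, he⟩
  · obtain ⟨g₀, η, hη, hωη, hord⟩ := (h E).1 hB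
    obtain ⟨v, hv, hcv⟩ := key g₀ η hη hωη
    have hj : jacL z e = jac z b := by
      rw [jacL_scale' (b := b) (u := fun _ => 1) (fun i => by rw [he i, one_smul])]
      simp
    have h1 : f * c ^ m * jacL z e ^ m = (f * g₀ ^ m) * v ^ m := by
      rw [hj, mul_assoc, ← mul_pow, hcv, mul_pow, mul_assoc]
    rw [h1, E.ord.map_mul, E.ord.map_pow]
    have h2 : 0 ≤ E.ord (f * g₀ ^ m) := by simpa using hord
    exact add_nonneg h2 (nsmul_nonneg hv m)
  · obtain ⟨g₀, η, hη, hωη, hord⟩ := (h E).2 hB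
    obtain ⟨v, hv, hcv⟩ := key g₀ η hη hωη
    have hj : jacL z e = g i₀ * jac z b := by
      rw [jacL_scale' (b := b) (u := fun i => if i = i₀ then g i₀ else 1)]
      · rw [Finset.prod_ite_eq' Finset.univ i₀ (fun _ => g i₀), if_pos (Finset.mem_univ _)]
      · intro i
        rw [he i]
        split_ifs with hi
        · rw [hi]
        · rw [one_smul]
    have h1 : f * c ^ m * jacL z e ^ m = (f * g₀ ^ m) * g i₀ ^ m * v ^ m := by
      have h2 : c * (g i₀ * jac z b) = g₀ * g i₀ * v := by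
        rw [mul_left_comm, hcv]
        ring
      rw [hj, mul_assoc, ← mul_pow, h2]
      ring
    rw [h1, E.ord.map_mul, E.ord.map_mul, E.ord.map_pow, E.ord.map_pow, ht, nsmul_one]
    exact add_nonneg hord (nsmul_nonneg hv m)

private lemma der_expand (b : Module.Basis (Fin k) K Ω[K⁄ℂ]) {g : Fin k → K} (hb : ∀ i, b i = KaehlerDifferential.D ℂ K (g i)) (D : Derivation ℂ K K) (x : K) :
    D x = ∑ l, D (g l) * dualDer b l x := by
  have h1 : D x = D.liftKaehlerDifferential (KaehlerDifferential.D ℂ K x) := by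
    rw [Derivation.liftKaehlerDifferential_comp_D]
  rw [h1, ← b.sum_repr (KaehlerDifferential.D ℂ K x), map_sum]
  refine Finset.sum_congr rfl fun l _ => ?_
  rw [map_smul, hb l, Derivation.liftKaehlerDifferential_comp_D, smul_eq_mul, mul_comm, Pool.Agent.H23.dualDer_apply]

private lemma det_nonneg' (E : PrimeDivisorOver K k) (A : Matrix (Fin k) (Fin k) K) (hA : ∀ i j, 0 ≤ E.ord (A i j)) : 0 ≤ E.ord A.det :=
  Pool.Agent.H23.det_mem (Pool.Agent.H23.ofFano E).localRing A hA

theorem regL_ldet [Algebra.EssFiniteType ℂ K] (hk : 1 ≤ k) {z : Fin k → K} (hz : IsTranscendenceBasis ℂ z) {m : ℕ} {f : K} (h : RegL Bd z m f)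
    {E : PrimeDivisorOver K k} {D : Fin k → Derivation ℂ K K} (hD : ∀ i, LDer Bd E (D i)) :
    0 ≤ E.ord (f * (Matrix.of fun i j => D i (z j)).det ^ m) := by
  classical
  obtain ⟨e, hL⟩ := Pool.Agent.GBL.exists_lfr hk hz Bd E
  have hf := h E e hL
  obtain ⟨g, b, hb, hg, hreg, hcase⟩ := hL
  have key : ∃ A : Matrix (Fin k) (Fin k) K, (∀ i j, 0 ≤ E.ord (A i j)) ∧ (Matrix.of fun i j => D i (z j)) = A * (Matrix.of fun i j => e i (z j)) := by
    rcases hcase with ⟨hB, he⟩ | ⟨hB, i₀, ht, he⟩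
    · refine ⟨Matrix.of fun i l => D i (g l), fun i l => ?_, ?_⟩
      · rw [Matrix.of_apply]
        exact (hD i).1 _ (hg l)
      · ext i j
        rw [Matrix.mul_apply, Matrix.of_apply, der_expand b hb (D i) (z j)]
        refine Finset.sum_congr rfl fun l _ => ?_
        rw [Matrix.of_apply, Matrix.of_apply, he l]
    · have ht0 : g i₀ ≠ 0 := by
        intro h0
        rw [h0, E.ord.map_zero] at ht
        exact absurd ht (by decide)
      refine ⟨Matrix.of fun i l => if l = i₀ then D i (g i₀) / g i₀ else D i (g l), fun i l => ?_, ?_⟩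
      · rw [Matrix.of_apply]
        split_ifs with hl
        · exact (hD i).2 hB _ ht0
        · exact (hD i).1 _ (hg l)
      · ext i j
        rw [Matrix.mul_apply, Matrix.of_apply, der_expand b hb (D i) (z j)]
        refine Finset.sum_congr rfl fun l _ => ?_
        rw [Matrix.of_apply, Matrix.of_apply, he l]
        split_ifs with hl
        · rw [hl, Derivation.smul_apply, smul_eq_mul]
          field_simp
        · rfl
  obtain ⟨A, hA, hAe⟩ := key
  have h1 : f * (Matrix.of fun i j => D i (z j)).det ^ m = (f * jacL z e ^ m) * A.det ^ m := by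
    rw [hAe, Matrix.det_mul, mul_pow]
    unfold jacL
    ring
  rw [h1, E.ord.map_mul, E.ord.map_pow]
  exact add_nonneg hf (nsmul_nonneg (det_nonneg' E A hA) m)

end Pool.Agent.GTL
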