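import Mathlib

/-!
# GTL EtQ: the quotients of the coefficients of the minimal polynomials generate

PROOF.  `Ω` = algebraic closure of `K'`; `u := coeff 0 of minpoly (f 0)`, to the power `L / d 0`, is not `0`; `v ∈ Ω` with `v ^ L = u`.  `a i j := (coefficient of index d i - j of minpoly (f i)) / v ^ j`: its power `L / j` is in `F` (`hF`), so it is algebraic over `F`.
`f i / v` is a root of the monic polynomial `X ^ (d i) + ∑ a i j X ^ (d i - j)`, so algebraic over `F`.  So `f i / f 0 = (f i / v) / (f 0 / v)` is algebraic over `F`; then `K'` (algebraic over `ℂ (f i / f 0)`) is, and `K` is.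
(Use the intermediate field `algebraicClosure F Ω`.)
-/

set_option autoImplicit false

noncomputable section

namespace Pool.Agent.GTL

open Polynomial

theorem alg_descend {K K' : Type} [Field K] [Algebra ℂ K] [Field K'] [Algebra ℂ K'] [Algebra K K'] [IsScalarTower ℂ K K'] [Algebra.IsAlgebraic K K']
    {r : ℕ} {f : Fin (r + 1) → K'} (hf0 : f 0 ≠ 0)
    (hf : Algebra.IsAlgebraic (IntermediateField.adjoin ℂ (Set.range fun i => f i / f 0)) K') {L : ℕ} (hL0 : 0 < L)
    (hL : ∀ i j, 1 ≤ j → j ≤ (minpoly K (f i)).natDegree → j ∣ L) (F : IntermediateField ℂ K)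
    (hF : ∀ i j, 1 ≤ j → j ≤ (minpoly K (f i)).natDegree →
      (minpoly K (f i)).coeff ((minpoly K (f i)).natDegree - j) ^ (L / j) / (minpoly K (f 0)).coeff 0 ^ (L / (minpoly K (f 0)).natDegree) ∈ F) :
    Algebra.IsAlgebraic F K := by
  set Ω := AlgebraicClosure K'
  have hint : ∀ i, IsIntegral K (f i) := fun i => (Algebra.IsAlgebraic.isAlgebraic (f i)).isIntegral
  set u : K := (minpoly K (f 0)).coeff 0 ^ (L / (minpoly K (f 0)).natDegree) with hu
  have hu0 : u ≠ 0 := pow_ne_zero _ (minpoly.coeff_zero_ne_zero (hint 0) hf0)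
  obtain ⟨v, hv⟩ := IsAlgClosed.exists_pow_nat_eq (algebraMap K Ω u) hL0
  have hv0 : v ≠ 0 := by
    rintro rfl
    rw [zero_pow hL0.ne'] at hv
    exact hu0 ((map_eq_zero _).1 hv.symm)
  set E : IntermediateField F Ω := algebraicClosure F Ω with hE
  have memE : ∀ {x : Ω}, IsAlgebraic F x → x ∈ E := fun {x} hx => mem_algebraicClosure_iff.2 hx
  -- the coefficients
  have key1 : ∀ i j, 1 ≤ j → j ≤ (minpoly K (f i)).natDegree →
      IsAlgebraic F (algebraMap K Ω ((minpoly K (f i)).coeff ((minpoly K (f i)).natDegree - j)) * (v⁻¹) ^ j) := by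
    intro i j hj1 hj2
    have hjL := hL i j hj1 hj2
    have hpos : 0 < L / j := Nat.div_pos (Nat.le_of_dvd hL0 hjL) hj1
    refine IsAlgebraic.of_pow hpos ?_
    have e1 : (algebraMap K Ω ((minpoly K (f i)).coeff ((minpoly K (f i)).natDegree - j)) * (v⁻¹) ^ j) ^ (L / j) =
        algebraMap K Ω ((minpoly K (f i)).coeff ((minpoly K (f i)).natDegree - j) ^ (L / j) / u) := by
      rw [mul_pow, ← pow_mul, Nat.mul_div_cancel' hjL, inv_pow, hv, ← map_pow, ← map_inv₀, ← map_mul, div_eq_mul_inv]
    rw [e1]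
    exact isAlgebraic_algebraMap (⟨_, hF i j hj1 hj2⟩ : F)
  -- the roots
  have key2 : ∀ i, algebraMap K' Ω (f i) * v⁻¹ ∈ E := by
    intro i
    set p : K[X] := minpoly K (f i) with hp
    have hpm : p.Monic := minpoly.monic (hint i)
    set P : Polynomial Ω := p.map (algebraMap K Ω) with hP
    have hPm : P.Monic := hpm.map _
    have hdeg : P.natDegree = p.natDegree := hpm.natDegree_map _
    set q : Polynomial Ω := P.scaleRoots v⁻¹ with hq
    have hqm : q.Monic := (monic_scaleRoots_iff _).2 hPm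
    have hroot : q.eval (algebraMap K' Ω (f i) * v⁻¹) = 0 := by
      have h1 : P.eval (algebraMap K' Ω (f i)) = 0 := by
        have h2 : aeval (algebraMap K' Ω (f i)) p = 0 := by
          rw [aeval_algebraMap_apply, hp, minpoly.aeval, map_zero]
        rwa [hP, eval_map, ← aeval_def]
      have h3 := scaleRoots_eval₂_eq_zero (RingHom.id Ω) (s := v⁻¹) (r := algebraMap K' Ω (f i)) (p := P) (by rwa [eval₂_id])
      rw [RingHom.id_apply, eval₂_id] at h3
      rwa [mul_comm]
    have hlift : q ∈ lifts (algebraMap E Ω) := by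
      rw [lifts_iff_coeff_lifts]
      intro k
      rw [hq, coeff_scaleRoots, hdeg]
      rcases lt_trichotomy k p.natDegree with hk | hk | hk
      · have h4 := key1 i (p.natDegree - k) (by omega) (Nat.sub_le _ _)
        have h5 : p.natDegree - (p.natDegree - k) = k := by omega
        rw [← hp, h5] at h4
        rw [hP, coeff_map]
        exact ⟨⟨_, memE h4⟩, rfl⟩
      · rw [hk, ← hdeg, hPm.coeff_natDegree, Nat.sub_self, pow_zero, mul_one]
        exact ⟨1, map_one _⟩
      · rw [coeff_eq_zero_of_natDegree_lt (by rw [hdeg]; exact hk), zero_mul]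
        exact ⟨0, map_zero _⟩
    obtain ⟨Q, hQ, -, hQm⟩ := lifts_and_natDegree_eq_and_monic hlift hqm
    have h6 : IsIntegral E (algebraMap K' Ω (f i) * v⁻¹) := by
      refine ⟨Q, hQm, ?_⟩
      rw [eval₂_eq_eval_map, hQ]
      exact hroot
    exact memE (IsAlgebraic.restrictScalars F h6.isAlgebraic)
  have key3 : ∀ i, algebraMap K' Ω (f i / f 0) ∈ E := by
    intro i
    have e1 : algebraMap K' Ω (f i / f 0) = (algebraMap K' Ω (f i) * v⁻¹) / (algebraMap K' Ω (f 0) * v⁻¹) := by
      rw [map_div₀, mul_div_mul_right _ _ (inv_ne_zero hv0)]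
    rw [e1]
    exact div_mem (key2 i) (key2 0)
  -- the field of the quotients
  have key4 : IntermediateField.adjoin ℂ (Set.range fun i => f i / f 0) ≤
      (E.restrictScalars ℂ).comap (IsScalarTower.toAlgHom ℂ K' Ω) := by
    rw [IntermediateField.adjoin_le_iff]
    rintro _ ⟨i, rfl⟩
    exact key3 i
  refine ⟨fun y => ?_⟩
  set A₀ := IntermediateField.adjoin ℂ (Set.range fun i => f i / f 0) with hA₀
  let g : A₀ →+* E := ((algebraMap K' Ω).comp (algebraMap A₀ K')).codRestrict E fun a => key4 a.2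
  have h1 : IsAlgebraic E (algebraMap K' Ω (algebraMap K K' y)) :=
    IsAlgebraic.ringHom_of_comp_eq g (algebraMap K' Ω) (hf.isAlgebraic (algebraMap K K' y)) g.injective rfl
  have h2 : IsAlgebraic F (algebraMap K' Ω (algebraMap K K' y)) := IsAlgebraic.restrictScalars F h1
  rw [← IsScalarTower.algebraMap_apply K K' Ω] at h2
  exact (isAlgebraic_algebraMap_iff (algebraMap K Ω).injective).1 h2

end Pool.Agent.GTL
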