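import Pool.Agent.GTL.EtA
import Pool.Agent.GTL.EtB
import Pool.Agent.GTL.EtC
import Pool.Agent.GTL.EtQ

/-!
# GTL EtD: log general type descends to `K` from a finite extension `K'` which is unramified off the boundary

PROOF.  `regL_coeff`: `E`, `e` with `LFr Bd E e`, `J := jacL z e ≠ 0` (`LFr.jac_ne`).  `y := f * (algebraMap J) ^ m`.  For `E'` over `E`: extensions `D' i` of `e i` (`exists_ext_der`), `LDer Bd' E' (D' i)` (`LFr.lDer`, `lder_ext`),
`det (D' i (z' j)) = algebraMap J`; so `0 ≤ E'.ord y` (`regL_ldet`).  So `minpoly K y` has coefficients regular at `E` (`integral_of_over`), and `minpoly K y = (minpoly K f).scaleRoots (J ^ m)` (`IsIntegrallyClosed.minpoly_smul`).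
`lgt_descend`: from `IsLogGeneralType Bd'`: `m`, `ω = c • Form.mk 1 z'` (`exists_smul_mk`), `RegL Bd' z' m (f i * c ^ m)` (`regL_of_pole`); replace `f i` by `g i := f i * c ^ m` (the quotients are the same).  `L := (max degree)!`.
Forms over `K`, of weight `L * m`: `(coefficient of index d i - j of minpoly (g i)) ^ (L / j)`, first `(minpoly (g 0)).coeff 0 ^ (L / d 0) ≠ 0`; `RegL` (powers), `pole_of_regL`, `alg_descend`.
-/

set_option autoImplicit false

open Pool.Agent.H23.Fano (PrimeDivisorOver Form)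
open Pool.Agent.H17LG.Variety (IsLogGeneralType)
open Pool.Agent.GBL (LDer LFr RegL jacL)

noncomputable section

namespace Pool.Agent.GTL

variable {K K' : Type} [Field K] [Algebra ℂ K] [Field K'] [Algebra ℂ K'] [Algebra K K'] [IsScalarTower ℂ K K'] {k : ℕ}

theorem regL_coeff [Algebra.EssFiniteType ℂ K] [FiniteDimensional K K'] (hk : 1 ≤ k) {z : Fin k → K} (hz : IsTranscendenceBasis ℂ z)
    {Bd : PrimeDivisorOver K k → Prop} {Bd' : PrimeDivisorOver K' k → Prop}
    (hB : ∀ (E : PrimeDivisorOver K k) (E' : PrimeDivisorOver K' k) (e : ℕ), Over E E' e → (Bd E ↔ Bd' E'))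
    (hU : ∀ (E : PrimeDivisorOver K k) (E' : PrimeDivisorOver K' k) (e : ℕ), Over E E' e → ¬ Bd E → e = 1) {m : ℕ} {f : K'}
    (hf : RegL Bd' (fun i => algebraMap K K' (z i)) m f) {j : ℕ} (hj : j ≤ (minpoly K f).natDegree) :
    RegL Bd z (j * m) ((minpoly K f).coeff ((minpoly K f).natDegree - j)) := by
  intro E e he
  have : Algebra.EssFiniteType ℂ K' := Algebra.EssFiniteType.comp ℂ K K'
  have hz' : IsTranscendenceBasis ℂ (fun i => algebraMap K K' (z i)) := hz.algebraMap_comp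
  have hJ : jacL z e ≠ 0 := LFr.jac_ne hz he
  have hJm : jacL z e ^ m ≠ 0 := pow_ne_zero m hJ
  have hint : IsIntegral K f := Algebra.IsIntegral.isIntegral f
  choose D' hD' using fun i => exists_ext_der (K' := K') (e i)
  have hall : ∀ (E' : PrimeDivisorOver K' k) (e' : ℕ), Over E E' e' → 0 ≤ E'.ord ((jacL z e ^ m) • f) := by
    intro E' e' hO
    have h1 := regL_ldet hk hz' hf (E := E') (D := D') fun i =>
      lder_ext hk hz hO (hB E E' e' hO).2 (hU E E' e' hO) (he.lDer i) (hD' i)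
    have h2 : (Matrix.of fun i j => D' i (algebraMap K K' (z j))).det = algebraMap K K' (jacL z e) := by
      rw [jacL, RingHom.map_det]
      congr 1
      ext i j
      rw [Matrix.of_apply, hD', RingHom.mapMatrix_apply, Matrix.map_apply, Matrix.of_apply]
    rw [h2] at h1
    rwa [Algebra.smul_def, map_pow, mul_comm]
  have h3 := integral_of_over E hall ((minpoly K f).natDegree - j)
  rw [IsIntegrallyClosed.minpoly_smul hJm hint, Polynomial.coeff_scaleRoots, Nat.sub_sub_self hj, ← pow_mul, mul_comm m j] at h3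
  exact h3

private lemma regL_pow {Bd : PrimeDivisorOver K k → Prop} {z : Fin k → K} {l : ℕ} {f : K} (h : RegL Bd z l f) (a : ℕ) :
    RegL Bd z (a * l) (f ^ a) := by
  intro E e he
  have h1 : f ^ a * jacL z e ^ (a * l) = (f * jacL z e ^ l) ^ a := by
    rw [mul_pow, ← pow_mul, mul_comm a l]
  rw [h1, E.ord.map_pow]
  exact nsmul_nonneg (h E e he) a

theorem lgt_descend [Algebra.EssFiniteType ℂ K] [FiniteDimensional K K'] (hk : 1 ≤ k) {z : Fin k → K} (hz : IsTranscendenceBasis ℂ z)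
    {Bd : PrimeDivisorOver K k → Prop} {Bd' : PrimeDivisorOver K' k → Prop}
    (hB : ∀ (E : PrimeDivisorOver K k) (E' : PrimeDivisorOver K' k) (e : ℕ), Over E E' e → (Bd E ↔ Bd' E'))
    (hU : ∀ (E : PrimeDivisorOver K k) (E' : PrimeDivisorOver K' k) (e : ℕ), Over E E' e → ¬ Bd E → e = 1)
    (h : IsLogGeneralType Bd') : IsLogGeneralType Bd := by
  classical
  obtain ⟨m, hm, ω, hω0, r, f, hf0, hpole, halg⟩ := h
  have : Algebra.EssFiniteType ℂ K' := Algebra.EssFiniteType.comp ℂ K K'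
  have hz' : IsTranscendenceBasis ℂ (fun i => algebraMap K K' (z i)) := hz.algebraMap_comp
  obtain ⟨c, hc⟩ := exists_smul_mk hz' ω
  have hc0 : c ≠ 0 := by
    rintro rfl
    exact hω0 (by rw [hc, zero_smul])
  have hcm : c ^ m ≠ 0 := pow_ne_zero m hc0
  obtain ⟨g, hg⟩ : ∃ g : Fin (r + 1) → K', ∀ i, g i = f i * c ^ m := ⟨fun i => f i * c ^ m, fun _ => rfl⟩
  have hg0 : g 0 ≠ 0 := by
    rw [hg]
    exact mul_ne_zero hf0 hcm
  have hgr : ∀ i, RegL Bd' (fun i => algebraMap K K' (z i)) m (g i) := fun i => by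
    rw [hg]
    exact regL_of_pole hz' hc (hpole i)
  have hgq : (fun i => g i / g 0) = fun i => f i / f 0 := by
    funext i
    rw [hg, hg, mul_div_mul_right _ _ hcm]
  have halg' : Algebra.IsAlgebraic (IntermediateField.adjoin ℂ (Set.range fun i => g i / g 0)) K' := by
    rw [hgq]
    exact halg
  have hint : ∀ i, IsIntegral K (g i) := fun i => Algebra.IsIntegral.isIntegral (g i)
  obtain ⟨L, hLe⟩ : ∃ L, L = (∑ i, (minpoly K (g i)).natDegree).factorial := ⟨_, rfl⟩
  have hL0 : 0 < L := by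
    rw [hLe]
    exact Nat.factorial_pos _
  have hL : ∀ i j, 1 ≤ j → j ≤ (minpoly K (g i)).natDegree → j ∣ L := by
    intro i j h1 h2
    rw [hLe]
    exact Nat.dvd_factorial h1 (le_trans h2 (Finset.single_le_sum (f := fun i => (minpoly K (g i)).natDegree) (fun _ _ => Nat.zero_le _) (Finset.mem_univ i)))
  -- the forms
  obtain ⟨a, ha⟩ : ∃ a : Fin (r + 1) → ℕ → K, ∀ i j, a i j = (minpoly K (g i)).coeff ((minpoly K (g i)).natDegree - j) ^ (L / j) := ⟨_, fun _ _ => rfl⟩
  have har : ∀ i j, 1 ≤ j → j ≤ (minpoly K (g i)).natDegree → RegL Bd z (L * m) (a i j) := by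
    intro i j h1 h2
    have h3 := regL_pow (regL_coeff hk hz hB hU (hgr i) h2) (L / j)
    rw [← mul_assoc, Nat.div_mul_cancel (hL i j h1 h2)] at h3
    rw [ha]
    exact h3
  have hd0 : 1 ≤ (minpoly K (g 0)).natDegree := minpoly.natDegree_pos (hint 0)
  have ha0 : a 0 (minpoly K (g 0)).natDegree = (minpoly K (g 0)).coeff 0 ^ (L / (minpoly K (g 0)).natDegree) := by
    rw [ha, Nat.sub_self]
  obtain ⟨F, hF0, hFs⟩ : ∃ F : Fin (Fintype.card (Σ i : Fin (r + 1), Fin (minpoly K (g i)).natDegree) + 1) → K,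
      F 0 = a 0 (minpoly K (g 0)).natDegree ∧
      ∀ t, F (Fin.succ t) = a ((Fintype.equivFin (Σ i : Fin (r + 1), Fin (minpoly K (g i)).natDegree)).symm t).1
        (((Fintype.equivFin (Σ i : Fin (r + 1), Fin (minpoly K (g i)).natDegree)).symm t).2 + 1) :=
    ⟨Fin.cons (a 0 (minpoly K (g 0)).natDegree) fun t =>
      a ((Fintype.equivFin (Σ i : Fin (r + 1), Fin (minpoly K (g i)).natDegree)).symm t).1
        (((Fintype.equivFin (Σ i : Fin (r + 1), Fin (minpoly K (g i)).natDegree)).symm t).2 + 1), Fin.cons_zero _ _, fun t => Fin.cons_succ _ _ t⟩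
  have hFr : ∀ t, RegL Bd z (L * m) (F t) := by
    intro t
    refine Fin.cases ?_ (fun t => ?_) t
    · rw [hF0]
      exact har 0 _ hd0 le_rfl
    · rw [hFs]
      exact har _ _ (Nat.le_add_left 1 _) (Nat.succ_le_of_lt (Fin.is_lt _))
  have hF0' : F 0 ≠ 0 := by
    rw [hF0, ha0]
    exact pow_ne_zero _ (minpoly.coeff_zero_ne_zero (hint 0) hg0)
  refine ⟨L * m, Nat.mul_pos hL0 hm, Form.mk 1 z, mk_ne_zero hz, _, F, hF0', fun t E => Pool.Agent.GBL.pole_of_regL hk hz (hFr t) E, ?_⟩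
  refine alg_descend hg0 halg' hL0 hL _ fun i j h1 h2 => ?_
  apply IntermediateField.subset_adjoin
  obtain ⟨j, rfl⟩ : ∃ j', j = j' + 1 := ⟨j - 1, by omega⟩
  refine ⟨Fin.succ (Fintype.equivFin (Σ i : Fin (r + 1), Fin (minpoly K (g i)).natDegree) ⟨i, ⟨j, h2⟩⟩), ?_⟩
  change F _ / F 0 = _
  rw [hFs, hF0, ha0, Equiv.symm_apply_apply, ha]

end Pool.Agent.GTL
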