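import Pool.Agent.GBL.Lfr
import Pool.Agent.H62.Qe.Defs

/-!
# GTL EtDf: definitions for project ET (coverings `U' → U` and varieties of log general type)

`K ⊆ K'` are the function fields of `Z` and `Z'` (`Z' → Z` generically finite).
-/

set_option autoImplicit false

open Topology Filter MvPolynomial
open Pool.Agent.H17 (PN VanishesAt)
open Pool.Agent.H17EF (projVar)
open Pool.Agent.H23.Fano (PrimeDivisorOver)
open Pool.Agent.H17LG.Variety (FunField ratio)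
open Pool.Agent.H7.Bir (vals rmap)

noncomputable section

namespace Pool.Agent.GTL

/-- the prime divisor `E'` of `K'` lies over the prime divisor `E` of `K`, with ramification index `e` -/
def Over {K K' : Type} [Field K] [Algebra ℂ K] [Field K'] [Algebra ℂ K'] [Algebra K K'] {k : ℕ} (E : PrimeDivisorOver K k) (E' : PrimeDivisorOver K' k)
    (e : ℕ) : Prop :=
  1 ≤ e ∧ ∀ x : K, E'.ord (algebraMap K K' x) = e • E.ord x

/-- the point `(y, x)` satisfies all the polynomial relations of the functions `(η, ξ)` -/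
def Pt {L : Type} [Field L] [Algebra ℂ L] {M N : ℕ} (η : Fin (M + 1) → L) (ξ : Fin (N + 1) → L) (y : Fin (M + 1) → ℂ) (x : Fin (N + 1) → ℂ) : Prop :=
  ∀ F : MvPolynomial (Fin (M + 1) ⊕ Fin (N + 1)) ℂ, aeval (Sum.elim η ξ) F = 0 → eval (Sum.elim y x) F = 0

/-- the map `(y, x) ↦ x` is locally injective at the points `(y₀, x₀)` of the variety of `(η, ξ)` with `U y₀ ≠ 0` -/
def LocInj {L : Type} [Field L] [Algebra ℂ L] {M N : ℕ} (η : Fin (M + 1) → L) (ξ : Fin (N + 1) → L) (U : MvPolynomial (Fin (M + 1)) ℂ) : Prop :=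
  ∀ y₀ x₀, Pt η ξ y₀ x₀ → eval y₀ U ≠ 0 → ∀ᶠ q in 𝓝 (y₀, y₀), ∀ x, Pt η ξ q.1 x → Pt η ξ q.2 x → q.1 = q.2

/-- `Φ` is an integral curve of the derivation `D` on the spectrum of `A`, defined on the disc of radius `ρ` -/
def IsFlow {A : Type} [CommRing A] [Algebra ℂ A] (D : Derivation ℂ A A) (ρ : ℝ) (Φ : ℂ → A →ₐ[ℂ] ℂ) : Prop :=
  ∀ τ ∈ Metric.ball (0 : ℂ) ρ, ∀ f : A, HasDerivAt (fun σ => Φ σ f) (Φ τ (D f)) τ

variable {N M : ℕ}

/-- `p` maps the variety of `Q'` onto a dense subset of the variety of `Q` -/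
structure DomPair (Q : Ideal (MvPolynomial (Fin (N + 1)) ℂ)) (Q' : Ideal (MvPolynomial (Fin (M + 1)) ℂ)) (p : PN M → PN N) : Prop where
  maps : ∀ y ∈ projVar Q', p y ∈ projVar Q
  dense : ∀ (R : MvPolynomial (Fin (N + 1)) ℂ) (n : ℕ), R.IsHomogeneous n → R ∉ Q → ∃ y ∈ projVar Q', ¬ VanishesAt R (p y)

/-- the embedding `φ` of function fields is the one given by `p` -/
def Induces (Q : Ideal (MvPolynomial (Fin (N + 1)) ℂ)) [Q.IsPrime] (Q' : Ideal (MvPolynomial (Fin (M + 1)) ℂ)) [Q'.IsPrime] (p : PN M → PN N)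
    (φ : FunField Q →ₐ[ℂ] FunField Q') : Prop :=
  ∀ (D : ℕ) (γ : Fin (N + 1) → MvPolynomial (Fin (M + 1)) ℂ), (∀ i, (γ i).IsHomogeneous D) →
    (∀ y ∈ projVar Q', vals γ y.rep ≠ 0 → p y = rmap γ y) → ∀ i₁, γ i₁ ∉ Q' → ∀ j, X j ∉ Q' → ∀ i,
      φ (ratio Q i i₁) * aeval (fun l => ratio Q' l j) (γ i₁) = aeval (fun l => ratio Q' l j) (γ i)

end Pool.Agent.GTL
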