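import Pool.Agent.GTL.EtDf
import Pool.Agent.H23.Forms

/-!
# GTL EtG: the valuation ring of a prime divisor is a localization of a finitely generated algebra

PROOF.  `exists_gens`: `k = k' + 1`; `s i` as in `E.residue_trdeg`, `t` a uniformizer.  `κ := ℂ(s)` (`IntermediateField.adjoin ℂ (Set.range s)`): all its
nonzero elements have order `0`.  `K / κ(t)` is finite; `B` := integral closure of `κ[t]` in `K` (Dedekind, a finite `κ[t]`-module, generated by `b 1 … b n`).
`q := {b ∈ B : E.ord b > 0}` is a prime `≠ 0`, and for every `f` one has `f y = x` or `f x = y` with `x ∈ B`, `y ∈ B ∖ q`; so every `f` with `E.ord f ≥ 0` is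
`x / y`, `x, y ∈ B`, `E.ord y = 0`; `x = ∑ α l b l`, `y = ∑ β l b l`, `α l, β l ∈ κ[t]`; multiply with the common denominator `d ∈ ℂ[s]`, `E.ord d = 0`.
So `S = {s i, t, b l}`.
-/

set_option autoImplicit false

open MvPolynomial
open Pool.Agent.H23.Fano (PrimeDivisorOver)

noncomputable section

namespace Pool.Agent.GTL

/-! ## one variable over a field -/

section Val

variable {F K : Type} [Field F] [Field K] [Algebra F K]

private theorem etG_pid (x : K) : IsPrincipalIdealRing (Algebra.adjoin F {x}) := by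
  refine IsPrincipalIdealRing.of_surjective
    ((Polynomial.aeval (⟨x, Algebra.self_mem_adjoin_singleton F x⟩ : Algebra.adjoin F {x}) : Polynomial F →ₐ[F] Algebra.adjoin F {x}) :
      Polynomial F →+* Algebra.adjoin F {x}) fun a => ?_
  obtain ⟨p, hp⟩ : (a : K) ∈ (Polynomial.aeval x : Polynomial F →ₐ[F] K).range := by
    rw [← Algebra.adjoin_singleton_eq_range_aeval]
    exact a.2
  refine ⟨p, Subtype.ext ?_⟩
  have h1 := (Polynomial.aeval_algebraMap_apply K (⟨x, Algebra.self_mem_adjoin_singleton F x⟩ : Algebra.adjoin F {x}) p).symm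
  exact h1.trans hp

open scoped IntermediateField.algebraAdjoinAdjoin in
private theorem etG_val [CharZero F] (x : K) (hfin : FiniteDimensional (IntermediateField.adjoin F {x}) K) (ord : AddValuation K (WithTop ℤ))
    (h0 : ∀ b, IsIntegral (Algebra.adjoin F {x}) b → 0 ≤ ord b) (hx : 0 < ord x) (hx0 : x ≠ 0) :
    (∀ f, 0 ≤ ord f → ∃ b₁ b₂, IsIntegral (Algebra.adjoin F {x}) b₁ ∧ IsIntegral (Algebra.adjoin F {x}) b₂ ∧ ord b₂ = 0 ∧ f * b₂ = b₁) ∧
    ∃ S : Finset K, (∀ b ∈ S, IsIntegral (Algebra.adjoin F {x}) b) ∧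
      ∀ b, IsIntegral (Algebra.adjoin F {x}) b → b ∈ Submodule.span (Algebra.adjoin F {x}) (S : Set K) := by
  classical
  have hpid : IsPrincipalIdealRing (Algebra.adjoin F {x}) := etG_pid x
  have hded : IsDedekindDomain (Algebra.adjoin F {x}) := inferInstance
  have hcz : CharZero (IntermediateField.adjoin F {x}) := charZero_of_injective_algebraMap (algebraMap F _).injective
  have hsep : Algebra.IsSeparable (IntermediateField.adjoin F {x}) K :=
    Algebra.IsAlgebraic.isSeparable_of_perfectField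
  have hC : IsDedekindDomain (integralClosure (Algebra.adjoin F {x}) K) :=
    integralClosure.isDedekindDomain (Algebra.adjoin F {x}) (IntermediateField.adjoin F {x}) K
  have hfr : IsFractionRing (integralClosure (Algebra.adjoin F {x}) K) K :=
    integralClosure.isFractionRing_of_finite_extension (IntermediateField.adjoin F {x}) K
  have hft : Module.Finite (Algebra.adjoin F {x}) (integralClosure (Algebra.adjoin F {x}) K) :=
    IsIntegralClosure.finite (Algebra.adjoin F {x}) (IntermediateField.adjoin F {x}) K (integralClosure (Algebra.adjoin F {x}) K)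
  refine ⟨fun f hf => ?_, ?_⟩
  · -- the prime
    let q : Ideal (integralClosure (Algebra.adjoin F {x}) K) :=
      { carrier := {b | 0 < ord (b : K)}
        add_mem' := fun {a b} ha hb => ord.map_lt_add ha hb
        zero_mem' := by
          show 0 < ord ((0 : integralClosure (Algebra.adjoin F {x}) K) : K)
          rw [ZeroMemClass.coe_zero, ord.map_zero]
          exact WithTop.coe_lt_top 0
        smul_mem' := fun c b hb => by
          show 0 < ord ((c * b : integralClosure (Algebra.adjoin F {x}) K) : K)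
          rw [MulMemClass.coe_mul, ord.map_mul]
          exact lt_of_lt_of_le hb (le_add_of_nonneg_left (h0 _ c.2)) }
    have hqm : ∀ b, b ∈ q ↔ 0 < ord (b : K) := fun b => Iff.rfl
    have hnot : ∀ b : integralClosure (Algebra.adjoin F {x}) K, b ∉ q → ord (b : K) = 0 := fun b hb =>
      le_antisymm (not_lt.1 fun h => hb h) (h0 _ b.2)
    have hprime : q.IsPrime := by
      refine ⟨?_, ?_⟩
      · rw [Ideal.ne_top_iff_one, hqm, OneMemClass.coe_one, ord.map_one]
        exact lt_irrefl _
      · intro a b hab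
        by_contra hcon
        rw [not_or] at hcon
        rw [hqm, MulMemClass.coe_mul, ord.map_mul, hnot a hcon.1, hnot b hcon.2, add_zero] at hab
        exact lt_irrefl _ hab
    have hxi : IsIntegral (Algebra.adjoin F {x}) x :=
      isIntegral_algebraMap (x := (⟨x, Algebra.self_mem_adjoin_singleton F x⟩ : Algebra.adjoin F {x}))
    have hne : q ≠ ⊥ := by
      intro hq
      have h1 : (⟨x, hxi⟩ : integralClosure (Algebra.adjoin F {x}) K) ∈ q := hx
      rw [hq, Ideal.mem_bot] at h1
      exact hx0 (congrArg Subtype.val h1)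
    let v : IsDedekindDomain.HeightOneSpectrum (integralClosure (Algebra.adjoin F {x}) K) := ⟨q, hprime, hne⟩
    obtain ⟨n, d, h⟩ := v.exists_primeCompl_mul_eq_or_mul_eq f
    have hd : ord ((d : integralClosure (Algebra.adjoin F {x}) K) : K) = 0 := hnot _ d.2
    rcases h with h | h
    · exact ⟨(n : K), ((d : integralClosure (Algebra.adjoin F {x}) K) : K), n.2, (d : integralClosure (Algebra.adjoin F {x}) K).2, hd, h⟩
    · refine ⟨((d : integralClosure (Algebra.adjoin F {x}) K) : K), (n : K), (d : integralClosure (Algebra.adjoin F {x}) K).2, n.2, ?_, h⟩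
      have h1 : ord f + ord (n : K) = 0 := by
        rw [← ord.map_mul, ← hd]
        exact congrArg ord h
      refine le_antisymm ?_ (h0 _ n.2)
      rw [← h1]
      exact le_add_of_nonneg_left hf
  · obtain ⟨S, hS⟩ := hft.fg_top
    refine ⟨S.image (fun b : integralClosure (Algebra.adjoin F {x}) K => (b : K)), fun b hb => ?_, fun b hb => ?_⟩
    · obtain ⟨c, -, rfl⟩ := Finset.mem_image.1 hb
      exact c.2
    · have h1 : (⟨b, hb⟩ : integralClosure (Algebra.adjoin F {x}) K) ∈ Submodule.span (Algebra.adjoin F {x}) (S : Set (integralClosure (Algebra.adjoin F {x}) K)) := by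
        rw [hS]
        trivial
      have h2 := Submodule.mem_map_of_mem (f := (integralClosure (Algebra.adjoin F {x}) K).val.toLinearMap) h1
      rw [Submodule.map_span] at h2
      rw [Finset.coe_image]
      exact h2

end Val

/-! ## finiteness -/

private theorem etG_fin {L K : Type} [Field L] [Field K] [Algebra L K] [Algebra ℂ K] [Algebra ℂ L] [IsScalarTower ℂ L K] [Algebra.EssFiniteType ℂ K]
    {ι : Type} (g : ι → K) (hg : ∀ i, ∃ y : L, algebraMap L K y = g i) (hb : IsTranscendenceBasis ℂ g) : FiniteDimensional L K := by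
  have hle : Algebra.adjoin ℂ (Set.range g) ≤ (IsScalarTower.toAlgHom ℂ L K).range := by
    rw [Algebra.adjoin_le_iff]
    rintro _ ⟨i, rfl⟩
    exact hg i
  let φ : Algebra.adjoin ℂ (Set.range g) →ₐ[ℂ] L :=
    (AlgEquiv.ofInjective (IsScalarTower.toAlgHom ℂ L K) (algebraMap L K).injective).symm.toAlgHom.comp (Subalgebra.inclusion hle)
  have hφ : ∀ a, algebraMap L K (φ a) = a := by
    intro a
    have h1 := (AlgEquiv.ofInjective (IsScalarTower.toAlgHom ℂ L K) (algebraMap L K).injective).apply_symm_apply (Subalgebra.inclusion hle a)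
    exact congrArg Subtype.val h1
  let _ : Algebra (Algebra.adjoin ℂ (Set.range g)) L := φ.toRingHom.toAlgebra
  have htow : IsScalarTower (Algebra.adjoin ℂ (Set.range g)) L K := IsScalarTower.of_algebraMap_eq fun a => (hφ a).symm
  have hinj : Function.Injective (algebraMap (Algebra.adjoin ℂ (Set.range g)) L) := fun a b h => by
    have h1 : φ a = φ b := h
    refine Subtype.ext ?_
    rw [← hφ a, ← hφ b, h1]
  have halg : Algebra.IsAlgebraic L K := ⟨fun f => (hb.isAlgebraic.isAlgebraic f).extendScalars hinj⟩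
  have : Algebra.EssFiniteType L K := Algebra.EssFiniteType.of_comp ℂ L K
  exact Algebra.finite_of_essFiniteType_of_isAlgebraic

private theorem etG_fin' {F K : Type} [Field F] [Field K] [Algebra F K] [Algebra ℂ K] [Algebra ℂ F] [IsScalarTower ℂ F K] [Algebra.EssFiniteType ℂ K]
    {n : ℕ} (s : Fin n → K) (t : K) (hs : ∀ i, ∃ y : F, algebraMap F K y = s i) (hb : IsTranscendenceBasis ℂ (Fin.cons t s : Fin (n + 1) → K)) :
    FiniteDimensional (IntermediateField.adjoin F {t}) K := by
  let _ : Algebra ℂ (IntermediateField.adjoin F {t}) := ((algebraMap F (IntermediateField.adjoin F {t})).comp (algebraMap ℂ F)).toAlgebra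
  have htow : IsScalarTower ℂ (IntermediateField.adjoin F {t}) K := IsScalarTower.of_algebraMap_eq fun c => IsScalarTower.algebraMap_apply ℂ F K c
  refine etG_fin (L := IntermediateField.adjoin F {t}) (Fin.cons t s : Fin (n + 1) → K) (fun i => ?_) hb
  refine Fin.cases ?_ (fun j => ?_) i
  · exact ⟨⟨t, IntermediateField.mem_adjoin_simple_self F t⟩, rfl⟩
  · obtain ⟨y, hy⟩ := hs j
    exact ⟨⟨s j, hy ▸ (IntermediateField.adjoin F {t}).algebraMap_mem y⟩, rfl⟩

/-! ## denominators -/

section Den

variable {K : Type} [Field K] [Algebra ℂ K] {n : ℕ} (s : Fin n → K) (t : K)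

private theorem etG_den_ki {a : K} (ha : a ∈ IntermediateField.adjoin ℂ (Set.range s)) :
    ∃ d ∈ Algebra.adjoin ℂ (Set.range s), d ≠ 0 ∧ a * d ∈ Algebra.adjoin ℂ (Set.range s) := by
  obtain ⟨u, hu, w, hw, rfl⟩ := IntermediateField.mem_adjoin_iff_div.1 ha
  rcases eq_or_ne w 0 with h0 | h0
  · exact ⟨1, Subalgebra.one_mem _, one_ne_zero, by rw [h0, div_zero, zero_mul]; exact Subalgebra.zero_mem _⟩
  · exact ⟨w, hw, h0, by rw [div_mul_cancel₀ _ h0]; exact hu⟩

private theorem etG_den_A {S : Set K} (hs : Set.range s ⊆ S) (ht : t ∈ S) {a : K}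
    (ha : a ∈ Algebra.adjoin (IntermediateField.adjoin ℂ (Set.range s)) {t}) :
    ∃ d ∈ Algebra.adjoin ℂ (Set.range s), d ≠ 0 ∧ a * d ∈ Algebra.adjoin ℂ S := by
  have hsub : Algebra.adjoin ℂ (Set.range s) ≤ Algebra.adjoin ℂ S := Algebra.adjoin_mono hs
  induction ha using Algebra.adjoin_induction with
  | mem x hx =>
    rw [Set.mem_singleton_iff] at hx
    exact ⟨1, Subalgebra.one_mem _, one_ne_zero, by rw [mul_one, hx]; exact Algebra.subset_adjoin ht⟩
  | algebraMap r =>
    obtain ⟨d, hd, hd0, h⟩ := etG_den_ki s r.2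
    exact ⟨d, hd, hd0, hsub h⟩
  | add x y _ _ hx hy =>
    obtain ⟨d, hd, hd0, h⟩ := hx
    obtain ⟨d', hd', hd0', h'⟩ := hy
    refine ⟨d * d', Subalgebra.mul_mem _ hd hd', mul_ne_zero hd0 hd0', ?_⟩
    have h1 : (x + y) * (d * d') = x * d * d' + y * d' * d := by ring
    rw [h1]
    exact Subalgebra.add_mem _ (Subalgebra.mul_mem _ h (hsub hd')) (Subalgebra.mul_mem _ h' (hsub hd))
  | mul x y _ _ hx hy =>
    obtain ⟨d, hd, hd0, h⟩ := hx
    obtain ⟨d', hd', hd0', h'⟩ := hy
    refine ⟨d * d', Subalgebra.mul_mem _ hd hd', mul_ne_zero hd0 hd0', ?_⟩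
    have h1 : x * y * (d * d') = x * d * (y * d') := by ring
    rw [h1]
    exact Subalgebra.mul_mem _ h h'

private theorem etG_den_span {S B : Set K} (hs : Set.range s ⊆ S) (ht : t ∈ S) (hB : B ⊆ S) {a : K}
    (ha : a ∈ Submodule.span (Algebra.adjoin (IntermediateField.adjoin ℂ (Set.range s)) {t}) B) :
    ∃ d ∈ Algebra.adjoin ℂ (Set.range s), d ≠ 0 ∧ a * d ∈ Algebra.adjoin ℂ S := by
  have hsub : Algebra.adjoin ℂ (Set.range s) ≤ Algebra.adjoin ℂ S := Algebra.adjoin_mono hs
  induction ha using Submodule.span_induction with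
  | mem x hx => exact ⟨1, Subalgebra.one_mem _, one_ne_zero, by rw [mul_one]; exact Algebra.subset_adjoin (hB hx)⟩
  | zero => exact ⟨1, Subalgebra.one_mem _, one_ne_zero, by rw [zero_mul]; exact Subalgebra.zero_mem _⟩
  | add x y _ _ hx hy =>
    obtain ⟨d, hd, hd0, h⟩ := hx
    obtain ⟨d', hd', hd0', h'⟩ := hy
    refine ⟨d * d', Subalgebra.mul_mem _ hd hd', mul_ne_zero hd0 hd0', ?_⟩
    have h1 : (x + y) * (d * d') = x * d * d' + y * d' * d := by ring
    rw [h1]
    exact Subalgebra.add_mem _ (Subalgebra.mul_mem _ h (hsub hd')) (Subalgebra.mul_mem _ h' (hsub hd))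
  | smul c x _ hx =>
    obtain ⟨d, hd, hd0, h⟩ := hx
    obtain ⟨d', hd', hd0', h'⟩ := etG_den_A s t hs ht c.2
    refine ⟨d * d', Subalgebra.mul_mem _ hd hd', mul_ne_zero hd0 hd0', ?_⟩
    have h1 : c • x * (d * d') = (c : K) * d' * (x * d) := by
      rw [Algebra.smul_def]
      show (c : K) * x * (d * d') = _
      ring
    rw [h1]
    exact Subalgebra.mul_mem _ h' h

end Den

variable {K : Type} [Field K] [Algebra ℂ K] {k : ℕ}

/-- the valuation ring of a prime divisor is a localization of a finitely generated algebra -/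
theorem exists_gens [Algebra.EssFiniteType ℂ K] (hk : 1 ≤ k) {z : Fin k → K} (hz : IsTranscendenceBasis ℂ z) (E : PrimeDivisorOver K k) :
    ∃ S : Finset K, (∀ f ∈ S, 0 ≤ E.ord f) ∧ ∀ f, 0 ≤ E.ord f →
      ∃ a ∈ Algebra.adjoin ℂ (S : Set K), ∃ h ∈ Algebra.adjoin ℂ (S : Set K), E.ord h = 0 ∧ f * h = a := by
  classical
  obtain ⟨n, rfl⟩ : ∃ n, k = n + 1 := ⟨k - 1, by omega⟩
  obtain ⟨t, ht⟩ := E.exists_uniformizer
  obtain ⟨s, hs0, hs⟩ := E.residue_trdeg
  change Fin n → K at s
  change ∀ i : Fin n, 0 ≤ E.ord (s i) at hs0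
  change ∀ p : MvPolynomial (Fin n) ℂ, p ≠ 0 → E.ord (MvPolynomial.aeval s p) = 0 at hs
  have ht0 : t ≠ 0 := by
    rintro rfl
    rw [E.ord.map_zero] at ht
    exact absurd ht (by simp)
  -- the elements of `ℂ[s]`
  have hord : ∀ d ∈ Algebra.adjoin ℂ (Set.range s), d ≠ 0 → E.ord d = 0 := by
    intro d hd hd0
    rw [Algebra.adjoin_range_eq_range_aeval] at hd
    obtain ⟨p, rfl⟩ := hd
    refine hs p ?_
    rintro rfl
    exact hd0 (map_zero _)
  have hord' : ∀ d ∈ Algebra.adjoin ℂ (Set.range s), 0 ≤ E.ord d := by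
    intro d hd
    rcases eq_or_ne d 0 with rfl | hd0
    · rw [E.ord.map_zero]; exact le_top
    · exact (hord d hd hd0).ge
  -- the transcendence basis
  have hbasis : IsTranscendenceBasis ℂ (Fin.cons t s : Fin (n + 1) → K) := by
    have hind : AlgebraicIndependent ℂ (Fin.cons t s : Fin (n + 1) → K) := by
      rw [algebraicIndependent_iff_injective_aeval]
      have h1 : (MvPolynomial.aeval (Fin.cons t s : Fin (n + 1) → K) : MvPolynomial (Fin (n + 1)) ℂ → K) =
          Pool.Agent.H23.ev s t ∘ MvPolynomial.finSuccEquiv ℂ n := by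
        funext p
        exact Pool.Agent.H23.aeval_cons s t p
      rw [h1]
      exact (Pool.Agent.H23.ev_injective E.ord hs ht).comp (MvPolynomial.finSuccEquiv ℂ n).injective
    apply hind.isTranscendenceBasis_of_trdeg_le_of_finite
    rw [← hz.cardinalMk_eq_trdeg]
  have hcz : CharZero (IntermediateField.adjoin ℂ (Set.range s)) := charZero_of_injective_algebraMap (algebraMap ℂ _).injective
  -- finiteness
  have hfin : FiniteDimensional (IntermediateField.adjoin (IntermediateField.adjoin ℂ (Set.range s)) {t}) K :=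
    etG_fin' s t (fun i => ⟨⟨s i, IntermediateField.subset_adjoin _ _ ⟨i, rfl⟩⟩, rfl⟩) hbasis
  -- the elements of `κ[t]`
  have hA : ∀ a ∈ Algebra.adjoin (IntermediateField.adjoin ℂ (Set.range s)) {t}, 0 ≤ E.ord a := by
    intro a ha
    induction ha using Algebra.adjoin_induction with
    | mem x hx =>
      rw [Set.mem_singleton_iff.1 hx, ht]
      exact zero_le_one
    | algebraMap r =>
      obtain ⟨d, hd, hd0, h⟩ := etG_den_ki s r.2
      have h1 := hord' _ h
      rw [E.ord.map_mul, hord d hd hd0, add_zero] at h1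
      exact h1
    | add x y _ _ hx hy => exact E.ord.map_le_add hx hy
    | mul x y _ _ hx hy => rw [E.ord.map_mul]; exact add_nonneg hx hy
  have hI : ∀ b, IsIntegral (Algebra.adjoin (IntermediateField.adjoin ℂ (Set.range s)) {t}) b → 0 ≤ E.ord b := by
    intro b hb
    let φ : Algebra.adjoin (IntermediateField.adjoin ℂ (Set.range s)) {t} →+* (AddValuation.toValuation E.ord).integer :=
      (algebraMap (Algebra.adjoin (IntermediateField.adjoin ℂ (Set.range s)) {t}) K).codRestrict (AddValuation.toValuation E.ord).integer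
        fun a => hA _ a.2
    have h1 : ((algebraMap (AddValuation.toValuation E.ord).integer K).comp φ).IsIntegralElem b := hb
    have h2 : IsIntegral (AddValuation.toValuation E.ord).integer b := h1.of_comp
    exact (Valuation.integer.integers (AddValuation.toValuation E.ord)).mem_of_integral h2
  obtain ⟨h1, B, hB, hspan⟩ := etG_val t hfin E.ord hI (by rw [ht]; exact zero_lt_one) ht0
  -- the generators
  refine ⟨Finset.univ.image s ∪ {t} ∪ B, ?_, ?_⟩
  · intro f hf
    rw [Finset.mem_union, Finset.mem_union, Finset.mem_image, Finset.mem_singleton] at hf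
    rcases hf with (⟨i, -, rfl⟩ | rfl) | hf
    · exact hs0 i
    · rw [ht]; exact zero_le_one
    · exact hI f (hB f hf)
  · intro f hf
    have hsS : Set.range s ⊆ ((Finset.univ.image s ∪ {t} ∪ B : Finset K) : Set K) := by
      rintro _ ⟨i, rfl⟩
      simp
    have htS : t ∈ ((Finset.univ.image s ∪ {t} ∪ B : Finset K) : Set K) := by simp
    have hBS : (B : Set K) ⊆ ((Finset.univ.image s ∪ {t} ∪ B : Finset K) : Set K) := by
      intro b hb
      rw [Finset.coe_union]
      exact Or.inr hb
    obtain ⟨b₁, b₂, hb₁, hb₂, hb₀, hfb⟩ := h1 f hf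
    obtain ⟨d₁, hd₁, hd₁0, h₁⟩ := etG_den_span s t hsS htS hBS (hspan b₁ hb₁)
    obtain ⟨d₂, hd₂, hd₂0, h₂⟩ := etG_den_span s t hsS htS hBS (hspan b₂ hb₂)
    have hsub : Algebra.adjoin ℂ (Set.range s) ≤ Algebra.adjoin ℂ ((Finset.univ.image s ∪ {t} ∪ B : Finset K) : Set K) := Algebra.adjoin_mono hsS
    refine ⟨b₁ * d₁ * d₂, Subalgebra.mul_mem _ h₁ (hsub hd₂), b₂ * d₂ * d₁, Subalgebra.mul_mem _ h₂ (hsub hd₁), ?_, ?_⟩
    · rw [E.ord.map_mul, E.ord.map_mul, hb₀, hord d₁ hd₁ hd₁0, hord d₂ hd₂ hd₂0, add_zero, add_zero]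
    · rw [← hfb]
      ring

end Pool.Agent.GTL
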