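import Pool.Agent.GTL.EtB

/-!
# GTL EtI0: adapted derivations at `E` and `E'`

PROOF.  `k = k' + 1`; `s`, `t` for `E` (`residue_trdeg`, uniformizer), `t'` uniformizer of `E'`.  `exists_coords` for `E` (`t`, `s`): `D₁ := dualDer b 0` on `K` (`D₁ t = 1`, `D₁ (s i) = 0`, regular at `E`); for `E'` (`t'`, `algebraMap ∘ s`; `K'` is
essentially of finite type over `ℂ`, `algebraMap ∘ z` is a transcendence basis, `IsTranscendenceBasis.algebraMap_comp`): `D := dualDer b' 0` on `K'`.  `D (algebraMap f) = D (algebraMap t) * algebraMap (D₁ f)` for `f ∈ K`: both sides are derivations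
`K → K'` which agree on `t`, `s i` (`Derivation.liftKaehlerDifferential`, `b` is a basis of `Ω[K⁄ℂ]`).
-/

set_option autoImplicit false

open MvPolynomial
open Pool.Agent.H23 (dualDer)
open Pool.Agent.H23.Fano (PrimeDivisorOver)

noncomputable section

namespace Pool.Agent.GTL

/-- a derivation in terms of a basis of differentials -/
private theorem eti0_expand {K : Type} [Field K] [Algebra ℂ K] {M : Type} [AddCommGroup M] [Module ℂ M] [Module K M] [IsScalarTower ℂ K M] {n : ℕ}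
    (b : Module.Basis (Fin n) K Ω[K⁄ℂ]) {a : Fin n → K} (hb : ∀ i, b i = KaehlerDifferential.D ℂ K (a i)) (Δ : Derivation ℂ K M) (f : K) :
    Δ f = ∑ i, dualDer b i f • Δ (a i) := by
  have h1 : KaehlerDifferential.D ℂ K f = ∑ i, dualDer b i f • KaehlerDifferential.D ℂ K (a i) := by
    conv_lhs => rw [← b.sum_repr (KaehlerDifferential.D ℂ K f)]
    refine Finset.sum_congr rfl fun i _ => ?_
    rw [hb, Pool.Agent.H23.dualDer_apply]
  have h2 : ∀ g, Δ g = Δ.liftKaehlerDifferential (KaehlerDifferential.D ℂ K g) := fun g => (Δ.liftKaehlerDifferential_comp_D g).symm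
  rw [h2, h1, map_sum]
  refine Finset.sum_congr rfl fun i _ => ?_
  rw [map_smul, ← h2]

theorem exists_adapted {K K' : Type} [Field K] [Algebra ℂ K] [Field K'] [Algebra ℂ K'] [Algebra K K'] [IsScalarTower ℂ K K'] {k : ℕ} [Algebra.EssFiniteType ℂ K]
    [FiniteDimensional K K'] (hk : 1 ≤ k) {z : Fin k → K} (hz : IsTranscendenceBasis ℂ z) {E : PrimeDivisorOver K k} {E' : PrimeDivisorOver K' k} {e : ℕ}
    (h : Over E E' e) :
    ∃ (D₁ : Derivation ℂ K K) (D : Derivation ℂ K' K') (t : K) (t' : K'), E.ord t = 1 ∧ E'.ord t' = 1 ∧ D₁ t = 1 ∧ D t' = 1 ∧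
      (∀ f, 0 ≤ E.ord f → 0 ≤ E.ord (D₁ f)) ∧ (∀ f, 0 ≤ E'.ord f → 0 ≤ E'.ord (D f)) ∧
      ∀ f : K, D (algebraMap K K' f) = D (algebraMap K K' t) * algebraMap K K' (D₁ f) := by
  obtain ⟨k', rfl⟩ : ∃ k', k = k' + 1 := ⟨k - 1, by omega⟩
  obtain ⟨s, -, hs⟩ := E.residue_trdeg
  obtain ⟨t, ht⟩ := E.exists_uniformizer
  obtain ⟨t', ht'⟩ := E'.exists_uniformizer
  obtain ⟨b, hb, hreg, -, -⟩ := exists_coords hz E.ord ht (s := s) hs
  have : Algebra.EssFiniteType ℂ K' := Algebra.EssFiniteType.comp ℂ K K'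
  have hz' : IsTranscendenceBasis ℂ (algebraMap K K' ∘ z) := hz.algebraMap_comp
  have hs' : ∀ p : MvPolynomial (Fin k') ℂ, p ≠ 0 → E'.ord (aeval (algebraMap K K' ∘ s) p) = 0 := by
    intro p hp
    have h1 : aeval (algebraMap K K' ∘ s) p = algebraMap K K' (aeval s p) := by
      rw [← IsScalarTower.toAlgHom_apply ℂ K K', ← AlgHom.comp_apply, comp_aeval]
      rfl
    rw [h1, h.2, hs p hp, smul_zero]
  obtain ⟨b', hb', hreg', -, -⟩ := exists_coords hz' E'.ord ht' (s := algebraMap K K' ∘ s) hs'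
  refine ⟨dualDer b 0, dualDer b' 0, t, t', ht, ht', ?_, ?_, hreg 0, hreg' 0, ?_⟩
  · simpa using Pool.Agent.H23.dualDer_coord b hb 0 0
  · simpa using Pool.Agent.H23.dualDer_coord b' hb' 0 0
  · intro f
    have h1 := eti0_expand b hb ((dualDer b' 0).compAlgebraMap K) f
    have h2 : ∀ g : K, (dualDer b' 0).compAlgebraMap K g = dualDer b' 0 (algebraMap K K' g) := fun g => rfl
    rw [h2, Fin.sum_univ_succ] at h1
    have h3 : ∀ i : Fin k', dualDer b i.succ f • (dualDer b' 0).compAlgebraMap K ((Fin.cons t s : Fin (k' + 1) → K) i.succ) = 0 := by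
      intro i
      have h4 := Pool.Agent.H23.dualDer_coord b' hb' 0 i.succ
      rw [if_neg (Fin.succ_ne_zero i).symm, Fin.cons_succ] at h4
      rw [Fin.cons_succ, h2, show algebraMap K K' (s i) = (algebraMap K K' ∘ s) i from rfl, h4, smul_zero]
    rw [Finset.sum_eq_zero (fun i _ => h3 i), add_zero, Fin.cons_zero, h2, Algebra.smul_def] at h1
    rw [h1, mul_comm]

end Pool.Agent.GTL
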