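import Pool.Agent.GTL.EtDf
import Pool.Agent.H17R.Point
import Pool.Agent.H17EF.Closed
import Pool.Agent.H7.Qup.Bd

/-!
# GTL EtK0: the centre of a prime divisor

PROOF.  `exists_center_pt`: the polynomials `S` with `0 < E'.ord (S (η))` (or `S (η) = 0`), `η = ratio Q' · j`, form the prime ideal `H7.Qup.ctr` which contains the forms of `Q'` and does not contain `R`;
`exists_ctr_point` gives a zero of it at which `R` does not vanish.
`exists_center_rep`: `exists_center_pt` for `R = 1` gives `y`, `hp.regular y` gives `γ`, `γ i₁ (y) ≠ 0` for some `i₁`, so `E'.ord (γ i₁ (η))` is not positive, and it is `≥ 0` (`H17R.ord_gen_nonneg`).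
-/

set_option autoImplicit false

open MvPolynomial
open Pool.Agent.H17 (PN VanishesAt vanishesAt_mk_iff)
open Pool.Agent.H17EF (projVar)
open Pool.Agent.H23.Fano (PrimeDivisorOver)
open Pool.Agent.H17LG.Variety (FunField ratio)
open Pool.Agent.H17R (gen ord_gen_nonneg coordFun_ne_zero_iff)
open Pool.Agent.H62.FC (Homog)
open Pool.Agent.H62.Qe (IsReg)
open Pool.Agent.H7.Bir (vals rmap)
open Pool.Agent.H7.Qup (ctr mem_ctr notMem_ctr exists_ctr_point le_ctr)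

noncomputable section

namespace Pool.Agent.GTL

variable {N M : ℕ} {P : Ideal (MvPolynomial (Fin (N + 1)) ℂ)} {P' Q' : Ideal (MvPolynomial (Fin (M + 1)) ℂ)}

theorem exists_center_pt [Q'.IsPrime] (hQ' : Homog Q') {k : ℕ} (E' : PrimeDivisorOver (FunField Q') k) {j : Fin (M + 1)} (hj : X j ∉ Q')
    (hreg : ∀ l, 0 ≤ E'.ord (ratio Q' l j)) {R : MvPolynomial (Fin (M + 1)) ℂ} {n : ℕ} (hR : R.IsHomogeneous n) (hRo : E'.ord (aeval (fun l => ratio Q' l j) R) = 0) :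
    ∃ y ∈ projVar Q', ¬ VanishesAt R y ∧ ∀ (S : MvPolynomial (Fin (M + 1)) ℂ) (m : ℕ), S.IsHomogeneous m → 0 < E'.ord (aeval (fun l => ratio Q' l j) S) →
      VanishesAt S y := by
  have hj' := coordFun_ne_zero_iff.2 hj
  obtain ⟨v, hv0, hv, hvR⟩ := exists_ctr_point E' hj' hreg (R := R) (notMem_ctr.2 hRo)
  refine ⟨Projectivization.mk ℂ v hv0, fun F hF d hd => ?_, ?_, fun S d hd hS => ?_⟩
  · rw [vanishesAt_mk_iff hd]
    exact hv F (le_ctr hj' hd hF)
  · rw [vanishesAt_mk_iff hR]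
    exact hvR
  · rw [vanishesAt_mk_iff hd]
    exact hv S (mem_ctr.2 hS)

theorem exists_center_rep [Q'.IsPrime] (hQ' : Homog Q') {p : PN M → PN N} (hp : IsReg P P' p) (hle' : P' ≤ Q') {k : ℕ} (E' : PrimeDivisorOver (FunField Q') k)
    {j : Fin (M + 1)} (hj : X j ∉ Q') (hreg : ∀ l, 0 ≤ E'.ord (ratio Q' l j)) :
    ∃ (D : ℕ) (γ : Fin (N + 1) → MvPolynomial (Fin (M + 1)) ℂ) (i₁ : Fin (N + 1)), (∀ i, (γ i).IsHomogeneous D) ∧
      (∀ y ∈ projVar P', vals γ y.rep ≠ 0 → p y = rmap γ y) ∧ E'.ord (aeval (fun l => ratio Q' l j) (γ i₁)) = 0 := by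
  obtain ⟨y, hy, -, hyS⟩ := exists_center_pt hQ' E' hj hreg (R := 1) (isHomogeneous_one _ _) (by rw [map_one, E'.ord.map_one])
  obtain ⟨D, γ, hγ, hv, hrep⟩ := hp.regular y fun F hF n hn => hy F (hle' hF) n hn
  obtain ⟨i₁, hi₁⟩ : ∃ i, eval y.rep (γ i) ≠ 0 := by
    by_contra hcon
    push Not at hcon
    exact hv (funext hcon)
  refine ⟨D, γ, i₁, hγ, hrep, ?_⟩
  by_contra hcon
  have h1 : 0 ≤ E'.ord (aeval (fun l => ratio Q' l j) (γ i₁)) := ord_gen_nonneg E' hreg (γ i₁)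
  exact hi₁ (hyS _ D (hγ i₁) (lt_of_le_of_ne h1 (Ne.symm hcon)))

end Pool.Agent.GTL
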