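import Pool.Agent.GTL.All
import Pool.Agent.GLS.Fin

/-!
# GTL Gen: the conclusion without any hypothesis on the singularities
-/

set_option autoImplicit false

open MvPolynomial Topology Filter Metric
open Pool.Agent.H17LG.Variety (FunField IsLogGeneralType)
open Pool.Agent.H62.FC (Homog)
open Pool.Agent.GL (LogSec)
open Pool.Agent.GBL (LogGenerated logPolar_of_generated)

namespace Pool.Agent.GTL

variable {N : ℕ} {P : Ideal (MvPolynomial (Fin (N + 1)) ℂ)} {B : Finset (Fin (N + 1))} {J m : ℕ}

/-- **The conclusion**: the variety of `P` is a projective variety of dimension `n + 1`, singularities allowed, not contained in one of the hyperplanes `x i = 0`, `i ∈ B`. -/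
theorem conclusion_gen [P.IsPrime] (hP : Homog P) {n : ℕ} (hdim : ∃ z : Fin (n + 1) → FunField P, IsTranscendenceBasis ℂ z)
    (hB : ∀ i ∈ B, X i ∉ P) (hm : 1 ≤ m) {θ : Fin J → LogSec P B m} (hθ : LogGenerated θ) : Conclusion P (bdy B) (n + 1) := by
  rcases B.eq_empty_or_nonempty with rfl | hne
  · exact conclusion_of hP hm hθ (fun i hi => absurd hi (Finset.notMem_empty i)) hdim (exists_conclusionL_empty hP hm hθ hdim)
  · refine conclusion_of hP hm hθ hB hdim fun hgt => ?_
    unfold GeneralType at hgt
    rw [onBd_bdy'] at hgt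
    exact Pool.Agent.GLS.topL_sing hP (m := fun _ => m) (Nat.succ_le_succ (Nat.zero_le n)) hdim hne hB (logPolar_of_generated hm hθ) (fun _ => hm) hgt

end Pool.Agent.GTL
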