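import Pool.Agent.GTL.Defs
import Pool.Agent.GL.Conc
import Pool.Agent.GL.KDefs
import Pool.Agent.H62.FC.Dense

/-!
# GTL Loc: the open subset `X \ D` and its boundary, in the two languages
-/

set_option autoImplicit false

open MvPolynomial
open Pool.Agent.H17 (PN VanishesAt)
open Pool.Agent.H17LG.Variety (FunField)
open Pool.Agent.H62.FC (Homog OnBoundary)
open Pool.Agent.H62.SA (locVar OnBd)
open Pool.Agent.H13.SM (conTan cone)
open Pool.Agent.GL
open Pool.Agent.GBL (BdB)

namespace Pool.Agent.GTL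

variable {N : ℕ} {P : Ideal (MvPolynomial (Fin (N + 1)) ℂ)} {B : Finset (Fin (N + 1))}

theorem bdy_homog : ∀ l, ∃ n, (bdy B l).IsHomogeneous n := fun _ =>
  ⟨∑ _i ∈ B, 1, IsHomogeneous.prod B (fun i => (X i : MvPolynomial (Fin (N + 1)) ℂ)) (fun _ => 1) fun i _ => isHomogeneous_X ℂ i⟩

theorem locVar_bdy : locVar P (bdy B) = openPart P B := by
  ext x
  refine and_congr Iff.rfl ?_
  simp only [VanishesAt, bdy, map_prod, eval_X, Finset.prod_eq_zero_iff, exists_const, not_exists, not_and]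

private theorem ord_prod {k : ℕ} {K : Type} [Field K] [Algebra ℂ K] (E : Pool.Agent.H23.Fano.PrimeDivisorOver K k) {ι : Type} (f : ι → K) (s : Finset ι)
    (h : ∀ i ∈ s, 0 ≤ E.ord (f i)) : 0 < E.ord (∏ i ∈ s, f i) ↔ ∃ i ∈ s, 0 < E.ord (f i) := by
  classical
  have h1 : 0 ≤ E.ord (∏ i ∈ s, f i) ∧ (0 < E.ord (∏ i ∈ s, f i) ↔ ∃ i ∈ s, 0 < E.ord (f i)) := by
    induction s using Finset.induction_on with
    | empty => simp [E.ord.map_one]
    | insert a s ha ih =>
      obtain ⟨h2, h3⟩ := ih fun i hi => h i (Finset.mem_insert_of_mem hi)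
      have h4 := h a (Finset.mem_insert_self a s)
      rw [Finset.prod_insert ha, E.ord.map_mul]
      refine ⟨add_nonneg h4 h2, fun h5 => ?_, ?_⟩
      · by_contra h6
        push Not at h6
        have h7 : E.ord (f a) = 0 := le_antisymm (h6 a (Finset.mem_insert_self a s)) h4
        have h8 : E.ord (∏ i ∈ s, f i) = 0 := by
          refine le_antisymm (not_lt.1 fun h9 => ?_) h2
          obtain ⟨i, hi, hi'⟩ := h3.1 h9
          exact absurd hi' (not_lt.2 (h6 i (Finset.mem_insert_of_mem hi)))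
        rw [h7, h8, add_zero] at h5
        exact lt_irrefl _ h5
      · rintro ⟨i, hi, hi'⟩
        rcases Finset.mem_insert.1 hi with rfl | hi
        · exact lt_of_lt_of_le hi' (le_add_of_nonneg_right h2)
        · exact lt_of_lt_of_le (h3.2 ⟨i, hi, hi'⟩) (le_add_of_nonneg_left h4)
  exact h1.2

theorem onBd_bdy [P.IsPrime] {k : ℕ} : OnBd P (bdy B) (k := k) = BdB P B := by
  funext E
  refine propext (exists_congr fun j => and_congr_right fun _ => and_congr_right fun h2 => ?_)
  rw [← ord_prod E (fun i => Pool.Agent.H17LG.Variety.ratio P i j) B fun i _ => h2 i]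
  simp only [bdy, map_prod, aeval_X, forall_const]

theorem onBd_bdy' [P.IsPrime] {k : ℕ} : OnBd P (bdy B) (k := k) = OnBoundary P B := onBd_bdy

theorem onBd_empty [P.IsPrime] {k : ℕ} : OnBd P (bdy ∅) (k := k) = fun _ => False := by
  rw [onBd_bdy]
  funext E
  refine propext ⟨?_, False.elim⟩
  rintro ⟨_, _, _, i, hi, _⟩
  exact absurd hi (Finset.notMem_empty i)

/-- `X \ D` is not empty -/
theorem locVar_nonempty [P.IsPrime] (hP : Homog P) (hi : ∃ i, X i ∉ P) (hB : ∀ i ∈ B, X i ∉ P) : (locVar P (bdy B)).Nonempty := by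
  by_contra h
  have h1 : (1 : MvPolynomial (Fin (N + 1)) ℂ) ∈ P := by
    refine Pool.Agent.H62.FC.mem_of_vanishes hP hB hi (isHomogeneous_one _ _) fun x hx => ?_
    refine absurd ⟨x, ?_⟩ h
    rw [locVar_bdy]
    refine ⟨hx.1, fun i hi => ?_⟩
    rw [VanishesAt, eval_X]
    exact hx.2 i hi
  exact (Ideal.ne_top_iff_one P).1 (Ideal.IsPrime.ne_top ‹_›) h1

/-- `X` is not contained in a hyperplane `x i = 0`, `i ∈ B` -/
theorem snc_notMem [P.IsPrime] (hP : Homog P) (hi : ∃ i, X i ∉ P) {n : ℕ} (hs : SncX P B n) : ∀ i ∈ B, X i ∉ P := by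
  classical
  intro i hiB hiP
  obtain ⟨x, hx⟩ := locVar_nonempty (B := ∅) hP hi (by simp)
  have hc : x.rep ∈ cone P := by
    refine ⟨x.rep_nonzero, fun Q hQ => ?_⟩
    rw [← sum_homogeneousComponent Q, map_sum]
    exact Finset.sum_eq_zero fun n _ => hx.1 _ (hP Q hQ n) n (homogeneousComponent_isHomogeneous n Q)
  have h1 := hs.snc _ hc (Pi.single i 1) (fun j hj => ?_) fun v hv => ?_
  · have h2 := congrFun h1 i
    rw [Pi.single_eq_same] at h2
    exact one_ne_zero h2
  · have h2 : j = i := by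
      by_contra h3
      exact hj (Pi.single_eq_of_ne h3 _)
    subst h2
    refine ⟨hiB, ?_⟩
    have h3 := hc.2 _ hiP
    rwa [eval_X] at h3
  · have h2 := hv _ hiP
    rw [← h2]
    refine Finset.sum_congr rfl fun j _ => ?_
    rw [pderiv_X, mul_comm]
    by_cases h3 : j = i
    · subst h3
      simp
    · rw [Pi.single_eq_of_ne h3, Pi.single_eq_of_ne (Ne.symm h3)]
      simp

end Pool.Agent.GTL
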