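import Pool.Agent.GL.EntL
import Pool.Agent.GL.EmpA
import Pool.Agent.GT.NoExt

/-!
# GTL NoE: an entire curve in `X \ D` does not extend to `∞`

PROOF.  `B = ∅`: `GT.no_extend` with `toSym` (EmpA).  `b ∈ B`: the lift `F` of `f` in the chart `F b = 1` has polynomial growth, so it is constant (`poly_curve`), as in the proof of
`entire_of_puncturedL` (GL/EntL of helper12).
-/

set_option autoImplicit false

open MvPolynomial Topology Filter Metric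
open Pool.Agent.H17 (PN VanishesAt HolomorphicInto puncturedDisc)
open Pool.Agent.H62.FC (Homog)
open Pool.Agent.GL

namespace Pool.Agent.GTL

variable {N : ℕ} {P : Ideal (MvPolynomial (Fin (N + 1)) ℂ)} {B : Finset (Fin (N + 1))} {J : ℕ} {m : Fin J → ℕ} {θ : ∀ k, LogSec P B (m k)}

/-- an entire function with a meromorphic extension to `∞` has polynomial growth -/
private theorem noE_growth {b : Fin (N + 1)} {F φ : ℂ → Fin (N + 1) → ℂ} (hF : ∀ z, AnalyticAt ℂ F z) (hφ : AnalyticAt ℂ φ 0)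
    (h : ∀ᶠ u in 𝓝[≠] (0 : ℂ), φ u b ≠ 0 ∧ φ u = φ u b • F u⁻¹) : ∃ (C : ℝ) (e : ℕ), ∀ z, ‖F z‖ ≤ C * (1 + ‖z‖) ^ e := by
  have hφb : AnalyticAt ℂ (fun u => φ u b) 0 := (analyticAt_pi_iff.1 hφ) b
  obtain ⟨n, ψ, hψ, hψ0, hψe⟩ := hφb.exists_eventuallyEq_pow_smul_nonzero_iff.2 (by
    intro h0
    obtain ⟨u, h1, h2⟩ := (h.and (h0.filter_mono nhdsWithin_le_nhds)).exists
    exact h1.1 h2)
  -- the bound near `∞`
  have h1 : ∀ᶠ u in 𝓝[≠] (0 : ℂ), ‖F u⁻¹‖ ≤ ((‖φ 0‖ + 1) * 2 / ‖ψ 0‖) * ‖u⁻¹‖ ^ n := by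
    have hp : 0 < ‖ψ 0‖ := norm_pos_iff.2 hψ0
    have h2 : ∀ᶠ u in 𝓝 (0 : ℂ), ‖φ u‖ < ‖φ 0‖ + 1 := hφ.continuousAt.norm.tendsto.eventually (gt_mem_nhds (by linarith))
    have h3 : ∀ᶠ u in 𝓝 (0 : ℂ), ‖ψ 0‖ / 2 < ‖ψ u‖ := hψ.continuousAt.norm.tendsto.eventually (lt_mem_nhds (by linarith))
    filter_upwards [h, hψe.filter_mono nhdsWithin_le_nhds, h2.filter_mono nhdsWithin_le_nhds, h3.filter_mono nhdsWithin_le_nhds, self_mem_nhdsWithin] with u h4 h5 h6 h7 h8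
    have hu : u ≠ 0 := h8
    have hup : 0 < ‖u‖ := norm_pos_iff.2 hu
    have h9 : ‖φ u b‖ = ‖u‖ ^ n * ‖ψ u‖ := by
      have h10 : φ u b = (u - 0) ^ n • ψ u := h5
      rw [h10, sub_zero, norm_smul, norm_pow]
    have h10 : ‖φ u b‖ * ‖F u⁻¹‖ ≤ ‖φ 0‖ + 1 := by
      rw [← norm_smul, ← h4.2]
      exact h6.le
    have h11 : ‖u‖ ^ n * (‖ψ 0‖ / 2) * ‖F u⁻¹‖ ≤ ‖φ 0‖ + 1 := by
      refine le_trans ?_ h10
      rw [h9]
      gcongr
    rw [norm_inv, inv_pow, div_mul_eq_mul_div, le_div_iff₀ hp, ← div_eq_mul_inv, le_div_iff₀ (by positivity)]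
    nlinarith
  -- on a neighbourhood of `∞`
  rw [eventually_nhdsWithin_iff, Metric.eventually_nhds_iff] at h1
  obtain ⟨r, hr, h1⟩ := h1
  obtain ⟨B₁, hB₁⟩ := (isCompact_closedBall (0 : ℂ) r⁻¹).exists_bound_of_continuousOn (f := F) fun z _ => (hF z).continuousAt.continuousWithinAt
  refine ⟨max ((‖φ 0‖ + 1) * 2 / ‖ψ 0‖) B₁, n, fun z => ?_⟩
  have hp : 0 < ‖ψ 0‖ := norm_pos_iff.2 hψ0
  have hK : 0 ≤ (‖φ 0‖ + 1) * 2 / ‖ψ 0‖ := by positivity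
  by_cases hz : ‖z‖ ≤ r⁻¹
  · have h2 := hB₁ z (mem_closedBall_zero_iff.2 hz)
    have h3 : 0 ≤ B₁ := (norm_nonneg _).trans h2
    have h4 : (1 : ℝ) ≤ (1 + ‖z‖) ^ n := one_le_pow₀ (by linarith [norm_nonneg z])
    calc ‖F z‖ ≤ B₁ := h2
      _ ≤ max ((‖φ 0‖ + 1) * 2 / ‖ψ 0‖) B₁ * 1 := by rw [mul_one]; exact le_max_right _ _
      _ ≤ _ := mul_le_mul_of_nonneg_left h4 (hK.trans (le_max_left _ _))
  · push Not at hz
    have hz0 : 0 < ‖z‖ := (inv_pos.2 hr).trans hz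
    have hz1 : z ≠ 0 := norm_pos_iff.1 hz0
    have h2 := h1 (y := z⁻¹) (by
      rw [dist_zero_right, norm_inv]
      exact inv_lt_of_inv_lt₀ hr hz) (inv_ne_zero hz1)
    rw [inv_inv] at h2
    calc ‖F z‖ ≤ ((‖φ 0‖ + 1) * 2 / ‖ψ 0‖) * ‖z‖ ^ n := h2
      _ ≤ max ((‖φ 0‖ + 1) * 2 / ‖ψ 0‖) B₁ * (1 + ‖z‖) ^ n := by
        refine mul_le_mul (le_max_left _ _) (pow_le_pow_left₀ (norm_nonneg _) (by linarith) n) (by positivity) (hK.trans (le_max_left _ _))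

/-- **Rational curves.**  A nonconstant entire curve in `X \ D` does not extend holomorphically to infinity. -/
theorem no_extendL (hP : Homog P) (hθ : LogPolar θ) (hm : ∀ k, 1 ≤ m k) {f : ℂ → PN N} (hf : HolomorphicInto f Set.univ) (hX : ∀ z, f z ∈ openPart P B)
    (hne : ∃ z w, f z ≠ f w) {G : ℂ → PN N} (hG : HolomorphicInto G (ball 0 1)) (hGf : ∀ z ∈ puncturedDisc, G z = f z⁻¹) : False := by
  classical
  rcases B.eq_empty_or_nonempty with hB | ⟨b, hb⟩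
  · subst hB
    exact Pool.Agent.GT.no_extend hP (polar_toSym hθ) hm hf (fun z => (hX z).1) hne hG hGf
  -- a global lift
  obtain ⟨x, hx⟩ := Pool.Agent.H17.exists_global_lift hf
  obtain ⟨F₀, hFx⟩ : ∃ F : ℂ → Fin (N + 1) → ℂ, F = fun z j => (x j : ℂ → ℂ) z := ⟨_, rfl⟩
  have hF₀ : Differentiable ℂ F₀ := by
    rw [hFx]
    exact differentiable_pi.2 fun j => (x j).diff
  have hFf₀ : ∀ z, ∃ h : F₀ z ≠ 0, f z = Projectivization.mk ℂ (F₀ z) h := by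
    intro z
    rw [hFx]
    exact hx z
  have hXi : ∀ i ∈ B, ∀ z, F₀ z i ≠ 0 := by
    intro i hi z h0
    obtain ⟨h, h1⟩ := hFf₀ z
    have h2 := (hX z).2 i hi
    rw [h1, Pool.Agent.H17.vanishesAt_mk_iff (isHomogeneous_X ℂ i), eval_X] at h2
    exact h2 h0
  -- the lift in the chart
  obtain ⟨F, hFe⟩ : ∃ F : ℂ → Fin (N + 1) → ℂ, F = fun z => (F₀ z b)⁻¹ • F₀ z := ⟨_, rfl⟩
  have hF : ∀ z, AnalyticAt ℂ F z := by
    intro z
    rw [hFe]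
    exact (((analyticAt_pi_iff.1 (hF₀.analyticAt z)) b).inv (hXi b hb z)).smul (hF₀.analyticAt z)
  have hF1 : ∀ z, F z b = 1 := by
    intro z
    rw [hFe]
    simp [hXi b hb z]
  have hFf : ∀ z, ∃ h : F z ≠ 0, f z = Projectivization.mk ℂ (F z) h := by
    intro z
    obtain ⟨h, h1⟩ := hFf₀ z
    have h2 : F z = (F₀ z b)⁻¹ • F₀ z := by rw [hFe]
    have h3 : F z ≠ 0 := by
      rw [h2]
      exact smul_ne_zero (inv_ne_zero (hXi b hb z)) h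
    refine ⟨h3, ?_⟩
    rw [h1, Projectivization.mk_eq_mk_iff']
    refine ⟨F₀ z b, ?_⟩
    rw [h2, smul_inv_smul₀ (hXi b hb z)]
  have hFU : ∀ z, F z ∈ Uc P B b := by
    intro z
    obtain ⟨h, h1⟩ := hFf z
    have h2 := hX z
    refine ⟨?_, hF1 z, fun i hi => ?_⟩
    · have h3 := h2.1
      rw [h1] at h3
      exact (Pool.Agent.H17EF.mk_mem_projVar hP h).1 h3
    · have h4 : F z i = (F₀ z b)⁻¹ * F₀ z i := by
        rw [hFe]
        rfl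
      rw [h4]
      exact mul_ne_zero (inv_ne_zero (hXi b hb z)) (hXi i hi z)
  obtain ⟨φ, hφ, hφG⟩ := hG 0 (mem_ball_self one_pos)
  have hnear : ∀ᶠ u in 𝓝[≠] (0 : ℂ), φ u b ≠ 0 ∧ φ u = φ u b • F u⁻¹ := by
    filter_upwards [hφG.filter_mono nhdsWithin_le_nhds, nhdsWithin_le_nhds (ball_mem_nhds (0 : ℂ) one_pos), self_mem_nhdsWithin] with u h1 h2 h3
    obtain ⟨h4, h5⟩ := h1
    obtain ⟨h6, h7⟩ := hFf u⁻¹
    have h8 := hGf u ⟨h2, h3⟩
    rw [h5] at h8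
    have h9 : Projectivization.mk ℂ (φ u) h4 = Projectivization.mk ℂ (F u⁻¹) h6 := by
      rw [h8, ← h7]
    rw [Projectivization.mk_eq_mk_iff'] at h9
    obtain ⟨a, ha⟩ := h9
    have h10 : φ u b = a := by
      rw [← ha, Pi.smul_apply, smul_eq_mul, hF1, mul_one]
    rw [h10]
    refine ⟨?_, ha.symm⟩
    intro h0
    rw [h0, zero_smul] at ha
    exact h4 ha.symm
  obtain ⟨C, e', hC⟩ := noE_growth hF hφ hnear
  have hd := poly_curve hP hθ hm hb hF hFU hC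
  have hFd : Differentiable ℂ F := fun z => (hF z).differentiableAt
  obtain ⟨z, w, hzw⟩ := hne
  apply hzw
  have h1 : F z = F w := is_const_of_deriv_eq_zero hFd hd z w
  obtain ⟨h2, h3⟩ := hFf z
  obtain ⟨h4, h5⟩ := hFf w
  rw [h3, h5]
  simp only [h1]

end Pool.Agent.GTL
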