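import Pool.Agent.GTL.Reg2
import Pool.Agent.GT.Up
import Pool.Agent.H7.Qup.Defs

/-!
# GTL Reg: examples of strictly rational maps and of virtual domination

`strict_of_dominant`: dominant regular maps `V → U` are strictly rational: let `γ` represent `p` near some point, and `γ'` near `y`; `S = X (inr i) * rename inl (γ' j) - X (inr j) * rename inl (γ' i)` has
`aeval (Sum.elim X γ) S = γ i * γ' j - γ j * γ' i ∈ P'` (`Rep.prop`, `mem_of_open`), so `x` is proportional to `vals γ' y`, `x = p y`.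
`strict_of_embed`: if `U = X` is projective then all embeddings of the function fields (dominant rational maps) are strictly rational (`GT.exists_rat'`; relations `rename inr R`, `R ∈ P`).
`virt_of_strict` (Reg2): the identity covering.
`conclusion_prj`: for `B = ∅` the conclusion contains the conclusion of GT/Defs.
-/

set_option autoImplicit false

open MvPolynomial
open Pool.Agent.H17 (PN VanishesAt)
open Pool.Agent.H17EF (projVar)
open Pool.Agent.H17LG.Variety (FunField)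
open Pool.Agent.H62.FC (Homog)
open Pool.Agent.H62.SA (locVar OnBd)
open Pool.Agent.H7.Qup (IsDominantMap)

noncomputable section

namespace Pool.Agent.GTL

variable {N M : ℕ} {P : Ideal (MvPolynomial (Fin (N + 1)) ℂ)} {P' : Ideal (MvPolynomial (Fin (M + 1)) ℂ)} {s s' : ℕ}
  {G : Fin s → MvPolynomial (Fin (N + 1)) ℂ} {G' : Fin s' → MvPolynomial (Fin (M + 1)) ℂ} {p : PN M → PN N}

/-- forms in one group of the variables are weighted homogeneous -/
private theorem rename_wt {σ τ : Type} {f : σ → τ} {w : τ → ℕ} {c n : ℕ} (hw : ∀ i, w (f i) = c) {Q : MvPolynomial σ ℂ} (hQ : Q.IsHomogeneous n) :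
    IsWeightedHomogeneous w (rename f Q) (c * n) := by
  intro d hd
  obtain ⟨u, hu, hc⟩ := coeff_rename_ne_zero f Q d hd
  have h1 := hQ hc
  rw [Finsupp.weight_apply] at h1 ⊢
  rw [← hu, Finsupp.sum_mapDomain_index (by simp) (by intro a b c; simp [add_mul]), ← h1, Finsupp.sum, Finsupp.sum, Finset.mul_sum]
  refine Finset.sum_congr rfl fun i _ => ?_
  simp [hw, mul_comm]

theorem strict_of_dominant [P.IsPrime] [P'.IsPrime] (hp : IsDominantMap P P' G G' p) (hP' : Homog P') (hG' : ∀ l, ∃ e, (G' l).IsHomogeneous e)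
    (hne : (locVar P' G').Nonempty) : ∃ D γ, StrictMap P P' G G' D γ := by
  obtain ⟨y₀, hy₀⟩ := hne
  obtain ⟨D, γ, hγ, hv₀⟩ := hp.exists_rep hy₀
  refine ⟨D, γ, hγ.hom, fun n R hR => hp.maps_iff hP' hG' hγ ⟨y₀, hy₀, hv₀⟩ n R hR, ?_⟩
  intro y hy x hx
  obtain ⟨D', γ', hγ', hv⟩ := hp.exists_rep hy
  have h1 : ∀ i j, x.rep i * eval y.rep (γ' j) = x.rep j * eval y.rep (γ' i) := by
    intro i j
    have h2 := hx D' 1 (X (Sum.inr i) * rename Sum.inl (γ' j) - X (Sum.inr j) * rename Sum.inl (γ' i)) ?_ ?_ ?_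
    · rw [map_sub, map_mul, map_mul, eval_X, eval_X, eval_rename, eval_rename, Sum.elim_comp_inl, Sum.elim_inr, Sum.elim_inr] at h2
      exact sub_eq_zero.1 h2
    · have h3 : ∀ i j, IsWeightedHomogeneous (Sum.elim (fun _ => 1) fun _ => 0 : Fin (M + 1) ⊕ Fin (N + 1) → ℕ)
          (X (Sum.inr i) * rename Sum.inl (γ' j)) D' := by
        intro i j
        have h4 := (isWeightedHomogeneous_X ℂ (Sum.elim (fun _ => 1) fun _ => 0 : Fin (M + 1) ⊕ Fin (N + 1) → ℕ) (Sum.inr i)).mul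
          (rename_wt (f := Sum.inl) (w := (Sum.elim (fun _ => 1) fun _ => 0 : Fin (M + 1) ⊕ Fin (N + 1) → ℕ)) (c := 1) (fun _ => rfl) (hγ'.hom j))
        rwa [one_mul, Sum.elim_inr, zero_add] at h4
      exact (weightedHomogeneousSubmodule ℂ _ D').sub_mem (h3 i j) (h3 j i)
    · have h3 : ∀ i j, IsWeightedHomogeneous (Sum.elim (fun _ => 0) fun _ => 1 : Fin (M + 1) ⊕ Fin (N + 1) → ℕ)
          (X (Sum.inr i) * rename Sum.inl (γ' j)) 1 := by
        intro i j
        have h4 := (isWeightedHomogeneous_X ℂ (Sum.elim (fun _ => 0) fun _ => 1 : Fin (M + 1) ⊕ Fin (N + 1) → ℕ) (Sum.inr i)).mul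
          (rename_wt (f := Sum.inl) (w := (Sum.elim (fun _ => 0) fun _ => 1 : Fin (M + 1) ⊕ Fin (N + 1) → ℕ)) (c := 0) (fun _ => rfl) (hγ'.hom j))
        rwa [zero_mul, Sum.elim_inr, add_zero] at h4
      exact (weightedHomogeneousSubmodule ℂ _ 1).sub_mem (h3 i j) (h3 j i)
    · have h3 : aeval (Sum.elim X γ) (X (Sum.inr i) * rename Sum.inl (γ' j) - X (Sum.inr j) * rename Sum.inl (γ' i) :
          MvPolynomial (Fin (M + 1) ⊕ Fin (N + 1)) ℂ) = γ i * γ' j - γ j * γ' i := by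
        rw [map_sub, map_mul, map_mul, aeval_X, aeval_X, aeval_rename, aeval_rename, Sum.elim_comp_inl, Sum.elim_inr, Sum.elim_inr, aeval_X_left_apply, aeval_X_left_apply]
      rw [h3]
      refine Pool.Agent.H7.Bir.mem_of_open hP' hG' ⟨y₀, hy₀⟩ (((hγ.hom i).mul (hγ'.hom j)).sub ((hγ.hom j).mul (hγ'.hom i))) fun y' hy' => ?_
      have h4 := hγ.prop hγ' hy' i j
      unfold VanishesAt
      rw [map_sub, map_mul, map_mul, h4, sub_self]
  obtain ⟨j, hj⟩ : ∃ j, eval y.rep (γ' j) ≠ 0 := by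
    by_contra hcon
    push Not at hcon
    exact hv (funext hcon)
  have h2 : x = p y := by
    rw [hγ'.rep y hy hv]
    unfold Pool.Agent.H7.Bir.rmap
    rw [dif_pos hv, ← x.mk_rep, Projectivization.mk_eq_mk_iff']
    refine ⟨x.rep j / eval y.rep (γ' j), funext fun i => ?_⟩
    change x.rep j / eval y.rep (γ' j) * eval y.rep (γ' i) = x.rep i
    rw [div_mul_eq_mul_div, div_eq_iff hj]
    exact (h1 i j).symm
  rw [h2]
  exact hp.maps y hy

theorem strict_of_embed [P.IsPrime] [P'.IsPrime] {k : ℕ} (hz : ∃ z : Fin (k + 1) → FunField P, IsTranscendenceBasis ℂ z)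
    (hj : ∃ j, X j ∉ P') (e : FunField P →ₐ[ℂ] FunField P') : ∃ D γ, StrictMap P P' (bdy ∅) G' D γ := by
  obtain ⟨z, hz⟩ := hz
  obtain ⟨j, hj⟩ := hj
  obtain ⟨i, hi⟩ := Pool.Agent.H92.GT.Proj.exists_coordFun_ne_zero P z hz
  obtain ⟨D, γ, -, hγ, hmaps, -⟩ := Pool.Agent.GT.exists_rat' e hi (Pool.Agent.H17R.coordFun_ne_zero_iff.2 hj)
  refine ⟨D, γ, hγ, hmaps, fun y _ x hx => ⟨fun Q hQ n hn => ?_, 0, ?_⟩⟩
  · have h1 := hx 0 n (rename Sum.inr Q) ?_ ?_ ?_
    · rw [eval_rename, Sum.elim_comp_inr] at h1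
      exact h1
    · have h4 := rename_wt (f := (Sum.inr : Fin (N + 1) → Fin (M + 1) ⊕ Fin (N + 1))) (w := Sum.elim (fun _ => 1) fun _ => 0) (c := 0) (fun _ => rfl) hn
      rwa [zero_mul] at h4
    · have h4 := rename_wt (f := (Sum.inr : Fin (N + 1) → Fin (M + 1) ⊕ Fin (N + 1))) (w := Sum.elim (fun _ => 0) fun _ => 1) (c := 1) (fun _ => rfl) hn
      rwa [one_mul] at h4
    · rw [aeval_rename, Sum.elim_comp_inr]
      exact (hmaps n Q hn).2 hQ
  · unfold VanishesAt bdy
    rw [Finset.prod_empty, map_one]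
    exact one_ne_zero

theorem conclusion_prj [P.IsPrime] (hP : Homog P) {n : ℕ} (hdim : ∃ z : Fin (n + 1) → FunField P, IsTranscendenceBasis ℂ z) (h : Conclusion P (bdy ∅) (n + 1)) :
    Pool.Agent.GT.Conclusion P (n + 1) where
  equiv := by
    intro M P' _ hP' ⟨e⟩
    have hdim' := basis_equiv e.symm hdim
    have hX := exists_X_of_basis hdim
    have hX' := exists_X_of_basis hdim'
    refine allEquiv_empty (h.equiv M P' hP' hdim' 1 (bdy ∅) bdy_homog (locVar_nonempty hP' hX' (by simp)) ?_ ?_)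
    · exact virt_of_strict hP' bdy_homog (strict_of_embed hdim hX' (e.symm : FunField P →ₐ[ℂ] FunField P'))
    · exact virt_of_strict hP bdy_homog (strict_of_embed hdim' hX (e : FunField P' →ₐ[ℂ] FunField P))
  up := by
    intro hgt M P' _ hP' hdim' ⟨e⟩ s G hG hne
    exact h.up (generalType_empty.2 hgt) M P' hP' hdim' s G hG hne (virt_of_strict hP' hG (strict_of_embed hdim (exists_X_of_basis hdim') e))
  dense := by
    intro hgt R e hR hRP
    obtain ⟨f, h1, h2, h3, h4, h5⟩ := h.dense (fun h0 => hgt (generalType_empty.1 h0)) R e hR hRP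
    rw [locVar_bdy_empty] at h3
    exact ⟨f, h1, h2, h3, h4, h5⟩

end Pool.Agent.GTL
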