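import Pool.Agent.GTL.Loc
import Pool.Agent.GT.Up

/-!
# GTL Reg2: the identity covering; the four properties for `B = ∅`

`virt_of_strict`: a variety which strictly rationally dominates `U` virtually dominates `U` (identity covering).
-/

set_option autoImplicit false

open MvPolynomial Topology Filter
open Pool.Agent.H17 (PN VanishesAt)
open Pool.Agent.H17EF (projVar)
open Pool.Agent.H17LG.Variety (FunField)
open Pool.Agent.H62.FC (Homog)
open Pool.Agent.H62.SA (locVar OnBd)
open Pool.Agent.H62.Qe (IsReg IsEtaleOver)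
open Pool.Agent.H7.Bir (vals rmap)

noncomputable section

namespace Pool.Agent.GTL

variable {N M : ℕ} {P : Ideal (MvPolynomial (Fin (N + 1)) ℂ)} {P' : Ideal (MvPolynomial (Fin (M + 1)) ℂ)} {s s' : ℕ}
  {G : Fin s → MvPolynomial (Fin (N + 1)) ℂ} {G' : Fin s' → MvPolynomial (Fin (M + 1)) ℂ}

theorem rmap_X (y : PN M) : rmap (fun i => (X i : MvPolynomial (Fin (M + 1)) ℂ)) y = y := by
  have h1 : vals (fun i => (X i : MvPolynomial (Fin (M + 1)) ℂ)) y.rep = y.rep := by
    funext i
    exact eval_X i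
  have h2 : vals (fun i => (X i : MvPolynomial (Fin (M + 1)) ℂ)) y.rep ≠ 0 := by
    rw [h1]
    exact y.rep_nonzero
  unfold Pool.Agent.H7.Bir.rmap
  rw [dif_pos h2]
  refine Eq.trans ?_ y.mk_rep
  congr 1

/-- The identity is a finite étale covering. -/
theorem isEtaleOver_refl : IsEtaleOver P' P' G' G' (id : PN M → PN M) where
  reg :=
    { maps := fun y hy => hy
      surj := fun x hx => ⟨x, hx, rfl⟩
      regular := fun y _ => by
        refine ⟨1, fun i => X i, fun i => isHomogeneous_X ℂ i, ?_, fun y' _ _ => (rmap_X y').symm⟩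
        have h1 : vals (fun i => (X i : MvPolynomial (Fin (M + 1)) ℂ)) y.rep = y.rep := by
          funext i
          exact eval_X i
        rw [h1]
        exact y.rep_nonzero }
  inv := fun _ _ => Iff.rfl
  locInj := fun _ _ _ => Eventually.of_forall fun _ _ _ _ _ h => h
  locSec := fun y hy _ => ⟨y, hy, id, rfl, analyticAt_id, rfl, Eventually.of_forall fun _ h hx => ⟨h, hx, rfl⟩⟩

theorem virt_of_strict [P'.IsPrime] (hP' : Homog P') (hG' : ∀ l, ∃ e, (G' l).IsHomogeneous e) (h : ∃ D γ, StrictMap P P' G G' D γ) : VirtDominates P P' G G' := by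
  obtain ⟨D, γ, hγ⟩ := h
  exact ⟨M, P', inferInstance, s', G', id, D, γ, hP', hG', isEtaleOver_refl, hγ⟩

theorem locVar_bdy_empty : locVar P (bdy ∅) = projVar P := by
  rw [locVar_bdy]
  ext x
  simp [Pool.Agent.GL.openPart]

theorem generalType_empty [P.IsPrime] {n : ℕ} : GeneralType P (bdy ∅) n ↔ Pool.Agent.GT.GeneralType P n := by
  unfold GeneralType Pool.Agent.GT.GeneralType
  rw [onBd_empty]

theorem picard_empty : PseudoPicard P (bdy ∅) ↔ Pool.Agent.GT.PseudoPicard P := by
  unfold PseudoPicard Pool.Agent.GT.PseudoPicard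
  rw [locVar_bdy_empty]

theorem brody_empty : PseudoBrody P (bdy ∅) ↔ Pool.Agent.GT.PseudoBrody P := by
  unfold PseudoBrody Pool.Agent.GT.PseudoBrody
  rw [locVar_bdy_empty]

theorem strongly_empty : StronglyGeneralType P (bdy ∅) ↔ Pool.Agent.GT.StronglyGeneralType P := by
  unfold StronglyGeneralType Pool.Agent.GT.StronglyGeneralType
  simp only [locVar_bdy_empty, generalType_empty]

theorem allEquiv_empty [P.IsPrime] {n : ℕ} (h : AllEquiv P (bdy ∅) n) :
    (Pool.Agent.GT.GeneralType P n ↔ Pool.Agent.GT.PseudoPicard P) ∧ (Pool.Agent.GT.GeneralType P n ↔ Pool.Agent.GT.PseudoBrody P) ∧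
      (Pool.Agent.GT.GeneralType P n ↔ Pool.Agent.GT.StronglyGeneralType P) := by
  obtain ⟨h1, h2, h3⟩ := h
  rw [generalType_empty, picard_empty] at h1
  rw [generalType_empty, brody_empty] at h2
  rw [generalType_empty, strongly_empty] at h3
  exact ⟨h1, h2, h3⟩

theorem exists_X_of_basis [P.IsPrime] {n : ℕ} (hdim : ∃ z : Fin (n + 1) → FunField P, IsTranscendenceBasis ℂ z) :
    ∃ i, (X i : MvPolynomial (Fin (N + 1)) ℂ) ∉ P := by
  obtain ⟨z, hz⟩ := hdim
  obtain ⟨i, hi⟩ := Pool.Agent.H92.GT.Proj.exists_coordFun_ne_zero P z hz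
  exact ⟨i, Pool.Agent.H17R.coordFun_ne_zero_iff.1 hi⟩

theorem basis_equiv {K L : Type} [Field K] [Field L] [Algebra ℂ K] [Algebra ℂ L] {n : ℕ} (e : K ≃ₐ[ℂ] L)
    (h : ∃ z : Fin n → K, IsTranscendenceBasis ℂ z) : ∃ z : Fin n → L, IsTranscendenceBasis ℂ z := by
  obtain ⟨z, hz⟩ := h
  exact ⟨e ∘ z, e.isTranscendenceBasis hz⟩

end Pool.Agent.GTL
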