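import Pool.Agent.GTL.Bd
import Pool.Agent.GT.Up
import Pool.Agent.LG.Up

/-!
# GTL Str: property (iv) goes up along dominant strictly rational maps of varieties of the same dimension

PROOF.  As `LG.strongly_up` (file LG/Up) and `GT.ggl_up`, part `strongly`: for `Q'` let `Q = imI γ Q'` (GT/Up: `imI_homog`); `StrictMap Q Q' G G' D γ` (`strict_image`: more
relations on `Q'`, so `InGraph Q' ⊆ InGraph P'`; `x ∈ projVar Q` by the relations `rename Sum.inr R`, `R ∈ Q`); the function field of `Q'` is algebraic over that of `Q` by the equations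
`exists_eq_aux` (`R' = aeval γ (R * ∏ i, α i (Fin.last (m i))) * γ i₀ * X j`), so the dimensions are equal; then `logGT_strict`.
-/

set_option autoImplicit false

open MvPolynomial
open Pool.Agent.H17 (PN VanishesAt vanishesAt_mk_iff)
open Pool.Agent.H17GT (coordFun)
open Pool.Agent.H17R (gen gen_eq_zero_iff ratio_self coordFun_ne_zero_iff)
open Pool.Agent.H17LG.Variety (FunField ratio IsLogGeneralType)
open Pool.Agent.H62.FC (Homog)
open Pool.Agent.H62.SA (locVar OnBd)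
open Pool.Agent.H7.Bir (vals)
open Pool.Agent.H7.Qup (aeval_homog exists_eq_aux)
open Pool.Agent.GT (imI mem_imI imI_homog)

noncomputable section

namespace Pool.Agent.GTL

variable {N M : ℕ} {P : Ideal (MvPolynomial (Fin (N + 1)) ℂ)} {P' Q' : Ideal (MvPolynomial (Fin (M + 1)) ℂ)} {s s' D : ℕ}
  {G : Fin s → MvPolynomial (Fin (N + 1)) ℂ} {G' : Fin s' → MvPolynomial (Fin (M + 1)) ℂ} {γ : Fin (N + 1) → MvPolynomial (Fin (M + 1)) ℂ}

theorem strict_image (h : StrictMap P P' G G' D γ) (hPQ' : P' ≤ Q') : StrictMap (imI γ Q') Q' G G' D γ := by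
  refine ⟨h.hom, fun n R _ => Iff.rfl, fun y hy x hx => ?_⟩
  have h1 : x ∈ locVar P G := h.into y ⟨fun F hF n hn => hy.1 F (hPQ' hF) n hn, hy.2⟩ x fun a b S ha hb hS => hx a b S ha hb (hPQ' hS)
  refine ⟨fun F hF n hn => ?_, h1.2⟩
  have ha : IsWeightedHomogeneous (Sum.elim (fun _ => 1) fun _ => 0 : Fin (M + 1) ⊕ Fin (N + 1) → ℕ) (rename Sum.inr F) 0 := by
    intro d hd
    obtain ⟨u, rfl, -⟩ := coeff_rename_ne_zero _ _ _ hd
    rw [Finsupp.weight_apply, Finsupp.sum_fintype _ _ (by simp), Fintype.sum_sum_type]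
    simp [Finsupp.mapDomain_of_notMem_range]
  have hb : IsWeightedHomogeneous (Sum.elim (fun _ => 0) fun _ => 1 : Fin (M + 1) ⊕ Fin (N + 1) → ℕ) (rename Sum.inr F) n := by
    intro d hd
    obtain ⟨u, rfl, hu⟩ := coeff_rename_ne_zero _ _ _ hd
    have h2 := hn hu
    rw [Finsupp.weight_apply, Finsupp.sum_fintype _ _ (by simp)] at h2
    rw [Finsupp.weight_apply, Finsupp.sum_fintype _ _ (by simp), Fintype.sum_sum_type]
    simp only [Sum.elim_inl, Sum.elim_inr, smul_eq_mul, mul_zero, Finset.sum_const_zero, zero_add, mul_one]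
    simp only [Pi.one_apply, smul_eq_mul, mul_one] at h2
    rw [← h2]
    exact Finset.sum_congr rfl fun i _ => Finsupp.mapDomain_apply Sum.inr_injective u i
  have h3 := hx 0 n (rename Sum.inr F) ha hb (by
    rw [aeval_rename, Sum.elim_comp_inr]
    exact hF)
  rw [eval_rename, Sum.elim_comp_inr] at h3
  exact h3

/-- a point of the graph -/
theorem inGraph_mk {y : PN M} (hQ' : Homog Q') (hy : y ∈ Pool.Agent.H17EF.projVar Q') (hv : vals γ y.rep ≠ 0) :
    InGraph Q' γ y (Projectivization.mk ℂ (vals γ y.rep) hv) := by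
  intro a b S ha hb hS
  obtain ⟨d, -, hd⟩ := Pool.Agent.H17.exists_smul_rep (vals γ y.rep) hv
  have h2 : eval (Sum.elim ((1 : ℂ) • y.rep) (d • vals γ y.rep)) S = (1 : ℂ) ^ a * d ^ b * eval (Sum.elim y.rep (vals γ y.rep)) S := eval_bihom' ha hb 1 d _ _
  rw [one_smul, ← hd] at h2
  rw [h2]
  have h3 : eval (Sum.elim y.rep (vals γ y.rep)) S = eval y.rep (aeval (Sum.elim X γ) S) := by
    rw [← MvPolynomial.aeval_eq_eval, ← MvPolynomial.aeval_eq_eval, ← AlgHom.comp_apply, MvPolynomial.comp_aeval]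
    congr 2
    funext i
    rcases i with i | i
    · simp
    · simp [vals, MvPolynomial.aeval_eq_eval]
  rw [h3, ← sum_homogeneousComponent (aeval (Sum.elim X γ) S), map_sum, Finset.sum_eq_zero, mul_zero]
  intro n _
  exact hy _ (hQ' _ hS n) n (homogeneousComponent_isHomogeneous n _)

/-- the value of a form at the image of the generic point -/
theorem gen_aevalF {Q : Ideal (MvPolynomial (Fin (N + 1)) ℂ)} [Q.IsPrime] [Q'.IsPrime] {e : FunField Q →ₐ[ℂ] FunField Q'} (he : CompatF Q Q' γ e)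
    {j : Fin (M + 1)} (hj : X j ∉ Q') {i₁ : Fin (N + 1)} (hi : X i₁ ∉ Q)
    {D₁ : ℕ} {F : MvPolynomial (Fin (N + 1)) ℂ} (hF : F.IsHomogeneous D₁) : gen Q' j (aeval γ F) = gen Q' j (γ i₁) ^ D₁ * e (gen Q i₁ F) := by
  have h1 : gen Q' j (aeval γ F) = aeval (fun k => gen Q' j (γ k)) F := Pool.Agent.H7.Bir.aeval_comp _ _ _
  have h2 : (fun k => gen Q' j (γ k)) = fun k => gen Q' j (γ i₁) * e (ratio Q k i₁) := by
    funext k
    rw [← he j hj i₁ hi k, mul_comm]
  rw [h1, h2, Pool.Agent.H92.GT.Proj.aeval_scale hF]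
  congr 1
  exact (MvPolynomial.comp_aeval_apply _ _ _).symm

private theorem Str_alg {K L : Type} [Field K] [Field L] [Algebra K L] {m : ℕ} {c : Fin (m + 1) → K} (hcl : c (Fin.last m) ≠ 0) {r g : L} (hg : g ≠ 0)
    (h : ∑ l : Fin (m + 1), g * algebraMap K L (c l) * r ^ (l : ℕ) = 0) : IsAlgebraic K r := by
  have h2 : ∑ l : Fin (m + 1), algebraMap K L (c l) * r ^ (l : ℕ) = 0 := by
    have h1 : g * ∑ l : Fin (m + 1), algebraMap K L (c l) * r ^ (l : ℕ) = 0 := by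
      rw [← h, Finset.mul_sum]
      exact Finset.sum_congr rfl fun l _ => (mul_assoc _ _ _).symm
    exact (mul_eq_zero.1 h1).resolve_left hg
  refine ⟨∑ l : Fin (m + 1), Polynomial.C (c l) * Polynomial.X ^ (l : ℕ), fun h3 => hcl ?_, ?_⟩
  · have h4 := congrArg (fun q => Polynomial.coeff q m) h3
    simp only [Polynomial.finsetSum_coeff, Polynomial.coeff_C_mul, Polynomial.coeff_X_pow, Polynomial.coeff_zero] at h4
    rw [Finset.sum_eq_single (Fin.last m)] at h4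
    · simpa using h4
    · intro l _ hl
      have h5 : (l : ℕ) ≠ m := fun h6 => hl (Fin.ext h6)
      rw [if_neg (Ne.symm h5), mul_zero]
    · intro h5
      exact absurd (Finset.mem_univ _) h5
  · rw [map_sum, ← h2]
    refine Finset.sum_congr rfl fun l _ => ?_
    rw [map_mul, map_pow, Polynomial.aeval_C, Polynomial.aeval_X]

/-- the equation of a coordinate -/
theorem isAlgebraic_ratioF {Q : Ideal (MvPolynomial (Fin (N + 1)) ℂ)} [Q.IsPrime] [Q'.IsPrime] {e : FunField Q →ₐ[ℂ] FunField Q'} (he : CompatF Q Q' γ e)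
    (hγ : ∀ i, (γ i).IsHomogeneous D) {j : Fin (M + 1)} (hj : X j ∉ Q') {i₁ : Fin (N + 1)} (hi : X i₁ ∉ Q)
    (hi' : γ i₁ ∉ Q') {i : Fin (M + 1)} {m D₁ : ℕ} {α : Fin (m + 1) → MvPolynomial (Fin (N + 1)) ℂ} (hα : ∀ l, (α l).IsHomogeneous D₁) (hlast : α (Fin.last m) ∉ Q)
    (hmem : ∑ l : Fin (m + 1), aeval γ (α l) * X i ^ (l : ℕ) * X j ^ (m - (l : ℕ)) ∈ Q') :
    letI := e.toRingHom.toAlgebra; IsAlgebraic (FunField Q) (ratio Q' i j) := by
  let _ : Algebra (FunField Q) (FunField Q') := e.toRingHom.toAlgebra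
  have hcj : coordFun Q' j ≠ 0 := coordFun_ne_zero_iff.2 hj
  have hci : coordFun Q i₁ ≠ 0 := coordFun_ne_zero_iff.2 hi
  set c : Fin (m + 1) → FunField Q := fun l => gen Q i₁ (α l) with hc
  have hcl : c (Fin.last m) ≠ 0 := fun h0 => hlast ((gen_eq_zero_iff hci (hα _)).1 h0)
  have hg : gen Q' j (γ i₁) ≠ 0 := fun h0 => hi' ((gen_eq_zero_iff hcj (hγ i₁)).1 h0)
  -- the equation in the function field
  have hhom : (∑ l : Fin (m + 1), aeval γ (α l) * X i ^ (l : ℕ) * X j ^ (m - (l : ℕ))).IsHomogeneous (D * D₁ + m) := by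
    refine IsHomogeneous.sum _ _ _ fun l _ => ?_
    have h1 := ((aeval_homog hγ (hα l)).mul ((isHomogeneous_X ℂ i).pow (l : ℕ))).mul ((isHomogeneous_X ℂ j).pow (m - (l : ℕ)))
    have h2 : D * D₁ + 1 * (l : ℕ) + 1 * (m - (l : ℕ)) = D * D₁ + m := by
      have := l.is_le
      omega
    rwa [h2] at h1
  have h0 : gen Q' j (∑ l : Fin (m + 1), aeval γ (α l) * X i ^ (l : ℕ) * X j ^ (m - (l : ℕ))) = 0 := (gen_eq_zero_iff hcj hhom).2 hmem
  refine Str_alg (c := c) hcl (g := gen Q' j (γ i₁) ^ D₁) (pow_ne_zero _ hg) ?_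
  rw [← h0]
  unfold gen
  rw [map_sum]
  refine Finset.sum_congr rfl fun l _ => ?_
  rw [map_mul, map_mul, map_pow, map_pow, aeval_X, aeval_X, ratio_self hcj, one_pow, mul_one]
  have h2 := gen_aevalF he hj hi (hα l)
  unfold gen at h2
  rw [h2]
  rfl

theorem strongly_strict [P.IsPrime] [P'.IsPrime] (hP : Homog P) (hG : ∀ m, ∃ n, (G m).IsHomogeneous n)
    (hG' : ∀ m, ∃ n, (G' m).IsHomogeneous n) {k : ℕ} (hz : ∃ z : Fin (k + 1) → FunField P, IsTranscendenceBasis ℂ z)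
    (hz' : ∃ z : Fin (k + 1) → FunField P', IsTranscendenceBasis ℂ z) (h : StrictMap P P' G G' D γ) {R : MvPolynomial (Fin (N + 1)) ℂ} {r : ℕ} (hR : R.IsHomogeneous r) (hRP : R ∉ P)
    (hst : ∀ (Q : Ideal (MvPolynomial (Fin (N + 1)) ℂ)) [Q.IsPrime], Homog Q → P ≤ Q → R ∉ Q → (locVar Q G).Nonempty → ∀ w, 1 ≤ w → (∃ z : Fin w → FunField Q, IsTranscendenceBasis ℂ z) →
      IsLogGeneralType (OnBd Q G (k := w))) :
    ∃ (R' : MvPolynomial (Fin (M + 1)) ℂ) (r' : ℕ), R'.IsHomogeneous r' ∧ R' ∉ P' ∧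
      ∀ (Q' : Ideal (MvPolynomial (Fin (M + 1)) ℂ)) [Q'.IsPrime], Homog Q' → P' ≤ Q' → R' ∉ Q' → (locVar Q' G').Nonempty → ∀ w, 1 ≤ w → (∃ z : Fin w → FunField Q', IsTranscendenceBasis ℂ z) →
        IsLogGeneralType (OnBd Q' G' (k := w)) := by
  have hD : 1 ≤ D := h.pos hz
  obtain ⟨z, hz1⟩ := hz
  obtain ⟨z', hz1'⟩ := hz'
  obtain ⟨i₀, hi₀⟩ := Pool.Agent.H92.GT.Proj.exists_coordFun_ne_zero P z hz1
  obtain ⟨j, hj⟩ := Pool.Agent.H92.GT.Proj.exists_coordFun_ne_zero P' z' hz1'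
  have hiP : X i₀ ∉ P := coordFun_ne_zero_iff.1 hi₀
  have hjP : X j ∉ P' := coordFun_ne_zero_iff.1 hj
  choose m D₁ α hα hαP hrel using exists_eq_aux hz1 hz1' h.hom h.maps hiP hjP
  have hkP : γ i₀ ∉ P' := by
    intro h1
    apply hiP
    rw [← h.maps 1 _ (isHomogeneous_X ℂ i₀), aeval_X]
    exact h1
  set B : MvPolynomial (Fin (N + 1)) ℂ := R * ∏ i, α i (Fin.last (m i)) with hB
  have hBhom : B.IsHomogeneous (r + ∑ i, D₁ i) := hR.mul (IsHomogeneous.prod _ _ _ fun i _ => hα i _)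
  have hBP : B ∉ P := by
    intro h1
    rcases Ideal.IsPrime.mem_or_mem inferInstance h1 with h2 | h2
    · exact hRP h2
    · obtain ⟨i, -, h3⟩ := (Ideal.IsPrime.prod_mem_iff (p := P)).1 h2
      exact hαP i h3
  set T : MvPolynomial (Fin (M + 1)) ℂ := aeval γ B * γ i₀ * X j with hT
  have hThom : T.IsHomogeneous (D * (r + ∑ i, D₁ i) + D + 1) := ((aeval_homog h.hom hBhom).mul (h.hom i₀)).mul (isHomogeneous_X ℂ j)
  have hTP : T ∉ P' := by
    intro h1
    rcases Ideal.IsPrime.mem_or_mem inferInstance h1 with h2 | h2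
    · rcases Ideal.IsPrime.mem_or_mem inferInstance h2 with h3 | h3
      · exact hBP ((h.maps _ B hBhom).1 h3)
      · exact hkP h3
    · exact hjP h2
  refine ⟨T, _, hThom, hTP, fun Q' _ hQ' hPQ' hTQ' hne' w hw hzw => ?_⟩
  have hjQ : X j ∉ Q' := fun h => hTQ' (Ideal.mul_mem_left _ _ h)
  have hkQ : γ i₀ ∉ Q' := fun h => hTQ' (Ideal.mul_mem_right _ _ (Ideal.mul_mem_left _ _ h))
  have hBQ : aeval γ B ∉ Q' := fun h => hTQ' (Ideal.mul_mem_right _ _ (Ideal.mul_mem_right _ _ h))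
  have hQ : Homog (imI γ Q') := imI_homog hD h.hom hQ'
  have hPQ : P ≤ imI γ Q' := by
    intro F hF
    rw [mem_imI, ← sum_homogeneousComponent F, map_sum]
    exact Ideal.sum_mem _ fun n _ => hPQ' ((h.maps n _ (homogeneousComponent_isHomogeneous n F)).2 (hP F hF n))
  have hBQ' : B ∉ imI γ Q' := hBQ
  have hRQ : R ∉ imI γ Q' := fun h => hBQ' (Ideal.mul_mem_right _ _ h)
  have hαQ : ∀ i, α i (Fin.last (m i)) ∉ imI γ Q' := by
    intro i h
    apply hBQ'
    rw [hB]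
    refine Ideal.mul_mem_left _ _ ?_
    exact (Ideal.IsPrime.prod_mem_iff (p := imI γ Q')).2 ⟨i, Finset.mem_univ i, h⟩
  have hS : StrictMap (imI γ Q') Q' G G' D γ := strict_image h hPQ'
  have hiQ : (X i₀ : MvPolynomial (Fin (N + 1)) ℂ) ∉ imI γ Q' := by
    rw [mem_imI, aeval_X]
    exact hkQ
  -- a point of the image
  have hneQ : (locVar (imI γ Q') G).Nonempty := by
    have h1 : ∃ y ∈ locVar Q' G', ¬ VanishesAt (γ i₀) y := by
      by_contra hcon
      push Not at hcon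
      exact hkQ (Pool.Agent.H7.Bir.mem_of_open hQ' hG' hne' (h.hom i₀) hcon)
    obtain ⟨y, hy, hyγ⟩ := h1
    have hv : vals γ y.rep ≠ 0 := fun h0 => hyγ (congrFun h0 i₀)
    exact ⟨_, hS.into y hy _ (inGraph_mk hQ' hy.1 hv)⟩
  -- the dimensions
  obtain ⟨e, he⟩ := exists_embed hS ⟨i₀, hiQ⟩ ⟨j, hjQ⟩
  have hzQ : ∃ z : Fin w → FunField (imI γ Q'), IsTranscendenceBasis ℂ z := by
    obtain ⟨zw, hzw⟩ := hzw
    let _ : Algebra (FunField (imI γ Q')) (FunField Q') := e.toRingHom.toAlgebra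
    have _ : IsScalarTower ℂ (FunField (imI γ Q')) (FunField Q') := IsScalarTower.of_algebraMap_eq fun c => (e.commutes c).symm
    have _ : Algebra.IsAlgebraic (FunField (imI γ Q')) (FunField Q') :=
      Pool.Agent.LG.isAlgebraic_of_ratio e hjQ fun i => isAlgebraic_ratioF he h.hom hjQ hiQ hkQ (hα i) (hαQ i) (hPQ' (hrel i))
    exact Pool.Agent.LG.exists_basis_down hzw
  exact logGT_strict hS hQ' hG hG' ⟨i₀, hiQ⟩ ⟨j, hjQ⟩ hzQ hzw (hst _ hQ hPQ hRQ hneQ w hw hzQ)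

end Pool.Agent.GTL
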