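import Pool.Agent.GTL.Crv
import Pool.Agent.GTL.Str
import Pool.Agent.H22.TB.OfSheets

/-!
# GTL UpT: the four properties go up along dominant strictly rational maps of varieties of the same dimension
-/

set_option autoImplicit false

open MvPolynomial
open Pool.Agent.H17 (PN VanishesAt HolomorphicInto puncturedDisc ZariskiClosedIn)
open Pool.Agent.H17EF (projVar)
open Pool.Agent.H17GT (coordFun)
open Pool.Agent.H17LG.Variety (FunField IsLogGeneralType)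
open Pool.Agent.H17R (coordFun_ne_zero_iff)
open Pool.Agent.H62.FC (Homog)
open Pool.Agent.H62.SA (locVar OnBd)
open Pool.Agent.H7.Bir (GGLOpen mem_of_open)

noncomputable section

namespace Pool.Agent.GTL

variable {N M : ℕ}

/-- a form vanishing on a proper closed subset of a quasi-projective variety -/
theorem exists_form_loc {P : Ideal (MvPolynomial (Fin (N + 1)) ℂ)} {s : ℕ} {G : Fin s → MvPolynomial (Fin (N + 1)) ℂ} {Ξ : Set (PN N)}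
    (hc : ZariskiClosedIn (locVar P G) Ξ) (hp : Ξ ≠ locVar P G) :
    ∃ (R : MvPolynomial (Fin (N + 1)) ℂ) (n : ℕ), R.IsHomogeneous n ∧ R ∉ P ∧ ∀ x ∈ Ξ, VanishesAt R x := by
  obtain ⟨S, hS, hΞS⟩ := hc
  obtain ⟨x₁, hx₁, R, hRS, hRx₁⟩ : ∃ x ∈ locVar P G, ∃ R ∈ S, ¬ VanishesAt R x := by
    by_contra hcon
    push Not at hcon
    apply hp
    rw [hΞS]
    ext y
    exact ⟨fun hy => hy.1, fun hy => ⟨hy, fun R hR => hcon y hy R hR⟩⟩
  obtain ⟨nR, hnR⟩ := hS R hRS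
  refine ⟨R, nR, hnR, fun h1 => hRx₁ (hx₁.1 R h1 nR hnR), fun x hx => ?_⟩
  rw [hΞS] at hx
  exact hx.2 R hRS

/-- the zero set of a form -/
theorem closed_loc {P : Ideal (MvPolynomial (Fin (N + 1)) ℂ)} {s : ℕ} {G : Fin s → MvPolynomial (Fin (N + 1)) ℂ} {T : MvPolynomial (Fin (N + 1)) ℂ} {e : ℕ}
    (hT : T.IsHomogeneous e) : ZariskiClosedIn (locVar P G) {x | x ∈ locVar P G ∧ VanishesAt T x} := by
  refine ⟨{T}, fun R hR => ?_, ?_⟩
  · rw [Set.mem_singleton_iff.1 hR]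
    exact ⟨_, hT⟩
  · ext x
    constructor
    · rintro ⟨h1, h2⟩
      refine ⟨h1, fun R hR => ?_⟩
      rw [Set.mem_singleton_iff.1 hR]
      exact h2
    · rintro ⟨h1, h2⟩
      exact ⟨h1, h2 T rfl⟩

theorem proper_loc {P : Ideal (MvPolynomial (Fin (N + 1)) ℂ)} [P.IsPrime] (hP : Homog P) {s : ℕ} {G : Fin s → MvPolynomial (Fin (N + 1)) ℂ}
    (hG : ∀ m, ∃ n, (G m).IsHomogeneous n) (hne : (locVar P G).Nonempty) {T : MvPolynomial (Fin (N + 1)) ℂ} {e : ℕ} (hT : T.IsHomogeneous e) (hTP : T ∉ P) :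
    {x | x ∈ locVar P G ∧ VanishesAt T x} ≠ locVar P G := by
  intro heq
  apply hTP
  refine mem_of_open hP hG hne hT fun x hx => ?_
  rw [← heq] at hx
  exact hx.2

/-- a closed subvariety on which the form is not zero is not contained in the set `Ξ`, if the form vanishes on `Ξ` -/
theorem not_subset_loc {Q : Ideal (MvPolynomial (Fin (N + 1)) ℂ)} [Q.IsPrime] (hQ : Homog Q) {s : ℕ} {G : Fin s → MvPolynomial (Fin (N + 1)) ℂ}
    (hG : ∀ m, ∃ n, (G m).IsHomogeneous n) (hne : (locVar Q G).Nonempty) {R : MvPolynomial (Fin (N + 1)) ℂ} {e : ℕ} (hR : R.IsHomogeneous e) (hRQ : R ∉ Q)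
    {Ξ : Set (PN N)} (hΞ : ∀ x ∈ Ξ, VanishesAt R x) : ¬ locVar Q G ⊆ Ξ := by
  intro hsub
  exact hRQ (mem_of_open hQ hG hne hR fun x hx => hΞ x (hsub hx))

/-- a closed subvariety which is not contained in the zero set -/
theorem not_mem_loc {P Q : Ideal (MvPolynomial (Fin (N + 1)) ℂ)} (hPQ : P ≤ Q) {s : ℕ} {G : Fin s → MvPolynomial (Fin (N + 1)) ℂ} {T : MvPolynomial (Fin (N + 1)) ℂ} {e : ℕ}
    (hT : T.IsHomogeneous e) (h : ¬ locVar Q G ⊆ {x | x ∈ locVar P G ∧ VanishesAt T x}) : T ∉ Q ∧ (locVar Q G).Nonempty := by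
  refine ⟨fun hTQ => h fun x hx => ⟨⟨fun R hR n hn => hx.1 R (hPQ hR) n hn, hx.2⟩, hx.1 T hTQ e hT⟩, ?_⟩
  by_contra hcon
  rw [Set.not_nonempty_iff_eq_empty] at hcon
  rw [hcon] at h
  exact h (Set.empty_subset _)

/-- **The four properties go up.** -/
theorem ggl_strict {P : Ideal (MvPolynomial (Fin (N + 1)) ℂ)} [P.IsPrime] {P' : Ideal (MvPolynomial (Fin (M + 1)) ℂ)} [hPp' : P'.IsPrime] {s s' D : ℕ}
    {G : Fin s → MvPolynomial (Fin (N + 1)) ℂ} {G' : Fin s' → MvPolynomial (Fin (M + 1)) ℂ} {γ : Fin (N + 1) → MvPolynomial (Fin (M + 1)) ℂ}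
    (hP : Homog P) (hP' : Homog P') (hG : ∀ m, ∃ n, (G m).IsHomogeneous n) (hG' : ∀ m, ∃ n, (G' m).IsHomogeneous n) (hne : (locVar P' G').Nonempty)
    {k : ℕ} (hz : ∃ z : Fin (k + 1) → FunField P, IsTranscendenceBasis ℂ z) (hz' : ∃ z : Fin (k + 1) → FunField P', IsTranscendenceBasis ℂ z)
    (h : StrictMap P P' G G' D γ) {Ξ : Set (PN N)} (hΞ : GGLOpen P G Ξ) : ∃ Ξ' : Set (PN M), GGLOpen P' G' Ξ' := by
  have hi : ∃ i, X i ∉ P := by
    obtain ⟨z, hz⟩ := hz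
    obtain ⟨i, hi⟩ := Pool.Agent.H92.GT.Proj.exists_coordFun_ne_zero P z hz
    exact ⟨i, coordFun_ne_zero_iff.1 hi⟩
  have hj : ∃ j, X j ∉ P' := by
    obtain ⟨z, hz⟩ := hz'
    obtain ⟨i, hi⟩ := Pool.Agent.H92.GT.Proj.exists_coordFun_ne_zero P' z hz
    exact ⟨i, coordFun_ne_zero_iff.1 hi⟩
  obtain ⟨R, r, hR, hRP, hRΞ⟩ := exists_form_loc hΞ.closed hΞ.proper
  obtain ⟨T₁, n₁, hT₁, hT₁P, hpic, hbr⟩ := curves_up h hz hz' hR hRP
  obtain ⟨T₂, n₂, hT₂, hT₂P, hstr⟩ := strongly_strict hP hG hG' hz hz' h hR hRP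
    (fun Q _ hQ hPQ hRQ hneQ w hw hzw => hΞ.strongly Q hQ hPQ (not_subset_loc hQ hG hneQ hR hRQ hRΞ) w hw hzw)
  have hT : (T₁ * T₂).IsHomogeneous (n₁ + n₂) := hT₁.mul hT₂
  have hTP : T₁ * T₂ ∉ P' := by
    intro h1
    rcases hPp'.mem_or_mem h1 with h1 | h1
    · exact hT₁P h1
    · exact hT₂P h1
  have hv : ∀ x : PN M, VanishesAt T₁ x → VanishesAt (T₁ * T₂) x := by
    intro x hx
    unfold VanishesAt at hx ⊢
    rw [map_mul, hx, zero_mul]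
  refine ⟨{x | x ∈ locVar P' G' ∧ VanishesAt (T₁ * T₂) x}, closed_loc hT, proper_loc hP' hG' hne hT hTP, ?_, ?_, ?_, ?_⟩
  · intro w _ hw
    obtain ⟨z, hz1⟩ := hz'
    obtain ⟨z', hz1'⟩ := hw
    obtain rfl := Pool.Agent.H22.TB.eq_of_basis hz1 hz1'
    exact logGT_strict h hP' hG hG' hi hj hz ⟨z, hz1⟩ (hΞ.logGeneralType (k + 1) (Nat.succ_le_succ (Nat.zero_le k)) hz)
  · intro f hf hfX hnef
    refine hpic (fun f hf hfX hne => hΞ.picard f hf hfX ?_) f hf hfX ?_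
    · obtain ⟨z, hz, hz1⟩ := hne
      exact ⟨z, hz, fun h1 => hz1 (hRΞ _ h1)⟩
    · obtain ⟨z, hz, hz1⟩ := hnef
      exact ⟨z, hz, fun h1 => hz1 ⟨hfX z hz, hv _ h1⟩⟩
  · intro f hf hfX hnef z
    exact ⟨hfX z, hv _ (hbr (fun f hf hfX hne z => hRΞ _ (hΞ.brody f hf hfX hne z)) f hf hfX hnef z)⟩
  · intro Q' _ hQ' hPQ' hsub w hw hzw
    obtain ⟨hTQ, hneQ⟩ := not_mem_loc hPQ' hT hsub
    exact hstr Q' hQ' hPQ' (fun h1 => hTQ (Ideal.mul_mem_left _ _ h1)) hneQ w hw hzw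

end Pool.Agent.GTL
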