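import Pool.Agent.GBL.Pol
import Pool.Agent.GL.Emp
import Pool.Agent.GL.Kod
import Pool.Agent.GTL.EntB
import Pool.Agent.GTL.Et
import Pool.Agent.GTL.EtDn
import Pool.Agent.GTL.NoE
import Pool.Agent.GTL.UpT

/-!
# GTL Top: the Green–Griffiths–Lang conjecture for complements of hyperplane sections with simple normal crossings, if the logarithmic symmetric differentials of some
degree generate
-/

set_option autoImplicit false

open MvPolynomial Topology Filter Metric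
open Pool.Agent.H13.SM (conTan cone)
open Pool.Agent.H17 (PN VanishesAt HolomorphicInto puncturedDisc ZariskiClosedIn)
open Pool.Agent.H17EF (projVar)
open Pool.Agent.H13.OT (OrderTwo)
open Pool.Agent.H17LG.Variety (FunField IsLogGeneralType)
open Pool.Agent.H17R (coordFun_ne_zero_iff)
open Pool.Agent.H62.FC (Homog)
open Pool.Agent.H62.SA (locVar OnBd)
open Pool.Agent.H7.Bir (GGLOpen)
open Pool.Agent.GL (LogSec LogPolar ConclusionL openPart SncX)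
open Pool.Agent.GBL (LogGenerated logPolar_of_generated)

namespace Pool.Agent.GTL

variable {N : ℕ} {P : Ideal (MvPolynomial (Fin (N + 1)) ℂ)} {B : Finset (Fin (N + 1))} {J m : ℕ} {θ : Fin J → LogSec P B m}

/-- **The four properties of `U`**, with the exceptional set `{R = 0}`. -/
theorem ggl_of_conclusionL [P.IsPrime] (hP : Homog P) (hm : 1 ≤ m) (hθ : LogGenerated θ) (hB : ∀ i ∈ B, X i ∉ P) {n : ℕ}
    (hdim : ∃ z : Fin (n + 1) → FunField P, IsTranscendenceBasis ℂ z) (hgt : GeneralType P (bdy B) (n + 1)) {R : MvPolynomial (Fin (N + 1)) ℂ}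
    (hR : ConclusionL P B R) : GGLOpen P (bdy B) {x | x ∈ locVar P (bdy B) ∧ VanishesAt R x} := by
  obtain ⟨⟨e, hRe⟩, hRP⟩ := hR.form
  have hi : ∃ i, X i ∉ P := by
    obtain ⟨z, hz⟩ := hdim
    obtain ⟨i, hi⟩ := Pool.Agent.H92.GT.Proj.exists_coordFun_ne_zero P z hz
    exact ⟨i, coordFun_ne_zero_iff.1 hi⟩
  refine ⟨closed_loc hRe, proper_loc hP bdy_homog (locVar_nonempty hP hi hB) hRe hRP, ?_, ?_, ?_, ?_⟩
  · intro w _ hw
    obtain ⟨z, hz⟩ := hdim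
    obtain ⟨z', hz'⟩ := hw
    obtain rfl := Pool.Agent.H22.TB.eq_of_basis hz hz'
    exact hgt
  · intro f hf hfX hne
    obtain ⟨z, hz, h⟩ := hne
    exact hR.disc f hf (fun z hz => by rw [← locVar_bdy]; exact hfX z hz) ⟨z, hz, fun h1 => h ⟨hfX z hz, h1⟩⟩
  · intro f hf hfX hne z
    exact ⟨hfX z, hR.entire f hf (fun z => by rw [← locVar_bdy]; exact hfX z) hne z⟩
  · intro Q _ hQ hPQ hsub w hw hzw
    obtain ⟨hRQ, hneQ⟩ := not_mem_loc hPQ hRe hsub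
    have hBQ : ∀ i ∈ B, X i ∉ Q := by
      intro i hi hiQ
      obtain ⟨x, hx⟩ := hneQ
      rw [locVar_bdy] at hx
      exact hx.2 i hi (hx.1 _ hiQ 1 (isHomogeneous_X ℂ i))
    by_contra hn
    obtain ⟨g, h1, -, h3, h4, h5⟩ := exists_entireB_sub hQ hPQ hm hθ hBQ hw hzw hn hRe hRQ
    refine h5 (hR.entire g h1 (fun z => ?_) h4 0)
    rw [← locVar_bdy]
    exact ⟨fun F hF k hk => (h3 z).1 F (hPQ hF) k hk, (h3 z).2⟩

theorem not_brody {s : ℕ} {G : Fin s → MvPolynomial (Fin (N + 1)) ℂ} (hd : DenseEntire P G) : ¬ PseudoBrody P G := by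
  rintro ⟨Ξ, hc, hp, h⟩
  obtain ⟨R, e, hR, hRP, hRΞ⟩ := exists_form_loc hc hp
  obtain ⟨f, h1, h2, h3, h4⟩ := hd R e hR hRP
  exact h4 (hRΞ _ (h f h1 h2 h3 0))

theorem not_picard {s : ℕ} {G : Fin s → MvPolynomial (Fin (N + 1)) ℂ} (hd : DenseEntire P G)
    (hno : NoExtend P G) : ¬ PseudoPicard P G := by
  rintro ⟨Ξ, hc, hp, h⟩
  obtain ⟨R, e, hR, hRP, hRΞ⟩ := exists_form_loc hc hp
  obtain ⟨f, hf, hfX, hne, hf0⟩ := hd R e hR hRP
  obtain ⟨f₂, hf₂⟩ : ∃ f₂ : ℂ → PN N, f₂ = fun w => f (w - 2) := ⟨_, rfl⟩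
  obtain ⟨f₁, hf₁⟩ : ∃ f₁ : ℂ → PN N, f₁ = fun z => f (z⁻¹ - 2) := ⟨_, rfl⟩
  have hf₂h : HolomorphicInto f₂ Set.univ := by
    intro z _
    obtain ⟨φ, hφ, he⟩ := hf (z - 2) (Set.mem_univ _)
    have hs : AnalyticAt ℂ (fun w : ℂ => w - 2) z := analyticAt_id.sub analyticAt_const
    refine ⟨fun w => φ (w - 2), AnalyticAt.comp (g := φ) (f := fun w : ℂ => w - 2) hφ hs, ?_⟩
    rw [hf₂]
    exact (hs.continuousAt.tendsto.eventually he)
  have hf₁h : HolomorphicInto f₁ puncturedDisc := by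
    intro z hz
    have hz0 : z ≠ 0 := hz.2
    obtain ⟨φ, hφ, he⟩ := hf (z⁻¹ - 2) (Set.mem_univ _)
    have hs : AnalyticAt ℂ (fun w : ℂ => w⁻¹ - 2) z := (analyticAt_inv hz0).sub analyticAt_const
    refine ⟨fun w => φ (w⁻¹ - 2), AnalyticAt.comp (g := φ) (f := fun w : ℂ => w⁻¹ - 2) hφ hs, ?_⟩
    rw [hf₁]
    exact (hs.continuousAt.tendsto.eventually he)
  have hz₀ : (1 / 2 : ℂ) ∈ puncturedDisc := by
    refine ⟨?_, ?_⟩
    · rw [mem_ball_zero_iff]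
      norm_num
    · rw [Set.mem_singleton_iff]
      norm_num
  have hf₁0 : f₁ (1 / 2) = f 0 := by
    rw [hf₁]
    norm_num
  obtain ⟨g, hg, hgf⟩ := h f₁ hf₁h (fun z _ => by rw [hf₁]; exact hfX _) ⟨1 / 2, hz₀, fun h1 => hf0 (by rw [← hf₁0]; exact hRΞ _ h1)⟩
  refine hno f₂ hf₂h (fun z => by rw [hf₂]; exact hfX _) ?_ g hg fun z hz => ?_
  · obtain ⟨z, w, hzw⟩ := hne
    refine ⟨z + 2, w + 2, ?_⟩
    rw [hf₂]
    simpa using hzw
  · rw [hgf z hz, hf₁, hf₂]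

theorem strongly_self {P : Ideal (MvPolynomial (Fin (N + 1)) ℂ)} [P.IsPrime] (hP : Homog P) {s : ℕ} {G : Fin s → MvPolynomial (Fin (N + 1)) ℂ} {n : ℕ}
    (hdim : ∃ z : Fin (n + 1) → FunField P, IsTranscendenceBasis ℂ z) (h : StronglyGeneralType P G) : GeneralType P G (n + 1) := by
  obtain ⟨Ξ, hc, hp, h⟩ := h
  refine h P hP le_rfl (fun hsub => hp (Set.Subset.antisymm ?_ hsub)) (n + 1) (Nat.succ_le_succ (Nat.zero_le n)) hdim
  obtain ⟨S, -, hS⟩ := hc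
  rw [hS]
  exact fun x hx => hx.1

theorem allEquiv_of {P : Ideal (MvPolynomial (Fin (N + 1)) ℂ)} [P.IsPrime] {s : ℕ} {G : Fin s → MvPolynomial (Fin (N + 1)) ℂ} {n : ℕ}
    (h1 : GeneralType P G n → ∃ Ξ : Set (PN N), GGLOpen P G Ξ)
    (h2 : ¬ GeneralType P G n → ¬ PseudoPicard P G ∧ ¬ PseudoBrody P G ∧ ¬ StronglyGeneralType P G) : AllEquiv P G n := by
  refine ⟨⟨fun h => ?_, fun h => ?_⟩, ⟨fun h => ?_, fun h => ?_⟩, ⟨fun h => ?_, fun h => ?_⟩⟩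
  · obtain ⟨Ξ, hΞ⟩ := h1 h
    exact ⟨Ξ, hΞ.closed, hΞ.proper, hΞ.picard⟩
  · by_contra hn
    exact (h2 hn).1 h
  · obtain ⟨Ξ, hΞ⟩ := h1 h
    exact ⟨Ξ, hΞ.closed, hΞ.proper, hΞ.brody⟩
  · by_contra hn
    exact (h2 hn).2.1 h
  · obtain ⟨Ξ, hΞ⟩ := h1 h
    exact ⟨Ξ, hΞ.closed, hΞ.proper, fun Q _ => hΞ.strongly Q⟩
  · by_contra hn
    exact (h2 hn).2.2 h

/-- the coordinates of a variety of positive dimension -/
theorem exists_X {P : Ideal (MvPolynomial (Fin (N + 1)) ℂ)} [P.IsPrime] {n : ℕ} (hdim : ∃ z : Fin (n + 1) → FunField P, IsTranscendenceBasis ℂ z) :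
    ∃ i, (X i : MvPolynomial (Fin (N + 1)) ℂ) ∉ P := by
  obtain ⟨z, hz⟩ := hdim
  obtain ⟨i, hi⟩ := Pool.Agent.H92.GT.Proj.exists_coordFun_ne_zero P z hz
  exact ⟨i, coordFun_ne_zero_iff.1 hi⟩

theorem etale_nonempty {M : ℕ} {P : Ideal (MvPolynomial (Fin (N + 1)) ℂ)} {P' : Ideal (MvPolynomial (Fin (M + 1)) ℂ)} {s s' : ℕ}
    {G : Fin s → MvPolynomial (Fin (N + 1)) ℂ} {G' : Fin s' → MvPolynomial (Fin (M + 1)) ℂ} {p : PN M → PN N}
    (hp : Pool.Agent.H62.Qe.IsEtaleOver P P' G G' p) (hne : (locVar P G).Nonempty) : (locVar P' G').Nonempty := by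
  obtain ⟨x, hx⟩ := hne
  obtain ⟨y, hy, rfl⟩ := hp.reg.surj x hx.1
  exact ⟨y, (hp.inv y hy).1 hx⟩

section

variable {M n s s' : ℕ} {P : Ideal (MvPolynomial (Fin (N + 1)) ℂ)} [P.IsPrime] {P' : Ideal (MvPolynomial (Fin (M + 1)) ℂ)} [P'.IsPrime]
  {G : Fin s → MvPolynomial (Fin (N + 1)) ℂ} {G' : Fin s' → MvPolynomial (Fin (M + 1)) ℂ}

/-- log general type goes up along virtual domination -/
theorem logGT_virt (hP : Homog P) (hP' : Homog P') (hG : ∀ l, ∃ e, (G l).IsHomogeneous e) (hG' : ∀ l, ∃ e, (G' l).IsHomogeneous e)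
    (hne : (locVar P' G').Nonempty) (hz : ∃ z : Fin (n + 1) → FunField P, IsTranscendenceBasis ℂ z)
    (hz' : ∃ z : Fin (n + 1) → FunField P', IsTranscendenceBasis ℂ z) (h : VirtDominates P P' G G') (hgt : GeneralType P G (n + 1)) :
    GeneralType P' G' (n + 1) := by
  obtain ⟨L, P₁, hp₁, s₁, G₁, p, D, γ, hP₁, hG₁, hp, hst⟩ := h
  have hz₁ := basis_etale hP' hP₁ hG' hG₁ hne hz' hp
  exact logGT_etale hP' hP₁ hG' hG₁ hne hz' hp (logGT_strict hst hP₁ hG hG₁ (exists_X hz) (exists_X hz₁) hz hz₁ hgt)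

/-- the four properties go up along virtual domination -/
theorem ggl_virt (hP : Homog P) (hP' : Homog P') (hG : ∀ l, ∃ e, (G l).IsHomogeneous e) (hG' : ∀ l, ∃ e, (G' l).IsHomogeneous e)
    (hne : (locVar P' G').Nonempty) (hz : ∃ z : Fin (n + 1) → FunField P, IsTranscendenceBasis ℂ z)
    (hz' : ∃ z : Fin (n + 1) → FunField P', IsTranscendenceBasis ℂ z) (h : VirtDominates P P' G G') {Ξ : Set (PN N)} (hΞ : GGLOpen P G Ξ) :
    ∃ Ξ' : Set (PN M), GGLOpen P' G' Ξ' := by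
  obtain ⟨L, P₁, hp₁, s₁, G₁, p, D, γ, hP₁, hG₁, hp, hst⟩ := h
  have hz₁ := basis_etale hP' hP₁ hG' hG₁ hne hz' hp
  obtain ⟨Ξ₁, hΞ₁⟩ := ggl_strict hP hP₁ hG hG₁ (etale_nonempty hp hne) hz hz₁ hst hΞ
  exact ggl_etale hP' hP₁ hG' hG₁ hne hz' hp hΞ₁

/-- the properties (ii) and (iii) of `V` fail if `U` virtually dominates `V` and has dense entire curves which do not extend -/
theorem not_virt (hP : Homog P) (hP' : Homog P') (hG : ∀ l, ∃ e, (G l).IsHomogeneous e) (hG' : ∀ l, ∃ e, (G' l).IsHomogeneous e)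
    (hne : (locVar P G).Nonempty) (hz : ∃ z : Fin (n + 1) → FunField P, IsTranscendenceBasis ℂ z)
    (hz' : ∃ z : Fin (n + 1) → FunField P', IsTranscendenceBasis ℂ z) (h : VirtDominates P' P G' G) (hd : DenseEntire P G) (hno : NoExtend P G) :
    ¬ PseudoPicard P' G' ∧ ¬ PseudoBrody P' G' := by
  obtain ⟨L, P₁, hp₁, s₁, G₁, p, D, γ, hP₁, hG₁, hp, hst⟩ := h
  have hz₁ := basis_etale hP hP₁ hG hG₁ hne hz hp
  have hne₁ := etale_nonempty hp hne
  have hd₁ := dense_etale hP hP₁ hG hG₁ hne hz hp hd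
  have hno₁ := noext_etale hP hP₁ hp hno
  constructor
  · rintro ⟨Ξ, hc, hpr, hpic⟩
    obtain ⟨R, r, hR, hRP, hRΞ⟩ := exists_form_loc hc hpr
    obtain ⟨T, t, hT, hTP, h1, -⟩ := curves_up hst hz' hz₁ hR hRP
    refine not_picard hd₁ hno₁ ⟨_, closed_loc hT, proper_loc hP₁ hG₁ hne₁ hT hTP, fun f hf hfX hnef => ?_⟩
    refine h1 (fun f hf hfX hne => hpic f hf hfX ?_) f hf hfX ?_
    · obtain ⟨z, hz, hz1⟩ := hne
      exact ⟨z, hz, fun h1 => hz1 (hRΞ _ h1)⟩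
    · obtain ⟨z, hz, hz1⟩ := hnef
      exact ⟨z, hz, fun h1 => hz1 ⟨hfX z hz, h1⟩⟩
  · rintro ⟨Ξ, hc, hpr, hbr⟩
    obtain ⟨R, r, hR, hRP, hRΞ⟩ := exists_form_loc hc hpr
    obtain ⟨T, t, hT, hTP, -, h2⟩ := curves_up hst hz' hz₁ hR hRP
    refine not_brody hd₁ ⟨_, closed_loc hT, proper_loc hP₁ hG₁ hne₁ hT hTP, fun f hf hfX hnef z => ?_⟩
    exact ⟨hfX z, h2 (fun f hf hfX hne z => hRΞ _ (hbr f hf hfX hne z)) f hf hfX hnef z⟩

end

/-- **The conclusion**, if there is a form `R` in the case of log general type. -/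
theorem conclusion_of [P.IsPrime] (hP : Homog P) (hm : 1 ≤ m) (hθ : LogGenerated θ) (hB : ∀ i ∈ B, X i ∉ P) {n : ℕ}
    (hdim : ∃ z : Fin (n + 1) → FunField P, IsTranscendenceBasis ℂ z) (hex : GeneralType P (bdy B) (n + 1) → ∃ R, ConclusionL P B R) :
    Conclusion P (bdy B) (n + 1) := by
  have hne := locVar_nonempty hP (exists_X hdim) hB
  have hgg : GeneralType P (bdy B) (n + 1) → ∃ Ξ : Set (PN N), GGLOpen P (bdy B) Ξ := by
    intro hgt
    obtain ⟨R, hR⟩ := hex hgt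
    exact ⟨_, ggl_of_conclusionL hP hm hθ hB hdim hgt hR⟩
  have hdense : ¬ GeneralType P (bdy B) (n + 1) → ∀ (R : MvPolynomial (Fin (N + 1)) ℂ) (e : ℕ), R.IsHomogeneous e → R ∉ P →
      ∃ f : ℂ → PN N, HolomorphicInto f Set.univ ∧ OrderTwo f ∧ (∀ z, f z ∈ locVar P (bdy B)) ∧ (∃ z w, f z ≠ f w) ∧ ¬ VanishesAt R (f 0) :=
    fun hn R e hR hRP => exists_entireB hP hm hθ hB (Nat.succ_le_succ (Nat.zero_le n)) hdim hn hR hRP
  have hde : ¬ GeneralType P (bdy B) (n + 1) → DenseEntire P (bdy B) := by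
    intro hn R e hR hRP
    obtain ⟨f, hf1, -, hf2, hf3, hf4⟩ := hdense hn R e hR hRP
    exact ⟨f, hf1, hf2, hf3, hf4⟩
  have hno : NoExtend P (bdy B) := by
    intro f hf hfX hne g hg hgf
    exact no_extendL (m := fun _ => m) hP (logPolar_of_generated hm hθ) (fun _ => hm) hf (fun z => by rw [← locVar_bdy]; exact hfX z) hne hg hgf
  refine ⟨allEquiv_of hgg fun hn => ⟨not_picard (hde hn) hno, not_brody (hde hn), fun h => hn (strongly_self hP hdim h)⟩, ?_, ?_, hdense⟩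
  · intro M P' _ hP' hz' s' G' hG' hne' h h'
    refine allEquiv_of (fun hgt => ?_) fun hn' => ?_
    · obtain ⟨Ξ, hΞ⟩ := hgg (logGT_virt hP' hP hG' bdy_homog hne hz' hdim h' hgt)
      exact ggl_virt hP hP' bdy_homog hG' hne' hdim hz' h hΞ
    · have hn : ¬ GeneralType P (bdy B) (n + 1) := fun hgt => hn' (logGT_virt hP hP' bdy_homog hG' hne' hdim hz' h hgt)
      obtain ⟨h1, h2⟩ := not_virt hP hP' bdy_homog hG' hne hdim hz' h' (hde hn) hno
      exact ⟨h1, h2, fun h3 => hn' (strongly_self hP' hz' h3)⟩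
  · intro hgt M P' _ hP' hz' s' G' hG' hne' h
    obtain ⟨Ξ, hΞ⟩ := hgg hgt
    exact ggl_virt hP hP' bdy_homog hG' hne' hdim hz' h hΞ

/-- **The conclusion** for smooth projective varieties with a divisor with simple normal crossings. -/
theorem conclusion_snc [P.IsPrime] (hP : Homog P) (hm : 1 ≤ m) (hθ : LogGenerated θ) {n : ℕ}
    (hdim : ∃ z : Fin (n + 1) → FunField P, IsTranscendenceBasis ℂ z) (hs : SncX P B (n + 1)) : Conclusion P (bdy B) (n + 1) := by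
  have hB := snc_notMem hP (exists_X hdim) hs
  refine conclusion_of hP hm hθ hB hdim fun hgt => ?_
  unfold GeneralType at hgt
  rw [onBd_bdy'] at hgt
  obtain ⟨M, Ω, R₀, e₀, hM, hR₀, hR₀P, hΩ⟩ := Pool.Agent.GL.exists_logCan hP hdim hB hs hgt
  exact Pool.Agent.GL.topAll hP hdim (m := fun _ => m) (logPolar_of_generated hm hθ) (fun _ => hm) hM Ω hR₀ hR₀P hΩ

end Pool.Agent.GTL
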